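import Mathlib

/-! Definitions for the statement. -/

open Set
open scoped ContDiff

namespace Pool.Agent.Work.MP_4516ee_al

/-- The real function extending an order isomorphism of `[0,1]` (constant off `[0,1]`). -/
noncomputable def extI (φ : Icc (0 : ℝ) 1 ≃o Icc (0 : ℝ) 1) : ℝ → ℝ :=
  IccExtend (zero_le_one' ℝ) (fun x => ((φ x : Icc (0 : ℝ) 1) : ℝ))

/-- `φ` is an element of `Diff₊^r([0,1])`: with `r = k + τ`, `k = ⌊r⌋`, the map and its inverse are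
`C^k` on `[0,1]` and the `k`-th derivative is `τ`-Hölder. -/
def IsDiffI (r : ℝ) (φ : Icc (0 : ℝ) 1 ≃o Icc (0 : ℝ) 1) : Prop :=
  ContDiffOn ℝ ⌊r⌋₊ (extI φ) (Icc 0 1) ∧ ContDiffOn ℝ ⌊r⌋₊ (extI φ.symm) (Icc 0 1) ∧
    ∃ C : ℝ, ∀ x ∈ Icc (0 : ℝ) 1, ∀ y ∈ Icc (0 : ℝ) 1,
      |iteratedDerivWithin ⌊r⌋₊ (extI φ) (Icc 0 1) x -
        iteratedDerivWithin ⌊r⌋₊ (extI φ) (Icc 0 1) y| ≤ C * |x - y| ^ (r - ⌊r⌋₊)

/-- `φ` is an element of `Diff₊^∞([0,1])`. -/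
def IsDiffInfI (φ : Icc (0 : ℝ) 1 ≃o Icc (0 : ℝ) 1) : Prop :=
  ContDiffOn ℝ ∞ (extI φ) (Icc 0 1) ∧ ContDiffOn ℝ ∞ (extI φ.symm) (Icc 0 1)

/-- `G` is isomorphic to a subgroup of `Diff₊^r([0,1])`. -/
def EmbedsI (r : ℝ) (G : Type) [Group G] : Prop :=
  ∃ ρ : G →* (Icc (0 : ℝ) 1 ≃o Icc (0 : ℝ) 1), Function.Injective ρ ∧ ∀ g, IsDiffI r (ρ g)

/-- `G` is isomorphic to a subgroup of `Diff₊^∞([0,1])`. -/
def EmbedsInfI (G : Type) [Group G] : Prop :=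
  ∃ ρ : G →* (Icc (0 : ℝ) 1 ≃o Icc (0 : ℝ) 1), Function.Injective ρ ∧ ∀ g, IsDiffInfI (ρ g)

open scoped ENNReal in
/-- The critical regularity of `G` on `[0,1]`. -/
noncomputable def critRegI (G : Type) [Group G] : ℝ≥0∞ :=
  sSup {x | ∃ r : ℝ, 1 ≤ r ∧ EmbedsI r G ∧ x = ENNReal.ofReal r}

end Pool.Agent.Work.MP_4516ee_al
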