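import Mathlib

/-! Definitions for the statement on the circle. -/

open Set
open scoped ContDiff

namespace Pool.Agent.Work.MP_4516ee_al

/-- The circle `ℝ/ℤ`. -/
abbrev S1 : Type := AddCircle (1 : ℝ)

/-- `F` is an orientation preserving lift of the bijection `φ` of the circle `ℝ/ℤ`. -/
def IsLift (F : ℝ → ℝ) (φ : Equiv.Perm S1) : Prop :=
  (∀ x, F (x + 1) = F x + 1) ∧ ∀ x : ℝ, φ (x : S1) = ((F x : ℝ) : S1)

/-- `φ` is an element of `Diff₊^r(ℝ/ℤ)`: with `r = k + τ`, `k = ⌊r⌋ ≥ 1`, the bijection `φ` has a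
`C^k` lift `F` with `F(x+1) = F(x)+1` and positive derivative (so that the inverse is `C^k`, too),
whose `k`-th derivative is `τ`-Hölder. -/
def IsDiffC (r : ℝ) (φ : Equiv.Perm S1) : Prop :=
  ∃ F : ℝ → ℝ, IsLift F φ ∧ ContDiff ℝ ⌊r⌋₊ F ∧ (∀ x, 0 < deriv F x) ∧
    ∃ C : ℝ, ∀ x y : ℝ, |iteratedDeriv ⌊r⌋₊ F x - iteratedDeriv ⌊r⌋₊ F y| ≤
      C * |x - y| ^ (r - ⌊r⌋₊)

/-- `φ` is an element of `Diff₊^∞(ℝ/ℤ)`. -/
def IsDiffInfC (φ : Equiv.Perm S1) : Prop :=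
  ∃ F : ℝ → ℝ, IsLift F φ ∧ ContDiff ℝ ∞ F ∧ ∀ x, 0 < deriv F x

/-- `G` is isomorphic to a subgroup of `Diff₊^r(ℝ/ℤ)`. -/
def EmbedsC (r : ℝ) (G : Type) [Group G] : Prop :=
  ∃ ρ : G →* Equiv.Perm S1, Function.Injective ρ ∧ ∀ g, IsDiffC r (ρ g)

/-- `G` is isomorphic to a subgroup of `Diff₊^∞(ℝ/ℤ)`. -/
def EmbedsInfC (G : Type) [Group G] : Prop :=
  ∃ ρ : G →* Equiv.Perm S1, Function.Injective ρ ∧ ∀ g, IsDiffInfC (ρ g)

open scoped ENNReal in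
/-- The critical regularity of `G` on the circle. -/
noncomputable def critRegC (G : Type) [Group G] : ℝ≥0∞ :=
  sSup {x | ∃ r : ℝ, 1 ≤ r ∧ EmbedsC r G ∧ x = ENNReal.ofReal r}

end Pool.Agent.Work.MP_4516ee_al
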