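import Mathlib

/-! Dynamics of groups of order preserving permutations of the line with bounded distortion. -/

open Set Equiv

namespace Pool.Agent.Work.MP_4516ee_al

/-- slope of `φ` between `x` and `y` -/
noncomputable def sl (φ : Perm ℝ) (x y : ℝ) : ℝ := (φ y - φ x) / (y - x)

/-- strictly increasing, identity off `(a,b)`, bounded distortion -/
structure Good (a b : ℝ) (φ : Perm ℝ) : Prop where
  mono : StrictMono φ
  fix : ∀ x, x ∉ Ioo a b → φ x = x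
  dist : ∃ L : ℝ, 0 ≤ L ∧ ∀ p q x y z w : ℝ, a ≤ p → q ≤ b → p ≤ x → x < y → y ≤ q → p ≤ z →
    z < w → w ≤ q → sl φ x y ≤ Real.exp (L * (q - p)) * sl φ z w

variable {a b : ℝ}

lemma sl_pos {φ : Perm ℝ} (h : StrictMono φ) {x y : ℝ} (hxy : x < y) : 0 < sl φ x y :=
  div_pos (sub_pos.2 (h hxy)) (sub_pos.2 hxy)

lemma sl_mul {φ ψ : Perm ℝ} (h : StrictMono ψ) {x y : ℝ} (hxy : x < y) :
    sl (φ * ψ) x y = sl φ (ψ x) (ψ y) * sl ψ x y := by
  have h1 : ψ y - ψ x ≠ 0 := (sub_pos.2 (h hxy)).ne'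
  have h2 : y - x ≠ 0 := (sub_pos.2 hxy).ne'
  simp only [sl, Perm.mul_apply]
  field_simp

lemma sl_le_iff {φ : Perm ℝ} {x y C : ℝ} (hxy : x < y) :
    sl φ x y ≤ C ↔ φ y - φ x ≤ C * (y - x) := by
  rw [sl, div_le_iff₀ (sub_pos.2 hxy)]

lemma le_sl_iff {φ : Perm ℝ} {x y C : ℝ} (hxy : x < y) :
    C ≤ sl φ x y ↔ C * (y - x) ≤ φ y - φ x := by
  rw [sl, le_div_iff₀ (sub_pos.2 hxy)]

lemma Good.map_Icc {φ : Perm ℝ} (h : Good a b φ) {x : ℝ} (hx : x ∈ Icc a b) : φ x ∈ Icc a b := by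
  have ha : φ a = a := h.fix a (by simp)
  have hb : φ b = b := h.fix b (by simp)
  exact ⟨by simpa [ha] using h.mono.monotone hx.1, by simpa [hb] using h.mono.monotone hx.2⟩

lemma Good.continuous {φ : Perm ℝ} (h : Good a b φ) : Continuous φ :=
  h.mono.monotone.continuous_of_surjective φ.surjective

/-- slopes are bounded above and below -/
lemma Good.lip (hab : a < b) {φ : Perm ℝ} (h : Good a b φ) : ∃ C : ℝ, 1 ≤ C ∧
    (∀ x y, a ≤ x → x < y → y ≤ b → sl φ x y ≤ C) ∧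
    (∀ x y, a ≤ x → x < y → y ≤ b → 1 / C ≤ sl φ x y) := by
  obtain ⟨L, hL, hd⟩ := h.dist
  have ha : φ a = a := h.fix a (by simp)
  have hb : φ b = b := h.fix b (by simp)
  have h1 : sl φ a b = 1 := by
    rw [sl, ha, hb]; exact div_self (sub_pos.2 hab).ne'
  refine ⟨Real.exp (L * (b - a)), ?_, ?_, ?_⟩
  · exact Real.one_le_exp (mul_nonneg hL (sub_pos.2 hab).le)
  · intro x y hx hxy hy
    have := hd a b x y a b le_rfl le_rfl hx hxy hy le_rfl hab le_rfl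
    rwa [h1, mul_one] at this
  · intro x y hx hxy hy
    have := hd a b a b x y le_rfl le_rfl le_rfl hab le_rfl hx hxy hy
    rw [h1] at this
    rw [div_le_iff₀ (Real.exp_pos _)]
    linarith [mul_comm (Real.exp (L * (b - a))) (sl φ x y)]

/-- slopes when the endpoints of an interval are fixed -/
lemma Good.slFix {φ : Perm ℝ} {L : ℝ} (hd : ∀ p q x y z w : ℝ, a ≤ p → q ≤ b → p ≤ x → x < y →
    y ≤ q → p ≤ z → z < w → w ≤ q → sl φ x y ≤ Real.exp (L * (q - p)) * sl φ z w)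
    {p q x y : ℝ} (hp : a ≤ p) (hq : q ≤ b) (hfp : φ p = p) (hfq : φ q = q)
    (hx : p ≤ x) (hxy : x < y) (hy : y ≤ q) : sl φ x y ≤ Real.exp (L * (q - p)) := by
  have hpq : p < q := by linarith
  have h1 : sl φ p q = 1 := by
    rw [sl, hfp, hfq]; exact div_self (sub_pos.2 hpq).ne'
  have := hd p q x y p q hp hq hx hxy hy le_rfl hpq le_rfl
  rwa [h1, mul_one] at this

lemma strictMono_pow {φ : Perm ℝ} (h : StrictMono φ) (n : ℕ) : StrictMono (φ ^ n : Perm ℝ) := by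
  rw [Perm.coe_pow]
  exact h.iterate n

lemma app_inv (φ : Perm ℝ) (x : ℝ) : φ (φ⁻¹ x) = x := φ.apply_symm_apply x

lemma inv_app (φ : Perm ℝ) (x : ℝ) : φ⁻¹ (φ x) = x := φ.symm_apply_apply x

lemma strictMono_inv {φ : Perm ℝ} (h : StrictMono φ) : StrictMono (φ⁻¹ : Perm ℝ) := by
  intro x y hxy
  by_contra hc
  have := h.monotone (not_lt.1 hc)
  rw [app_inv, app_inv] at this
  linarith

lemma fix_inv {φ : Perm ℝ} {x : ℝ} (h : φ x = x) : φ⁻¹ x = x := by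
  rw [Perm.inv_eq_iff_eq, h]

lemma fix_pow {φ : Perm ℝ} {x : ℝ} (h : φ x = x) (n : ℕ) : (φ ^ n) x = x := by
  induction n with
  | zero => simp
  | succ n ih => rw [pow_succ', Perm.mul_apply, ih, h]

lemma comm_app {φ ψ : Perm ℝ} (h : Commute φ ψ) (x : ℝ) : φ (ψ x) = ψ (φ x) := by
  have := congrArg (fun e : Perm ℝ => e x) h.eq
  simpa only [Perm.mul_apply] using this

/-- iterated distortion -/
lemma iter_dist {χ : Perm ℝ} (hm : StrictMono χ) {L : ℝ}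
    (hd : ∀ p q x y z w : ℝ, a ≤ p → q ≤ b → p ≤ x → x < y →
    y ≤ q → p ≤ z → z < w → w ≤ q → sl χ x y ≤ Real.exp (L * (q - p)) * sl χ z w)
    (hI : ∀ x ∈ Icc a b, χ x ∈ Icc a b)
    {p q : ℝ} (hp : p ∈ Icc a b) (hq : q ∈ Icc a b) (n : ℕ) {x y z w : ℝ}
    (hx : p ≤ x) (hxy : x < y) (hy : y ≤ q) (hz : p ≤ z) (hzw : z < w) (hw : w ≤ q) :
    sl (χ ^ n) x y ≤
      Real.exp (L * ∑ j ∈ Finset.range n, ((χ ^ j) q - (χ ^ j) p)) * sl (χ ^ n) z w := by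
  have hIn : ∀ n : ℕ, ∀ x ∈ Icc a b, (χ ^ n) x ∈ Icc a b := by
    intro n
    induction n with
    | zero => intro x hx; simpa using hx
    | succ n ih =>
      intro x hx
      rw [pow_succ', Perm.mul_apply]
      exact hI _ (ih x hx)
  induction n with
  | zero =>
    have h1 : ∀ x y : ℝ, x < y → sl (χ ^ 0) x y = 1 := by
      intro x y hxy
      simp only [sl, pow_zero, Perm.one_apply]
      exact div_self (sub_pos.2 hxy).ne'
    rw [h1 x y hxy, h1 z w hzw]; simp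
  | succ n ih =>
    have hn := strictMono_pow hm n
    rw [pow_succ', sl_mul hn hxy, sl_mul hn hzw, Finset.sum_range_succ, mul_add, Real.exp_add]
    have h1 : sl χ ((χ ^ n) x) ((χ ^ n) y) ≤ Real.exp (L * ((χ ^ n) q - (χ ^ n) p)) *
        sl χ ((χ ^ n) z) ((χ ^ n) w) :=
      hd _ _ _ _ _ _ (hIn n p hp).1 (hIn n q hq).2 (hn.monotone hx) (hn hxy) (hn.monotone hy)
        (hn.monotone hz) (hn hzw) (hn.monotone hw)
    calc sl χ ((χ ^ n) x) ((χ ^ n) y) * sl (χ ^ n) x y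
        ≤ (Real.exp (L * ((χ ^ n) q - (χ ^ n) p)) * sl χ ((χ ^ n) z) ((χ ^ n) w)) *
          (Real.exp (L * ∑ j ∈ Finset.range n, ((χ ^ j) q - (χ ^ j) p)) * sl (χ ^ n) z w) := by
          apply mul_le_mul h1 ih (sl_pos hn hxy).le
          exact mul_nonneg (Real.exp_pos _).le (sl_pos hm (hn hzw)).le
      _ = _ := by ring

lemma tendsto_zero_of_sum_le {u : ℕ → ℝ} (hu : ∀ n, 0 ≤ u n) {S : ℝ}
    (hS : ∀ n, ∑ j ∈ Finset.range n, u j ≤ S) : Filter.Tendsto u Filter.atTop (nhds 0) :=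
  (summable_of_sum_range_le hu hS).tendsto_atTop_zero

/-- one half of the basic lemma: powers of `ψ` have bounded slopes -/
lemma kc_aux {ψ χ : Perm ℝ} (hψ : ∀ m : ℕ, Good a b (ψ ^ m)) (hχ : Good a b χ)
    (hc : Commute ψ χ) {p q : ℝ} (hp : a ≤ p) (hpq : p < q) (hq : q ≤ b)
    (hfp : ψ p = p) (hfq : ψ q = q) {S : ℝ}
    (hS : ∀ n, ∑ j ∈ Finset.range n, ((χ ^ j) q - (χ ^ j) p) ≤ S) :
    ∃ B : ℝ, 0 < B ∧ ∀ (m : ℕ) (x y : ℝ), p ≤ x → x < y → y ≤ q → sl (ψ ^ m) x y ≤ B := by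
  obtain ⟨L, hL, hd⟩ := hχ.dist
  refine ⟨Real.exp (L * S), Real.exp_pos _, ?_⟩
  intro m x y hx hxy hy
  obtain ⟨Lm, hLm, hdm⟩ := (hψ m).dist
  have hIχ : ∀ x ∈ Icc a b, χ x ∈ Icc a b := fun x hx => hχ.map_Icc hx
  have hIχn : ∀ n : ℕ, ∀ x ∈ Icc a b, (χ ^ n) x ∈ Icc a b := by
    intro n
    induction n with
    | zero => intro x hx; simpa using hx
    | succ n ih =>
      intro x hx
      rw [pow_succ', Perm.mul_apply]
      exact hIχ _ (ih x hx)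
  have hpI : p ∈ Icc a b := ⟨hp, by linarith⟩
  have hqI : q ∈ Icc a b := ⟨by linarith, hq⟩
  have hfpm : (ψ ^ m) p = p := fix_pow hfp m
  have hfqm : (ψ ^ m) q = q := fix_pow hfq m
  have hψm : StrictMono (ψ ^ m : Perm ℝ) := (hψ m).mono
  have hχm : ∀ n : ℕ, StrictMono (χ ^ n : Perm ℝ) := fun n => strictMono_pow hχ.mono n
  have key : ∀ n : ℕ, sl (ψ ^ m) x y ≤
      Real.exp (Lm * ((χ ^ n) q - (χ ^ n) p)) * Real.exp (L * S) := by
    intro n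
    have hcmn : Commute (ψ ^ m) (χ ^ n) := hc.pow_pow m n
    have e1 : sl (ψ ^ m) ((χ ^ n) x) ((χ ^ n) y) * sl (χ ^ n) x y =
        sl (χ ^ n) ((ψ ^ m) x) ((ψ ^ m) y) * sl (ψ ^ m) x y := by
      rw [← sl_mul (hχm n) hxy, ← sl_mul hψm hxy, hcmn.eq]
    have hx' : p ≤ (ψ ^ m) x := by rw [← hfpm]; exact hψm.monotone hx
    have hy' : (ψ ^ m) y ≤ q := by
      calc (ψ ^ m) y ≤ (ψ ^ m) q := hψm.monotone hy
        _ = q := hfqm
    have h1 : sl (χ ^ n) x y ≤ Real.exp (L * S) * sl (χ ^ n) ((ψ ^ m) x) ((ψ ^ m) y) := by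
      have h2 := iter_dist hχ.mono hd hIχ hpI hqI n hx hxy hy hx' (hψm hxy) hy'
      refine h2.trans ?_
      apply mul_le_mul_of_nonneg_right _ (sl_pos (hχm n) (hψm hxy)).le
      exact Real.exp_le_exp.2 (mul_le_mul_of_nonneg_left (hS n) hL)
    have h3 : sl (ψ ^ m) ((χ ^ n) x) ((χ ^ n) y) ≤
        Real.exp (Lm * ((χ ^ n) q - (χ ^ n) p)) := by
      apply Good.slFix hdm (hIχn n p hpI).1 (hIχn n q hqI).2 _ _ ((hχm n).monotone hx)
        ((hχm n) hxy) ((hχm n).monotone hy)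
      · rw [comm_app hcmn, hfpm]
      · rw [comm_app hcmn, hfqm]
    have hpos := sl_pos (hχm n) (hψm hxy)
    have h4 : sl (χ ^ n) ((ψ ^ m) x) ((ψ ^ m) y) * sl (ψ ^ m) x y ≤
        sl (χ ^ n) ((ψ ^ m) x) ((ψ ^ m) y) *
          (Real.exp (Lm * ((χ ^ n) q - (χ ^ n) p)) * Real.exp (L * S)) := by
      rw [← e1]
      calc sl (ψ ^ m) ((χ ^ n) x) ((χ ^ n) y) * sl (χ ^ n) x y ≤
          Real.exp (Lm * ((χ ^ n) q - (χ ^ n) p)) *
            (Real.exp (L * S) * sl (χ ^ n) ((ψ ^ m) x) ((ψ ^ m) y)) := by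
            apply mul_le_mul h3 h1 (sl_pos (hχm n) hxy).le (Real.exp_pos _).le
        _ = _ := by ring
    exact le_of_mul_le_mul_left h4 hpos
  have hlim : Filter.Tendsto (fun n : ℕ => Real.exp (Lm * ((χ ^ n) q - (χ ^ n) p)) *
      Real.exp (L * S)) Filter.atTop (nhds (Real.exp (Lm * 0) * Real.exp (L * S))) := by
    have h0 : Filter.Tendsto (fun n : ℕ => (χ ^ n) q - (χ ^ n) p) Filter.atTop (nhds 0) := by
      apply tendsto_zero_of_sum_le _ hS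
      intro n
      exact sub_nonneg.2 ((hχm n).monotone hpq.le)
    exact ((Real.continuous_exp.tendsto _).comp (h0.const_mul Lm)).mul_const _
  have := ge_of_tendsto' hlim key
  simpa using this

/-- if powers of `ψ⁻¹` have bounded slopes on `[p,q]` then `ψ` does not move points up -/
lemma kc_aux2 {ψ : Perm ℝ} (hm : StrictMono ψ) {p q : ℝ} (hfp : ψ p = p) (hfq : ψ q = q)
    {B : ℝ} (hB : 0 < B)
    (h : ∀ (m : ℕ) (x y : ℝ), p ≤ x → x < y → y ≤ q → sl ((ψ⁻¹) ^ m) x y ≤ B)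
    {x : ℝ} (hx : x ∈ Icc p q) : ψ x ≤ x := by
  by_contra hc
  push Not at hc
  have hmn : ∀ n : ℕ, StrictMono (ψ ^ n : Perm ℝ) := fun n => strictMono_pow hm n
  have hin : ∀ n : ℕ, p ≤ (ψ ^ n) x ∧ (ψ ^ n) x ≤ q := by
    intro n
    constructor
    · calc p = (ψ ^ n) p := (fix_pow hfp n).symm
        _ ≤ _ := (hmn n).monotone hx.1
    · calc (ψ ^ n) x ≤ (ψ ^ n) q := (hmn n).monotone hx.2
        _ = q := fix_pow hfq n
  have hstep : ∀ n : ℕ, (ψ x - x) / B ≤ (ψ ^ (n + 1)) x - (ψ ^ n) x := by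
    intro n
    have h1 : (ψ ^ n) x < (ψ ^ (n + 1)) x := by
      rw [pow_succ, Perm.mul_apply]
      exact hmn n hc
    have h2 := h n ((ψ ^ n) x) ((ψ ^ (n + 1)) x) (hin n).1 h1 (hin (n + 1)).2
    rw [sl_le_iff h1] at h2
    have h3 : (ψ⁻¹ ^ n) ((ψ ^ n) x) = x := by
      rw [inv_pow, inv_app]
    have h4 : (ψ⁻¹ ^ n) ((ψ ^ (n + 1)) x) = ψ x := by
      rw [inv_pow, pow_succ, Perm.mul_apply, inv_app]
    rw [h3, h4] at h2
    rw [div_le_iff₀ hB]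
    linarith [mul_comm B ((ψ ^ (n + 1)) x - (ψ ^ n) x)]
  have hsum : ∀ n : ℕ, x + n * ((ψ x - x) / B) ≤ (ψ ^ n) x := by
    intro n
    induction n with
    | zero => simp
    | succ n ih =>
      have h1 := hstep n
      have h2 : ((n + 1 : ℕ) : ℝ) * ((ψ x - x) / B) = n * ((ψ x - x) / B) + (ψ x - x) / B := by
        rw [Nat.cast_succ]; ring
      rw [h2]
      linarith
  have hd : 0 < (ψ x - x) / B := div_pos (sub_pos.2 hc) hB
  obtain ⟨n, hn⟩ := exists_nat_gt ((q - x) / ((ψ x - x) / B))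
  rw [div_lt_iff₀ hd] at hn
  have := hsum n
  have := (hin n).2
  linarith

/-- The basic rigidity lemma. -/
lemma kc {ψ χ : Perm ℝ} (hψ : ∀ m : ℕ, Good a b (ψ ^ m)) (hψ' : ∀ m : ℕ, Good a b (ψ⁻¹ ^ m))
    (hχ : Good a b χ)
    (hc : Commute ψ χ) {p q : ℝ} (hp : a ≤ p) (hpq : p < q) (hq : q ≤ b)
    (hfp : ψ p = p) (hfq : ψ q = q) {S : ℝ}
    (hS : ∀ n, ∑ j ∈ Finset.range n, ((χ ^ j) q - (χ ^ j) p) ≤ S) {x : ℝ} (hx : x ∈ Icc p q) :
    ψ x = x := by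
  have hm : StrictMono ψ := by simpa using (hψ 1).mono
  obtain ⟨B, hB, h⟩ := kc_aux hψ hχ hc hp hpq hq hfp hfq hS
  obtain ⟨B', hB', h'⟩ := kc_aux hψ' hχ hc.inv_left hp hpq hq (fix_inv hfp) (fix_inv hfq) hS
  apply le_antisymm
  · exact kc_aux2 hm hfp hfq hB' h' hx
  · have := kc_aux2 (strictMono_inv hm) (fix_inv hfp) (fix_inv hfq) hB
      (by simpa only [inv_inv] using h) hx
    calc x = ψ (ψ⁻¹ x) := (app_inv ψ x).symm
      _ ≤ ψ x := hm.monotone this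

/-- component of the support -/
structure IsComp (a b : ℝ) (φ : Perm ℝ) (u v : ℝ) : Prop where
  hu : a ≤ u
  huv : u < v
  hv : v ≤ b
  fu : φ u = u
  fv : φ v = v
  ne : ∀ z ∈ Ioo u v, φ z ≠ z

lemma exists_comp {φ : Perm ℝ} (h : Good a b φ) {x : ℝ} (hx : φ x ≠ x) :
    ∃ u v, IsComp a b φ u v ∧ x ∈ Ioo u v := by
  have hcl : IsClosed {z : ℝ | φ z = z} := isClosed_eq h.continuous continuous_id
  have hxab : x ∈ Ioo a b := by
    by_contra hc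
    exact hx (h.fix x hc)
  have ha : φ a = a := h.fix a (by simp)
  have hb : φ b = b := h.fix b (by simp)
  set A : Set ℝ := {z | φ z = z} ∩ Icc a x with hA
  set B : Set ℝ := {z | φ z = z} ∩ Icc x b with hB
  have hAc : IsCompact A := (isCompact_Icc).inter_left hcl
  have hBc : IsCompact B := (isCompact_Icc).inter_left hcl
  have hAn : A.Nonempty := ⟨a, ha, le_rfl, hxab.1.le⟩
  have hBn : B.Nonempty := ⟨b, hb, hxab.2.le, le_rfl⟩
  obtain ⟨u, hu⟩ := hAc.exists_isGreatest hAn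
  obtain ⟨v, hv⟩ := hBc.exists_isLeast hBn
  have hux : u < x := lt_of_le_of_ne hu.1.2.2 (fun e => hx (e ▸ hu.1.1))
  have hxv : x < v := lt_of_le_of_ne hv.1.2.1 (fun e => hx (e ▸ hv.1.1))
  refine ⟨u, v, ⟨hu.1.2.1, hux.trans hxv, hv.1.2.2, hu.1.1, hv.1.1, ?_⟩, hux, hxv⟩
  intro z hz hfz
  rcases le_total z x with hzx | hzx
  · exact absurd (hu.2 ⟨hfz, by linarith [hu.1.2.1, hz.1], hzx⟩) (not_le.2 hz.1)
  · exact absurd (hv.2 ⟨hfz, hzx, by linarith [hv.1.2.2, hz.2]⟩) (not_le.2 hz.2)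

lemma comp_unique {φ : Perm ℝ} {u v u' v' x : ℝ} (h : IsComp a b φ u v) (h' : IsComp a b φ u' v')
    (hx : x ∈ Ioo u v) (hx' : x ∈ Ioo u' v') : u = u' ∧ v = v' := by
  constructor
  · apply le_antisymm
    · by_contra hc
      push Not at hc
      exact h'.ne u ⟨hc, by linarith [hx.1, hx'.2]⟩ h.fu
    · by_contra hc
      push Not at hc
      exact h.ne u' ⟨hc, by linarith [hx'.1, hx.2]⟩ h'.fu
  · apply le_antisymm
    · by_contra hc
      push Not at hc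
      exact h.ne v' ⟨by linarith [hx.1, hx'.2], hc⟩ h'.fv
    · by_contra hc
      push Not at hc
      exact h'.ne v ⟨by linarith [hx'.1, hx.2], hc⟩ h.fv

/-- On a component an increasing bijection moves all points in the same direction. -/
lemma comp_sign {φ : Perm ℝ} (hφ : Continuous φ) {u v : ℝ} (h : ∀ z ∈ Ioo u v, φ z ≠ z) :
    (∀ z ∈ Ioo u v, z < φ z) ∨ (∀ z ∈ Ioo u v, φ z < z) := by
  by_contra hc
  push Not at hc
  obtain ⟨⟨x, hx, hx'⟩, ⟨y, hy, hy'⟩⟩ := hc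
  have hx1 : φ x < x := lt_of_le_of_ne hx' (h x hx)
  have hy1 : y < φ y := lt_of_le_of_ne hy' (Ne.symm (h y hy))
  have hcont : ContinuousOn (fun z => φ z - z) (uIcc x y) := (hφ.sub continuous_id).continuousOn
  have := intermediate_value_uIcc hcont
  have h0 : (0:ℝ) ∈ uIcc (φ x - x) (φ y - y) := by
    rw [mem_uIcc]; left; constructor <;> linarith
  obtain ⟨z, hz, hz0⟩ := this h0
  have hzI : z ∈ Ioo u v := by
    rw [mem_uIcc] at hz
    rcases hz with hz | hz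
    · exact ⟨lt_of_lt_of_le hx.1 hz.1, lt_of_le_of_lt hz.2 hy.2⟩
    · exact ⟨lt_of_lt_of_le hy.1 hz.1, lt_of_le_of_lt hz.2 hx.2⟩
  exact h z hzI (by simpa [sub_eq_zero] using hz0)

section group

variable {𝒢 : Subgroup (Perm ℝ)} (h𝒢 : ∀ φ ∈ 𝒢, Good a b φ)
include h𝒢

lemma kcG {ψ χ : Perm ℝ} (hψ : ψ ∈ 𝒢) (hχ : χ ∈ 𝒢)
    (hc : Commute ψ χ) {p q : ℝ} (hp : a ≤ p) (hpq : p < q) (hq : q ≤ b)
    (hfp : ψ p = p) (hfq : ψ q = q) {S : ℝ}
    (hS : ∀ n, ∑ j ∈ Finset.range n, ((χ ^ j) q - (χ ^ j) p) ≤ S) {x : ℝ} (hx : x ∈ Icc p q) :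
    ψ x = x :=
  kc (fun m => h𝒢 _ (pow_mem hψ m)) (fun m => h𝒢 _ (pow_mem (inv_mem hψ) m)) (h𝒢 _ hχ) hc hp hpq
    hq hfp hfq hS hx

lemma pow_mem_Icc {χ : Perm ℝ} (hχ : χ ∈ 𝒢) (n : ℕ) {x : ℝ} (hx : x ∈ Icc a b) :
    (χ ^ n) x ∈ Icc a b := (h𝒢 _ (pow_mem hχ n)).map_Icc hx

/-- intervals moved to the right: telescoping -/
lemma kcR {ψ χ : Perm ℝ} (hψ : ψ ∈ 𝒢) (hχ : χ ∈ 𝒢)
    (hc : Commute ψ χ) {p q : ℝ} (hp : a ≤ p) (hpq : p < q) (hq : q ≤ b)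
    (hfp : ψ p = p) (hfq : ψ q = q) (hqp : q ≤ χ p) {x : ℝ} (hx : x ∈ Icc p q) :
    ψ x = x := by
  have hpI : p ∈ Icc a b := ⟨hp, by linarith⟩
  apply kcG h𝒢 hψ hχ hc hp hpq hq hfp hfq (S := b - a) _ hx
  intro n
  calc ∑ j ∈ Finset.range n, ((χ ^ j) q - (χ ^ j) p) ≤
      ∑ j ∈ Finset.range n, ((χ ^ (j + 1)) p - (χ ^ j) p) := by
        apply Finset.sum_le_sum
        intro j _
        have : (χ ^ j) q ≤ (χ ^ (j + 1)) p := by
          rw [pow_succ, Perm.mul_apply]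
          exact (strictMono_pow (h𝒢 _ hχ).mono j).monotone hqp
        linarith
    _ = (χ ^ n) p - (χ ^ 0) p := Finset.sum_range_sub (fun j => (χ ^ j) p) n
    _ ≤ b - a := by
        have h1 := (pow_mem_Icc h𝒢 hχ n hpI).2
        have h2 := (pow_mem_Icc h𝒢 hχ 0 hpI).1
        linarith

/-- intervals moved to the left: telescoping -/
lemma kcL {ψ χ : Perm ℝ} (hψ : ψ ∈ 𝒢) (hχ : χ ∈ 𝒢)
    (hc : Commute ψ χ) {p q : ℝ} (hp : a ≤ p) (hpq : p < q) (hq : q ≤ b)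
    (hfp : ψ p = p) (hfq : ψ q = q) (hqp : χ q ≤ p) {x : ℝ} (hx : x ∈ Icc p q) :
    ψ x = x := by
  have hqI : q ∈ Icc a b := ⟨by linarith, hq⟩
  apply kcG h𝒢 hψ hχ hc hp hpq hq hfp hfq (S := b - a) _ hx
  intro n
  calc ∑ j ∈ Finset.range n, ((χ ^ j) q - (χ ^ j) p) ≤
      ∑ j ∈ Finset.range n, ((χ ^ j) q - (χ ^ (j + 1)) q) := by
        apply Finset.sum_le_sum
        intro j _
        have : (χ ^ (j + 1)) q ≤ (χ ^ j) p := by
          rw [pow_succ, Perm.mul_apply]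
          exact (strictMono_pow (h𝒢 _ hχ).mono j).monotone hqp
        linarith
    _ = (χ ^ 0) q - (χ ^ n) q := Finset.sum_range_sub' (fun j => (χ ^ j) q) n
    _ ≤ b - a := by
        have h1 := (pow_mem_Icc h𝒢 hχ n hqI).1
        have h2 := (pow_mem_Icc h𝒢 hχ 0 hqI).2
        linarith

/-- an element commuting with `φ` fixes the ends of the components of `φ` -/
lemma comm_comp_le {φ k : Perm ℝ} (hφ : φ ∈ 𝒢) (hk : k ∈ 𝒢) (hc : Commute φ k) {u v : ℝ}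
    (hC : IsComp a b φ u v) : k u ≤ u := by
  by_contra hlt
  push Not at hlt
  have hfix : φ (k u) = k u := by rw [comm_app hc, hC.fu]
  have hge : v ≤ k u := by
    by_contra hcon
    push Not at hcon
    exact hC.ne _ ⟨hlt, hcon⟩ hfix
  have hmid : (u + v) / 2 ∈ Ioo u v := ⟨by linarith [hC.huv], by linarith [hC.huv]⟩
  exact hC.ne _ hmid (kcR h𝒢 hφ hk hc hC.hu hC.huv hC.hv hC.fu hC.fv hge
    ⟨hmid.1.le, hmid.2.le⟩)

lemma comm_comp {φ k : Perm ℝ} (hφ : φ ∈ 𝒢) (hk : k ∈ 𝒢) (hc : Commute φ k) {u v : ℝ}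
    (hC : IsComp a b φ u v) : k u = u ∧ k v = v := by
  have h1 := comm_comp_le h𝒢 hφ hk hc hC
  have h2 := comm_comp_le h𝒢 hφ (inv_mem hk) hc.inv_right hC
  have hmono := (h𝒢 _ hk).mono
  have hu : k u = u := by
    apply le_antisymm h1
    calc u = k (k⁻¹ u) := (app_inv k u).symm
      _ ≤ k u := hmono.monotone h2
  refine ⟨hu, ?_⟩
  apply le_antisymm
  · by_contra hcon
    push Not at hcon
    have h3 : k⁻¹ v < v := by
      calc k⁻¹ v < k⁻¹ (k v) := strictMono_inv hmono hcon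
        _ = v := inv_app k v
    have h4 : u < k⁻¹ v := by
      calc u = k⁻¹ u := (fix_inv hu).symm
        _ < _ := strictMono_inv hmono hC.huv
    exact hC.ne _ ⟨h4, h3⟩ (by rw [comm_app hc.inv_right, hC.fv])
  · by_contra hcon
    push Not at hcon
    have h4 : u < k v := by
      calc u = k u := hu.symm
        _ < _ := hmono hC.huv
    exact hC.ne _ ⟨h4, hcon⟩ (by rw [comm_app hc, hC.fv])

/-- Kopell's lemma -/
lemma kopell {φ k : Perm ℝ} (hφ : φ ∈ 𝒢) (hk : k ∈ 𝒢) (hc : Commute φ k) {u v : ℝ}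
    (hC : IsComp a b φ u v) {y : ℝ} (hy : y ∈ Ioo u v) (hky : k y = y) {x : ℝ}
    (hx : x ∈ Icc u v) : k x = x := by
  obtain ⟨hu, hv⟩ := comm_comp h𝒢 hφ hk hc hC
  by_contra hne
  obtain ⟨c, d, hD, hxD⟩ := exists_comp (h𝒢 _ hk) hne
  -- `φ` or its inverse moves a given point of `(u,v)` in a given direction
  have up : ∀ c ∈ Ioo u v, ∃ χ ∈ 𝒢, Commute k χ ∧ c < χ c ∧ χ c < v := by
    intro c hc'
    rcases lt_or_gt_of_ne (hC.ne c hc') with h | h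
    · refine ⟨φ⁻¹, inv_mem hφ, hc.symm.inv_right, ?_, ?_⟩
      · calc c = φ⁻¹ (φ c) := (inv_app φ c).symm
          _ < φ⁻¹ c := strictMono_inv (h𝒢 _ hφ).mono h
      · calc φ⁻¹ c < φ⁻¹ v := strictMono_inv (h𝒢 _ hφ).mono hc'.2
          _ = v := fix_inv hC.fv
    · refine ⟨φ, hφ, hc.symm, h, ?_⟩
      calc φ c < φ v := (h𝒢 _ hφ).mono hc'.2
          _ = v := hC.fv
  have down : ∀ c ∈ Ioo u v, ∃ χ ∈ 𝒢, Commute k χ ∧ χ c < c ∧ u < χ c := by
    intro c hc'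
    rcases lt_or_gt_of_ne (hC.ne c hc') with h | h
    · refine ⟨φ, hφ, hc.symm, h, ?_⟩
      calc u = φ u := hC.fu.symm
          _ < φ c := (h𝒢 _ hφ).mono hc'.1
    · refine ⟨φ⁻¹, inv_mem hφ, hc.symm.inv_right, ?_, ?_⟩
      · calc φ⁻¹ c < φ⁻¹ (φ c) := strictMono_inv (h𝒢 _ hφ).mono h
          _ = c := inv_app φ c
      · calc u = φ⁻¹ u := (fix_inv hC.fu).symm
          _ < φ⁻¹ c := strictMono_inv (h𝒢 _ hφ).mono hc'.1
  have hcu : c ≤ u := by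
    by_contra hcon
    push Not at hcon
    obtain ⟨χ, hχ, hkχ, h1, h2⟩ := up c ⟨hcon, lt_of_lt_of_le hxD.1 hx.2⟩
    have hfix : k (χ c) = χ c := by rw [comm_app hkχ, hD.fu]
    have hz : c < min ((c + d) / 2) (χ c) := lt_min (by linarith [hD.huv]) h1
    have hz2 : min ((c + d) / 2) (χ c) < d := lt_of_le_of_lt (min_le_left _ _)
      (by linarith [hD.huv])
    exact hD.ne _ ⟨hz, hz2⟩ (kcR h𝒢 hk hχ hkχ hD.hu h1 (by linarith [hC.hv]) hD.fu hfix le_rfl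
      ⟨hz.le, min_le_right _ _⟩)
  have hdv : v ≤ d := by
    by_contra hcon
    push Not at hcon
    obtain ⟨χ, hχ, hkχ, h1, h2⟩ := down d ⟨lt_of_le_of_lt hx.1 hxD.2, hcon⟩
    have hfix : k (χ d) = χ d := by rw [comm_app hkχ, hD.fv]
    have hz : max ((c + d) / 2) (χ d) < d := max_lt (by linarith [hD.huv]) h1
    have hz2 : c < max ((c + d) / 2) (χ d) := lt_of_lt_of_le (by linarith [hD.huv])
      (le_max_left _ _)
    exact hD.ne _ ⟨hz2, hz⟩ (kcL h𝒢 hk hχ hkχ (by linarith [hC.hu]) h1 hD.hv hfix hD.fv le_rfl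
      ⟨le_max_right _ _, hz.le⟩)
  exact hD.ne y ⟨lt_of_le_of_lt hcu hy.1, lt_of_lt_of_le hy.2 hdv⟩ hky

end group

/-- orbits of a fixed point free map converge to the end of the component -/
lemma orbit_up {h : Perm ℝ} (hm : StrictMono h) {u v : ℝ} (hv : h v = v)
    (hup : ∀ z ∈ Ioo u v, z < h z) {x y : ℝ} (hx : x ∈ Ioo u v) (hy : y < v) :
    ∃ n : ℕ, y < (h ^ n) x := by
  by_contra hcon
  push Not at hcon
  have hbdd : BddAbove (range fun n : ℕ => (h ^ n) x) := ⟨y, by rintro _ ⟨n, rfl⟩; exact hcon n⟩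
  set l := ⨆ n : ℕ, (h ^ n) x with hl
  have hle : ∀ n : ℕ, (h ^ n) x ≤ l := fun n => le_ciSup hbdd n
  have hly : l ≤ y := ciSup_le hcon
  have hxl : x ≤ l := by simpa using hle 0
  have hlI : l ∈ Ioo u v := ⟨lt_of_lt_of_le hx.1 hxl, lt_of_le_of_lt hly hy⟩
  have h1 : h⁻¹ l < l := by
    calc h⁻¹ l < h⁻¹ (h l) := strictMono_inv hm (hup l hlI)
      _ = l := inv_app h l
  obtain ⟨n, hn⟩ := exists_lt_of_lt_ciSup h1
  have h2 := hle (n + 1)
  rw [pow_succ', Perm.mul_apply] at h2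
  have h3 : h (h⁻¹ l) < h ((h ^ n) x) := hm hn
  rw [app_inv] at h3
  linarith

lemma orbit_down {h : Perm ℝ} (hm : StrictMono h) {u v : ℝ} (hu : h u = u)
    (hup : ∀ z ∈ Ioo u v, z < h z) {x y : ℝ} (hx : x ∈ Ioo u v) (hy : u < y) :
    ∃ n : ℕ, (h⁻¹ ^ n) x < y := by
  by_contra hcon
  push Not at hcon
  have hbdd : BddBelow (range fun n : ℕ => (h⁻¹ ^ n) x) :=
    ⟨y, by rintro _ ⟨n, rfl⟩; exact hcon n⟩
  set l := ⨅ n : ℕ, (h⁻¹ ^ n) x with hl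
  have hle : ∀ n : ℕ, l ≤ (h⁻¹ ^ n) x := fun n => ciInf_le hbdd n
  have hly : y ≤ l := le_ciInf hcon
  have hxl : l ≤ x := by simpa using hle 0
  have hlI : l ∈ Ioo u v := ⟨lt_of_lt_of_le hy hly, lt_of_le_of_lt hxl hx.2⟩
  obtain ⟨n, hn⟩ := exists_lt_of_ciInf_lt (hup l hlI)
  have h2 := hle (n + 1)
  rw [pow_succ', Perm.mul_apply] at h2
  have h3 : h⁻¹ ((h⁻¹ ^ n) x) < h⁻¹ (h l) := strictMono_inv hm hn
  rw [inv_app] at h3
  linarith

lemma bs_pow {Γ : Type*} [Group Γ] {s h : Γ} (hr : s * h * s⁻¹ = h ^ 2) (N : ℕ) :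
    s * h ^ N = h ^ (2 * N) * s := by
  have : (s * h * s⁻¹) ^ N = s * h ^ N * s⁻¹ := by
    rw [conj_pow]
  rw [hr, ← pow_mul] at this
  rw [this]; group

lemma bs_has_fixed {s h : Perm ℝ} (hs : StrictMono s) (hsc : Continuous s) (hh : StrictMono h)
    (hr : s * h * s⁻¹ = h ^ 2)
    {u v : ℝ} (huv : u < v) (hsu : s u = u) (hsv : s v = v) (hhu : h u = u) (hhv : h v = v)
    (hup : ∀ z ∈ Ioo u v, z < h z) : ∃ y ∈ Ioo u v, s y = y := by
  set x := (u + v) / 2 with hx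
  have hxI : x ∈ Ioo u v := ⟨by rw [hx]; linarith, by rw [hx]; linarith⟩
  have hsx : s x ∈ Ioo u v := ⟨by rw [← hsu]; exact hs hxI.1, by
    calc s x < s v := hs hxI.2
      _ = v := hsv⟩
  have hN : ∀ N : ℕ, (h ^ N) x ∈ Ioo u v := by
    intro N
    constructor
    · calc u = (h ^ N) u := (fix_pow hhu N).symm
        _ < _ := strictMono_pow hh N hxI.1
    · calc (h ^ N) x < (h ^ N) v := strictMono_pow hh N hxI.2
        _ = v := fix_pow hhv N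
  have hN' : ∀ N : ℕ, (h⁻¹ ^ N) x ∈ Ioo u v := by
    intro N
    constructor
    · calc u = (h⁻¹ ^ N) u := (fix_pow (fix_inv hhu) N).symm
        _ < _ := strictMono_pow (strictMono_inv hh) N hxI.1
    · calc (h⁻¹ ^ N) x < (h⁻¹ ^ N) v := strictMono_pow (strictMono_inv hh) N hxI.2
        _ = v := fix_pow (fix_inv hhv) N
  obtain ⟨n, hn⟩ := orbit_up hh hhv hup hsx hxI.2
  obtain ⟨m, hm⟩ := orbit_down hh hhu hup hsx hxI.1
  have h1 : (h ^ n) x ≤ s ((h ^ n) x) := by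
    have e : s ((h ^ n) x) = (h ^ (2 * n)) (s x) := by
      rw [← Perm.mul_apply, bs_pow hr, Perm.mul_apply]
    rw [e, two_mul, pow_add, Perm.mul_apply]
    exact (strictMono_pow hh n).monotone hn.le
  have h2 : s ((h⁻¹ ^ m) x) ≤ (h⁻¹ ^ m) x := by
    have hr' : s * h⁻¹ * s⁻¹ = (h⁻¹) ^ 2 := by
      rw [inv_pow, ← hr]; group
    have e : s ((h⁻¹ ^ m) x) = (h⁻¹ ^ (2 * m)) (s x) := by
      rw [← Perm.mul_apply, bs_pow hr', Perm.mul_apply]
    rw [e, two_mul, pow_add, Perm.mul_apply]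
    exact (strictMono_pow (strictMono_inv hh) m).monotone hm.le
  have hcont : ContinuousOn (fun z => s z - z) (uIcc ((h⁻¹ ^ m) x) ((h ^ n) x)) :=
    (hsc.sub continuous_id).continuousOn
  have h0 : (0:ℝ) ∈ uIcc (s ((h⁻¹ ^ m) x) - (h⁻¹ ^ m) x) (s ((h ^ n) x) - (h ^ n) x) := by
    rw [mem_uIcc]; left; constructor <;> linarith
  obtain ⟨z, hz, hz0⟩ := intermediate_value_uIcc hcont h0
  refine ⟨z, ?_, by simpa [sub_eq_zero] using hz0⟩
  rw [mem_uIcc] at hz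
  rcases hz with hz | hz
  · exact ⟨lt_of_lt_of_le (hN' m).1 hz.1, lt_of_le_of_lt hz.2 (hN n).2⟩
  · exact ⟨lt_of_lt_of_le (hN n).1 hz.1, lt_of_le_of_lt hz.2 (hN' m).2⟩

section group2

variable {𝒢 : Subgroup (Perm ℝ)} (h𝒢 : ∀ φ ∈ 𝒢, Good a b φ)
include h𝒢

/-- Lemma A -/
lemma lemmaA {s h k : Perm ℝ} (hs : s ∈ 𝒢) (hh : h ∈ 𝒢) (hk : k ∈ 𝒢)
    (hr : s * h * s⁻¹ = h ^ 2) (hks : Commute k s) (hkh : Commute k h) (x : ℝ) :
    k x = x ∨ h x = x := by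
  by_contra hcon
  push Not at hcon
  obtain ⟨hkx, hhx⟩ := hcon
  obtain ⟨u, v, hC, hx⟩ := exists_comp (h𝒢 _ hk) hkx
  obtain ⟨hhu, hhv⟩ := comm_comp h𝒢 hk hh hkh hC
  obtain ⟨hsu, hsv⟩ := comm_comp h𝒢 hk hs hks hC
  have hfree : ∀ z ∈ Ioo u v, h z ≠ z := by
    intro z hz hfz
    exact hhx (kopell h𝒢 hk hh hkh hC hz hfz ⟨hx.1.le, hx.2.le⟩)
  have hsfix : ∃ y ∈ Ioo u v, s y = y := by
    rcases comp_sign (h𝒢 _ hh).continuous hfree with hup | hdn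
    · exact bs_has_fixed (h𝒢 _ hs).mono (h𝒢 _ hs).continuous (h𝒢 _ hh).mono hr hC.huv hsu hsv
        hhu hhv hup
    · have hr' : s * h⁻¹ * s⁻¹ = (h⁻¹) ^ 2 := by
        rw [inv_pow, ← hr]; group
      apply bs_has_fixed (h𝒢 _ hs).mono (h𝒢 _ hs).continuous (strictMono_inv (h𝒢 _ hh).mono) hr'
        hC.huv hsu hsv (fix_inv hhu) (fix_inv hhv)
      intro z hz
      calc z = h⁻¹ (h z) := (inv_app h z).symm
        _ < h⁻¹ z := strictMono_inv (h𝒢 _ hh).mono (hdn z hz)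
  obtain ⟨y, hy, hsy⟩ := hsfix
  have hsid : ∀ z ∈ Icc u v, s z = z := fun z hz => kopell h𝒢 hk hs hks hC hy hsy hz
  have hIh : ∀ z ∈ Icc u v, h z ∈ Icc u v := by
    intro z hz
    constructor
    · calc u = h u := hhu.symm
        _ ≤ _ := (h𝒢 _ hh).mono.monotone hz.1
    · calc h z ≤ h v := (h𝒢 _ hh).mono.monotone hz.2
        _ = v := hhv
  have hxI : x ∈ Icc u v := ⟨hx.1.le, hx.2.le⟩
  have e : (s * h * s⁻¹) x = (h ^ 2) x := by rw [hr]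
  rw [Perm.mul_apply, Perm.mul_apply, fix_inv (hsid x hxI), hsid _ (hIh x hxI), pow_two,
    Perm.mul_apply] at e
  exact hhx (h.injective e.symm)

end group2

end Pool.Agent.Work.MP_4516ee_al
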