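import Mathlib

/-! The relations. -/

namespace Pool.Agent.Work.MP_4516ee_al

/-- the defining relations satisfied by the generators -/
structure Rel {Γ : Type*} [Group Γ] (s h H f : Γ) (g : ℕ → ℕ → Γ) : Prop where
  r1 : s * h * s⁻¹ = h ^ 2
  r2s : Commute (H * h * H⁻¹) s
  r2h : Commute (H * h * H⁻¹) h
  r6 : Commute (H * (f * H * f⁻¹) * H⁻¹) (f * H * f⁻¹)
  r6s : ∀ n : ℕ, Commute (H * (f * H * f⁻¹) * H⁻¹) (f ^ (n + 1) * s * (f ^ (n + 1))⁻¹)
  r6h : ∀ n : ℕ, Commute (H * (f * H * f⁻¹) * H⁻¹) (f ^ (n + 1) * h * (f ^ (n + 1))⁻¹)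
  r7s : ∀ i N n : ℕ, ∀ A : Γ, A = (H ^ (i + 1) * f) ^ n * f ^ N →
    Commute (g i N * (A * ((s ^ (n * (i + 1) ^ 2))⁻¹ * h * s ^ (n * (i + 1) ^ 2)) * A⁻¹)⁻¹)
      (A * s * A⁻¹)
  r7h : ∀ i N n : ℕ, ∀ A : Γ, A = (H ^ (i + 1) * f) ^ n * f ^ N →
    Commute (g i N * (A * ((s ^ (n * (i + 1) ^ 2))⁻¹ * h * s ^ (n * (i + 1) ^ 2)) * A⁻¹)⁻¹)
      (A * h * A⁻¹)

lemma Rel.map {Γ Δ : Type*} [Group Γ] [Group Δ] {s h H f : Γ} {g : ℕ → ℕ → Γ}
    (R : Rel s h H f g) (ρ : Γ →* Δ) : Rel (ρ s) (ρ h) (ρ H) (ρ f) (fun i N => ρ (g i N)) where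
  r1 := by
    have := congrArg ρ R.r1
    simpa only [map_mul, map_inv, map_pow] using this
  r2s := by
    have := R.r2s.map ρ
    simpa only [map_mul, map_inv, map_pow] using this
  r2h := by
    have := R.r2h.map ρ
    simpa only [map_mul, map_inv, map_pow] using this
  r6 := by
    have := R.r6.map ρ
    simpa only [map_mul, map_inv, map_pow] using this
  r6s := by
    intro n
    have := (R.r6s n).map ρ
    simpa only [map_mul, map_inv, map_pow] using this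
  r6h := by
    intro n
    have := (R.r6h n).map ρ
    simpa only [map_mul, map_inv, map_pow] using this
  r7s := by
    intro i N n A hA
    have := (R.r7s i N n _ rfl).map ρ
    rw [hA]
    simpa only [map_mul, map_inv, map_pow] using this
  r7h := by
    intro i N n A hA
    have := (R.r7h i N n _ rfl).map ρ
    rw [hA]
    simpa only [map_mul, map_inv, map_pow] using this

end Pool.Agent.Work.MP_4516ee_al
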