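import Mathlib
import Pool.Agent.Work.MP_4516ee_al.Dyn
import Pool.Agent.Work.MP_4516ee_al.Rel

/-! Main dynamical argument. -/

open Set Equiv
open scoped ContDiff

namespace Pool.Agent.Work.MP_4516ee_al

/-- a map which has fixed points accumulating at `p` is infinitely tangent to zero -/
lemma flat_of_zeros {U : Set ℝ} (hU : IsOpen U) (hconv : Convex ℝ U) {p : ℝ} (hp : p ∈ U) (r : ℕ) :
    ∀ G : ℝ → ℝ, ContDiffOn ℝ ∞ G U → (∀ k : ℕ, ∃ C, ∀ x ∈ U, |iteratedDeriv k G x| ≤ C) →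
    (∀ ε > 0, ∃ x, x ≠ p ∧ |x - p| < ε ∧ G x = 0) →
    ∃ C, 0 ≤ C ∧ ∀ x ∈ U, |G x| ≤ C * |x - p| ^ r := by
  induction r with
  | zero =>
    intro G _ hb _
    obtain ⟨C, hC⟩ := hb 0
    refine ⟨|C|, abs_nonneg _, fun x hx => ?_⟩
    have := hC x hx
    rw [iteratedDeriv_zero] at this
    simpa using this.trans (le_abs_self C)
  | succ r ih =>
    intro G hG hb hz
    have hdiff : ∀ x ∈ U, DifferentiableAt ℝ G x := fun x hx =>
      ((hG x hx).contDiffAt (hU.mem_nhds hx)).differentiableAt (by simp)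
    have hGp : G p = 0 := by
      by_contra hne
      have hc : ContinuousAt G p := (hdiff p hp).continuousAt
      have hev : ∀ᶠ x in nhds p, G x ≠ 0 := hc.eventually_ne hne
      obtain ⟨ε, hε, hball⟩ := Metric.eventually_nhds_iff.1 hev
      obtain ⟨x, _, hx1, hx2⟩ := hz ε hε
      exact hball (by rwa [Real.dist_eq]) hx2
    have hG' : ContDiffOn ℝ ∞ (deriv G) U := by
      apply hG.deriv_of_isOpen hU
      simp
    have hb' : ∀ k : ℕ, ∃ C, ∀ x ∈ U, |iteratedDeriv k (deriv G) x| ≤ C := by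
      intro k
      obtain ⟨C, hC⟩ := hb (k + 1)
      refine ⟨C, fun x hx => ?_⟩
      have := hC x hx
      rwa [iteratedDeriv_succ'] at this
    have hz' : ∀ ε > 0, ∃ x, x ≠ p ∧ |x - p| < ε ∧ deriv G x = 0 := by
      intro ε hε
      obtain ⟨δ, hδ, hball⟩ := Metric.isOpen_iff.1 hU p hp
      obtain ⟨x, hxp, hx1, hx2⟩ := hz (min ε δ) (lt_min hε hδ)
      have hxU : ∀ y, |y - p| ≤ |x - p| → y ∈ U := by
        intro y hy
        apply hball
        rw [Metric.mem_ball, Real.dist_eq]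
        exact lt_of_le_of_lt hy (lt_of_lt_of_le hx1 (min_le_right _ _))
      rcases lt_or_gt_of_ne hxp with hlt | hgt
      · have hcont : ContinuousOn G (Icc x p) := by
          intro y hy
          apply (hdiff y (hxU y _)).continuousAt.continuousWithinAt
          rw [abs_of_nonpos (by linarith [hy.2]), abs_of_neg (by linarith)]
          linarith [hy.1]
        obtain ⟨ξ, hξ, hξ0⟩ := exists_deriv_eq_zero hlt hcont (by rw [hx2, hGp])
        refine ⟨ξ, hξ.2.ne, ?_, hξ0⟩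
        have h1 : |ξ - p| ≤ |x - p| := by
          rw [abs_of_nonpos (by linarith [hξ.2]), abs_of_neg (by linarith)]
          linarith [hξ.1]
        exact lt_of_le_of_lt h1 (lt_of_lt_of_le hx1 (min_le_left _ _))
      · have hcont : ContinuousOn G (Icc p x) := by
          intro y hy
          apply (hdiff y (hxU y _)).continuousAt.continuousWithinAt
          rw [abs_of_nonneg (by linarith [hy.1]), abs_of_pos (by linarith)]
          linarith [hy.2]
        obtain ⟨ξ, hξ, hξ0⟩ := exists_deriv_eq_zero hgt hcont (by rw [hx2, hGp])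
        refine ⟨ξ, hξ.1.ne', ?_, hξ0⟩
        have h1 : |ξ - p| ≤ |x - p| := by
          rw [abs_of_nonneg (by linarith [hξ.1]), abs_of_pos (by linarith)]
          linarith [hξ.2]
        exact lt_of_le_of_lt h1 (lt_of_lt_of_le hx1 (min_le_left _ _))
    obtain ⟨C, hC0, hC⟩ := ih (deriv G) hG' hb' hz'
    refine ⟨C, hC0, fun x hx => ?_⟩
    have hseg : ∀ z ∈ uIcc p x, |z - p| ≤ |x - p| := by
      intro z hz
      rw [mem_uIcc] at hz
      rcases hz with hz | hz
      · rw [abs_of_nonneg (by linarith), abs_of_nonneg (by linarith)]; linarith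
      · rw [abs_of_nonpos (by linarith), abs_of_nonpos (by linarith)]; linarith
    have hsegU : uIcc p x ⊆ U := by
      rw [← segment_eq_uIcc]
      exact hconv.segment_subset hp hx
    have h1 := Convex.norm_image_sub_le_of_norm_deriv_le (f := G) (s := uIcc p x) (x := p) (y := x)
      (C := C * |x - p| ^ r) (fun z hz => hdiff z (hsegU hz))
      (fun z hz => by
        rw [Real.norm_eq_abs]
        refine (hC z (hsegU hz)).trans ?_
        exact mul_le_mul_of_nonneg_left (pow_le_pow_left₀ (abs_nonneg _) (hseg z hz) r) hC0)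
      (convex_uIcc p x) left_mem_uIcc right_mem_uIcc
    rw [hGp, sub_zero, Real.norm_eq_abs, Real.norm_eq_abs] at h1
    calc |G x| ≤ C * |x - p| ^ r * |x - p| := h1
      _ = C * |x - p| ^ (r + 1) := by ring

/-- separation: a monotone map moving all points of `(p,q)` up and off `(p,q)` -/
lemma sep_up {κ : Perm ℝ} (hκ : StrictMono κ) {p q : ℝ} (hpq : p < q)
    (hd : ∀ y ∈ Ioo p q, κ y ∉ Ioo p q) (hup : ∀ y ∈ Ioo p q, y < κ y) : q ≤ κ p := by
  by_contra hc
  push Not at hc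
  have h1 : p < κ⁻¹ q := by
    calc p = κ⁻¹ (κ p) := (inv_app κ p).symm
      _ < κ⁻¹ q := strictMono_inv hκ hc
  set y := (p + min (κ⁻¹ q) q) / 2 with hy
  have h2 : p < min (κ⁻¹ q) q := lt_min h1 hpq
  have hyp : p < y := by rw [hy]; linarith
  have hym : y < min (κ⁻¹ q) q := by rw [hy]; linarith
  have hyq : y < q := lt_of_lt_of_le hym (min_le_right _ _)
  have h3 : κ y < q := by
    calc κ y < κ (κ⁻¹ q) := hκ (lt_of_lt_of_le hym (min_le_left _ _))
      _ = q := app_inv κ q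
  exact hd y ⟨hyp, hyq⟩ ⟨by linarith [hup y ⟨hyp, hyq⟩], h3⟩

lemma sep_down {κ : Perm ℝ} (hκ : StrictMono κ) {p q : ℝ} (hpq : p < q)
    (hd : ∀ y ∈ Ioo p q, κ y ∉ Ioo p q) (hdn : ∀ y ∈ Ioo p q, κ y < y) : κ q ≤ p := by
  by_contra hc
  push Not at hc
  have h1 : κ⁻¹ p < q := by
    calc κ⁻¹ p < κ⁻¹ (κ q) := strictMono_inv hκ hc
      _ = q := (inv_app κ q)
  set y := (q + max (κ⁻¹ p) p) / 2 with hy
  have h2 : max (κ⁻¹ p) p < q := max_lt h1 hpq
  have hyp : y < q := by rw [hy]; linarith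
  have hym : max (κ⁻¹ p) p < y := by rw [hy]; linarith
  have hyq : p < y := lt_of_le_of_lt (le_max_right _ _) hym
  have h3 : p < κ y := by
    calc p = κ (κ⁻¹ p) := (app_inv κ p).symm
      _ < κ y := hκ (lt_of_le_of_lt (le_max_left _ _) hym)
  exact hd y ⟨hyq, hyp⟩ ⟨h3, by linarith [hdn y ⟨hyq, hyp⟩]⟩

/-- translates of a wandering interval have bounded total length -/
lemma sum_wander {κ : Perm ℝ} (hκ : StrictMono κ) {p q u v : ℝ} (hpq : p ≤ q)
    (hu : κ u = u) (hv : κ v = v) (hup : u ≤ p) (hqv : q ≤ v)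
    (hsep : q ≤ κ p ∨ κ q ≤ p) (n : ℕ) :
    ∑ j ∈ Finset.range n, ((κ ^ j) q - (κ ^ j) p) ≤ v - u := by
  have hI : ∀ (m : ℕ) x, u ≤ x → x ≤ v → u ≤ (κ ^ m) x ∧ (κ ^ m) x ≤ v := by
    intro m x h1 h2
    constructor
    · calc u = (κ ^ m) u := (fix_pow hu m).symm
        _ ≤ _ := (strictMono_pow hκ m).monotone h1
    · calc (κ ^ m) x ≤ (κ ^ m) v := (strictMono_pow hκ m).monotone h2
        _ = v := fix_pow hv m
  rcases hsep with h | h
  · calc ∑ j ∈ Finset.range n, ((κ ^ j) q - (κ ^ j) p)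
    _ ≤ ∑ j ∈ Finset.range n, ((κ ^ (j + 1)) p - (κ ^ j) p) := by
        apply Finset.sum_le_sum
        intro j _
        have : (κ ^ j) q ≤ (κ ^ (j + 1)) p := by
          rw [pow_succ, Perm.mul_apply]
          exact (strictMono_pow hκ j).monotone h
        linarith
    _ = (κ ^ n) p - (κ ^ 0) p := Finset.sum_range_sub (fun j => (κ ^ j) p) n
    _ ≤ v - u := by
        have h1 := (hI n p hup (by linarith)).2
        have h2 := (hI 0 p hup (by linarith)).1
        linarith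
  · calc ∑ j ∈ Finset.range n, ((κ ^ j) q - (κ ^ j) p)
    _ ≤ ∑ j ∈ Finset.range n, ((κ ^ j) q - (κ ^ (j + 1)) q) := by
        apply Finset.sum_le_sum
        intro j _
        have : (κ ^ (j + 1)) q ≤ (κ ^ j) p := by
          rw [pow_succ, Perm.mul_apply]
          exact (strictMono_pow hκ j).monotone h
        linarith
    _ = (κ ^ 0) q - (κ ^ n) q := Finset.sum_range_sub' (fun j => (κ ^ j) q) n
    _ ≤ v - u := by
        have h1 := (hI n q (by linarith) hqv).1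
        have h2 := (hI 0 q (by linarith) hqv).2
        linarith

/-- powers of a map fixing the ends of `[u,v]` do not shrink too much -/
lemma pow_lower {a b : ℝ} {κ : Perm ℝ} (hκ : Good a b κ) {L : ℝ}
    (hd : ∀ p q x y z w : ℝ, a ≤ p → q ≤ b → p ≤ x → x < y →
    y ≤ q → p ≤ z → z < w → w ≤ q → sl κ x y ≤ Real.exp (L * (q - p)) * sl κ z w)
    {u v : ℝ} (hau : a ≤ u) (hvb : v ≤ b) (hu : κ u = u) (hv : κ v = v) {p q : ℝ}
    (hup : u ≤ p) (hpq : p < q) (hqv : q ≤ v) (j : ℕ) :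
    q - p ≤ Real.exp (j * (L * (v - u))) * ((κ ^ j) q - (κ ^ j) p) := by
  induction j with
  | zero => simp
  | succ j ih =>
    have hI : ∀ x, u ≤ x → x ≤ v → u ≤ (κ ^ j) x ∧ (κ ^ j) x ≤ v := by
      intro x h1 h2
      constructor
      · calc u = (κ ^ j) u := (fix_pow hu j).symm
          _ ≤ _ := (strictMono_pow hκ.mono j).monotone h1
      · calc (κ ^ j) x ≤ (κ ^ j) v := (strictMono_pow hκ.mono j).monotone h2
          _ = v := fix_pow hv j
    have hlt : (κ ^ j) p < (κ ^ j) q := strictMono_pow hκ.mono j hpq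
    have huv : u < v := by linarith
    have h1 := hd u v u v ((κ ^ j) p) ((κ ^ j) q) hau hvb le_rfl huv le_rfl
      (hI p hup (by linarith)).1 hlt (hI q (by linarith) hqv).2
    have h2 : sl κ u v = 1 := by
      rw [sl, hu, hv]; exact div_self (sub_pos.2 huv).ne'
    rw [h2] at h1
    have h3 : (κ ^ j) q - (κ ^ j) p ≤ Real.exp (L * (v - u)) *
        ((κ ^ (j + 1)) q - (κ ^ (j + 1)) p) := by
      have h4 : (κ ^ (j + 1)) q - (κ ^ (j + 1)) p =
          sl κ ((κ ^ j) p) ((κ ^ j) q) * ((κ ^ j) q - (κ ^ j) p) := by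
        rw [sl, div_mul_cancel₀ _ (sub_pos.2 hlt).ne', pow_succ', Perm.mul_apply, Perm.mul_apply]
      rw [h4, ← mul_assoc]
      exact le_mul_of_one_le_left (sub_pos.2 hlt).le h1
    calc q - p ≤ Real.exp (j * (L * (v - u))) * ((κ ^ j) q - (κ ^ j) p) := ih
      _ ≤ Real.exp (j * (L * (v - u))) * (Real.exp (L * (v - u)) *
        ((κ ^ (j + 1)) q - (κ ^ (j + 1)) p)) :=
          mul_le_mul_of_nonneg_left h3 (Real.exp_pos _).le
      _ = Real.exp (((j + 1 : ℕ) : ℝ) * (L * (v - u))) *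
        ((κ ^ (j + 1)) q - (κ ^ (j + 1)) p) := by
          rw [← mul_assoc, ← Real.exp_add, Nat.cast_succ]; ring_nf

/-- conjugation of components -/
lemma IsComp.conj {a b : ℝ} {φ f : Perm ℝ} (hf : Good a b f) {u v : ℝ} (hC : IsComp a b φ u v) :
    IsComp a b (f * φ * f⁻¹) (f u) (f v) where
  hu := (hf.map_Icc ⟨hC.hu, by linarith [hC.huv, hC.hv]⟩).1
  huv := hf.mono hC.huv
  hv := (hf.map_Icc ⟨by linarith [hC.huv, hC.hu], hC.hv⟩).2
  fu := by rw [Perm.mul_apply, Perm.mul_apply, inv_app, hC.fu]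
  fv := by rw [Perm.mul_apply, Perm.mul_apply, inv_app, hC.fv]
  ne := by
    intro z hz hfz
    rw [Perm.mul_apply, Perm.mul_apply] at hfz
    have h1 : φ (f⁻¹ z) = f⁻¹ z := by
      have := congrArg (f⁻¹ : Perm ℝ) hfz
      rwa [inv_app] at this
    refine hC.ne (f⁻¹ z) ⟨?_, ?_⟩ h1
    · calc u = f⁻¹ (f u) := (inv_app f u).symm
        _ < f⁻¹ z := strictMono_inv hf.mono hz.1
    · calc f⁻¹ z < f⁻¹ (f v) := strictMono_inv hf.mono hz.2
        _ = v := inv_app f v

section main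

variable {a b : ℝ} {𝒢 : Subgroup (Perm ℝ)} (h𝒢 : ∀ φ ∈ 𝒢, Good a b φ)
include h𝒢

variable {s h H f : Perm ℝ} (hs : s ∈ 𝒢) (hh : h ∈ 𝒢) (hH : H ∈ 𝒢) (hf : f ∈ 𝒢)
include hs hh hH hf

/-- Step 1 -/
lemma step1 (r1 : s * h * s⁻¹ = h ^ 2) (r2s : Commute (H * h * H⁻¹) s)
    (r2h : Commute (H * h * H⁻¹) h) {z : ℝ} (hz : h z ≠ z) : H z ≠ z := by
  intro hHz
  have hk : H * h * H⁻¹ ∈ 𝒢 := mul_mem (mul_mem hH hh) (inv_mem hH)
  rcases lemmaA h𝒢 hs hh hk r1 r2s r2h z with h1 | h1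
  · rw [Perm.mul_apply, Perm.mul_apply, fix_inv hHz] at h1
    have : H (h z) = H z := by rw [h1, hHz]
    exact hz (H.injective this)
  · exact hz h1

/-- Step 2 -/
lemma step2 (r1 : s * h * s⁻¹ = h ^ 2)
    (r6 : Commute (H * (f * H * f⁻¹) * H⁻¹) (f * H * f⁻¹))
    (r6s : ∀ n : ℕ, Commute (H * (f * H * f⁻¹) * H⁻¹) (f ^ (n + 1) * s * (f ^ (n + 1))⁻¹))
    (r6h : ∀ n : ℕ, Commute (H * (f * H * f⁻¹) * H⁻¹) (f ^ (n + 1) * h * (f ^ (n + 1))⁻¹))
    {x : ℝ} (hx : h x ≠ x) (n : ℕ) {u v : ℝ} (hC : IsComp a b H u v)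
    (hxI : (f ^ n) x ∈ Ioo u v) {y : ℝ} (hy : y ∈ Icc (f u) (f v)) :
    H⁻¹ y ∉ Ioo (f u) (f v) := by
  have hφ : f * H * f⁻¹ ∈ 𝒢 := mul_mem (mul_mem hf hH) (inv_mem hf)
  have hk : H * (f * H * f⁻¹) * H⁻¹ ∈ 𝒢 := mul_mem (mul_mem hH hφ) (inv_mem hH)
  have hF : f ^ (n + 1) ∈ 𝒢 := pow_mem hf _
  have hs' : f ^ (n + 1) * s * (f ^ (n + 1))⁻¹ ∈ 𝒢 := mul_mem (mul_mem hF hs) (inv_mem hF)
  have hh' : f ^ (n + 1) * h * (f ^ (n + 1))⁻¹ ∈ 𝒢 := mul_mem (mul_mem hF hh) (inv_mem hF)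
  have hr' : (f ^ (n + 1) * s * (f ^ (n + 1))⁻¹) * (f ^ (n + 1) * h * (f ^ (n + 1))⁻¹) *
      (f ^ (n + 1) * s * (f ^ (n + 1))⁻¹)⁻¹ = (f ^ (n + 1) * h * (f ^ (n + 1))⁻¹) ^ 2 := by
    rw [conj_pow, ← r1]; group
  have hC' : IsComp a b (f * H * f⁻¹) (f u) (f v) := hC.conj (h𝒢 _ hf)
  have hxn : (f ^ (n + 1)) x ∈ Ioo (f u) (f v) := by
    rw [pow_succ', Perm.mul_apply]
    exact ⟨(h𝒢 _ hf).mono hxI.1, (h𝒢 _ hf).mono hxI.2⟩
  have hkx : (H * (f * H * f⁻¹) * H⁻¹) ((f ^ (n + 1)) x) = (f ^ (n + 1)) x := by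
    rcases lemmaA h𝒢 hs' hh' hk hr' (r6s n) (r6h n) ((f ^ (n + 1)) x) with h1 | h1
    · exact h1
    · exfalso
      rw [Perm.mul_apply, Perm.mul_apply, inv_app] at h1
      exact hx ((f ^ (n + 1)).injective h1)
  have hky := kopell h𝒢 hφ hk r6.symm hC' hxn hkx hy
  rw [Perm.mul_apply, Perm.mul_apply] at hky
  intro hcon
  have h2 : (f * H * f⁻¹) (H⁻¹ y) = H⁻¹ y := by
    apply H.injective
    rw [hky, app_inv]
  exact hC'.ne _ hcon h2

/-- Step 2, continued -/
lemma step2b {u v : ℝ} (hC : IsComp a b H u v) {x : ℝ} (hx : x ∈ Ioo u v)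
    (hd : ∀ y ∈ Icc (f u) (f v), H⁻¹ y ∉ Ioo (f u) (f v)) {u' v' : ℝ} (hC' : IsComp a b H u' v')
    (hx' : f x ∈ Ioo u' v') : u' ≤ f u ∧ f v ≤ v' := by
  have hne : ∀ y ∈ Ioo (f u) (f v), H y ≠ y := by
    intro y hy hfy
    apply hd y ⟨hy.1.le, hy.2.le⟩
    rw [fix_inv hfy]
    exact hy
  have hfx : f x ∈ Ioo (f u) (f v) := ⟨(h𝒢 _ hf).mono hx.1, (h𝒢 _ hf).mono hx.2⟩
  constructor
  · by_contra hc
    push Not at hc
    exact hne u' ⟨hc, hx'.1.trans hfx.2⟩ hC'.fu
  · by_contra hc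
    push Not at hc
    exact hne v' ⟨hfx.1.trans hx'.2, hc⟩ hC'.fv

end main

/-- Lengths cannot shrink when small. -/
lemma growth {a b : ℝ} (hab : a < b) {H f : Perm ℝ} (hH' : Good a b H⁻¹)
    (hf : Good a b f) : ∃ δ > 0, ∀ u v u' v' : ℝ, IsComp a b H u v → IsComp a b H u' v' →
      u' ≤ f u → f v ≤ v' → (∀ y ∈ Icc (f u) (f v), H⁻¹ y ∉ Ioo (f u) (f v)) →
      v' - u' < δ → v - u ≤ v' - u' := by
  obtain ⟨L, hL, hd⟩ := hH'.dist
  obtain ⟨C, hC1, -, hClow⟩ := hf.lip hab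
  obtain ⟨M, hM⟩ := exists_nat_gt (2 * C)
  have hMpos : (0:ℝ) < M := by linarith
  refine ⟨Real.log 2 / (M * L + 1), div_pos (Real.log_pos one_lt_two) (by positivity), ?_⟩
  intro u v u' v' hc hc' huu hvv hdis hlt
  have hpq : f u < f v := hf.mono hc.huv
  have hκ := hH'.mono
  have hne : ∀ z ∈ Ioo u' v', (H⁻¹ : Perm ℝ) z ≠ z := by
    intro z hz hfz
    apply hc'.ne z hz
    have := congrArg H hfz
    rw [app_inv] at this
    exact this.symm
  have hdis' : ∀ y ∈ Ioo (f u) (f v), (H⁻¹ : Perm ℝ) y ∉ Ioo (f u) (f v) :=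
    fun y hy => hdis y ⟨hy.1.le, hy.2.le⟩
  have hsub : ∀ y ∈ Ioo (f u) (f v), y ∈ Ioo u' v' :=
    fun y hy => ⟨lt_of_le_of_lt huu hy.1, lt_of_lt_of_le hy.2 hvv⟩
  have hsep : f v ≤ (H⁻¹ : Perm ℝ) (f u) ∨ (H⁻¹ : Perm ℝ) (f v) ≤ f u := by
    rcases comp_sign hH'.continuous hne with h1 | h1
    · left
      exact sep_up hκ hpq hdis' (fun y hy => h1 y (hsub y hy))
    · right
      exact sep_down hκ hpq hdis' (fun y hy => h1 y (hsub y hy))
  have hsum := sum_wander hκ hpq.le (fix_inv hc'.fu) (fix_inv hc'.fv) huu hvv hsep M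
  have hlow : ∀ j ∈ Finset.range M, (f v - f u) / 2 ≤
      ((H⁻¹ : Perm ℝ) ^ j) (f v) - ((H⁻¹ : Perm ℝ) ^ j) (f u) := by
    intro j hj
    rw [Finset.mem_range] at hj
    have h1 := pow_lower hH' hd hc'.hu hc'.hv (fix_inv hc'.fu) (fix_inv hc'.fv) huu hpq hvv j
    have h2 : Real.exp (j * (L * (v' - u'))) ≤ 2 := by
      rw [← Real.le_log_iff_exp_le two_pos]
      have h3 : (j : ℝ) * (L * (v' - u')) ≤ M * L * (v' - u') := by
        rw [← mul_assoc]
        have hjM : (j : ℝ) ≤ M := by exact_mod_cast hj.le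
        have : (j : ℝ) * L ≤ M * L := mul_le_mul_of_nonneg_right hjM hL
        exact mul_le_mul_of_nonneg_right this (by linarith [hc'.huv])
      have h4 : (v' - u') * (M * L + 1) < Real.log 2 := by
        rwa [lt_div_iff₀ (by positivity)] at hlt
      have h5 : 0 < v' - u' := by linarith [hc'.huv]
      nlinarith
    have h6 : 0 < ((H⁻¹ : Perm ℝ) ^ j) (f v) - ((H⁻¹ : Perm ℝ) ^ j) (f u) :=
      sub_pos.2 (strictMono_pow hκ j hpq)
    nlinarith
  have h7 : (M : ℝ) * ((f v - f u) / 2) ≤ v' - u' := by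
    calc (M : ℝ) * ((f v - f u) / 2) = ∑ j ∈ Finset.range M, (f v - f u) / 2 := by
          rw [Finset.sum_const, Finset.card_range, nsmul_eq_mul]
      _ ≤ ∑ j ∈ Finset.range M,
          (((H⁻¹ : Perm ℝ) ^ j) (f v) - ((H⁻¹ : Perm ℝ) ^ j) (f u)) := Finset.sum_le_sum hlow
      _ ≤ v' - u' := hsum
  have h8 := hClow u v hc.hu hc.huv hc.hv
  rw [le_sl_iff hc.huv] at h8
  have hCpos : 0 < C := by linarith
  have h9 : v - u ≤ C * (f v - f u) := by
    rw [div_mul_eq_mul_div, one_mul, div_le_iff₀ hCpos] at h8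
    linarith [mul_comm C (f v - f u)]
  have h10 : C * (f v - f u) ≤ (M : ℝ) / 2 * (f v - f u) := by
    apply mul_le_mul_of_nonneg_right _ (sub_pos.2 hpq).le
    linarith
  linarith

/-- Step 3: the sequence of components stabilises at some point -/
lemma step3 {a b : ℝ} (hab : a < b) {H f : Perm ℝ} (hH' : Good a b H⁻¹)
    (hf : Good a b f) {x : ℝ} {u v : ℕ → ℝ} (hC : ∀ n, IsComp a b H (u n) (v n))
    (hx : ∀ n, (f ^ n) x ∈ Ioo (u n) (v n))
    (hd : ∀ n, ∀ y ∈ Icc (f (u n)) (f (v n)), H⁻¹ y ∉ Ioo (f (u n)) (f (v n)))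
    (hin : ∀ n, u (n + 1) ≤ f (u n) ∧ f (v n) ≤ v (n + 1)) :
    ∃ N, u (N + 1) = u N ∧ v (N + 1) = v N := by
  by_contra hcon
  push Not at hcon
  have hne : ∀ n, (f ^ (n + 1)) x ∉ Ioo (u n) (v n) := by
    intro n hmem
    obtain ⟨h1, h2⟩ := comp_unique (hC n) (hC (n + 1)) hmem (hx (n + 1))
    exact hcon n h1.symm h2.symm
  obtain ⟨δ, hδ, hg⟩ := growth hab hH' hf
  have hlen : ∀ n, 0 < v n - u n := fun n => sub_pos.2 (hC n).huv
  -- bounded sums
  have hsum : ∀ n, ∑ j ∈ Finset.range n, (v j - u j) ≤ b - a := by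
    have hx0 : f x ≠ x := by
      intro hfx
      apply hne 0
      have := hx 0
      rw [pow_zero, Perm.one_apply] at this
      rw [zero_add, pow_one, hfx]
      exact this
    rcases lt_or_gt_of_ne hx0 with hlt | hgt
    · have hdec : ∀ n, (f ^ (n + 1)) x < (f ^ n) x := by
        intro n
        rw [pow_succ, Perm.mul_apply]
        exact strictMono_pow hf.mono n hlt
      have hstep : ∀ n, v (n + 1) ≤ u n := by
        intro n
        have h1 : (f ^ (n + 1)) x ≤ u n := by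
          by_contra hc
          push Not at hc
          exact hne n ⟨hc, (hdec n).trans (hx n).2⟩
        by_contra hc
        push Not at hc
        rcases h1.lt_or_eq with h2 | h2
        · exact (hC (n + 1)).ne (u n) ⟨(hx (n + 1)).1.trans h2, hc⟩ (hC n).fu
        · exact (hC (n + 1)).ne (u n) (h2 ▸ hx (n + 1)) (hC n).fu
      intro n
      calc ∑ j ∈ Finset.range n, (v j - u j)
        _ ≤ ∑ j ∈ Finset.range n, (v j - v (j + 1)) := by
            apply Finset.sum_le_sum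
            intro j _
            linarith [hstep j]
        _ = v 0 - v n := Finset.sum_range_sub' v n
        _ ≤ b - a := by linarith [(hC 0).hv, (hC n).hu, (hC n).huv]
    · have hinc : ∀ n, (f ^ n) x < (f ^ (n + 1)) x := by
        intro n
        rw [pow_succ, Perm.mul_apply]
        exact strictMono_pow hf.mono n hgt
      have hstep : ∀ n, v n ≤ u (n + 1) := by
        intro n
        have h1 : v n ≤ (f ^ (n + 1)) x := by
          by_contra hc
          push Not at hc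
          exact hne n ⟨(hx n).1.trans (hinc n), hc⟩
        by_contra hc
        push Not at hc
        rcases h1.lt_or_eq with h2 | h2
        · exact (hC (n + 1)).ne (v n) ⟨hc, h2.trans (hx (n + 1)).2⟩ (hC n).fv
        · exact (hC (n + 1)).ne (v n) (h2 ▸ hx (n + 1)) (hC n).fv
      intro n
      calc ∑ j ∈ Finset.range n, (v j - u j)
        _ ≤ ∑ j ∈ Finset.range n, (u (j + 1) - u j) := by
            apply Finset.sum_le_sum
            intro j _
            linarith [hstep j]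
        _ = u n - u 0 := Finset.sum_range_sub u n
        _ ≤ b - a := by linarith [(hC 0).hu, (hC n).hv, (hC n).huv]
  have hlim := tendsto_zero_of_sum_le (fun n => (hlen n).le) hsum
  have hev : ∀ᶠ n in Filter.atTop, v n - u n < δ := (tendsto_order.1 hlim).2 δ hδ
  obtain ⟨n₀, hn₀⟩ := Filter.eventually_atTop.1 hev
  have hmono : ∀ k, v n₀ - u n₀ ≤ v (n₀ + k) - u (n₀ + k) := by
    intro k
    induction k with
    | zero => simp
    | succ k ih =>
      have h1 := hg (u (n₀ + k)) (v (n₀ + k)) (u (n₀ + k + 1)) (v (n₀ + k + 1)) (hC _) (hC _)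
        (hin _).1 (hin _).2 (hd _) (hn₀ _ (by omega))
      rw [← add_assoc]
      linarith
  obtain ⟨n₁, hn₁⟩ := Filter.eventually_atTop.1 ((tendsto_order.1 hlim).2 _ (hlen n₀))
  have h1 := hn₁ (n₀ + n₁) (by omega)
  have h2 := hmono n₁
  linarith

/-- Step 4: contraction -/
lemma step4 {a b : ℝ} (hab : a < b) {H f : Perm ℝ} (hH : Good a b H) (hH' : Good a b H⁻¹)
    (hf : Good a b f) {u v : ℝ} (hC : IsComp a b H u v)
    (hd : ∀ y ∈ Icc (f u) (f v), H⁻¹ y ∉ Ioo (f u) (f v))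
    (hfu : u ≤ f u) (hfv : f v ≤ v) :
    a < u ∧ v < b ∧ ∃ i : ℕ, ∀ x y, u ≤ x → x < y → y ≤ v →
      (H ^ (i + 1) * f) y - (H ^ (i + 1) * f) x ≤ (1 / 2) * (y - x) := by
  obtain ⟨L, hL, hdist⟩ := hH.dist
  obtain ⟨C, hC1, hCup, -⟩ := hf.lip hab
  have hpq : f u < f v := hf.mono hC.huv
  have hdis : ∀ y ∈ Ioo (f u) (f v), H y ∉ Ioo (f u) (f v) := by
    intro y hy hcon
    apply hd (H y) ⟨hcon.1.le, hcon.2.le⟩
    rw [inv_app]
    exact hy
  have hsub : ∀ y ∈ Ioo (f u) (f v), y ∈ Ioo u v :=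
    fun y hy => ⟨lt_of_le_of_lt hfu hy.1, lt_of_lt_of_le hy.2 hfv⟩
  have hsep : f v ≤ H (f u) ∨ H (f v) ≤ f u := by
    rcases comp_sign hH.continuous hC.ne with h1 | h1
    · left
      exact sep_up hH.mono hpq hdis (fun y hy => h1 y (hsub y hy))
    · right
      exact sep_down hH.mono hpq hdis (fun y hy => h1 y (hsub y hy))
  have hfa : f a = a := hf.fix a (by simp)
  have hfb : f b = b := hf.fix b (by simp)
  have hHa : H a = a := hH.fix a (by simp)
  have hHb : H b = b := hH.fix b (by simp)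
  refine ⟨?_, ?_, ?_⟩
  · rcases hC.hu.lt_or_eq with h | h
    · exact h
    · exfalso
      rw [← h, hfa, hHa] at hsep
      rw [← h, hfa] at hpq
      rcases hsep with h1 | h1
      · linarith
      · have : H a < H (f v) := hH.mono hpq
        rw [hHa] at this
        linarith
  · rcases hC.hv.lt_or_eq with h | h
    · exact h
    · exfalso
      rw [h, hfb, hHb] at hsep
      rw [h, hfb] at hpq
      rcases hsep with h1 | h1
      · have : H (f u) < H b := hH.mono hpq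
        rw [hHb] at this
        linarith
      · linarith
  · have hsum := fun n => sum_wander hH.mono hpq.le hC.fu hC.fv hfu hfv hsep n
    have hlim := tendsto_zero_of_sum_le
      (fun n => sub_nonneg.2 ((strictMono_pow hH.mono n).monotone hpq.le)) hsum
    set K := Real.exp (L * (v - u)) with hK
    have hKpos : 0 < K := Real.exp_pos _
    have hCpos : 0 < C := by linarith
    have hε : 0 < (f v - f u) / (2 * K * C) := div_pos (sub_pos.2 hpq) (by positivity)
    obtain ⟨n₀, hn₀⟩ := Filter.eventually_atTop.1 ((tendsto_order.1 hlim).2 _ hε)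
    refine ⟨n₀, ?_⟩
    intro x y hx hxy hy
    have hn := hn₀ (n₀ + 1) (by omega)
    set n := n₀ + 1 with hndef
    have hIH : ∀ x ∈ Icc a b, H x ∈ Icc a b := fun x hx => hH.map_Icc hx
    have hua : a ≤ u := hC.hu
    have hvb : v ≤ b := hC.hv
    have hpI : f u ∈ Icc a b := hf.map_Icc ⟨hua, by linarith⟩
    have hqI : f v ∈ Icc a b := hf.map_Icc ⟨by linarith, hvb⟩
    have h1 := iter_dist hH.mono hdist hIH hpI hqI n (hf.mono.monotone hx) (hf.mono hxy)
      (hf.mono.monotone hy) le_rfl hpq le_rfl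
    have h2 : Real.exp (L * ∑ j ∈ Finset.range n, ((H ^ j) (f v) - (H ^ j) (f u))) ≤ K :=
      Real.exp_le_exp.2 (mul_le_mul_of_nonneg_left (hsum n) hL)
    have hslpos : 0 < sl (H ^ n) (f u) (f v) := sl_pos (strictMono_pow hH.mono n) hpq
    have h3 : sl (H ^ n) (f x) (f y) ≤ K * sl (H ^ n) (f u) (f v) :=
      h1.trans (mul_le_mul_of_nonneg_right h2 hslpos.le)
    have h4 : sl (H ^ n) (f u) (f v) ≤ 1 / (2 * K * C) := by
      rw [sl_le_iff hpq]
      rw [div_mul_eq_mul_div, one_mul]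
      exact hn.le
    have h5 : sl f x y ≤ C := hCup x y (by linarith) hxy (by linarith)
    have h6 : sl (H ^ n * f) x y ≤ 1 / 2 := by
      rw [sl_mul hf.mono hxy]
      calc sl (H ^ n) (f x) (f y) * sl f x y ≤ (K * (1 / (2 * K * C))) * C := by
            apply mul_le_mul (h3.trans (mul_le_mul_of_nonneg_left h4 hKpos.le)) h5
              (sl_pos hf.mono hxy).le (by positivity)
        _ = 1 / 2 := by field_simp
    rwa [sl_le_iff hxy] at h6

end Pool.Agent.Work.MP_4516ee_al
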