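import Mathlib
import Pool.Agent.Work.MP_4516ee_al.Dyn2

/-! Main dynamical argument, conclusion. -/

open Set Equiv
open scoped ContDiff

namespace Pool.Agent.Work.MP_4516ee_al

lemma bs_conj_pow {Γ : Type*} [Group Γ] {s h : Γ} (hr : s * h * s⁻¹ = h ^ 2) (m : ℕ) :
    s ^ m * h * (s ^ m)⁻¹ = h ^ (2 ^ m) := by
  induction m with
  | zero => simp
  | succ m ih =>
    have : s ^ (m + 1) * h * (s ^ (m + 1))⁻¹ = s * (s ^ m * h * (s ^ m)⁻¹) * s⁻¹ := by
      rw [pow_succ']; group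
    rw [this, ih, ← conj_pow, hr, ← pow_mul, pow_succ']

lemma root_pow {Γ : Type*} [Group Γ] {s h : Γ} (hr : s * h * s⁻¹ = h ^ 2) (m : ℕ) :
    ((s ^ m)⁻¹ * h * s ^ m) ^ (2 ^ m) = h := by
  have h1 := conj_pow (a := (s ^ m)⁻¹) (b := h) (i := 2 ^ m)
  rw [inv_inv] at h1
  rw [h1, ← bs_conj_pow hr m]
  group

lemma fix_of_pow {φ : Perm ℝ} (hφ : StrictMono φ) {x : ℝ} {M : ℕ} (hM : 0 < M)
    (h : (φ ^ M) x = x) : φ x = x := by
  rcases lt_trichotomy (φ x) x with h1 | h1 | h1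
  · exfalso
    have : ∀ M : ℕ, (φ ^ (M + 1)) x < x := by
      intro M
      induction M with
      | zero => simpa using h1
      | succ M ih =>
        rw [pow_succ', Perm.mul_apply]
        exact (hφ ih).trans h1
    obtain ⟨k, rfl⟩ : ∃ k, M = k + 1 := ⟨M - 1, by omega⟩
    exact absurd h (this k).ne
  · exact h1
  · exfalso
    have : ∀ M : ℕ, x < (φ ^ (M + 1)) x := by
      intro M
      induction M with
      | zero => simpa using h1
      | succ M ih =>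
        rw [pow_succ', Perm.mul_apply]
        exact h1.trans (hφ ih)
    obtain ⟨k, rfl⟩ : ∃ k, M = k + 1 := ⟨M - 1, by omega⟩
    exact absurd h (this k).ne'

lemma abs_pow_lower {a b : ℝ} {T : Perm ℝ} (hT : Good a b T) {C : ℝ} (hC : 1 ≤ C)
    (hlow : ∀ x y, a ≤ x → x < y → y ≤ b → 1 / C ≤ sl T x y) (n : ℕ) {x y : ℝ}
    (hx : x ∈ Icc a b) (hy : y ∈ Icc a b) :
    |y - x| ≤ C ^ n * |(T ^ n) y - (T ^ n) x| := by
  have hC0 : 0 < C := by linarith
  have key : ∀ x y : ℝ, x ∈ Icc a b → y ∈ Icc a b → |y - x| ≤ C * |T y - T x| := by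
    have key1 : ∀ x y : ℝ, x ∈ Icc a b → y ∈ Icc a b → x < y → |y - x| ≤ C * |T y - T x| := by
      intro x y hx hy hxy
      have := hlow x y hx.1 hxy hy.2
      rw [le_sl_iff hxy, div_mul_eq_mul_div, one_mul, div_le_iff₀ hC0] at this
      rw [abs_of_pos (sub_pos.2 hxy), abs_of_pos (sub_pos.2 (hT.mono hxy))]
      linarith [mul_comm C (T y - T x)]
    intro x y hx hy
    rcases lt_trichotomy x y with h | h | h
    · exact key1 x y hx hy h
    · subst h; simp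
    · rw [abs_sub_comm y x, abs_sub_comm (T y) (T x)]
      exact key1 y x hy hx h
  have hI : ∀ (n : ℕ) x, x ∈ Icc a b → (T ^ n) x ∈ Icc a b := by
    intro n
    induction n with
    | zero => intro x hx; simpa using hx
    | succ n ih =>
      intro x hx
      rw [pow_succ', Perm.mul_apply]
      exact hT.map_Icc (ih x hx)
  induction n with
  | zero => simp
  | succ n ih =>
    calc |y - x| ≤ C ^ n * |(T ^ n) y - (T ^ n) x| := ih
      _ ≤ C ^ n * (C * |T ((T ^ n) y) - T ((T ^ n) x)|) :=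
          mul_le_mul_of_nonneg_left (key _ _ (hI n x hx) (hI n y hy)) (by positivity)
      _ = C ^ (n + 1) * |(T ^ (n + 1)) y - (T ^ (n + 1)) x| := by
          rw [pow_succ' T, Perm.mul_apply, Perm.mul_apply]; ring

lemma step5 {a b : ℝ} (hab : a < b) {𝒢 : Subgroup (Perm ℝ)} (h𝒢 : ∀ φ ∈ 𝒢, Good a b φ)
    {s h F T g : Perm ℝ} (hs : s ∈ 𝒢) (hh : h ∈ 𝒢) (hF : F ∈ 𝒢) (hT : T ∈ 𝒢) (hg : g ∈ 𝒢)
    (r1 : s * h * s⁻¹ = h ^ 2) (e : ℕ)
    (r7s : ∀ n : ℕ, Commute (g * ((T ^ n * F) * ((s ^ (n * e))⁻¹ * h * s ^ (n * e)) *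
      (T ^ n * F)⁻¹)⁻¹) ((T ^ n * F) * s * (T ^ n * F)⁻¹))
    (r7h : ∀ n : ℕ, Commute (g * ((T ^ n * F) * ((s ^ (n * e))⁻¹ * h * s ^ (n * e)) *
      (T ^ n * F)⁻¹)⁻¹) ((T ^ n * F) * h * (T ^ n * F)⁻¹))
    (hgs : ContDiffOn ℝ ∞ g (Ioo a b))
    (hgb : ∀ k : ℕ, ∃ C, ∀ x ∈ Ioo a b, |iteratedDeriv k g x| ≤ C)
    {c₀ d₀ x₀ u v : ℝ} (hC : IsComp a b h c₀ d₀) (hx₀ : x₀ ∈ Ioo c₀ d₀)
    (hFc : u ≤ F c₀) (hFd : F d₀ ≤ v) (hau : a < u) (hvb : v < b)
    (hTu : u ≤ T u) (hTv : T v ≤ v)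
    (hcon : ∀ x y, u ≤ x → x < y → y ≤ v → T y - T x ≤ (1 / 2) * (y - x)) : False := by
  have hTm := (h𝒢 _ hT).mono
  have hFm := (h𝒢 _ hF).mono
  have huv : u < v := by
    have := hFm hC.huv
    linarith
  -- the fixed point
  obtain ⟨p, hpI, hpT⟩ : ∃ p ∈ Icc u v, T p = p := by
    have hcont : ContinuousOn (fun z => T z - z) (Icc u v) :=
      ((h𝒢 _ hT).continuous.sub continuous_id).continuousOn
    have := intermediate_value_Icc' huv.le hcont
    obtain ⟨p, hp, hp0⟩ := this (⟨by linarith, by linarith⟩ : (0:ℝ) ∈ Icc (T v - v) (T u - u))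
    exact ⟨p, hp, by simpa [sub_eq_zero] using hp0⟩
  have hTI : ∀ (n : ℕ) x, x ∈ Icc u v → (T ^ n) x ∈ Icc u v := by
    intro n
    induction n with
    | zero => intro x hx; simpa using hx
    | succ n ih =>
      intro x hx
      rw [pow_succ', Perm.mul_apply]
      have := ih x hx
      exact ⟨hTu.trans (hTm.monotone this.1), (hTm.monotone this.2).trans hTv⟩
  have hTp : ∀ (n : ℕ) x, x ∈ Icc u v → |(T ^ n) x - p| ≤ (1 / 2) ^ n * (v - u) := by
    intro n x hx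
    induction n with
    | zero =>
      simp only [pow_zero, Perm.one_apply, one_mul]
      rw [abs_le]
      constructor <;> linarith [hx.1, hx.2, hpI.1, hpI.2]
    | succ n ih =>
      have h1 : |(T ^ (n + 1)) x - p| ≤ (1 / 2) * |(T ^ n) x - p| := by
        rw [pow_succ', Perm.mul_apply]
        have hy := hTI n x hx
        set y := (T ^ n) x
        rcases lt_trichotomy y p with hyp | hyp | hyp
        · have h2 := hcon y p hy.1 hyp hpI.2
          have h3 := hTm hyp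
          rw [hpT] at h2 h3
          rw [abs_of_neg (by linarith), abs_of_neg (by linarith)]
          linarith
        · rw [hyp, hpT]; simp
        · have h2 := hcon p y hpI.1 hyp hy.2
          have h3 := hTm hyp
          rw [hpT] at h2 h3
          rw [abs_of_pos (by linarith), abs_of_pos (by linarith)]
          linarith
      calc |(T ^ (n + 1)) x - p| ≤ (1 / 2) * |(T ^ n) x - p| := h1
        _ ≤ (1 / 2) * ((1 / 2) ^ n * (v - u)) := by linarith
        _ = (1 / 2) ^ (n + 1) * (v - u) := by ring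
  have hFI : ∀ x ∈ Icc c₀ d₀, F x ∈ Icc u v := fun x hx =>
    ⟨hFc.trans (hFm.monotone hx.1), (hFm.monotone hx.2).trans hFd⟩
  -- the root
  set κ : ℕ → Perm ℝ := fun n => (s ^ (n * e))⁻¹ * h * s ^ (n * e) with hκ
  set A : ℕ → Perm ℝ := fun n => T ^ n * F with hA
  have hκG : ∀ n, κ n ∈ 𝒢 := fun n =>
    mul_mem (mul_mem (inv_mem (pow_mem hs _)) hh) (pow_mem hs _)
  have hAG : ∀ n, A n ∈ 𝒢 := fun n => mul_mem (pow_mem hT _) hF
  have hκpow : ∀ n, (κ n) ^ (2 ^ (n * e)) = h := fun n => root_pow r1 _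
  have hκc : ∀ n, κ n c₀ = c₀ := fun n => fix_of_pow (h𝒢 _ (hκG n)).mono
    (M := 2 ^ (n * e)) (by positivity) (by rw [hκpow]; exact hC.fu)
  have hκd : ∀ n, κ n d₀ = d₀ := fun n => fix_of_pow (h𝒢 _ (hκG n)).mono
    (M := 2 ^ (n * e)) (by positivity) (by rw [hκpow]; exact hC.fv)
  have hκI : ∀ n, ∀ x ∈ Ioo c₀ d₀, κ n x ∈ Ioo c₀ d₀ := by
    intro n x hx
    constructor
    · calc c₀ = κ n c₀ := (hκc n).symm
        _ < _ := (h𝒢 _ (hκG n)).mono hx.1
    · calc κ n x < κ n d₀ := (h𝒢 _ (hκG n)).mono hx.2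
        _ = d₀ := hκd n
  have hgA : ∀ n, ∀ x ∈ Ioo c₀ d₀, g (A n x) = A n (κ n x) := by
    intro n x hx
    have hx' := hκI n x hx
    set y := κ n x with hy
    have hk : g * (A n * κ n * (A n)⁻¹)⁻¹ ∈ 𝒢 :=
      mul_mem hg (inv_mem (mul_mem (mul_mem (hAG n) (hκG n)) (inv_mem (hAG n))))
    have hs' : A n * s * (A n)⁻¹ ∈ 𝒢 := mul_mem (mul_mem (hAG n) hs) (inv_mem (hAG n))
    have hh' : A n * h * (A n)⁻¹ ∈ 𝒢 := mul_mem (mul_mem (hAG n) hh) (inv_mem (hAG n))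
    have hr' : (A n * s * (A n)⁻¹) * (A n * h * (A n)⁻¹) * (A n * s * (A n)⁻¹)⁻¹ =
        (A n * h * (A n)⁻¹) ^ 2 := by
      rw [conj_pow, ← r1]; group
    rcases lemmaA h𝒢 hs' hh' hk hr' (r7s n) (r7h n) (A n y) with h1 | h1
    · have h2 : (A n * κ n * (A n)⁻¹)⁻¹ (A n y) = A n x := by
        rw [Perm.inv_eq_iff_eq]
        change A n y = A n (κ n ((A n)⁻¹ (A n x)))
        rw [inv_app]
      rwa [Perm.mul_apply, h2] at h1
    · exfalso
      rw [Perm.mul_apply, Perm.mul_apply, inv_app] at h1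
      exact hC.ne y hx' ((A n).injective h1)
  have hgA' : ∀ n, ∀ x ∈ Icc c₀ d₀, g (A n x) = A n (κ n x) := by
    intro n
    have h1 : EqOn (fun x => g (A n x)) (fun x => A n (κ n x)) (closure (Ioo c₀ d₀)) := by
      apply EqOn.closure (hgA n)
      · exact (h𝒢 _ hg).continuous.comp (h𝒢 _ (hAG n)).continuous
      · exact (h𝒢 _ (hAG n)).continuous.comp (h𝒢 _ (hκG n)).continuous
    rw [closure_Ioo hC.huv.ne] at h1
    exact h1
  have hgc : ∀ n, g (A n c₀) = A n c₀ := fun n => by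
    rw [hgA' n c₀ ⟨le_rfl, hC.huv.le⟩, hκc]
  have hgd : ∀ n, g (A n d₀) = A n d₀ := fun n => by
    rw [hgA' n d₀ ⟨hC.huv.le, le_rfl⟩, hκd]
  have hAp : ∀ n, ∀ x ∈ Icc c₀ d₀, |A n x - p| ≤ (1 / 2) ^ n * (v - u) := by
    intro n x hx
    rw [hA]
    exact hTp n (F x) (hFI x hx)
  have hpab : p ∈ Ioo a b := ⟨lt_of_lt_of_le hau hpI.1, lt_of_le_of_lt hpI.2 hvb⟩
  -- flatness
  have hflat : ∀ r : ℕ, ∃ C, 0 ≤ C ∧ ∀ x ∈ Ioo a b, |g x - x| ≤ C * |x - p| ^ r := by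
    intro r
    apply flat_of_zeros isOpen_Ioo (convex_Ioo a b) hpab r (fun x => g x - x)
    · exact hgs.sub contDiffOn_id
    · intro k
      obtain ⟨C, hCk⟩ := hgb k
      obtain ⟨C', hC'⟩ : ∃ C', ∀ x ∈ Ioo a b, |iteratedDeriv k (fun x : ℝ => x) x| ≤ C' := by
        refine ⟨|a| + |b| + 1, fun x hx => ?_⟩
        rcases k with _ | _ | k
        · rw [iteratedDeriv_zero]
          have h1 : |x| ≤ max |a| |b| := abs_le_max_abs_abs hx.1.le hx.2.le
          have h2 : max |a| |b| ≤ |a| + |b| := max_le_add_of_nonneg (abs_nonneg _) (abs_nonneg _)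
          linarith
        · have : iteratedDeriv 1 (fun x : ℝ => x) x = 1 := by
            rw [iteratedDeriv_one]; simp
          rw [this, abs_one]
          have := abs_nonneg a
          have := abs_nonneg b
          linarith
        · have : iteratedDeriv (k + 1 + 1) (fun x : ℝ => x) x = 0 := by
            rw [iteratedDeriv_succ', deriv_id'', iteratedDeriv_succ', deriv_const']
            simp
          rw [this, abs_zero]
          positivity
      refine ⟨C + C', fun x hx => ?_⟩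
      have hsub : iteratedDeriv k (fun x => g x - x) x =
          iteratedDeriv k g x - iteratedDeriv k (fun x : ℝ => x) x := by
        apply iteratedDeriv_sub
        · exact ((hgs x hx).contDiffAt (isOpen_Ioo.mem_nhds hx)).of_le (by exact_mod_cast le_top)
        · exact contDiffAt_id
      rw [hsub]
      exact (abs_sub _ _).trans (add_le_add (hCk x hx) (hC' x hx))
    · intro ε hε
      have hlim : Filter.Tendsto (fun n : ℕ => (1 / 2 : ℝ) ^ n * (v - u)) Filter.atTop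
          (nhds (0 * (v - u))) :=
        (tendsto_pow_atTop_nhds_zero_of_lt_one (by norm_num) (by norm_num)).mul_const _
      rw [zero_mul] at hlim
      obtain ⟨n, hn⟩ := ((tendsto_order.1 hlim).2 ε hε).exists
      by_cases hcp : A n c₀ = p
      · refine ⟨A n d₀, ?_, lt_of_le_of_lt (hAp n d₀ ⟨hC.huv.le, le_rfl⟩) hn, ?_⟩
        · rw [← hcp]
          exact ((h𝒢 _ (hAG n)).mono hC.huv).ne'
        · simp [hgd n]
      · refine ⟨A n c₀, hcp, lt_of_le_of_lt (hAp n c₀ ⟨le_rfl, hC.huv.le⟩) hn, ?_⟩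
        simp [hgc n]
  -- the lower bound
  obtain ⟨CT, hCT1, -, hCTlow⟩ := (h𝒢 _ hT).lip hab
  have hCT0 : 0 < CT := by linarith
  obtain ⟨r, hr⟩ : ∃ r : ℕ, 2 * CT * 2 ^ e ≤ (2:ℝ) ^ r := by
    obtain ⟨r, hr⟩ := pow_unbounded_of_one_lt (2 * CT * 2 ^ e) (one_lt_two (α := ℝ))
    exact ⟨r, hr.le⟩
  obtain ⟨Cr, hCr0, hCr⟩ := hflat r
  set c₁ := |F (h x₀) - F x₀| with hc₁
  have hc₁pos : 0 < c₁ := by
    rw [hc₁, abs_pos, sub_ne_zero]
    exact fun hc => hC.ne x₀ hx₀ (F.injective hc)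
  have hIccab : ∀ x ∈ Icc u v, x ∈ Icc a b := fun x hx =>
    ⟨by linarith [hx.1], by linarith [hx.2]⟩
  have hIooab : ∀ x ∈ Icc u v, x ∈ Ioo a b := fun x hx =>
    ⟨lt_of_lt_of_le hau hx.1, lt_of_le_of_lt hx.2 hvb⟩
  have hhx₀ : h x₀ ∈ Ioo c₀ d₀ := by
    have := hκI 0 x₀ hx₀
    simpa [hκ] using this
  have hkey : ∀ n : ℕ, c₁ ≤ Cr * (v - u) ^ r * (1 / 2) ^ n := by
    intro n
    have hpowκ : ∀ l : ℕ, ((κ n) ^ l) x₀ ∈ Ioo c₀ d₀ ∧ (g ^ l) (A n x₀) = A n (((κ n) ^ l) x₀) := by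
      intro l
      induction l with
      | zero => exact ⟨by simpa using hx₀, by simp⟩
      | succ l ih =>
        refine ⟨?_, ?_⟩
        · rw [pow_succ', Perm.mul_apply]
          exact hκI n _ ih.1
        · rw [pow_succ' g, Perm.mul_apply, ih.2, hgA n _ ih.1, pow_succ' (κ n)]
          rfl
    have htel : |(g ^ (2 ^ (n * e))) (A n x₀) - A n x₀| ≤
        2 ^ (n * e) * (Cr * ((1 / 2) ^ n * (v - u)) ^ r) := by
      have h1 : ∀ l : ℕ, |(g ^ l) (A n x₀) - A n x₀| ≤ l * (Cr * ((1 / 2) ^ n * (v - u)) ^ r) := by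
        intro l
        induction l with
        | zero => simp
        | succ l ih =>
          have h2 : |(g ^ (l + 1)) (A n x₀) - (g ^ l) (A n x₀)| ≤
              Cr * ((1 / 2) ^ n * (v - u)) ^ r := by
            rw [pow_succ', Perm.mul_apply, (hpowκ l).2]
            have hm := (hpowκ l).1
            have hmI : ((κ n) ^ l) x₀ ∈ Icc c₀ d₀ := ⟨hm.1.le, hm.2.le⟩
            refine (hCr _ ?_).trans ?_
            · rw [hA]
              exact hIooab _ (hTI n _ (hFI _ hmI))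
            · exact mul_le_mul_of_nonneg_left
                (pow_le_pow_left₀ (abs_nonneg _) (hAp n _ hmI) r) hCr0
          calc |(g ^ (l + 1)) (A n x₀) - A n x₀|
            _ = |((g ^ (l + 1)) (A n x₀) - (g ^ l) (A n x₀)) + ((g ^ l) (A n x₀) - A n x₀)| := by
                congr 1; ring
            _ ≤ _ := abs_add_le _ _
            _ ≤ Cr * ((1 / 2) ^ n * (v - u)) ^ r + l * (Cr * ((1 / 2) ^ n * (v - u)) ^ r) :=
                add_le_add h2 ih
            _ = ((l + 1 : ℕ) : ℝ) * (Cr * ((1 / 2) ^ n * (v - u)) ^ r) := by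
                rw [Nat.cast_succ]; ring
      have := h1 (2 ^ (n * e))
      simpa using this
    rw [(hpowκ _).2, hκpow] at htel
    have hlow := abs_pow_lower (h𝒢 _ hT) hCT1 hCTlow n
      (hIccab _ (hFI x₀ ⟨hx₀.1.le, hx₀.2.le⟩)) (hIccab _ (hFI (h x₀) ⟨hhx₀.1.le, hhx₀.2.le⟩))
    have hlow' : c₁ ≤ CT ^ n * |A n (h x₀) - A n x₀| := hlow
    have hvu : 0 ≤ v - u := by linarith
    calc c₁ ≤ CT ^ n * |A n (h x₀) - A n x₀| := hlow'
      _ ≤ CT ^ n * (2 ^ (n * e) * (Cr * ((1 / 2) ^ n * (v - u)) ^ r)) :=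
          mul_le_mul_of_nonneg_left htel (by positivity)
      _ = Cr * (v - u) ^ r * (CT * 2 ^ e * (1 / 2) ^ r) ^ n := by
          rw [mul_pow, mul_pow, mul_pow, ← pow_mul 2 e n, mul_comm e n, ← pow_mul, ← pow_mul,
            mul_comm r n]
          ring
      _ ≤ Cr * (v - u) ^ r * (1 / 2) ^ n := by
          apply mul_le_mul_of_nonneg_left _ (by positivity)
          apply pow_le_pow_left₀ (by positivity)
          rw [one_div, inv_pow, mul_inv_le_iff₀ (by positivity)]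
          linarith
  have hlim : Filter.Tendsto (fun n : ℕ => Cr * (v - u) ^ r * (1 / 2 : ℝ) ^ n) Filter.atTop
      (nhds (Cr * (v - u) ^ r * 0)) :=
    (tendsto_pow_atTop_nhds_zero_of_lt_one (by norm_num) (by norm_num)).const_mul _
  rw [mul_zero] at hlim
  have := ge_of_tendsto' hlim hkey
  linarith

/-- **Main dynamical theorem**: the relations force `h = 1`. -/
theorem kills_h {a b : ℝ} (hab : a < b) {𝒢 : Subgroup (Perm ℝ)} (h𝒢 : ∀ φ ∈ 𝒢, Good a b φ)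
    {s h H f : Perm ℝ} {g : ℕ → ℕ → Perm ℝ} (hs : s ∈ 𝒢) (hh : h ∈ 𝒢) (hH : H ∈ 𝒢) (hf : f ∈ 𝒢)
    (hg : ∀ i N, g i N ∈ 𝒢) (R : Rel s h H f g)
    (hgs : ∀ i N, ContDiffOn ℝ ∞ (g i N) (Ioo a b))
    (hgb : ∀ i N, ∀ k : ℕ, ∃ C, ∀ x ∈ Ioo a b, |iteratedDeriv k (g i N) x| ≤ C) : h = 1 := by
  by_contra hne
  obtain ⟨x₀, hx₀⟩ : ∃ x, h x ≠ x := by
    by_contra hc
    push Not at hc
    exact hne (Perm.ext hc)
  obtain ⟨c₀, d₀, hC₀, hxI⟩ := exists_comp (h𝒢 _ hh) hx₀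
  have hS1 : ∀ z, h z ≠ z → H z ≠ z := fun z hz =>
    step1 h𝒢 hs hh hH hf R.r1 R.r2s R.r2h hz
  have hmove : ∀ n : ℕ, H ((f ^ n) x₀) ≠ (f ^ n) x₀ := by
    intro n
    induction n with
    | zero => simpa using hS1 x₀ hx₀
    | succ n ih =>
      obtain ⟨u, v, hC, hx⟩ := exists_comp (h𝒢 _ hH) ih
      intro hcon
      have h1 : (f ^ (n + 1)) x₀ ∈ Ioo (f u) (f v) := by
        rw [pow_succ', Perm.mul_apply]
        exact ⟨(h𝒢 _ hf).mono hx.1, (h𝒢 _ hf).mono hx.2⟩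
      apply step2 h𝒢 hs hh hH hf R.r1 R.r6 R.r6s R.r6h hx₀ n hC hx ⟨h1.1.le, h1.2.le⟩
      rw [fix_inv hcon]
      exact h1
  choose u v hC hx using fun n => exists_comp (h𝒢 _ hH) (hmove n)
  have hd : ∀ n, ∀ y ∈ Icc (f (u n)) (f (v n)), H⁻¹ y ∉ Ioo (f (u n)) (f (v n)) :=
    fun n y hy => step2 h𝒢 hs hh hH hf R.r1 R.r6 R.r6s R.r6h hx₀ n (hC n) (hx n) hy
  have hin : ∀ n, u (n + 1) ≤ f (u n) ∧ f (v n) ≤ v (n + 1) := by
    intro n
    apply step2b h𝒢 hs hh hH hf (hC n) (hx n) (hd n) (hC (n + 1))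
    have := hx (n + 1)
    rwa [pow_succ', Perm.mul_apply] at this
  have hH' : Good a b H⁻¹ := h𝒢 _ (inv_mem hH)
  obtain ⟨N, hN1, hN2⟩ := step3 hab hH' (h𝒢 _ hf) hC hx hd hin
  have hfu : u N ≤ f (u N) := by
    calc u N = u (N + 1) := hN1.symm
      _ ≤ _ := (hin N).1
  have hfv : f (v N) ≤ v N := by
    calc f (v N) ≤ v (N + 1) := (hin N).2
      _ = _ := hN2
  obtain ⟨hau, hvb, i, hcon⟩ := step4 hab (h𝒢 _ hH) hH' (h𝒢 _ hf) (hC N) (hd N) hfu hfv
  -- the component of `h` is carried into `[u N, v N]`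
  have hFn : ∀ n, u n ≤ (f ^ n) c₀ ∧ (f ^ n) d₀ ≤ v n := by
    intro n
    induction n with
    | zero =>
      have hx0 : x₀ ∈ Ioo (u 0) (v 0) := by simpa using hx 0
      constructor
      · rw [pow_zero, Perm.one_apply]
        by_contra hc
        push Not at hc
        exact hS1 (u 0) (hC₀.ne _ ⟨hc, hx0.1.trans hxI.2⟩) (hC 0).fu
      · rw [pow_zero, Perm.one_apply]
        by_contra hc
        push Not at hc
        exact hS1 (v 0) (hC₀.ne _ ⟨hxI.1.trans hx0.2, hc⟩) (hC 0).fv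
    | succ n ih =>
      rw [pow_succ', Perm.mul_apply, Perm.mul_apply]
      exact ⟨(hin n).1.trans ((h𝒢 _ hf).mono.monotone ih.1),
        ((h𝒢 _ hf).mono.monotone ih.2).trans (hin n).2⟩
  have hHI : ∀ y ∈ Icc (u N) (v N), (H ^ (i + 1)) y ∈ Icc (u N) (v N) := by
    intro y hy
    constructor
    · calc u N = (H ^ (i + 1)) (u N) := (fix_pow (hC N).fu _).symm
        _ ≤ _ := (strictMono_pow (h𝒢 _ hH).mono _).monotone hy.1
    · calc (H ^ (i + 1)) y ≤ (H ^ (i + 1)) (v N) :=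
            (strictMono_pow (h𝒢 _ hH).mono _).monotone hy.2
        _ = v N := fix_pow (hC N).fv _
  have hfuv : f (u N) < f (v N) := (h𝒢 _ hf).mono (hC N).huv
  exact step5 hab h𝒢 hs hh (pow_mem hf N) (mul_mem (pow_mem hH (i + 1)) hf) (hg i N) R.r1
    ((i + 1) ^ 2) (fun n => R.r7s i N n _ rfl) (fun n => R.r7h i N n _ rfl) (hgs i N) (hgb i N)
    hC₀ hxI (hFn N).1 (hFn N).2 hau hvb
    (hHI _ ⟨hfu, by linarith⟩).1 (hHI _ ⟨by linarith, hfv⟩).2 hcon

end Pool.Agent.Work.MP_4516ee_al
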