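import Mathlib
import Pool.Agent.Work.MP_4516ee_al.Dyn3

/-! Periodic version of the dynamical argument. -/

open Set Equiv
open scoped ContDiff

namespace Pool.Agent.Work.MP_4516ee_al

/-- strictly increasing, commuting with the unit translation, bounded distortion -/
structure GoodR (φ : Perm ℝ) : Prop where
  mono : StrictMono φ
  per : ∀ x, φ (x + 1) = φ x + 1
  dist : ∃ L : ℝ, 0 ≤ L ∧ ∀ p q x y z w : ℝ, p ≤ x → x < y → y ≤ q → p ≤ z →
    z < w → w ≤ q → sl φ x y ≤ Real.exp (L * (q - p)) * sl φ z w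

/-- having a fixed point -/
def HFix (φ : Perm ℝ) : Prop := ∃ z, φ z = z

lemma GoodR.continuous {φ : Perm ℝ} (h : GoodR φ) : Continuous φ :=
  h.mono.monotone.continuous_of_surjective φ.surjective

lemma GoodR.per_nat {φ : Perm ℝ} (h : GoodR φ) (m : ℕ) (x : ℝ) : φ (x + m) = φ x + m := by
  induction m with
  | zero => simp
  | succ m ih =>
    have : x + ((m + 1 : ℕ) : ℝ) = (x + m) + 1 := by push_cast; ring
    rw [this, h.per, ih]; push_cast; ring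

lemma GoodR.per_int {φ : Perm ℝ} (h : GoodR φ) (m : ℤ) (x : ℝ) : φ (x + m) = φ x + m := by
  obtain ⟨n, rfl | rfl⟩ := m.eq_nat_or_neg
  · exact_mod_cast h.per_nat n x
  · have h1 := h.per_nat n (x + ((-(n : ℤ) : ℤ) : ℝ))
    have h2 : x + ((-(n : ℤ) : ℤ) : ℝ) + (n : ℝ) = x := by push_cast; ring
    rw [h2] at h1
    push_cast at h1 ⊢
    linarith

/-- orbits of a map with a fixed point are bounded -/
lemma orbit_bd {k : Perm ℝ} (hk : GoodR k) (hf : HFix k) (u : ℝ) : ∃ c : ℝ, c ≤ u ∧ u ≤ c + 1 ∧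
    ∀ x, c ≤ x → x ≤ c + 1 → ∀ n : ℕ, c ≤ (k ^ n) x ∧ (k ^ n) x ≤ c + 1 := by
  obtain ⟨z, hz⟩ := hf
  set m := ⌊u - z⌋ with hm
  have h1 : z + m ≤ u := by linarith [Int.floor_le (u - z)]
  have h2 : u ≤ z + m + 1 := by linarith [Int.lt_floor_add_one (u - z)]
  have hc : k (z + m) = z + m := by rw [hk.per_int, hz]
  have hc' : k (z + m + 1) = z + m + 1 := by rw [hk.per, hc]
  refine ⟨z + m, h1, h2, ?_⟩
  intro x hx1 hx2 n
  have hmn := strictMono_pow hk.mono n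
  constructor
  · calc z + m = (k ^ n) (z + m) := (fix_pow hc n).symm
      _ ≤ _ := hmn.monotone hx1
  · calc (k ^ n) x ≤ (k ^ n) (z + m + 1) := hmn.monotone hx2
      _ = z + m + 1 := fix_pow hc' n

/-- slopes at scale at most one are bounded above and below -/
lemma GoodR.lip {φ : Perm ℝ} (h : GoodR φ) : ∃ C : ℝ, 1 ≤ C ∧
    (∀ x y, x < y → y ≤ x + 1 → sl φ x y ≤ C) ∧
    (∀ x y, x < y → y ≤ x + 1 → 1 / C ≤ sl φ x y) := by
  obtain ⟨L, hL, hd⟩ := h.dist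
  have h1 : ∀ x, sl φ x (x + 1) = 1 := by
    intro x
    rw [sl, h.per]; simp
  refine ⟨Real.exp L, ?_, ?_, ?_⟩
  · exact Real.one_le_exp hL
  · intro x y hxy hy
    have := hd x (x + 1) x y x (x + 1) le_rfl hxy hy le_rfl (by linarith) le_rfl
    rwa [h1, mul_one, add_sub_cancel_left, mul_one] at this
  · intro x y hxy hy
    have := hd x (x + 1) x (x + 1) x y le_rfl (by linarith) le_rfl le_rfl hxy hy
    rw [h1, add_sub_cancel_left, mul_one] at this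
    rw [div_le_iff₀ (Real.exp_pos _)]
    linarith [mul_comm (Real.exp L) (sl φ x y)]

/-- slopes when the endpoints of an interval are fixed -/
lemma slFixR {φ : Perm ℝ} {L : ℝ} (hd : ∀ p q x y z w : ℝ, p ≤ x → x < y →
    y ≤ q → p ≤ z → z < w → w ≤ q → sl φ x y ≤ Real.exp (L * (q - p)) * sl φ z w)
    {p q x y : ℝ} (hfp : φ p = p) (hfq : φ q = q)
    (hx : p ≤ x) (hxy : x < y) (hy : y ≤ q) : sl φ x y ≤ Real.exp (L * (q - p)) := by
  have hpq : p < q := by linarith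
  have h1 : sl φ p q = 1 := by
    rw [sl, hfp, hfq]; exact div_self (sub_pos.2 hpq).ne'
  have := hd p q x y p q hx hxy hy le_rfl hpq le_rfl
  rwa [h1, mul_one] at this

/-- iterated distortion -/
lemma iter_distR {χ : Perm ℝ} (hm : StrictMono χ) {L : ℝ}
    (hd : ∀ p q x y z w : ℝ, p ≤ x → x < y →
    y ≤ q → p ≤ z → z < w → w ≤ q → sl χ x y ≤ Real.exp (L * (q - p)) * sl χ z w)
    {p q : ℝ} (n : ℕ) {x y z w : ℝ}
    (hx : p ≤ x) (hxy : x < y) (hy : y ≤ q) (hz : p ≤ z) (hzw : z < w) (hw : w ≤ q) :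
    sl (χ ^ n) x y ≤
      Real.exp (L * ∑ j ∈ Finset.range n, ((χ ^ j) q - (χ ^ j) p)) * sl (χ ^ n) z w := by
  induction n with
  | zero =>
    have h1 : ∀ x y : ℝ, x < y → sl (χ ^ 0) x y = 1 := by
      intro x y hxy
      simp only [sl, pow_zero, Perm.one_apply]
      exact div_self (sub_pos.2 hxy).ne'
    rw [h1 x y hxy, h1 z w hzw]; simp
  | succ n ih =>
    have hn := strictMono_pow hm n
    rw [pow_succ', sl_mul hn hxy, sl_mul hn hzw, Finset.sum_range_succ, mul_add, Real.exp_add]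
    have h1 : sl χ ((χ ^ n) x) ((χ ^ n) y) ≤ Real.exp (L * ((χ ^ n) q - (χ ^ n) p)) *
        sl χ ((χ ^ n) z) ((χ ^ n) w) :=
      hd _ _ _ _ _ _ (hn.monotone hx) (hn hxy) (hn.monotone hy)
        (hn.monotone hz) (hn hzw) (hn.monotone hw)
    calc sl χ ((χ ^ n) x) ((χ ^ n) y) * sl (χ ^ n) x y
        ≤ (Real.exp (L * ((χ ^ n) q - (χ ^ n) p)) * sl χ ((χ ^ n) z) ((χ ^ n) w)) *
          (Real.exp (L * ∑ j ∈ Finset.range n, ((χ ^ j) q - (χ ^ j) p)) * sl (χ ^ n) z w) := by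
          apply mul_le_mul h1 ih (sl_pos hn hxy).le
          exact mul_nonneg (Real.exp_pos _).le (sl_pos hm (hn hzw)).le
      _ = _ := by ring

lemma kc_auxR {ψ χ : Perm ℝ} (hψ : ∀ m : ℕ, GoodR (ψ ^ m)) (hχ : GoodR χ)
    (hc : Commute ψ χ) {p q : ℝ} (hpq : p < q)
    (hfp : ψ p = p) (hfq : ψ q = q) {S : ℝ}
    (hS : ∀ n, ∑ j ∈ Finset.range n, ((χ ^ j) q - (χ ^ j) p) ≤ S) :
    ∃ B : ℝ, 0 < B ∧ ∀ (m : ℕ) (x y : ℝ), p ≤ x → x < y → y ≤ q → sl (ψ ^ m) x y ≤ B := by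
  obtain ⟨L, hL, hd⟩ := hχ.dist
  refine ⟨Real.exp (L * S), Real.exp_pos _, ?_⟩
  intro m x y hx hxy hy
  obtain ⟨Lm, hLm, hdm⟩ := (hψ m).dist
  have hfpm : (ψ ^ m) p = p := fix_pow hfp m
  have hfqm : (ψ ^ m) q = q := fix_pow hfq m
  have hψm : StrictMono (ψ ^ m : Perm ℝ) := (hψ m).mono
  have hχm : ∀ n : ℕ, StrictMono (χ ^ n : Perm ℝ) := fun n => strictMono_pow hχ.mono n
  have key : ∀ n : ℕ, sl (ψ ^ m) x y ≤
      Real.exp (Lm * ((χ ^ n) q - (χ ^ n) p)) * Real.exp (L * S) := by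
    intro n
    have hcmn : Commute (ψ ^ m) (χ ^ n) := hc.pow_pow m n
    have e1 : sl (ψ ^ m) ((χ ^ n) x) ((χ ^ n) y) * sl (χ ^ n) x y =
        sl (χ ^ n) ((ψ ^ m) x) ((ψ ^ m) y) * sl (ψ ^ m) x y := by
      rw [← sl_mul (hχm n) hxy, ← sl_mul hψm hxy, hcmn.eq]
    have hx' : p ≤ (ψ ^ m) x := by rw [← hfpm]; exact hψm.monotone hx
    have hy' : (ψ ^ m) y ≤ q := by
      calc (ψ ^ m) y ≤ (ψ ^ m) q := hψm.monotone hy
        _ = q := hfqm
    have h1 : sl (χ ^ n) x y ≤ Real.exp (L * S) * sl (χ ^ n) ((ψ ^ m) x) ((ψ ^ m) y) := by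
      have h2 := iter_distR hχ.mono hd n hx hxy hy hx' (hψm hxy) hy'
      refine h2.trans ?_
      apply mul_le_mul_of_nonneg_right _ (sl_pos (hχm n) (hψm hxy)).le
      exact Real.exp_le_exp.2 (mul_le_mul_of_nonneg_left (hS n) hL)
    have h3 : sl (ψ ^ m) ((χ ^ n) x) ((χ ^ n) y) ≤
        Real.exp (Lm * ((χ ^ n) q - (χ ^ n) p)) := by
      apply slFixR hdm _ _ ((hχm n).monotone hx)
        ((hχm n) hxy) ((hχm n).monotone hy)
      · rw [comm_app hcmn, hfpm]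
      · rw [comm_app hcmn, hfqm]
    have hpos := sl_pos (hχm n) (hψm hxy)
    have h4 : sl (χ ^ n) ((ψ ^ m) x) ((ψ ^ m) y) * sl (ψ ^ m) x y ≤
        sl (χ ^ n) ((ψ ^ m) x) ((ψ ^ m) y) *
          (Real.exp (Lm * ((χ ^ n) q - (χ ^ n) p)) * Real.exp (L * S)) := by
      rw [← e1]
      calc sl (ψ ^ m) ((χ ^ n) x) ((χ ^ n) y) * sl (χ ^ n) x y ≤
          Real.exp (Lm * ((χ ^ n) q - (χ ^ n) p)) *
            (Real.exp (L * S) * sl (χ ^ n) ((ψ ^ m) x) ((ψ ^ m) y)) := by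
            apply mul_le_mul h3 h1 (sl_pos (hχm n) hxy).le (Real.exp_pos _).le
        _ = _ := by ring
    exact le_of_mul_le_mul_left h4 hpos
  have hlim : Filter.Tendsto (fun n : ℕ => Real.exp (Lm * ((χ ^ n) q - (χ ^ n) p)) *
      Real.exp (L * S)) Filter.atTop (nhds (Real.exp (Lm * 0) * Real.exp (L * S))) := by
    have h0 : Filter.Tendsto (fun n : ℕ => (χ ^ n) q - (χ ^ n) p) Filter.atTop (nhds 0) := by
      apply tendsto_zero_of_sum_le _ hS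
      intro n
      exact sub_nonneg.2 ((hχm n).monotone hpq.le)
    exact ((Real.continuous_exp.tendsto _).comp (h0.const_mul Lm)).mul_const _
  have := ge_of_tendsto' hlim key
  simpa using this

lemma kcR' {ψ χ : Perm ℝ} (hψ : ∀ m : ℕ, GoodR (ψ ^ m)) (hψ' : ∀ m : ℕ, GoodR (ψ⁻¹ ^ m))
    (hχ : GoodR χ)
    (hc : Commute ψ χ) {p q : ℝ} (hpq : p < q)
    (hfp : ψ p = p) (hfq : ψ q = q) {S : ℝ}
    (hS : ∀ n, ∑ j ∈ Finset.range n, ((χ ^ j) q - (χ ^ j) p) ≤ S) {x : ℝ} (hx : x ∈ Icc p q) :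
    ψ x = x := by
  have hm : StrictMono ψ := by simpa using (hψ 1).mono
  obtain ⟨B, hB, h⟩ := kc_auxR hψ hχ hc hpq hfp hfq hS
  obtain ⟨B', hB', h'⟩ := kc_auxR hψ' hχ hc.inv_left hpq (fix_inv hfp) (fix_inv hfq) hS
  apply le_antisymm
  · exact kc_aux2 hm hfp hfq hB' h' hx
  · have := kc_aux2 (strictMono_inv hm) (fix_inv hfp) (fix_inv hfq) hB
      (by simpa only [inv_inv] using h) hx
    calc x = ψ (ψ⁻¹ x) := (app_inv ψ x).symm
      _ ≤ ψ x := hm.monotone this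

/-- component of the support -/
structure IsCompR (φ : Perm ℝ) (u v : ℝ) : Prop where
  huv : u < v
  fu : φ u = u
  fv : φ v = v
  ne : ∀ z ∈ Ioo u v, φ z ≠ z

lemma IsCompR.len {φ : Perm ℝ} (hφ : GoodR φ) {u v : ℝ} (h : IsCompR φ u v) : v ≤ u + 1 := by
  by_contra hc
  push Not at hc
  exact h.ne (u + 1) ⟨by linarith, hc⟩ (by rw [hφ.per, h.fu])

lemma exists_compR {φ : Perm ℝ} (h : GoodR φ) (hf : HFix φ) {x : ℝ} (hx : φ x ≠ x) :
    ∃ u v, IsCompR φ u v ∧ x ∈ Ioo u v := by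
  have hcl : IsClosed {z : ℝ | φ z = z} := isClosed_eq h.continuous continuous_id
  obtain ⟨z, hz⟩ := hf
  set m := ⌊x - z⌋ with hm
  have h1 : z + m ≤ x := by linarith [Int.floor_le (x - z)]
  have h2 : x ≤ z + m + 1 := by linarith [Int.lt_floor_add_one (x - z)]
  have ha : φ (z + m) = z + m := by rw [h.per_int, hz]
  have hb : φ (z + m + 1) = z + m + 1 := by rw [h.per, ha]
  set A : Set ℝ := {z | φ z = z} ∩ Icc (z + m) x with hA
  set B : Set ℝ := {z | φ z = z} ∩ Icc x (z + m + 1) with hB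
  have hAc : IsCompact A := (isCompact_Icc).inter_left hcl
  have hBc : IsCompact B := (isCompact_Icc).inter_left hcl
  have hAn : A.Nonempty := ⟨z + m, ha, le_rfl, h1⟩
  have hBn : B.Nonempty := ⟨z + m + 1, hb, h2, le_rfl⟩
  obtain ⟨u, hu⟩ := hAc.exists_isGreatest hAn
  obtain ⟨v, hv⟩ := hBc.exists_isLeast hBn
  have hux : u < x := lt_of_le_of_ne hu.1.2.2 (fun e => hx (e ▸ hu.1.1))
  have hxv : x < v := lt_of_le_of_ne hv.1.2.1 (fun e => hx (e ▸ hv.1.1))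
  refine ⟨u, v, ⟨hux.trans hxv, hu.1.1, hv.1.1, ?_⟩, hux, hxv⟩
  intro y hy hfy
  rcases le_total y x with hyx | hyx
  · exact absurd (hu.2 ⟨hfy, by linarith [hu.1.2.1, hy.1], hyx⟩) (not_le.2 hy.1)
  · exact absurd (hv.2 ⟨hfy, hyx, by linarith [hv.1.2.2, hy.2]⟩) (not_le.2 hy.2)

lemma comp_uniqueR {φ : Perm ℝ} {u v u' v' x : ℝ} (h : IsCompR φ u v) (h' : IsCompR φ u' v')
    (hx : x ∈ Ioo u v) (hx' : x ∈ Ioo u' v') : u = u' ∧ v = v' := by
  constructor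
  · apply le_antisymm
    · by_contra hc
      push Not at hc
      exact h'.ne u ⟨hc, by linarith [hx.1, hx'.2]⟩ h.fu
    · by_contra hc
      push Not at hc
      exact h.ne u' ⟨hc, by linarith [hx'.1, hx.2]⟩ h'.fu
  · apply le_antisymm
    · by_contra hc
      push Not at hc
      exact h.ne v' ⟨by linarith [hx.1, hx'.2], hc⟩ h'.fv
    · by_contra hc
      push Not at hc
      exact h'.ne v ⟨by linarith [hx'.1, hx.2], hc⟩ h.fv

lemma HFix.inv {φ : Perm ℝ} (h : HFix φ) : HFix φ⁻¹ := by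
  obtain ⟨z, hz⟩ := h
  exact ⟨z, fix_inv hz⟩

lemma HFix.conj {φ : Perm ℝ} (h : HFix φ) (f : Perm ℝ) : HFix (f * φ * f⁻¹) := by
  obtain ⟨z, hz⟩ := h
  exact ⟨f z, by rw [Perm.mul_apply, Perm.mul_apply, inv_app, hz]⟩

section group

variable {𝒢 : Subgroup (Perm ℝ)} (h𝒢 : ∀ φ ∈ 𝒢, GoodR φ)
include h𝒢

lemma kcGR {ψ χ : Perm ℝ} (hψ : ψ ∈ 𝒢) (hχ : χ ∈ 𝒢)
    (hc : Commute ψ χ) {p q : ℝ} (hpq : p < q)
    (hfp : ψ p = p) (hfq : ψ q = q) {S : ℝ}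
    (hS : ∀ n, ∑ j ∈ Finset.range n, ((χ ^ j) q - (χ ^ j) p) ≤ S) {x : ℝ} (hx : x ∈ Icc p q) :
    ψ x = x :=
  kcR' (fun m => h𝒢 _ (pow_mem hψ m)) (fun m => h𝒢 _ (pow_mem (inv_mem hψ) m)) (h𝒢 _ hχ) hc hpq
    hfp hfq hS hx

/-- intervals moved to the right: telescoping -/
lemma kcRR {ψ χ : Perm ℝ} (hψ : ψ ∈ 𝒢) (hχ : χ ∈ 𝒢) (hχf : HFix χ)
    (hc : Commute ψ χ) {p q : ℝ} (hpq : p < q)
    (hfp : ψ p = p) (hfq : ψ q = q) (hqp : q ≤ χ p) {x : ℝ} (hx : x ∈ Icc p q) :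
    ψ x = x := by
  obtain ⟨c, hc1, hc2, hc3⟩ := orbit_bd (h𝒢 _ hχ) hχf p
  apply kcGR h𝒢 hψ hχ hc hpq hfp hfq (S := 1) _ hx
  intro n
  calc ∑ j ∈ Finset.range n, ((χ ^ j) q - (χ ^ j) p) ≤
      ∑ j ∈ Finset.range n, ((χ ^ (j + 1)) p - (χ ^ j) p) := by
        apply Finset.sum_le_sum
        intro j _
        have : (χ ^ j) q ≤ (χ ^ (j + 1)) p := by
          rw [pow_succ, Perm.mul_apply]
          exact (strictMono_pow (h𝒢 _ hχ).mono j).monotone hqp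
        linarith
    _ = (χ ^ n) p - (χ ^ 0) p := Finset.sum_range_sub (fun j => (χ ^ j) p) n
    _ ≤ 1 := by
        have h1 := (hc3 p hc1 hc2 n).2
        have h2 := (hc3 p hc1 hc2 0).1
        linarith

/-- intervals moved to the left: telescoping -/
lemma kcLR {ψ χ : Perm ℝ} (hψ : ψ ∈ 𝒢) (hχ : χ ∈ 𝒢) (hχf : HFix χ)
    (hc : Commute ψ χ) {p q : ℝ} (hpq : p < q)
    (hfp : ψ p = p) (hfq : ψ q = q) (hqp : χ q ≤ p) {x : ℝ} (hx : x ∈ Icc p q) :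
    ψ x = x := by
  obtain ⟨c, hc1, hc2, hc3⟩ := orbit_bd (h𝒢 _ hχ) hχf q
  apply kcGR h𝒢 hψ hχ hc hpq hfp hfq (S := 1) _ hx
  intro n
  calc ∑ j ∈ Finset.range n, ((χ ^ j) q - (χ ^ j) p) ≤
      ∑ j ∈ Finset.range n, ((χ ^ j) q - (χ ^ (j + 1)) q) := by
        apply Finset.sum_le_sum
        intro j _
        have : (χ ^ (j + 1)) q ≤ (χ ^ j) p := by
          rw [pow_succ, Perm.mul_apply]
          exact (strictMono_pow (h𝒢 _ hχ).mono j).monotone hqp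
        linarith
    _ = (χ ^ 0) q - (χ ^ n) q := Finset.sum_range_sub' (fun j => (χ ^ j) q) n
    _ ≤ 1 := by
        have h1 := (hc3 q hc1 hc2 n).1
        have h2 := (hc3 q hc1 hc2 0).2
        linarith

lemma comm_comp_leR {φ k : Perm ℝ} (hφ : φ ∈ 𝒢) (hk : k ∈ 𝒢) (hkf : HFix k) (hc : Commute φ k)
    {u v : ℝ} (hC : IsCompR φ u v) : k u ≤ u := by
  by_contra hlt
  push Not at hlt
  have hfix : φ (k u) = k u := by rw [comm_app hc, hC.fu]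
  have hge : v ≤ k u := by
    by_contra hcon
    push Not at hcon
    exact hC.ne _ ⟨hlt, hcon⟩ hfix
  have hmid : (u + v) / 2 ∈ Ioo u v := ⟨by linarith [hC.huv], by linarith [hC.huv]⟩
  exact hC.ne _ hmid (kcRR h𝒢 hφ hk hkf hc hC.huv hC.fu hC.fv hge
    ⟨hmid.1.le, hmid.2.le⟩)

lemma comm_compR {φ k : Perm ℝ} (hφ : φ ∈ 𝒢) (hk : k ∈ 𝒢) (hkf : HFix k) (hc : Commute φ k)
    {u v : ℝ} (hC : IsCompR φ u v) : k u = u ∧ k v = v := by
  have h1 := comm_comp_leR h𝒢 hφ hk hkf hc hC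
  have h2 := comm_comp_leR h𝒢 hφ (inv_mem hk) hkf.inv hc.inv_right hC
  have hmono := (h𝒢 _ hk).mono
  have hu : k u = u := by
    apply le_antisymm h1
    calc u = k (k⁻¹ u) := (app_inv k u).symm
      _ ≤ k u := hmono.monotone h2
  refine ⟨hu, ?_⟩
  apply le_antisymm
  · by_contra hcon
    push Not at hcon
    have h3 : k⁻¹ v < v := by
      calc k⁻¹ v < k⁻¹ (k v) := strictMono_inv hmono hcon
        _ = v := inv_app k v
    have h4 : u < k⁻¹ v := by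
      calc u = k⁻¹ u := (fix_inv hu).symm
        _ < _ := strictMono_inv hmono hC.huv
    exact hC.ne _ ⟨h4, h3⟩ (by rw [comm_app hc.inv_right, hC.fv])
  · by_contra hcon
    push Not at hcon
    have h4 : u < k v := by
      calc u = k u := hu.symm
        _ < _ := hmono hC.huv
    exact hC.ne _ ⟨h4, hcon⟩ (by rw [comm_app hc, hC.fv])

/-- Kopell's lemma -/
lemma kopellR {φ k : Perm ℝ} (hφ : φ ∈ 𝒢) (hk : k ∈ 𝒢) (hc : Commute φ k) {u v : ℝ}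
    (hC : IsCompR φ u v) {y : ℝ} (hy : y ∈ Ioo u v) (hky : k y = y) {x : ℝ}
    (hx : x ∈ Icc u v) : k x = x := by
  have hφf : HFix φ := ⟨u, hC.fu⟩
  by_contra hne
  obtain ⟨c, d, hD, hxD⟩ := exists_compR (h𝒢 _ hk) ⟨y, hky⟩ hne
  have up : ∀ c ∈ Ioo u v, ∃ χ ∈ 𝒢, HFix χ ∧ Commute k χ ∧ c < χ c ∧ χ c < v := by
    intro c hc'
    rcases lt_or_gt_of_ne (hC.ne c hc') with h | h
    · refine ⟨φ⁻¹, inv_mem hφ, hφf.inv, hc.symm.inv_right, ?_, ?_⟩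
      · calc c = φ⁻¹ (φ c) := (inv_app φ c).symm
          _ < φ⁻¹ c := strictMono_inv (h𝒢 _ hφ).mono h
      · calc φ⁻¹ c < φ⁻¹ v := strictMono_inv (h𝒢 _ hφ).mono hc'.2
          _ = v := fix_inv hC.fv
    · refine ⟨φ, hφ, hφf, hc.symm, h, ?_⟩
      calc φ c < φ v := (h𝒢 _ hφ).mono hc'.2
          _ = v := hC.fv
  have down : ∀ c ∈ Ioo u v, ∃ χ ∈ 𝒢, HFix χ ∧ Commute k χ ∧ χ c < c ∧ u < χ c := by
    intro c hc'
    rcases lt_or_gt_of_ne (hC.ne c hc') with h | h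
    · refine ⟨φ, hφ, hφf, hc.symm, h, ?_⟩
      calc u = φ u := hC.fu.symm
          _ < φ c := (h𝒢 _ hφ).mono hc'.1
    · refine ⟨φ⁻¹, inv_mem hφ, hφf.inv, hc.symm.inv_right, ?_, ?_⟩
      · calc φ⁻¹ c < φ⁻¹ (φ c) := strictMono_inv (h𝒢 _ hφ).mono h
          _ = c := inv_app φ c
      · calc u = φ⁻¹ u := (fix_inv hC.fu).symm
          _ < φ⁻¹ c := strictMono_inv (h𝒢 _ hφ).mono hc'.1
  have hcu : c ≤ u := by
    by_contra hcon
    push Not at hcon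
    obtain ⟨χ, hχ, hχf, hkχ, h1, h2⟩ := up c ⟨hcon, lt_of_lt_of_le hxD.1 hx.2⟩
    have hfix : k (χ c) = χ c := by rw [comm_app hkχ, hD.fu]
    have hz : c < min ((c + d) / 2) (χ c) := lt_min (by linarith [hD.huv]) h1
    have hz2 : min ((c + d) / 2) (χ c) < d := lt_of_le_of_lt (min_le_left _ _)
      (by linarith [hD.huv])
    exact hD.ne _ ⟨hz, hz2⟩ (kcRR h𝒢 hk hχ hχf hkχ h1 hD.fu hfix le_rfl
      ⟨hz.le, min_le_right _ _⟩)
  have hdv : v ≤ d := by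
    by_contra hcon
    push Not at hcon
    obtain ⟨χ, hχ, hχf, hkχ, h1, h2⟩ := down d ⟨lt_of_le_of_lt hx.1 hxD.2, hcon⟩
    have hfix : k (χ d) = χ d := by rw [comm_app hkχ, hD.fv]
    have hz : max ((c + d) / 2) (χ d) < d := max_lt (by linarith [hD.huv]) h1
    have hz2 : c < max ((c + d) / 2) (χ d) := lt_of_lt_of_le (by linarith [hD.huv])
      (le_max_left _ _)
    exact hD.ne _ ⟨hz2, hz⟩ (kcLR h𝒢 hk hχ hχf hkχ h1 hfix hD.fv le_rfl
      ⟨le_max_right _ _, hz.le⟩)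
  exact hD.ne y ⟨lt_of_le_of_lt hcu hy.1, lt_of_lt_of_le hy.2 hdv⟩ hky

/-- Lemma A -/
lemma lemmaAR {s h k : Perm ℝ} (hs : s ∈ 𝒢) (hh : h ∈ 𝒢) (hk : k ∈ 𝒢)
    (hsf : HFix s) (hhf : HFix h) (hkf : HFix k)
    (hr : s * h * s⁻¹ = h ^ 2) (hks : Commute k s) (hkh : Commute k h) (x : ℝ) :
    k x = x ∨ h x = x := by
  by_contra hcon
  push Not at hcon
  obtain ⟨hkx, hhx⟩ := hcon
  obtain ⟨u, v, hC, hx⟩ := exists_compR (h𝒢 _ hk) hkf hkx
  obtain ⟨hhu, hhv⟩ := comm_compR h𝒢 hk hh hhf hkh hC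
  obtain ⟨hsu, hsv⟩ := comm_compR h𝒢 hk hs hsf hks hC
  have hfree : ∀ z ∈ Ioo u v, h z ≠ z := by
    intro z hz hfz
    exact hhx (kopellR h𝒢 hk hh hkh hC hz hfz ⟨hx.1.le, hx.2.le⟩)
  have hsfix : ∃ y ∈ Ioo u v, s y = y := by
    rcases comp_sign (h𝒢 _ hh).continuous hfree with hup | hdn
    · exact bs_has_fixed (h𝒢 _ hs).mono (h𝒢 _ hs).continuous (h𝒢 _ hh).mono hr hC.huv hsu hsv
        hhu hhv hup
    · have hr' : s * h⁻¹ * s⁻¹ = (h⁻¹) ^ 2 := by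
        rw [inv_pow, ← hr]; group
      apply bs_has_fixed (h𝒢 _ hs).mono (h𝒢 _ hs).continuous (strictMono_inv (h𝒢 _ hh).mono) hr'
        hC.huv hsu hsv (fix_inv hhu) (fix_inv hhv)
      intro z hz
      calc z = h⁻¹ (h z) := (inv_app h z).symm
        _ < h⁻¹ z := strictMono_inv (h𝒢 _ hh).mono (hdn z hz)
  obtain ⟨y, hy, hsy⟩ := hsfix
  have hsid : ∀ z ∈ Icc u v, s z = z := fun z hz => kopellR h𝒢 hk hs hks hC hy hsy hz
  have hIh : ∀ z ∈ Icc u v, h z ∈ Icc u v := by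
    intro z hz
    constructor
    · calc u = h u := hhu.symm
        _ ≤ _ := (h𝒢 _ hh).mono.monotone hz.1
    · calc h z ≤ h v := (h𝒢 _ hh).mono.monotone hz.2
        _ = v := hhv
  have hxI : x ∈ Icc u v := ⟨hx.1.le, hx.2.le⟩
  have e : (s * h * s⁻¹) x = (h ^ 2) x := by rw [hr]
  rw [Perm.mul_apply, Perm.mul_apply, fix_inv (hsid x hxI), hsid _ (hIh x hxI), pow_two,
    Perm.mul_apply] at e
  exact hhx (h.injective e.symm)

end group

/-- conjugation of components -/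
lemma IsCompR.conj {φ f : Perm ℝ} (hf : GoodR f) {u v : ℝ} (hC : IsCompR φ u v) :
    IsCompR (f * φ * f⁻¹) (f u) (f v) where
  huv := hf.mono hC.huv
  fu := by rw [Perm.mul_apply, Perm.mul_apply, inv_app, hC.fu]
  fv := by rw [Perm.mul_apply, Perm.mul_apply, inv_app, hC.fv]
  ne := by
    intro z hz hfz
    rw [Perm.mul_apply, Perm.mul_apply] at hfz
    have h1 : φ (f⁻¹ z) = f⁻¹ z := by
      have := congrArg (f⁻¹ : Perm ℝ) hfz
      rwa [inv_app] at this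
    refine hC.ne (f⁻¹ z) ⟨?_, ?_⟩ h1
    · calc u = f⁻¹ (f u) := (inv_app f u).symm
        _ < f⁻¹ z := strictMono_inv hf.mono hz.1
    · calc f⁻¹ z < f⁻¹ (f v) := strictMono_inv hf.mono hz.2
        _ = v := inv_app f v

section main

variable {𝒢 : Subgroup (Perm ℝ)} (h𝒢 : ∀ φ ∈ 𝒢, GoodR φ)
include h𝒢

variable {s h H f : Perm ℝ} (hs : s ∈ 𝒢) (hh : h ∈ 𝒢) (hH : H ∈ 𝒢) (hf : f ∈ 𝒢)
  (hsf : HFix s) (hhf : HFix h) (hHf : HFix H)
include hs hh hH hsf hhf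

/-- Step 1 -/
lemma step1R (r1 : s * h * s⁻¹ = h ^ 2) (r2s : Commute (H * h * H⁻¹) s)
    (r2h : Commute (H * h * H⁻¹) h) {z : ℝ} (hz : h z ≠ z) : H z ≠ z := by
  intro hHz
  have hk : H * h * H⁻¹ ∈ 𝒢 := mul_mem (mul_mem hH hh) (inv_mem hH)
  rcases lemmaAR h𝒢 hs hh hk hsf hhf (hhf.conj H) r1 r2s r2h z with h1 | h1
  · rw [Perm.mul_apply, Perm.mul_apply, fix_inv hHz] at h1
    have : H (h z) = H z := by rw [h1, hHz]
    exact hz (H.injective this)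
  · exact hz h1

include hf hHf

/-- Step 2 -/
lemma step2R (r1 : s * h * s⁻¹ = h ^ 2)
    (r6 : Commute (H * (f * H * f⁻¹) * H⁻¹) (f * H * f⁻¹))
    (r6s : ∀ n : ℕ, Commute (H * (f * H * f⁻¹) * H⁻¹) (f ^ (n + 1) * s * (f ^ (n + 1))⁻¹))
    (r6h : ∀ n : ℕ, Commute (H * (f * H * f⁻¹) * H⁻¹) (f ^ (n + 1) * h * (f ^ (n + 1))⁻¹))
    {x : ℝ} (hx : h x ≠ x) (n : ℕ) {u v : ℝ} (hC : IsCompR H u v)
    (hxI : (f ^ n) x ∈ Ioo u v) {y : ℝ} (hy : y ∈ Icc (f u) (f v)) :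
    H⁻¹ y ∉ Ioo (f u) (f v) := by
  have hφ : f * H * f⁻¹ ∈ 𝒢 := mul_mem (mul_mem hf hH) (inv_mem hf)
  have hk : H * (f * H * f⁻¹) * H⁻¹ ∈ 𝒢 := mul_mem (mul_mem hH hφ) (inv_mem hH)
  have hF : f ^ (n + 1) ∈ 𝒢 := pow_mem hf _
  have hs' : f ^ (n + 1) * s * (f ^ (n + 1))⁻¹ ∈ 𝒢 := mul_mem (mul_mem hF hs) (inv_mem hF)
  have hh' : f ^ (n + 1) * h * (f ^ (n + 1))⁻¹ ∈ 𝒢 := mul_mem (mul_mem hF hh) (inv_mem hF)
  have hr' : (f ^ (n + 1) * s * (f ^ (n + 1))⁻¹) * (f ^ (n + 1) * h * (f ^ (n + 1))⁻¹) *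
      (f ^ (n + 1) * s * (f ^ (n + 1))⁻¹)⁻¹ = (f ^ (n + 1) * h * (f ^ (n + 1))⁻¹) ^ 2 := by
    rw [conj_pow, ← r1]; group
  have hC' : IsCompR (f * H * f⁻¹) (f u) (f v) := hC.conj (h𝒢 _ hf)
  have hxn : (f ^ (n + 1)) x ∈ Ioo (f u) (f v) := by
    rw [pow_succ', Perm.mul_apply]
    exact ⟨(h𝒢 _ hf).mono hxI.1, (h𝒢 _ hf).mono hxI.2⟩
  have hkf : HFix (H * (f * H * f⁻¹) * H⁻¹) := (hHf.conj f).conj H
  have hkx : (H * (f * H * f⁻¹) * H⁻¹) ((f ^ (n + 1)) x) = (f ^ (n + 1)) x := by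
    rcases lemmaAR h𝒢 hs' hh' hk (hsf.conj _) (hhf.conj _) hkf hr' (r6s n) (r6h n)
      ((f ^ (n + 1)) x) with h1 | h1
    · exact h1
    · exfalso
      rw [Perm.mul_apply, Perm.mul_apply, inv_app] at h1
      exact hx ((f ^ (n + 1)).injective h1)
  have hky := kopellR h𝒢 hφ hk r6.symm hC' hxn hkx hy
  rw [Perm.mul_apply, Perm.mul_apply] at hky
  intro hcon
  have h2 : (f * H * f⁻¹) (H⁻¹ y) = H⁻¹ y := by
    apply H.injective
    rw [hky, app_inv]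
  exact hC'.ne _ hcon h2

end main

/-- Step 2, continued -/
lemma step2bR {H f : Perm ℝ} (hf : GoodR f) {u v : ℝ} {x : ℝ} (hx : x ∈ Ioo u v)
    (hd : ∀ y ∈ Icc (f u) (f v), H⁻¹ y ∉ Ioo (f u) (f v)) {u' v' : ℝ} (hC' : IsCompR H u' v')
    (hx' : f x ∈ Ioo u' v') : u' ≤ f u ∧ f v ≤ v' := by
  have hne : ∀ y ∈ Ioo (f u) (f v), H y ≠ y := by
    intro y hy hfy
    apply hd y ⟨hy.1.le, hy.2.le⟩
    rw [fix_inv hfy]
    exact hy
  have hfx : f x ∈ Ioo (f u) (f v) := ⟨hf.mono hx.1, hf.mono hx.2⟩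
  constructor
  · by_contra hc
    push Not at hc
    exact hne u' ⟨hc, hx'.1.trans hfx.2⟩ hC'.fu
  · by_contra hc
    push Not at hc
    exact hne v' ⟨hfx.1.trans hx'.2, hc⟩ hC'.fv

/-- powers of a map fixing the ends of `[u,v]` do not shrink too much -/
lemma pow_lowerR {κ : Perm ℝ} (hκ : GoodR κ) {L : ℝ}
    (hd : ∀ p q x y z w : ℝ, p ≤ x → x < y →
    y ≤ q → p ≤ z → z < w → w ≤ q → sl κ x y ≤ Real.exp (L * (q - p)) * sl κ z w)
    {u v : ℝ} (hu : κ u = u) (hv : κ v = v) {p q : ℝ}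
    (hup : u ≤ p) (hpq : p < q) (hqv : q ≤ v) (j : ℕ) :
    q - p ≤ Real.exp (j * (L * (v - u))) * ((κ ^ j) q - (κ ^ j) p) := by
  induction j with
  | zero => simp
  | succ j ih =>
    have hI : ∀ x, u ≤ x → x ≤ v → u ≤ (κ ^ j) x ∧ (κ ^ j) x ≤ v := by
      intro x h1 h2
      constructor
      · calc u = (κ ^ j) u := (fix_pow hu j).symm
          _ ≤ _ := (strictMono_pow hκ.mono j).monotone h1
      · calc (κ ^ j) x ≤ (κ ^ j) v := (strictMono_pow hκ.mono j).monotone h2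
          _ = v := fix_pow hv j
    have hlt : (κ ^ j) p < (κ ^ j) q := strictMono_pow hκ.mono j hpq
    have huv : u < v := by linarith
    have h1 := hd u v u v ((κ ^ j) p) ((κ ^ j) q) le_rfl huv le_rfl
      (hI p hup (by linarith)).1 hlt (hI q (by linarith) hqv).2
    have h2 : sl κ u v = 1 := by
      rw [sl, hu, hv]; exact div_self (sub_pos.2 huv).ne'
    rw [h2] at h1
    have h3 : (κ ^ j) q - (κ ^ j) p ≤ Real.exp (L * (v - u)) *
        ((κ ^ (j + 1)) q - (κ ^ (j + 1)) p) := by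
      have h4 : (κ ^ (j + 1)) q - (κ ^ (j + 1)) p =
          sl κ ((κ ^ j) p) ((κ ^ j) q) * ((κ ^ j) q - (κ ^ j) p) := by
        rw [sl, div_mul_cancel₀ _ (sub_pos.2 hlt).ne', pow_succ', Perm.mul_apply, Perm.mul_apply]
      rw [h4, ← mul_assoc]
      exact le_mul_of_one_le_left (sub_pos.2 hlt).le h1
    calc q - p ≤ Real.exp (j * (L * (v - u))) * ((κ ^ j) q - (κ ^ j) p) := ih
      _ ≤ Real.exp (j * (L * (v - u))) * (Real.exp (L * (v - u)) *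
        ((κ ^ (j + 1)) q - (κ ^ (j + 1)) p)) :=
          mul_le_mul_of_nonneg_left h3 (Real.exp_pos _).le
      _ = Real.exp (((j + 1 : ℕ) : ℝ) * (L * (v - u))) *
        ((κ ^ (j + 1)) q - (κ ^ (j + 1)) p) := by
          rw [← mul_assoc, ← Real.exp_add, Nat.cast_succ]; ring_nf

/-- Lengths cannot shrink when small. -/
lemma growthR {H f : Perm ℝ} (hH : GoodR H) (hH' : GoodR H⁻¹)
    (hf : GoodR f) : ∃ δ > 0, ∀ u v u' v' : ℝ, IsCompR H u v → IsCompR H u' v' →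
      u' ≤ f u → f v ≤ v' → (∀ y ∈ Icc (f u) (f v), H⁻¹ y ∉ Ioo (f u) (f v)) →
      v' - u' < δ → v - u ≤ v' - u' := by
  obtain ⟨L, hL, hd⟩ := hH'.dist
  obtain ⟨C, hC1, -, hClow⟩ := hf.lip
  obtain ⟨M, hM⟩ := exists_nat_gt (2 * C)
  have hMpos : (0:ℝ) < M := by linarith
  refine ⟨Real.log 2 / (M * L + 1), div_pos (Real.log_pos one_lt_two) (by positivity), ?_⟩
  intro u v u' v' hc hc' huu hvv hdis hlt
  have hpq : f u < f v := hf.mono hc.huv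
  have hκ := hH'.mono
  have hne : ∀ z ∈ Ioo u' v', (H⁻¹ : Perm ℝ) z ≠ z := by
    intro z hz hfz
    apply hc'.ne z hz
    have := congrArg H hfz
    rw [app_inv] at this
    exact this.symm
  have hdis' : ∀ y ∈ Ioo (f u) (f v), (H⁻¹ : Perm ℝ) y ∉ Ioo (f u) (f v) :=
    fun y hy => hdis y ⟨hy.1.le, hy.2.le⟩
  have hsub : ∀ y ∈ Ioo (f u) (f v), y ∈ Ioo u' v' :=
    fun y hy => ⟨lt_of_le_of_lt huu hy.1, lt_of_lt_of_le hy.2 hvv⟩
  have hsep : f v ≤ (H⁻¹ : Perm ℝ) (f u) ∨ (H⁻¹ : Perm ℝ) (f v) ≤ f u := by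
    rcases comp_sign hH'.continuous hne with h1 | h1
    · left
      exact sep_up hκ hpq hdis' (fun y hy => h1 y (hsub y hy))
    · right
      exact sep_down hκ hpq hdis' (fun y hy => h1 y (hsub y hy))
  have hsum := sum_wander hκ hpq.le (fix_inv hc'.fu) (fix_inv hc'.fv) huu hvv hsep M
  have hlow : ∀ j ∈ Finset.range M, (f v - f u) / 2 ≤
      ((H⁻¹ : Perm ℝ) ^ j) (f v) - ((H⁻¹ : Perm ℝ) ^ j) (f u) := by
    intro j hj
    rw [Finset.mem_range] at hj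
    have h1 := pow_lowerR hH' hd (fix_inv hc'.fu) (fix_inv hc'.fv) huu hpq hvv j
    have h2 : Real.exp (j * (L * (v' - u'))) ≤ 2 := by
      rw [← Real.le_log_iff_exp_le two_pos]
      have h3 : (j : ℝ) * (L * (v' - u')) ≤ M * L * (v' - u') := by
        rw [← mul_assoc]
        have hjM : (j : ℝ) ≤ M := by exact_mod_cast hj.le
        have : (j : ℝ) * L ≤ M * L := mul_le_mul_of_nonneg_right hjM hL
        exact mul_le_mul_of_nonneg_right this (by linarith [hc'.huv])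
      have h4 : (v' - u') * (M * L + 1) < Real.log 2 := by
        rwa [lt_div_iff₀ (by positivity)] at hlt
      have h5 : 0 < v' - u' := by linarith [hc'.huv]
      nlinarith
    have h6 : 0 < ((H⁻¹ : Perm ℝ) ^ j) (f v) - ((H⁻¹ : Perm ℝ) ^ j) (f u) :=
      sub_pos.2 (strictMono_pow hκ j hpq)
    nlinarith
  have h7 : (M : ℝ) * ((f v - f u) / 2) ≤ v' - u' := by
    calc (M : ℝ) * ((f v - f u) / 2) = ∑ j ∈ Finset.range M, (f v - f u) / 2 := by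
          rw [Finset.sum_const, Finset.card_range, nsmul_eq_mul]
      _ ≤ ∑ j ∈ Finset.range M,
          (((H⁻¹ : Perm ℝ) ^ j) (f v) - ((H⁻¹ : Perm ℝ) ^ j) (f u)) := Finset.sum_le_sum hlow
      _ ≤ v' - u' := hsum
  have h8 := hClow u v hc.huv (hc.len hH)
  rw [le_sl_iff hc.huv] at h8
  have hCpos : 0 < C := by linarith
  have h9 : v - u ≤ C * (f v - f u) := by
    rw [div_mul_eq_mul_div, one_mul, div_le_iff₀ hCpos] at h8
    linarith [mul_comm C (f v - f u)]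
  have h10 : C * (f v - f u) ≤ (M : ℝ) / 2 * (f v - f u) := by
    apply mul_le_mul_of_nonneg_right _ (sub_pos.2 hpq).le
    linarith
  linarith

end Pool.Agent.Work.MP_4516ee_al
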