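import Mathlib
import Pool.Agent.Work.MP_4516ee_al.DynR

/-! Periodic version of the dynamical argument, conclusion. -/

open Set Equiv
open scoped ContDiff

namespace Pool.Agent.Work.MP_4516ee_al

/-- Step 3: the sequence of components stabilises at some point -/
lemma step3R {H f : Perm ℝ} (hH : GoodR H) (hH' : GoodR H⁻¹)
    (hf : GoodR f) (hff : HFix f) {x : ℝ} {u v : ℕ → ℝ} (hC : ∀ n, IsCompR H (u n) (v n))
    (hx : ∀ n, (f ^ n) x ∈ Ioo (u n) (v n))
    (hd : ∀ n, ∀ y ∈ Icc (f (u n)) (f (v n)), H⁻¹ y ∉ Ioo (f (u n)) (f (v n)))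
    (hin : ∀ n, u (n + 1) ≤ f (u n) ∧ f (v n) ≤ v (n + 1)) :
    ∃ N, u (N + 1) = u N ∧ v (N + 1) = v N := by
  by_contra hcon
  push Not at hcon
  have hne : ∀ n, (f ^ (n + 1)) x ∉ Ioo (u n) (v n) := by
    intro n hmem
    obtain ⟨h1, h2⟩ := comp_uniqueR (hC n) (hC (n + 1)) hmem (hx (n + 1))
    exact hcon n h1.symm h2.symm
  obtain ⟨δ, hδ, hg⟩ := growthR hH hH' hf
  have hlen : ∀ n, 0 < v n - u n := fun n => sub_pos.2 (hC n).huv
  obtain ⟨c, hc1, hc2, hc3⟩ := orbit_bd hf hff x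
  have hub : ∀ n, c - 1 ≤ u n ∧ v n ≤ c + 2 := by
    intro n
    have h1 := hc3 x hc1 hc2 n
    have h2 := hx n
    have h3 := (hC n).len hH
    constructor
    · linarith [h1.1, h2.2]
    · linarith [h1.2, h2.1]
  -- bounded sums
  have hsum : ∀ n, ∑ j ∈ Finset.range n, (v j - u j) ≤ 3 := by
    have hx0 : f x ≠ x := by
      intro hfx
      apply hne 0
      have := hx 0
      rw [pow_zero, Perm.one_apply] at this
      rw [zero_add, pow_one, hfx]
      exact this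
    rcases lt_or_gt_of_ne hx0 with hlt | hgt
    · have hdec : ∀ n, (f ^ (n + 1)) x < (f ^ n) x := by
        intro n
        rw [pow_succ, Perm.mul_apply]
        exact strictMono_pow hf.mono n hlt
      have hstep : ∀ n, v (n + 1) ≤ u n := by
        intro n
        have h1 : (f ^ (n + 1)) x ≤ u n := by
          by_contra hc
          push Not at hc
          exact hne n ⟨hc, (hdec n).trans (hx n).2⟩
        by_contra hc
        push Not at hc
        rcases h1.lt_or_eq with h2 | h2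
        · exact (hC (n + 1)).ne (u n) ⟨(hx (n + 1)).1.trans h2, hc⟩ (hC n).fu
        · exact (hC (n + 1)).ne (u n) (h2 ▸ hx (n + 1)) (hC n).fu
      intro n
      calc ∑ j ∈ Finset.range n, (v j - u j)
        _ ≤ ∑ j ∈ Finset.range n, (v j - v (j + 1)) := by
            apply Finset.sum_le_sum
            intro j _
            linarith [hstep j]
        _ = v 0 - v n := Finset.sum_range_sub' v n
        _ ≤ 3 := by linarith [(hub 0).2, (hub n).1, (hC n).huv]
    · have hinc : ∀ n, (f ^ n) x < (f ^ (n + 1)) x := by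
        intro n
        rw [pow_succ, Perm.mul_apply]
        exact strictMono_pow hf.mono n hgt
      have hstep : ∀ n, v n ≤ u (n + 1) := by
        intro n
        have h1 : v n ≤ (f ^ (n + 1)) x := by
          by_contra hc
          push Not at hc
          exact hne n ⟨(hx n).1.trans (hinc n), hc⟩
        by_contra hc
        push Not at hc
        rcases h1.lt_or_eq with h2 | h2
        · exact (hC (n + 1)).ne (v n) ⟨hc, h2.trans (hx (n + 1)).2⟩ (hC n).fv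
        · exact (hC (n + 1)).ne (v n) (h2 ▸ hx (n + 1)) (hC n).fv
      intro n
      calc ∑ j ∈ Finset.range n, (v j - u j)
        _ ≤ ∑ j ∈ Finset.range n, (u (j + 1) - u j) := by
            apply Finset.sum_le_sum
            intro j _
            linarith [hstep j]
        _ = u n - u 0 := Finset.sum_range_sub u n
        _ ≤ 3 := by linarith [(hub 0).1, (hub n).2, (hC n).huv]
  have hlim := tendsto_zero_of_sum_le (fun n => (hlen n).le) hsum
  have hev : ∀ᶠ n in Filter.atTop, v n - u n < δ := (tendsto_order.1 hlim).2 δ hδ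
  obtain ⟨n₀, hn₀⟩ := Filter.eventually_atTop.1 hev
  have hmono : ∀ k, v n₀ - u n₀ ≤ v (n₀ + k) - u (n₀ + k) := by
    intro k
    induction k with
    | zero => simp
    | succ k ih =>
      have h1 := hg (u (n₀ + k)) (v (n₀ + k)) (u (n₀ + k + 1)) (v (n₀ + k + 1)) (hC _) (hC _)
        (hin _).1 (hin _).2 (hd _) (hn₀ _ (by omega))
      rw [← add_assoc]
      linarith
  obtain ⟨n₁, hn₁⟩ := Filter.eventually_atTop.1 ((tendsto_order.1 hlim).2 _ (hlen n₀))
  have h1 := hn₁ (n₀ + n₁) (by omega)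
  have h2 := hmono n₁
  linarith

/-- Step 4: contraction -/
lemma step4R {H f : Perm ℝ} (hH : GoodR H)
    (hf : GoodR f) {u v : ℝ} (hC : IsCompR H u v)
    (hd : ∀ y ∈ Icc (f u) (f v), H⁻¹ y ∉ Ioo (f u) (f v))
    (hfu : u ≤ f u) (hfv : f v ≤ v) :
    ∃ i : ℕ, ∀ x y, u ≤ x → x < y → y ≤ v →
      (H ^ (i + 1) * f) y - (H ^ (i + 1) * f) x ≤ (1 / 2) * (y - x) := by
  obtain ⟨L, hL, hdist⟩ := hH.dist
  obtain ⟨C, hC1, hCup, -⟩ := hf.lip
  have hpq : f u < f v := hf.mono hC.huv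
  have hdis : ∀ y ∈ Ioo (f u) (f v), H y ∉ Ioo (f u) (f v) := by
    intro y hy hcon
    apply hd (H y) ⟨hcon.1.le, hcon.2.le⟩
    rw [inv_app]
    exact hy
  have hsub : ∀ y ∈ Ioo (f u) (f v), y ∈ Ioo u v :=
    fun y hy => ⟨lt_of_le_of_lt hfu hy.1, lt_of_lt_of_le hy.2 hfv⟩
  have hsep : f v ≤ H (f u) ∨ H (f v) ≤ f u := by
    rcases comp_sign hH.continuous hC.ne with h1 | h1
    · left
      exact sep_up hH.mono hpq hdis (fun y hy => h1 y (hsub y hy))
    · right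
      exact sep_down hH.mono hpq hdis (fun y hy => h1 y (hsub y hy))
  have hlenuv := hC.len hH
  have hsum := fun n => sum_wander hH.mono hpq.le hC.fu hC.fv hfu hfv hsep n
  have hlim := tendsto_zero_of_sum_le
    (fun n => sub_nonneg.2 ((strictMono_pow hH.mono n).monotone hpq.le)) hsum
  set K := Real.exp (L * (v - u)) with hK
  have hKpos : 0 < K := Real.exp_pos _
  have hCpos : 0 < C := by linarith
  have hε : 0 < (f v - f u) / (2 * K * C) := div_pos (sub_pos.2 hpq) (by positivity)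
  obtain ⟨n₀, hn₀⟩ := Filter.eventually_atTop.1 ((tendsto_order.1 hlim).2 _ hε)
  refine ⟨n₀, ?_⟩
  intro x y hx hxy hy
  have hn := hn₀ (n₀ + 1) (by omega)
  set n := n₀ + 1 with hndef
  have h1 := iter_distR hH.mono hdist n (hf.mono.monotone hx) (hf.mono hxy)
    (hf.mono.monotone hy) le_rfl hpq le_rfl
  have h2 : Real.exp (L * ∑ j ∈ Finset.range n, ((H ^ j) (f v) - (H ^ j) (f u))) ≤ K :=
    Real.exp_le_exp.2 (mul_le_mul_of_nonneg_left (hsum n) hL)
  have hslpos : 0 < sl (H ^ n) (f u) (f v) := sl_pos (strictMono_pow hH.mono n) hpq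
  have h3 : sl (H ^ n) (f x) (f y) ≤ K * sl (H ^ n) (f u) (f v) :=
    h1.trans (mul_le_mul_of_nonneg_right h2 hslpos.le)
  have h4 : sl (H ^ n) (f u) (f v) ≤ 1 / (2 * K * C) := by
    rw [sl_le_iff hpq]
    rw [div_mul_eq_mul_div, one_mul]
    exact hn.le
  have h5 : sl f x y ≤ C := hCup x y hxy (by linarith)
  have h6 : sl (H ^ n * f) x y ≤ 1 / 2 := by
    rw [sl_mul hf.mono hxy]
    calc sl (H ^ n) (f x) (f y) * sl f x y ≤ (K * (1 / (2 * K * C))) * C := by
          apply mul_le_mul (h3.trans (mul_le_mul_of_nonneg_left h4 hKpos.le)) h5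
            (sl_pos hf.mono hxy).le (by positivity)
      _ = 1 / 2 := by field_simp
  rwa [sl_le_iff hxy] at h6

lemma abs_pow_lowerR {T : Perm ℝ} (hT : StrictMono T) {C : ℝ} (hC : 1 ≤ C)
    {u v : ℝ} (huv : v ≤ u + 1)
    (hlow : ∀ x y, x < y → y ≤ x + 1 → 1 / C ≤ sl T x y)
    (hI : ∀ x ∈ Icc u v, T x ∈ Icc u v) (n : ℕ) {x y : ℝ}
    (hx : x ∈ Icc u v) (hy : y ∈ Icc u v) :
    |y - x| ≤ C ^ n * |(T ^ n) y - (T ^ n) x| := by
  have hC0 : 0 < C := by linarith
  have key : ∀ x y : ℝ, x ∈ Icc u v → y ∈ Icc u v → |y - x| ≤ C * |T y - T x| := by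
    have key1 : ∀ x y : ℝ, x ∈ Icc u v → y ∈ Icc u v → x < y → |y - x| ≤ C * |T y - T x| := by
      intro x y hx hy hxy
      have := hlow x y hxy (by linarith [hx.1, hy.2])
      rw [le_sl_iff hxy, div_mul_eq_mul_div, one_mul, div_le_iff₀ hC0] at this
      rw [abs_of_pos (sub_pos.2 hxy), abs_of_pos (sub_pos.2 (hT hxy))]
      linarith [mul_comm C (T y - T x)]
    intro x y hx hy
    rcases lt_trichotomy x y with h | h | h
    · exact key1 x y hx hy h
    · subst h; simp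
    · rw [abs_sub_comm y x, abs_sub_comm (T y) (T x)]
      exact key1 y x hy hx h
  have hIn : ∀ (n : ℕ) x, x ∈ Icc u v → (T ^ n) x ∈ Icc u v := by
    intro n
    induction n with
    | zero => intro x hx; simpa using hx
    | succ n ih =>
      intro x hx
      rw [pow_succ', Perm.mul_apply]
      exact hI _ (ih x hx)
  induction n with
  | zero => simp
  | succ n ih =>
    calc |y - x| ≤ C ^ n * |(T ^ n) y - (T ^ n) x| := ih
      _ ≤ C ^ n * (C * |T ((T ^ n) y) - T ((T ^ n) x)|) :=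
          mul_le_mul_of_nonneg_left (key _ _ (hIn n x hx) (hIn n y hy)) (by positivity)
      _ = C ^ (n + 1) * |(T ^ (n + 1)) y - (T ^ (n + 1)) x| := by
          rw [pow_succ' T, Perm.mul_apply, Perm.mul_apply]; ring

/-- translation number zero is inherited: a product of commuting elements, both having fixed
points, has a fixed point -/
def FixProd (𝒢 : Subgroup (Perm ℝ)) : Prop :=
  ∀ x ∈ 𝒢, ∀ y ∈ 𝒢, Commute x y → HFix x → HFix y → HFix (x * y)

lemma step5R {𝒢 : Subgroup (Perm ℝ)} (h𝒢 : ∀ φ ∈ 𝒢, GoodR φ) (hprod : FixProd 𝒢)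
    {s h F T g : Perm ℝ} (hs : s ∈ 𝒢) (hh : h ∈ 𝒢) (hF : F ∈ 𝒢) (hT : T ∈ 𝒢) (hg : g ∈ 𝒢)
    (hsf : HFix s) (hhf : HFix h) (hgf : HFix g)
    (r1 : s * h * s⁻¹ = h ^ 2) (e : ℕ)
    (r7s : ∀ n : ℕ, Commute (g * ((T ^ n * F) * ((s ^ (n * e))⁻¹ * h * s ^ (n * e)) *
      (T ^ n * F)⁻¹)⁻¹) ((T ^ n * F) * s * (T ^ n * F)⁻¹))
    (r7h : ∀ n : ℕ, Commute (g * ((T ^ n * F) * ((s ^ (n * e))⁻¹ * h * s ^ (n * e)) *
      (T ^ n * F)⁻¹)⁻¹) ((T ^ n * F) * h * (T ^ n * F)⁻¹))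
    (hgs : ContDiff ℝ ∞ (fun x => g x - x))
    (hgb : ∀ k : ℕ, ∃ C, ∀ x, |iteratedDeriv k (fun x => g x - x) x| ≤ C)
    {c₀ d₀ x₀ u v : ℝ} (hC : IsCompR h c₀ d₀) (hx₀ : x₀ ∈ Ioo c₀ d₀)
    (hFc : u ≤ F c₀) (hFd : F d₀ ≤ v) (hlen : v ≤ u + 1)
    (hTu : u ≤ T u) (hTv : T v ≤ v)
    (hcon : ∀ x y, u ≤ x → x < y → y ≤ v → T y - T x ≤ (1 / 2) * (y - x)) : False := by
  have hTm := (h𝒢 _ hT).mono
  have hFm := (h𝒢 _ hF).mono
  have huv : u < v := by
    have := hFm hC.huv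
    linarith
  -- the fixed point
  obtain ⟨p, hpI, hpT⟩ : ∃ p ∈ Icc u v, T p = p := by
    have hcont : ContinuousOn (fun z => T z - z) (Icc u v) :=
      ((h𝒢 _ hT).continuous.sub continuous_id).continuousOn
    have := intermediate_value_Icc' huv.le hcont
    obtain ⟨p, hp, hp0⟩ := this (⟨by linarith, by linarith⟩ : (0:ℝ) ∈ Icc (T v - v) (T u - u))
    exact ⟨p, hp, by simpa [sub_eq_zero] using hp0⟩
  have hTI1 : ∀ x ∈ Icc u v, T x ∈ Icc u v := fun x hx =>
    ⟨hTu.trans (hTm.monotone hx.1), (hTm.monotone hx.2).trans hTv⟩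
  have hTI : ∀ (n : ℕ) x, x ∈ Icc u v → (T ^ n) x ∈ Icc u v := by
    intro n
    induction n with
    | zero => intro x hx; simpa using hx
    | succ n ih =>
      intro x hx
      rw [pow_succ', Perm.mul_apply]
      exact hTI1 _ (ih x hx)
  have hTp : ∀ (n : ℕ) x, x ∈ Icc u v → |(T ^ n) x - p| ≤ (1 / 2) ^ n * (v - u) := by
    intro n x hx
    induction n with
    | zero =>
      simp only [pow_zero, Perm.one_apply, one_mul]
      rw [abs_le]
      constructor <;> linarith [hx.1, hx.2, hpI.1, hpI.2]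
    | succ n ih =>
      have h1 : |(T ^ (n + 1)) x - p| ≤ (1 / 2) * |(T ^ n) x - p| := by
        rw [pow_succ', Perm.mul_apply]
        have hy := hTI n x hx
        set y := (T ^ n) x
        rcases lt_trichotomy y p with hyp | hyp | hyp
        · have h2 := hcon y p hy.1 hyp hpI.2
          have h3 := hTm hyp
          rw [hpT] at h2 h3
          rw [abs_of_neg (by linarith), abs_of_neg (by linarith)]
          linarith
        · rw [hyp, hpT]; simp
        · have h2 := hcon p y hpI.1 hyp hy.2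
          have h3 := hTm hyp
          rw [hpT] at h2 h3
          rw [abs_of_pos (by linarith), abs_of_pos (by linarith)]
          linarith
      calc |(T ^ (n + 1)) x - p| ≤ (1 / 2) * |(T ^ n) x - p| := h1
        _ ≤ (1 / 2) * ((1 / 2) ^ n * (v - u)) := by linarith
        _ = (1 / 2) ^ (n + 1) * (v - u) := by ring
  have hFI : ∀ x ∈ Icc c₀ d₀, F x ∈ Icc u v := fun x hx =>
    ⟨hFc.trans (hFm.monotone hx.1), (hFm.monotone hx.2).trans hFd⟩
  -- the root
  set κ : ℕ → Perm ℝ := fun n => (s ^ (n * e))⁻¹ * h * s ^ (n * e) with hκ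
  set A : ℕ → Perm ℝ := fun n => T ^ n * F with hA
  have hκG : ∀ n, κ n ∈ 𝒢 := fun n =>
    mul_mem (mul_mem (inv_mem (pow_mem hs _)) hh) (pow_mem hs _)
  have hAG : ∀ n, A n ∈ 𝒢 := fun n => mul_mem (pow_mem hT _) hF
  have hκpow : ∀ n, (κ n) ^ (2 ^ (n * e)) = h := fun n => root_pow r1 _
  have hκc : ∀ n, κ n c₀ = c₀ := by
    intro n
    -- `κ n` has a fixed point and commutes with its power
    have hκf : HFix (κ n) := by
      have := hhf.conj (s ^ (n * e))⁻¹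
      rwa [inv_inv] at this
    have hcomm : Commute h (κ n) := by
      nth_rewrite 1 [← hκpow n]
      exact (Commute.refl _).pow_left _
    exact (comm_compR h𝒢 hh (hκG n) hκf hcomm hC).1
  have hκd : ∀ n, κ n d₀ = d₀ := by
    intro n
    have hκf : HFix (κ n) := by
      have := hhf.conj (s ^ (n * e))⁻¹
      rwa [inv_inv] at this
    have hcomm : Commute h (κ n) := by
      nth_rewrite 1 [← hκpow n]
      exact (Commute.refl _).pow_left _
    exact (comm_compR h𝒢 hh (hκG n) hκf hcomm hC).2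
  have hκI : ∀ n, ∀ x ∈ Ioo c₀ d₀, κ n x ∈ Ioo c₀ d₀ := by
    intro n x hx
    constructor
    · calc c₀ = κ n c₀ := (hκc n).symm
        _ < _ := (h𝒢 _ (hκG n)).mono hx.1
    · calc κ n x < κ n d₀ := (h𝒢 _ (hκG n)).mono hx.2
        _ = d₀ := hκd n
  have hgA : ∀ n, ∀ x ∈ Ioo c₀ d₀, g (A n x) = A n (κ n x) := by
    intro n x hx
    have hx' := hκI n x hx
    set y := κ n x with hy
    have hγ : A n * κ n * (A n)⁻¹ ∈ 𝒢 := mul_mem (mul_mem (hAG n) (hκG n)) (inv_mem (hAG n))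
    have hk : g * (A n * κ n * (A n)⁻¹)⁻¹ ∈ 𝒢 := mul_mem hg (inv_mem hγ)
    have hs' : A n * s * (A n)⁻¹ ∈ 𝒢 := mul_mem (mul_mem (hAG n) hs) (inv_mem (hAG n))
    have hh' : A n * h * (A n)⁻¹ ∈ 𝒢 := mul_mem (mul_mem (hAG n) hh) (inv_mem (hAG n))
    have hr' : (A n * s * (A n)⁻¹) * (A n * h * (A n)⁻¹) * (A n * s * (A n)⁻¹)⁻¹ =
        (A n * h * (A n)⁻¹) ^ 2 := by
      rw [conj_pow, ← r1]; group
    -- the product has a fixed point
    have hkf : HFix (g * (A n * κ n * (A n)⁻¹)⁻¹) := by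
      have hκf : HFix (κ n) := by
        have := hhf.conj (s ^ (n * e))⁻¹
        rwa [inv_inv] at this
      have hγf : HFix (A n * κ n * (A n)⁻¹) := hκf.conj (A n)
      have hword : A n * κ n * (A n)⁻¹ = ((A n * s * (A n)⁻¹) ^ (n * e))⁻¹ *
          (A n * h * (A n)⁻¹) * (A n * s * (A n)⁻¹) ^ (n * e) := by
        simp only [hκ]
        rw [conj_pow]; group
      have hcγ : Commute (g * (A n * κ n * (A n)⁻¹)⁻¹) (A n * κ n * (A n)⁻¹) := by
        have h1 : Commute (g * (A n * κ n * (A n)⁻¹)⁻¹) (((A n * s * (A n)⁻¹) ^ (n * e))⁻¹ *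
          (A n * h * (A n)⁻¹) * (A n * s * (A n)⁻¹) ^ (n * e)) :=
          ((((r7s n).pow_right _).inv_right).mul_right (r7h n)).mul_right ((r7s n).pow_right _)
        rw [← hword] at h1
        exact h1
      have hcg : Commute g (A n * κ n * (A n)⁻¹) := by
        have h1 := hcγ.mul_left (Commute.refl (A n * κ n * (A n)⁻¹))
        rwa [inv_mul_cancel_right] at h1
      exact hprod _ hg _ (inv_mem hγ) hcg.inv_right hgf hγf.inv
    rcases lemmaAR h𝒢 hs' hh' hk (hsf.conj _) (hhf.conj _) hkf hr' (r7s n) (r7h n) (A n y)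
      with h1 | h1
    · have h2 : (A n * κ n * (A n)⁻¹)⁻¹ (A n y) = A n x := by
        rw [Perm.inv_eq_iff_eq]
        change A n y = A n (κ n ((A n)⁻¹ (A n x)))
        rw [inv_app]
      rwa [Perm.mul_apply, h2] at h1
    · exfalso
      rw [Perm.mul_apply, Perm.mul_apply, inv_app] at h1
      exact hC.ne y hx' ((A n).injective h1)
  have hgA' : ∀ n, ∀ x ∈ Icc c₀ d₀, g (A n x) = A n (κ n x) := by
    intro n
    have h1 : EqOn (fun x => g (A n x)) (fun x => A n (κ n x)) (closure (Ioo c₀ d₀)) := by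
      apply EqOn.closure (hgA n)
      · exact (h𝒢 _ hg).continuous.comp (h𝒢 _ (hAG n)).continuous
      · exact (h𝒢 _ (hAG n)).continuous.comp (h𝒢 _ (hκG n)).continuous
    rw [closure_Ioo hC.huv.ne] at h1
    exact h1
  have hgc : ∀ n, g (A n c₀) = A n c₀ := fun n => by
    rw [hgA' n c₀ ⟨le_rfl, hC.huv.le⟩, hκc]
  have hgd : ∀ n, g (A n d₀) = A n d₀ := fun n => by
    rw [hgA' n d₀ ⟨hC.huv.le, le_rfl⟩, hκd]
  have hAp : ∀ n, ∀ x ∈ Icc c₀ d₀, |A n x - p| ≤ (1 / 2) ^ n * (v - u) := by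
    intro n x hx
    rw [hA]
    exact hTp n (F x) (hFI x hx)
  -- flatness
  have hflat : ∀ r : ℕ, ∃ C, 0 ≤ C ∧ ∀ x, |g x - x| ≤ C * |x - p| ^ r := by
    intro r
    obtain ⟨C, hC0, hCx⟩ := flat_of_zeros (U := univ) isOpen_univ convex_univ (mem_univ p) r
      (fun x => g x - x) hgs.contDiffOn
      (fun k => by
        obtain ⟨C, hC⟩ := hgb k
        exact ⟨C, fun x _ => hC x⟩)
      (by
        intro ε hε
        have hlim : Filter.Tendsto (fun n : ℕ => (1 / 2 : ℝ) ^ n * (v - u)) Filter.atTop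
            (nhds (0 * (v - u))) :=
          (tendsto_pow_atTop_nhds_zero_of_lt_one (by norm_num) (by norm_num)).mul_const _
        rw [zero_mul] at hlim
        obtain ⟨n, hn⟩ := ((tendsto_order.1 hlim).2 ε hε).exists
        by_cases hcp : A n c₀ = p
        · refine ⟨A n d₀, ?_, lt_of_le_of_lt (hAp n d₀ ⟨hC.huv.le, le_rfl⟩) hn, ?_⟩
          · rw [← hcp]
            exact ((h𝒢 _ (hAG n)).mono hC.huv).ne'
          · simp [hgd n]
        · refine ⟨A n c₀, hcp, lt_of_le_of_lt (hAp n c₀ ⟨le_rfl, hC.huv.le⟩) hn, ?_⟩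
          simp [hgc n])
    exact ⟨C, hC0, fun x => hCx x (mem_univ x)⟩
  -- the lower bound
  obtain ⟨CT, hCT1, -, hCTlow⟩ := (h𝒢 _ hT).lip
  have hCT0 : 0 < CT := by linarith
  obtain ⟨r, hr⟩ : ∃ r : ℕ, 2 * CT * 2 ^ e ≤ (2:ℝ) ^ r := by
    obtain ⟨r, hr⟩ := pow_unbounded_of_one_lt (2 * CT * 2 ^ e) (one_lt_two (α := ℝ))
    exact ⟨r, hr.le⟩
  obtain ⟨Cr, hCr0, hCr⟩ := hflat r
  set c₁ := |F (h x₀) - F x₀| with hc₁
  have hc₁pos : 0 < c₁ := by
    rw [hc₁, abs_pos, sub_ne_zero]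
    exact fun hc => hC.ne x₀ hx₀ (F.injective hc)
  have hhx₀ : h x₀ ∈ Ioo c₀ d₀ := by
    have := hκI 0 x₀ hx₀
    simpa [hκ] using this
  have hkey : ∀ n : ℕ, c₁ ≤ Cr * (v - u) ^ r * (1 / 2) ^ n := by
    intro n
    have hpowκ : ∀ l : ℕ, ((κ n) ^ l) x₀ ∈ Ioo c₀ d₀ ∧ (g ^ l) (A n x₀) = A n (((κ n) ^ l) x₀) := by
      intro l
      induction l with
      | zero => exact ⟨by simpa using hx₀, by simp⟩
      | succ l ih =>
        refine ⟨?_, ?_⟩
        · rw [pow_succ', Perm.mul_apply]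
          exact hκI n _ ih.1
        · rw [pow_succ' g, Perm.mul_apply, ih.2, hgA n _ ih.1, pow_succ' (κ n)]
          rfl
    have htel : |(g ^ (2 ^ (n * e))) (A n x₀) - A n x₀| ≤
        2 ^ (n * e) * (Cr * ((1 / 2) ^ n * (v - u)) ^ r) := by
      have h1 : ∀ l : ℕ, |(g ^ l) (A n x₀) - A n x₀| ≤ l * (Cr * ((1 / 2) ^ n * (v - u)) ^ r) := by
        intro l
        induction l with
        | zero => simp
        | succ l ih =>
          have h2 : |(g ^ (l + 1)) (A n x₀) - (g ^ l) (A n x₀)| ≤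
              Cr * ((1 / 2) ^ n * (v - u)) ^ r := by
            rw [pow_succ', Perm.mul_apply, (hpowκ l).2]
            have hm := (hpowκ l).1
            have hmI : ((κ n) ^ l) x₀ ∈ Icc c₀ d₀ := ⟨hm.1.le, hm.2.le⟩
            refine (hCr _).trans ?_
            exact mul_le_mul_of_nonneg_left
                (pow_le_pow_left₀ (abs_nonneg _) (hAp n _ hmI) r) hCr0
          calc |(g ^ (l + 1)) (A n x₀) - A n x₀|
            _ = |((g ^ (l + 1)) (A n x₀) - (g ^ l) (A n x₀)) + ((g ^ l) (A n x₀) - A n x₀)| := by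
                congr 1; ring
            _ ≤ _ := abs_add_le _ _
            _ ≤ Cr * ((1 / 2) ^ n * (v - u)) ^ r + l * (Cr * ((1 / 2) ^ n * (v - u)) ^ r) :=
                add_le_add h2 ih
            _ = ((l + 1 : ℕ) : ℝ) * (Cr * ((1 / 2) ^ n * (v - u)) ^ r) := by
                rw [Nat.cast_succ]; ring
      have := h1 (2 ^ (n * e))
      simpa using this
    rw [(hpowκ _).2, hκpow] at htel
    have hlow := abs_pow_lowerR hTm hCT1 hlen hCTlow hTI1 n
      (hFI x₀ ⟨hx₀.1.le, hx₀.2.le⟩) (hFI (h x₀) ⟨hhx₀.1.le, hhx₀.2.le⟩)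
    have hlow' : c₁ ≤ CT ^ n * |A n (h x₀) - A n x₀| := hlow
    have hvu : 0 ≤ v - u := by linarith
    calc c₁ ≤ CT ^ n * |A n (h x₀) - A n x₀| := hlow'
      _ ≤ CT ^ n * (2 ^ (n * e) * (Cr * ((1 / 2) ^ n * (v - u)) ^ r)) :=
          mul_le_mul_of_nonneg_left htel (by positivity)
      _ = Cr * (v - u) ^ r * (CT * 2 ^ e * (1 / 2) ^ r) ^ n := by
          rw [mul_pow, mul_pow, mul_pow, ← pow_mul 2 e n, mul_comm e n, ← pow_mul, ← pow_mul,
            mul_comm r n]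
          ring
      _ ≤ Cr * (v - u) ^ r * (1 / 2) ^ n := by
          apply mul_le_mul_of_nonneg_left _ (by positivity)
          apply pow_le_pow_left₀ (by positivity)
          rw [one_div, inv_pow, mul_inv_le_iff₀ (by positivity)]
          linarith
  have hlim : Filter.Tendsto (fun n : ℕ => Cr * (v - u) ^ r * (1 / 2 : ℝ) ^ n) Filter.atTop
      (nhds (Cr * (v - u) ^ r * 0)) :=
    (tendsto_pow_atTop_nhds_zero_of_lt_one (by norm_num) (by norm_num)).const_mul _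
  rw [mul_zero] at hlim
  have := ge_of_tendsto' hlim hkey
  linarith

/-- **Main dynamical theorem**, periodic version. -/
theorem kills_hR {𝒢 : Subgroup (Perm ℝ)} (h𝒢 : ∀ φ ∈ 𝒢, GoodR φ) (hprod : FixProd 𝒢)
    {s h H f : Perm ℝ} {g : ℕ → ℕ → Perm ℝ} (hs : s ∈ 𝒢) (hh : h ∈ 𝒢) (hH : H ∈ 𝒢) (hf : f ∈ 𝒢)
    (hg : ∀ i N, g i N ∈ 𝒢) (R : Rel s h H f g)
    (hsf : HFix s) (hhf : HFix h) (hHf : HFix H) (hff : HFix f) (hgf : ∀ i N, HFix (g i N))
    (hgs : ∀ i N, ContDiff ℝ ∞ (fun x => g i N x - x))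
    (hgb : ∀ i N, ∀ k : ℕ, ∃ C, ∀ x, |iteratedDeriv k (fun x => g i N x - x) x| ≤ C) :
    h = 1 := by
  by_contra hne
  obtain ⟨x₀, hx₀⟩ : ∃ x, h x ≠ x := by
    by_contra hc
    push Not at hc
    exact hne (Perm.ext hc)
  obtain ⟨c₀, d₀, hC₀, hxI⟩ := exists_compR (h𝒢 _ hh) hhf hx₀
  have hS1 : ∀ z, h z ≠ z → H z ≠ z := fun z hz =>
    step1R h𝒢 hs hh hH hsf hhf R.r1 R.r2s R.r2h hz
  have hmove : ∀ n : ℕ, H ((f ^ n) x₀) ≠ (f ^ n) x₀ := by
    intro n
    induction n with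
    | zero => simpa using hS1 x₀ hx₀
    | succ n ih =>
      obtain ⟨u, v, hC, hx⟩ := exists_compR (h𝒢 _ hH) hHf ih
      intro hcon
      have h1 : (f ^ (n + 1)) x₀ ∈ Ioo (f u) (f v) := by
        rw [pow_succ', Perm.mul_apply]
        exact ⟨(h𝒢 _ hf).mono hx.1, (h𝒢 _ hf).mono hx.2⟩
      apply step2R h𝒢 hs hh hH hf hsf hhf hHf R.r1 R.r6 R.r6s R.r6h hx₀ n hC hx ⟨h1.1.le, h1.2.le⟩
      rw [fix_inv hcon]
      exact h1
  choose u v hC hx using fun n => exists_compR (h𝒢 _ hH) hHf (hmove n)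
  have hd : ∀ n, ∀ y ∈ Icc (f (u n)) (f (v n)), H⁻¹ y ∉ Ioo (f (u n)) (f (v n)) :=
    fun n y hy => step2R h𝒢 hs hh hH hf hsf hhf hHf R.r1 R.r6 R.r6s R.r6h hx₀ n (hC n) (hx n) hy
  have hin : ∀ n, u (n + 1) ≤ f (u n) ∧ f (v n) ≤ v (n + 1) := by
    intro n
    apply step2bR (h𝒢 _ hf) (hx n) (hd n) (hC (n + 1))
    have := hx (n + 1)
    rwa [pow_succ', Perm.mul_apply] at this
  have hH' : GoodR H⁻¹ := h𝒢 _ (inv_mem hH)
  obtain ⟨N, hN1, hN2⟩ := step3R (h𝒢 _ hH) hH' (h𝒢 _ hf) hff hC hx hd hin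
  have hfu : u N ≤ f (u N) := by
    calc u N = u (N + 1) := hN1.symm
      _ ≤ _ := (hin N).1
  have hfv : f (v N) ≤ v N := by
    calc f (v N) ≤ v (N + 1) := (hin N).2
      _ = _ := hN2
  obtain ⟨i, hcon⟩ := step4R (h𝒢 _ hH) (h𝒢 _ hf) (hC N) (hd N) hfu hfv
  -- the component of `h` is carried into `[u N, v N]`
  have hFn : ∀ n, u n ≤ (f ^ n) c₀ ∧ (f ^ n) d₀ ≤ v n := by
    intro n
    induction n with
    | zero =>
      have hx0 : x₀ ∈ Ioo (u 0) (v 0) := by simpa using hx 0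
      constructor
      · rw [pow_zero, Perm.one_apply]
        by_contra hc
        push Not at hc
        exact hS1 (u 0) (hC₀.ne _ ⟨hc, hx0.1.trans hxI.2⟩) (hC 0).fu
      · rw [pow_zero, Perm.one_apply]
        by_contra hc
        push Not at hc
        exact hS1 (v 0) (hC₀.ne _ ⟨hxI.1.trans hx0.2, hc⟩) (hC 0).fv
    | succ n ih =>
      rw [pow_succ', Perm.mul_apply, Perm.mul_apply]
      exact ⟨(hin n).1.trans ((h𝒢 _ hf).mono.monotone ih.1),
        ((h𝒢 _ hf).mono.monotone ih.2).trans (hin n).2⟩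
  have hHI : ∀ y ∈ Icc (u N) (v N), (H ^ (i + 1)) y ∈ Icc (u N) (v N) := by
    intro y hy
    constructor
    · calc u N = (H ^ (i + 1)) (u N) := (fix_pow (hC N).fu _).symm
        _ ≤ _ := (strictMono_pow (h𝒢 _ hH).mono _).monotone hy.1
    · calc (H ^ (i + 1)) y ≤ (H ^ (i + 1)) (v N) :=
            (strictMono_pow (h𝒢 _ hH).mono _).monotone hy.2
        _ = v N := fix_pow (hC N).fv _
  have hfuv : f (u N) < f (v N) := (h𝒢 _ hf).mono (hC N).huv
  exact step5R h𝒢 hprod hs hh (pow_mem hf N) (mul_mem (pow_mem hH (i + 1)) hf) (hg i N)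
    hsf hhf (hgf i N) R.r1
    ((i + 1) ^ 2) (fun n => R.r7s i N n _ rfl) (fun n => R.r7h i N n _ rfl) (hgs i N) (hgb i N)
    hC₀ hxI (hFn N).1 (hFn N).2 ((hC N).len (h𝒢 _ hH))
    (hHI _ ⟨hfu, by linarith⟩).1 (hHI _ ⟨by linarith, hfv⟩).2 hcon

end Pool.Agent.Work.MP_4516ee_al
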