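import Mathlib

/-! A flat smooth action of the affine group on an interval. -/

open Set Equiv
open scoped ContDiff

namespace Pool.Agent.Work.MP_4516ee_al

noncomputable section

/-- cut off double exponential -/
def PP (y : ℝ) : ℝ := Real.smoothTransition ((4 * y + 1) / 3) * Real.exp (Real.exp ((1 - y)⁻¹))

/-- the coordinate `(-1,1) → ℝ` -/
def Phi (y : ℝ) : ℝ := PP y - PP (-y)

lemma Phi_neg (y : ℝ) : Phi (-y) = -Phi y := by simp [Phi]

lemma Phi_of_half_le {y : ℝ} (hy : 1 / 2 ≤ y) : Phi y = Real.exp (Real.exp ((1 - y)⁻¹)) := by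
  have h1 : Real.smoothTransition ((4 * y + 1) / 3) = 1 :=
    Real.smoothTransition.one_of_one_le (by linarith)
  have h2 : Real.smoothTransition ((4 * (-y) + 1) / 3) = 0 :=
    Real.smoothTransition.zero_of_nonpos (by linarith)
  simp only [Phi, PP, h1, h2, one_mul, zero_mul, sub_zero]

lemma PP_contDiffAt {y : ℝ} (hy : y ≠ 1) : ContDiffAt ℝ ∞ PP y := by
  have h0 : (1 - y) ≠ 0 := sub_ne_zero.2 (Ne.symm hy)
  unfold PP
  apply ContDiffAt.mul
  · exact Real.smoothTransition.contDiffAt.comp y (by fun_prop)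
  · apply ContDiffAt.exp
    apply ContDiffAt.exp
    exact ContDiffAt.inv (by fun_prop) h0

lemma Phi_contDiffAt {y : ℝ} (hy : y ∈ Ioo (-1 : ℝ) 1) : ContDiffAt ℝ ∞ Phi y := by
  apply ContDiffAt.sub
  · exact PP_contDiffAt hy.2.ne
  · have h1 : ContDiffAt ℝ ∞ PP (-y) := PP_contDiffAt (by linarith [hy.1] : -y < 1).ne
    exact h1.comp y (by fun_prop)

lemma st_hasDeriv (x : ℝ) : ∃ d, 0 ≤ d ∧ HasDerivAt Real.smoothTransition d x := by
  have hd : DifferentiableAt ℝ Real.smoothTransition x :=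
    (Real.smoothTransition.contDiffAt (n := 1)).differentiableAt (by simp)
  refine ⟨deriv Real.smoothTransition x, ?_, hd.hasDerivAt⟩
  exact Real.smoothTransition.monotone.deriv_nonneg

lemma PP_hasDeriv {y : ℝ} (hy : y < 1) : ∃ d, 0 ≤ d ∧ (-(1 / 4) < y → 0 < d) ∧
    HasDerivAt PP d y := by
  obtain ⟨d, hd0, hd⟩ := st_hasDeriv ((4 * y + 1) / 3)
  have h0 : (1 - y) ≠ 0 := by linarith
  have h1 : HasDerivAt (fun y : ℝ => (4 * y + 1) / 3) (4 / 3) y := by
    have := (((hasDerivAt_id y).const_mul 4).add_const 1).div_const 3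
    simpa using this
  have h2 : HasDerivAt (fun y : ℝ => Real.smoothTransition ((4 * y + 1) / 3)) (d * (4 / 3)) y :=
    HasDerivAt.comp (h := fun y : ℝ => (4 * y + 1) / 3) (h₂ := Real.smoothTransition) y hd h1
  have h3 : HasDerivAt (fun y : ℝ => (1 - y)⁻¹) (1 / (1 - y) ^ 2) y := by
    have := ((hasDerivAt_id' y).const_sub 1).fun_inv h0
    simpa using this
  have h4 := (h3.exp).exp
  have h5 := h2.mul h4
  refine ⟨_, ?_, ?_, h5⟩
  · have := Real.smoothTransition.nonneg ((4 * y + 1) / 3)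
    positivity
  · intro hy4
    have h6 : 0 < Real.smoothTransition ((4 * y + 1) / 3) :=
      Real.smoothTransition.pos_of_pos (by linarith)
    positivity

lemma Phi_hasDeriv {y : ℝ} (hy : y ∈ Ioo (-1 : ℝ) 1) : ∃ d, 0 < d ∧ HasDerivAt Phi d y := by
  obtain ⟨d1, h10, h11, h12⟩ := PP_hasDeriv hy.2
  obtain ⟨d2, h20, h21, h22⟩ := PP_hasDeriv (by linarith [hy.1] : -y < 1)
  have h3 : HasDerivAt (fun y : ℝ => PP (-y)) (d2 * (-1)) y := h22.comp y (hasDerivAt_neg y)
  refine ⟨d1 - d2 * (-1), ?_, h12.sub h3⟩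
  rcases le_or_gt y 0 with h | h
  · have := h21 (by linarith)
    linarith
  · have := h11 (by linarith)
    linarith

lemma Phi_strictMonoOn : StrictMonoOn Phi (Ioo (-1 : ℝ) 1) := by
  apply strictMonoOn_of_deriv_pos (convex_Ioo _ _)
  · intro y hy
    exact (Phi_contDiffAt hy).continuousAt.continuousWithinAt
  · intro y hy
    rw [interior_Ioo] at hy
    obtain ⟨d, hd, hd'⟩ := Phi_hasDeriv hy
    rwa [hd'.deriv]

lemma Phi_large (X : ℝ) : ∃ y ∈ Ico (1 / 2 : ℝ) 1, X ≤ Phi y := by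
  set t := max 2 X with ht
  have ht2 : 2 ≤ t := le_max_left _ _
  have htX : X ≤ t := le_max_right _ _
  have h1 : 1 / t ≤ 1 / 2 := one_div_le_one_div_of_le two_pos ht2
  have h0 : 0 < 1 / t := by positivity
  refine ⟨1 - 1 / t, ⟨by linarith, by linarith⟩, ?_⟩
  rw [Phi_of_half_le (by linarith)]
  have e : (1 - (1 - 1 / t))⁻¹ = t := by rw [sub_sub_cancel, one_div, inv_inv]
  rw [e]
  have h2 := Real.add_one_le_exp t
  have h3 := Real.add_one_le_exp (Real.exp t)
  linarith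

lemma Phi_surj (X : ℝ) : ∃ y ∈ Ioo (-1 : ℝ) 1, Phi y = X := by
  obtain ⟨y1, hy1, h1⟩ := Phi_large X
  obtain ⟨y2, hy2, h2⟩ := Phi_large (-X)
  have hc : ContinuousOn Phi (Icc (-y2) y1) := by
    intro y hy
    exact (Phi_contDiffAt ⟨by linarith [hy.1, hy2.2], by linarith [hy.2, hy1.2]⟩).continuousAt.continuousWithinAt
  have := intermediate_value_Icc (by linarith [hy1.1, hy2.1]) hc
  have hX : X ∈ Icc (Phi (-y2)) (Phi y1) := ⟨by rw [Phi_neg]; linarith, h1⟩
  obtain ⟨y, hy, hyX⟩ := this hX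
  exact ⟨y, ⟨by linarith [hy.1, hy2.2], by linarith [hy.2, hy1.2]⟩, hyX⟩

/-- `Phi` as an order isomorphism -/
def PhiIso : Ioo (-1 : ℝ) 1 ≃o ℝ :=
  StrictMono.orderIsoOfSurjective (fun y : Ioo (-1 : ℝ) 1 => Phi y)
    (fun x y hxy => Phi_strictMonoOn x.2 y.2 hxy)
    (fun X => by
      obtain ⟨y, hy, hX⟩ := Phi_surj X
      exact ⟨⟨y, hy⟩, hX⟩)

/-- inverse of `Phi` -/
def Psi (X : ℝ) : ℝ := (PhiIso.symm X : ℝ)

lemma Psi_mem (X : ℝ) : Psi X ∈ Ioo (-1 : ℝ) 1 := (PhiIso.symm X).2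

lemma Phi_Psi (X : ℝ) : Phi (Psi X) = X := PhiIso.apply_symm_apply X

lemma Psi_Phi {y : ℝ} (hy : y ∈ Ioo (-1 : ℝ) 1) : Psi (Phi y) = y :=
  congrArg Subtype.val (PhiIso.symm_apply_apply ⟨y, hy⟩)

lemma Psi_eq {X y : ℝ} (hy : y ∈ Ioo (-1 : ℝ) 1) (h : Phi y = X) : Psi X = y := by
  rw [← h, Psi_Phi hy]

lemma Psi_neg (X : ℝ) : Psi (-X) = -Psi X := by
  apply Psi_eq
  · have := Psi_mem X
    exact ⟨by linarith [this.2], by linarith [this.1]⟩
  · rw [Phi_neg, Phi_Psi]

lemma Psi_continuous : Continuous Psi :=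
  continuous_subtype_val.comp PhiIso.symm.continuous

/-- `Phi` as a partial homeomorphism -/
def PhiHomeo : OpenPartialHomeomorph ℝ ℝ where
  toFun := Phi
  invFun := Psi
  source := Ioo (-1) 1
  target := univ
  map_source' := mapsTo_univ _ _
  map_target' y _ := Psi_mem y
  left_inv' _ hx := Psi_Phi hx
  right_inv' y _ := Phi_Psi y
  open_source := isOpen_Ioo
  open_target := isOpen_univ
  continuousOn_toFun := fun _ hy => (Phi_contDiffAt hy).continuousAt.continuousWithinAt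
  continuousOn_invFun := Psi_continuous.continuousOn

lemma Psi_contDiff : ContDiff ℝ ∞ Psi := by
  rw [contDiff_iff_contDiffAt]
  intro X
  obtain ⟨d, hd, hd'⟩ := Phi_hasDeriv (Psi_mem X)
  exact PhiHomeo.contDiffAt_symm_deriv (f₀' := d) hd.ne' (mem_univ X) hd'
    (Phi_contDiffAt (Psi_mem X))

/-- the transported affine map -/
def affF (b c y : ℝ) : ℝ := if |y| < 1 then Psi (Real.exp b * Phi y + c) else y

lemma affF_lt {b c y : ℝ} (hy : |y| < 1) : affF b c y = Psi (Real.exp b * Phi y + c) := if_pos hy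

lemma affF_ge {b c y : ℝ} (hy : 1 ≤ |y|) : affF b c y = y := if_neg (not_lt.2 hy)

lemma affF_mem {b c y : ℝ} (hy : |y| < 1) : |affF b c y| < 1 := by
  rw [affF_lt hy, abs_lt]
  exact Psi_mem _

lemma affF_comp (b c b' c' y : ℝ) :
    affF b c (affF b' c' y) = affF (b + b') (Real.exp b * c' + c) y := by
  by_cases hy : |y| < 1
  · rw [affF_lt (affF_mem hy), affF_lt hy, affF_lt hy, Phi_Psi, Real.exp_add]
    congr 1; ring
  · push Not at hy
    rw [affF_ge (y := y) hy, affF_ge hy, affF_ge hy]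

lemma affF_zero (y : ℝ) : affF 0 0 y = y := by
  by_cases hy : |y| < 1
  · rw [affF_lt hy, Real.exp_zero, one_mul, add_zero, Psi_Phi (abs_lt.1 hy)]
  · push Not at hy
    rw [affF_ge hy]

lemma affF_neg (b c y : ℝ) : affF b c (-y) = -affF b (-c) y := by
  by_cases hy : |y| < 1
  · rw [affF_lt hy, affF_lt (by rwa [abs_neg]), Phi_neg, ← Psi_neg]
    congr 1; ring
  · push Not at hy
    rw [affF_ge hy, affF_ge (by rwa [abs_neg])]

/-- auxiliary term of the local formula -/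
def affA (p : ℝ × ℝ × ℝ) : ℝ :=
  1 + p.2.1 * Real.exp (-p.1) * expNegInvGlue (expNegInvGlue (1 - p.2.2))

/-- auxiliary term of the local formula -/
def affB (p : ℝ × ℝ × ℝ) : ℝ :=
  1 + (p.1 + Real.log (affA p)) * expNegInvGlue (1 - p.2.2)

/-- auxiliary term of the local formula -/
def affD (p : ℝ × ℝ × ℝ) : ℝ := 1 + (1 - p.2.2) * Real.log (affB p)

/-- the local formula near `1` -/
def affG (p : ℝ × ℝ × ℝ) : ℝ := 1 - (1 - p.2.2) / affD p

lemma eni_contDiff : ContDiff ℝ ∞ (fun p : ℝ × ℝ × ℝ => expNegInvGlue (1 - p.2.2)) :=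
  (expNegInvGlue.contDiff (n := ⊤)).comp (by fun_prop)

lemma affA_contDiff : ContDiff ℝ ∞ affA := by
  unfold affA
  apply ContDiff.add contDiff_const
  apply ContDiff.mul (by fun_prop)
  exact (expNegInvGlue.contDiff (n := ⊤)).comp eni_contDiff

lemma affA_one (b c : ℝ) : affA (b, c, 1) = 1 := by simp [affA]

lemma affB_one (b c : ℝ) : affB (b, c, 1) = 1 := by simp [affB]

lemma affD_one (b c : ℝ) : affD (b, c, 1) = 1 := by simp [affD]

lemma affG_one (b c : ℝ) : affG (b, c, 1) = 1 := by simp [affG]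

lemma affB_contDiffAt (b c : ℝ) : ContDiffAt ℝ ∞ affB (b, c, 1) := by
  unfold affB
  apply ContDiffAt.add contDiffAt_const
  apply ContDiffAt.mul _ eni_contDiff.contDiffAt
  apply ContDiffAt.add (by fun_prop)
  exact affA_contDiff.contDiffAt.log (by rw [affA_one]; exact one_ne_zero)

lemma affD_contDiffAt (b c : ℝ) : ContDiffAt ℝ ∞ affD (b, c, 1) := by
  unfold affD
  apply ContDiffAt.add contDiffAt_const
  apply ContDiffAt.mul (by fun_prop)
  exact (affB_contDiffAt b c).log (by rw [affB_one]; exact one_ne_zero)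

lemma affG_contDiffAt (b c : ℝ) : ContDiffAt ℝ ∞ affG (b, c, 1) := by
  unfold affG
  apply ContDiffAt.sub contDiffAt_const
  apply ContDiffAt.div (by fun_prop) (affD_contDiffAt b c)
  rw [affD_one]
  exact one_ne_zero

lemma eni_pos {x : ℝ} (hx : 0 < x) : expNegInvGlue x = Real.exp (-x⁻¹) := by
  simp [expNegInvGlue, not_le.2 hx]

lemma affF_eq_affG (b₀ c₀ : ℝ) :
    ∀ᶠ p : ℝ × ℝ × ℝ in nhds (b₀, c₀, 1), affF p.1 p.2.1 p.2.2 = affG p := by
  have e1 : ∀ᶠ p : ℝ × ℝ × ℝ in nhds (b₀, c₀, 1), 1 / 2 < p.2.2 := by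
    have : ContinuousAt (fun p : ℝ × ℝ × ℝ => p.2.2) (b₀, c₀, 1) := by fun_prop
    exact this.eventually (lt_mem_nhds (by norm_num))
  have e2 : ∀ᶠ p : ℝ × ℝ × ℝ in nhds (b₀, c₀, 1), 0 < affA p :=
    affA_contDiff.continuous.continuousAt.eventually (lt_mem_nhds (by rw [affA_one]; norm_num))
  have e3 : ∀ᶠ p : ℝ × ℝ × ℝ in nhds (b₀, c₀, 1), 0 < affB p :=
    (affB_contDiffAt b₀ c₀).continuousAt.eventually (lt_mem_nhds (by rw [affB_one]; norm_num))
  have e4 : ∀ᶠ p : ℝ × ℝ × ℝ in nhds (b₀, c₀, 1), 0 < affD p :=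
    (affD_contDiffAt b₀ c₀).continuousAt.eventually (lt_mem_nhds (by rw [affD_one]; norm_num))
  have e5 : ∀ᶠ p : ℝ × ℝ × ℝ in nhds (b₀, c₀, 1), 1 / 2 < affG p :=
    (affG_contDiffAt b₀ c₀).continuousAt.eventually (lt_mem_nhds (by rw [affG_one]; norm_num))
  filter_upwards [e1, e2, e3, e4, e5] with p h1 h2 h3 h4 h5
  obtain ⟨b, c, y⟩ := p
  simp only at h1 h2 h3 h4 h5 ⊢
  rcases le_or_gt 1 y with hy | hy
  · rw [affF_ge (by rw [abs_of_pos (by linarith)]; exact hy)]
    have hE : expNegInvGlue (1 - y) = 0 := expNegInvGlue.zero_of_nonpos (by linarith)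
    simp [affG, affD, affB, hE]
  · rw [affF_lt (by rw [abs_of_pos (by linarith)]; exact hy)]
    set ε := 1 - y with hε
    have hε0 : 0 < ε := by linarith
    have hE : expNegInvGlue ε = Real.exp (-ε⁻¹) := eni_pos hε0
    have hE2 : expNegInvGlue (expNegInvGlue ε) = Real.exp (-Real.exp (ε⁻¹)) := by
      rw [eni_pos (expNegInvGlue.pos_of_pos hε0), hE, ← Real.exp_neg, neg_neg]
    have hy' : affG (b, c, y) < 1 := by
      have : 0 < ε / affD (b, c, y) := div_pos hε0 h4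
      simp only [affG]
      rw [← hε]
      linarith
    apply Psi_eq ⟨by linarith, hy'⟩
    rw [Phi_of_half_le h5.le, Phi_of_half_le h1.le]
    have e6 : (1 - affG (b, c, y))⁻¹ = ε⁻¹ + Real.log (affB (b, c, y)) := by
      simp only [affG]
      rw [← hε, sub_sub_cancel, inv_div, div_eq_iff hε0.ne']
      simp only [affD]
      rw [← hε]
      field_simp
    rw [e6, Real.exp_add, Real.exp_log h3]
    have e7 : Real.exp ε⁻¹ * affB (b, c, y) = Real.exp ε⁻¹ + (b + Real.log (affA (b, c, y))) := by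
      simp only [affB]
      rw [← hε, hE, Real.exp_neg]
      have := (Real.exp_pos ε⁻¹).ne'
      field_simp
    rw [e7, Real.exp_add, Real.exp_add, Real.exp_log h2]
    simp only [affA]
    rw [← hε, hE2, Real.exp_neg, Real.exp_neg]
    have h8 := (Real.exp_pos (Real.exp ε⁻¹)).ne'
    have h9 := (Real.exp_pos b).ne'
    field_simp

/-- joint smoothness -/
lemma affF_contDiff : ContDiff ℝ ∞ (fun p : ℝ × ℝ × ℝ => affF p.1 p.2.1 p.2.2) := by
  rw [contDiff_iff_contDiffAt]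
  rintro ⟨b₀, c₀, y₀⟩
  have key : ∀ b₀ c₀ : ℝ, ContDiffAt ℝ ∞ (fun p : ℝ × ℝ × ℝ => affF p.1 p.2.1 p.2.2)
      (b₀, c₀, 1) := fun b₀ c₀ => (affG_contDiffAt b₀ c₀).congr_of_eventuallyEq
      (affF_eq_affG b₀ c₀)
  rcases lt_trichotomy (|y₀|) 1 with hy | hy | hy
  · have hopen : IsOpen {p : ℝ × ℝ × ℝ | |p.2.2| < 1} :=
      isOpen_lt (by fun_prop) continuous_const
    have hev : ∀ᶠ p : ℝ × ℝ × ℝ in nhds (b₀, c₀, y₀), |p.2.2| < 1 := hopen.mem_nhds hy
    apply ContDiffAt.congr_of_eventuallyEq (f := fun p : ℝ × ℝ × ℝ =>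
      Psi (Real.exp p.1 * Phi p.2.2 + p.2.1))
    · have h1 : ContDiffAt ℝ ∞ (fun p : ℝ × ℝ × ℝ => Phi p.2.2) (b₀, c₀, y₀) := by
        have h2 : ContDiffAt ℝ ∞ Phi y₀ := Phi_contDiffAt (abs_lt.1 hy)
        exact ContDiffAt.comp (g := Phi) (f := fun p : ℝ × ℝ × ℝ => p.2.2) (b₀, c₀, y₀) h2
          (by fun_prop)
      have h3 : ContDiffAt ℝ ∞ (fun p : ℝ × ℝ × ℝ => Real.exp p.1 * Phi p.2.2 + p.2.1)
          (b₀, c₀, y₀) := (ContDiffAt.mul (by fun_prop) h1).add (by fun_prop)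
      exact Psi_contDiff.contDiffAt.comp _ h3
    · filter_upwards [hev] with p hp
      exact affF_lt hp
  · rcases (abs_eq (by norm_num : (0:ℝ) ≤ 1)).1 hy with h | h
    · rw [h]
      exact key b₀ c₀
    · rw [h]
      have h1 : (fun p : ℝ × ℝ × ℝ => affF p.1 p.2.1 p.2.2) =
          fun p : ℝ × ℝ × ℝ => -(fun q : ℝ × ℝ × ℝ => affF q.1 q.2.1 q.2.2)
            (p.1, -p.2.1, -p.2.2) := by
        funext p
        have := affF_neg p.1 p.2.1 (-p.2.2)
        rw [neg_neg] at this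
        exact this
      rw [h1]
      apply ContDiffAt.neg
      apply ContDiffAt.comp (g := fun q : ℝ × ℝ × ℝ => affF q.1 q.2.1 q.2.2)
        (f := fun p : ℝ × ℝ × ℝ => (p.1, -p.2.1, -p.2.2))
      · simp only [neg_neg]
        exact key b₀ (-c₀)
      · fun_prop
  · have hopen : IsOpen {p : ℝ × ℝ × ℝ | 1 < |p.2.2|} :=
      isOpen_lt continuous_const (by fun_prop)
    have hev : ∀ᶠ p : ℝ × ℝ × ℝ in nhds (b₀, c₀, y₀), 1 < |p.2.2| := hopen.mem_nhds hy
    apply ContDiffAt.congr_of_eventuallyEq (f := fun p : ℝ × ℝ × ℝ => p.2.2)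
    · fun_prop
    · filter_upwards [hev] with p hp
      exact affF_ge hp.le

/-- the affine action as permutations -/
def affP (b c : ℝ) : Perm ℝ where
  toFun := affF b c
  invFun := affF (-b) (-(Real.exp (-b) * c))
  left_inv y := by
    rw [affF_comp]
    have : Real.exp (-b) * c + -(Real.exp (-b) * c) = 0 := by ring
    rw [this, neg_add_cancel, affF_zero]
  right_inv y := by
    rw [affF_comp]
    have : Real.exp b * -(Real.exp (-b) * c) + c = 0 := by
      rw [Real.exp_neg]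
      have := (Real.exp_pos b).ne'
      field_simp
      ring
    rw [this, add_neg_cancel, affF_zero]

lemma affP_apply (b c y : ℝ) : affP b c y = affF b c y := rfl

lemma affP_mul (b c b' c' : ℝ) : affP b c * affP b' c' = affP (b + b') (Real.exp b * c' + c) := by
  ext y
  exact affF_comp b c b' c' y

lemma affP_zero : affP 0 0 = 1 := by
  ext y
  exact affF_zero y

lemma affP_inv (b c : ℝ) : (affP b c)⁻¹ = affP (-b) (-(Real.exp (-b) * c)) := by
  rw [inv_eq_iff_mul_eq_one, affP_mul]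
  have : Real.exp b * -(Real.exp (-b) * c) + c = 0 := by
      rw [Real.exp_neg]
      have := (Real.exp_pos b).ne'
      field_simp
      ring
  rw [this, add_neg_cancel, affP_zero]

end

end Pool.Agent.Work.MP_4516ee_al
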