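import Mathlib

/-! Abstract conjugacy lemmas. -/

open Set Equiv

namespace Pool.Agent.Work.MP_4516ee_al

noncomputable section

section ifs

variable {X ι : Type*}

open Classical in
/-- the operator `Φ ↦ G Φ F⁻¹` -/
def opF (F G : ι → X → X) (Φ : X → X) (y : X) : X :=
  if h : ∃ p : ι × X, F p.1 p.2 = y then G h.choose.1 (Φ h.choose.2) else y

lemma opF_on {F G : ι → X → X} (hF : ∀ i, Function.Injective (F i))
    (hd : ∀ i j x y, F i x = F j y → i = j) (Φ : X → X) (i : ι) (x : X) :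
    opF F G Φ (F i x) = G i (Φ x) := by
  have h : ∃ p : ι × X, F p.1 p.2 = F i x := ⟨(i, x), rfl⟩
  rw [opF, dif_pos h]
  have h1 := h.choose_spec
  have h4 : h.choose = (i, x) := by
    have h2 : h.choose.1 = i := hd _ _ _ _ h1
    have h3 : h.choose.2 = x := by
      apply hF i
      rw [h2] at h1
      exact h1
    exact Prod.ext h2 h3
  rw [h4]

lemma opF_off {F G : ι → X → X} {Φ : X → X} {y : X} (hy : ∀ i x, F i x ≠ y) :
    opF F G Φ y = y := by
  rw [opF, dif_neg]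
  push Not
  exact fun p => hy p.1 p.2

variable [MetricSpace X] [CompleteSpace X]

lemma ifs_semi {F G : ι → X → X} {K c : ℝ} (hK : ∀ x y : X, dist x y ≤ K) (hc0 : 0 ≤ c)
    (hc : c < 1) (hG : ∀ i x y, dist (G i x) (G i y) ≤ c * dist x y)
    (hF : ∀ i, Function.Injective (F i))
    (hd : ∀ i j x y, F i x = F j y → i = j) :
    ∃ Φ : X → X, (∀ i x, Φ (F i x) = G i (Φ x)) ∧ ∀ y, (∀ i x, F i x ≠ y) → Φ y = y := by
  set Φ : ℕ → X → X := fun n => (opF F G)^[n] id with hΦ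
  have hsucc : ∀ n y, Φ (n + 1) y = opF F G (Φ n) y := by
    intro n y
    simp only [hΦ, Function.iterate_succ', Function.comp]
  have hon : ∀ n i x, Φ (n + 1) (F i x) = G i (Φ n x) := by
    intro n i x
    rw [hsucc, opF_on hF hd]
  have hoff : ∀ n y, (∀ i x, F i x ≠ y) → Φ n y = y := by
    intro n y hy
    rcases n with _ | n
    · rfl
    · rw [hsucc, opF_off hy]
  have hdist : ∀ n y, dist (Φ n y) (Φ (n + 1) y) ≤ K * c ^ n := by
    intro n
    induction n with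
    | zero => intro y; simpa using hK _ _
    | succ n ih =>
      intro y
      by_cases hy : ∃ i x, F i x = y
      · obtain ⟨i, x, rfl⟩ := hy
        rw [hon, hon]
        calc dist (G i (Φ n x)) (G i (Φ (n + 1) x)) ≤ c * dist (Φ n x) (Φ (n + 1) x) := hG _ _ _
          _ ≤ c * (K * c ^ n) := mul_le_mul_of_nonneg_left (ih x) hc0
          _ = K * c ^ (n + 1) := by ring
      · push Not at hy
        rw [hoff _ y hy, hoff _ y hy, dist_self]
        have : 0 ≤ K := (dist_nonneg).trans (hK y y)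
        positivity
  have hcau : ∀ y, CauchySeq fun n => Φ n y := fun y =>
    cauchySeq_of_le_geometric c K hc (fun n => hdist n y)
  choose Ψ hΨ using fun y => cauchySeq_tendsto_of_complete (hcau y)
  refine ⟨Ψ, ?_, ?_⟩
  · intro i x
    have h1 : Filter.Tendsto (fun n => Φ (n + 1) (F i x)) Filter.atTop (nhds (Ψ (F i x))) :=
      (hΨ (F i x)).comp (Filter.tendsto_add_atTop_nat 1)
    have hcont : Continuous (G i) := by
      have : LipschitzWith (Real.toNNReal c) (G i) := by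
        apply LipschitzWith.of_dist_le_mul
        intro x y
        rw [Real.coe_toNNReal c hc0]
        exact hG i x y
      exact this.continuous
    have h2 : Filter.Tendsto (fun n => Φ (n + 1) (F i x)) Filter.atTop (nhds (G i (Ψ x))) := by
      simp only [hon]
      exact (hcont.tendsto _).comp (hΨ x)
    exact tendsto_nhds_unique h1 h2
  · intro y hy
    have h1 := hΨ y
    simp only [hoff _ y hy] at h1
    exact tendsto_nhds_unique h1 tendsto_const_nhds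

omit [CompleteSpace X] in
lemma ifs_unique {F : ι → X → X} {K c : ℝ} (hK : ∀ x y : X, dist x y ≤ K) (hc0 : 0 ≤ c)
    (hc : c < 1) (hF : ∀ i x y, dist (F i x) (F i y) ≤ c * dist x y) {E : X → X}
    (h1 : ∀ i x, E (F i x) = F i (E x)) (h2 : ∀ y, (∀ i x, F i x ≠ y) → E y = y) (y : X) :
    E y = y := by
  have key : ∀ n : ℕ, ∀ y, dist (E y) y ≤ K * c ^ n := by
    intro n
    induction n with
    | zero => intro y; simpa using hK _ _
    | succ n ih =>
      intro y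
      by_cases hy : ∃ i x, F i x = y
      · obtain ⟨i, x, rfl⟩ := hy
        rw [h1]
        calc dist (F i (E x)) (F i x) ≤ c * dist (E x) x := hF _ _ _
          _ ≤ c * (K * c ^ n) := mul_le_mul_of_nonneg_left (ih x) hc0
          _ = K * c ^ (n + 1) := by ring
      · push Not at hy
        rw [h2 y hy, dist_self]
        have : 0 ≤ K := (dist_nonneg).trans (hK y y)
        positivity
  have hlim : Filter.Tendsto (fun n : ℕ => K * c ^ n) Filter.atTop (nhds (K * 0)) :=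
    (tendsto_pow_atTop_nhds_zero_of_lt_one hc0 hc).const_mul _
  rw [mul_zero] at hlim
  have h3 : dist (E y) y ≤ 0 := ge_of_tendsto' hlim fun n => key n y
  exact dist_le_zero.1 h3

/-- Two contracting systems with the same combinatorics are conjugate. -/
theorem ifs_conj {F G : ι → X → X} {K c : ℝ} (hK : ∀ x y : X, dist x y ≤ K) (hc0 : 0 ≤ c)
    (hc : c < 1) (hF : ∀ i x y, dist (F i x) (F i y) ≤ c * dist x y)
    (hG : ∀ i x y, dist (G i x) (G i y) ≤ c * dist x y)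
    (hFi : ∀ i, Function.Injective (F i)) (hGi : ∀ i, Function.Injective (G i))
    (hdF : ∀ i j x y, F i x = F j y → i = j) (hdG : ∀ i j x y, G i x = G j y → i = j)
    (hr : ∀ i y, (∃ x, F i x = y) ↔ ∃ x, G i x = y) :
    ∃ Ψ : Perm X, (∀ i x, Ψ (F i x) = G i (Ψ x)) ∧ ∀ y, (∀ i x, F i x ≠ y) → Ψ y = y := by
  obtain ⟨Φ, h1, h2⟩ := ifs_semi hK hc0 hc hG hFi hdF
  obtain ⟨Φ', h1', h2'⟩ := ifs_semi hK hc0 hc hF hGi hdG
  have hoff : ∀ y, (∀ i x, F i x ≠ y) → ∀ i x, G i x ≠ y := by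
    intro y hy i x hx
    obtain ⟨x', hx'⟩ := (hr i y).2 ⟨x, hx⟩
    exact hy i x' hx'
  have hoff' : ∀ y, (∀ i x, G i x ≠ y) → ∀ i x, F i x ≠ y := by
    intro y hy i x hx
    obtain ⟨x', hx'⟩ := (hr i y).1 ⟨x, hx⟩
    exact hy i x' hx'
  refine ⟨⟨Φ, Φ', ?_, ?_⟩, h1, h2⟩
  · intro y
    apply ifs_unique hK hc0 hc hF (E := fun y => Φ' (Φ y))
    · intro i x
      simp only [h1, h1']
    · intro y hy
      simp only [h2 y hy, h2' y (hoff y hy)]
  · intro y
    apply ifs_unique hK hc0 hc hG (E := fun y => Φ (Φ' y))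
    · intro i x
      simp only [h1, h1']
    · intro y hy
      simp only [h2' y hy, h2 y (hoff' y hy)]

end ifs

section glue

variable {ι Y : Type*}

open Classical in
/-- glue permutations with disjoint supports -/
def glue (S : ι → Set Y) (P : ι → Perm Y) (y : Y) : Y :=
  if h : ∃ i, y ∈ S i then P h.choose y else y

lemma glue_on' {S : ι → Set Y} {P : ι → Perm Y} (hd : ∀ i j y, y ∈ S i → y ∈ S j → i = j)
    {i : ι} {y : Y} (hy : y ∈ S i) : glue S P y = P i y := by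
  have h : ∃ i, y ∈ S i := ⟨i, hy⟩
  rw [glue, dif_pos h]
  rw [hd _ _ y h.choose_spec hy]

lemma glue_off' {S : ι → Set Y} {P : ι → Perm Y} {y : Y} (hy : ∀ i, y ∉ S i) :
    glue S P y = y := by
  rw [glue, dif_neg]
  push Not
  exact hy

lemma mem_of_off {P : Perm Y} {S : Set Y} (h : ∀ y, y ∉ S → P y = y) {y : Y}
    (hy : y ∈ S) : P y ∈ S := by
  by_contra hc
  have h1 := h _ hc
  have h2 := P.injective h1
  rw [h2] at hc
  exact hc hy

lemma inv_off {P : Perm Y} {S : Set Y} (h : ∀ y, y ∉ S → P y = y) (y : Y) (hy : y ∉ S) :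
    P⁻¹ y = y := by
  rw [Perm.inv_eq_iff_eq, h y hy]

/-- the glued permutation -/
def gluePerm (S : ι → Set Y) (P : ι → Perm Y) (hd : ∀ i j y, y ∈ S i → y ∈ S j → i = j)
    (hs : ∀ i y, y ∉ S i → P i y = y) : Perm Y where
  toFun := glue S P
  invFun := glue S (fun i => (P i)⁻¹)
  left_inv := by
    intro y
    by_cases hy : ∃ i, y ∈ S i
    · obtain ⟨i, hi⟩ := hy
      rw [glue_on' hd hi, glue_on' hd (mem_of_off (hs i) hi)]
      exact (P i).symm_apply_apply y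
    · push Not at hy
      rw [glue_off' (P := P) hy, glue_off' hy]
  right_inv := by
    intro y
    by_cases hy : ∃ i, y ∈ S i
    · obtain ⟨i, hi⟩ := hy
      rw [glue_on' (P := fun i => (P i)⁻¹) hd hi,
        glue_on' hd (mem_of_off (inv_off (hs i)) hi)]
      exact (P i).apply_symm_apply y
    · push Not at hy
      rw [glue_off' (P := fun i => (P i)⁻¹) hy, glue_off' hy]

variable {S : ι → Set Y} {P : ι → Perm Y} {hd : ∀ i j y, y ∈ S i → y ∈ S j → i = j}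
    {hs : ∀ i y, y ∉ S i → P i y = y}

lemma gluePerm_on {i : ι} {y : Y} (hy : y ∈ S i) : gluePerm S P hd hs y = P i y :=
  glue_on' hd hy

lemma gluePerm_off {y : Y} (hy : ∀ i, y ∉ S i) : gluePerm S P hd hs y = y :=
  glue_off' hy

lemma gluePerm_inv_on {i : ι} {y : Y} (hy : y ∈ S i) :
    (gluePerm S P hd hs)⁻¹ y = (P i)⁻¹ y := glue_on' (P := fun i => (P i)⁻¹) hd hy

lemma gluePerm_inv_off {y : Y} (hy : ∀ i, y ∉ S i) : (gluePerm S P hd hs)⁻¹ y = y :=
  glue_off' (P := fun i => (P i)⁻¹) hy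

end glue

section extend

variable {Y : Type*}

open Classical in
/-- extension of a conjugacy from an absorbing set -/
def extF (fa fb ψ : Perm Y) (V : Set Y) (y : Y) : Y :=
  if h : ∃ n : ℕ, (fa ^ n) y ∈ V then (fb ^ h.choose)⁻¹ (ψ ((fa ^ h.choose) y)) else y

lemma extF_step {fa fb ψ : Perm Y} {V : Set Y} (hVa : ∀ y ∈ V, fa y ∈ V)
    (hψ : ∀ y ∈ V, ψ (fa y) = fb (ψ y)) {n : ℕ} {y : Y} (hn : (fa ^ n) y ∈ V) (k : ℕ) :
    (fa ^ (n + k)) y ∈ V ∧
      (fb ^ (n + k))⁻¹ (ψ ((fa ^ (n + k)) y)) = (fb ^ n)⁻¹ (ψ ((fa ^ n) y)) := by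
  induction k with
  | zero => exact ⟨hn, rfl⟩
  | succ k ih =>
    have e : (fa ^ (n + (k + 1))) y = fa ((fa ^ (n + k)) y) := by
      rw [← add_assoc, pow_succ', Perm.mul_apply]
    rw [e]
    refine ⟨hVa _ ih.1, ?_⟩
    rw [hψ _ ih.1, ← ih.2, ← add_assoc, pow_succ fb, mul_inv_rev, Perm.mul_apply]
    have e2 : (fb ^ (n + k))⁻¹ = fb * (fb ^ (n + k))⁻¹ * fb⁻¹ := by
      have : Commute fb ((fb ^ (n + k))⁻¹) := ((Commute.refl fb).pow_right _).inv_right
      rw [this.eq, mul_inv_cancel_right]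
    nth_rewrite 1 [e2]
    rw [Perm.mul_apply, Perm.mul_apply]
    have e3 : fb⁻¹ (fb (ψ ((fa ^ (n + k)) y))) = ψ ((fa ^ (n + k)) y) :=
      fb.symm_apply_apply _
    rw [e3]
    exact fb.symm_apply_apply _

lemma extF_eq {fa fb ψ : Perm Y} {V : Set Y} (hVa : ∀ y ∈ V, fa y ∈ V)
    (hψ : ∀ y ∈ V, ψ (fa y) = fb (ψ y)) {n : ℕ} {y : Y} (hn : (fa ^ n) y ∈ V) :
    extF fa fb ψ V y = (fb ^ n)⁻¹ (ψ ((fa ^ n) y)) := by
  have h : ∃ n : ℕ, (fa ^ n) y ∈ V := ⟨n, hn⟩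
  rw [extF, dif_pos h]
  have h1 := (extF_step hVa hψ h.choose_spec n).2
  have h2 := (extF_step hVa hψ hn h.choose).2
  rw [← h1, ← h2, add_comm n h.choose]

lemma extF_off {fa fb ψ : Perm Y} {V : Set Y} {y : Y} (hy : ∀ n : ℕ, (fa ^ n) y ∉ V) :
    extF fa fb ψ V y = y := by
  rw [extF, dif_neg]
  push Not
  exact hy

lemma extF_inv {fa fb ψ : Perm Y} {V : Set Y} (hVa : ∀ y ∈ V, fa y ∈ V) (hVb : ∀ y ∈ V, fb y ∈ V)
    (hψ : ∀ y ∈ V, ψ (fa y) = fb (ψ y)) (hψV : ∀ y ∈ V, ψ y ∈ V) (hψV' : ∀ y ∈ V, ψ⁻¹ y ∈ V)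
    (hW : ∀ y, (∃ n : ℕ, (fa ^ n) y ∈ V) ↔ ∃ n : ℕ, (fb ^ n) y ∈ V) (y : Y) :
    extF fb fa ψ⁻¹ V (extF fa fb ψ V y) = y := by
  have hψ' : ∀ y ∈ V, ψ⁻¹ (fb y) = fa (ψ⁻¹ y) := by
    intro y hy
    rw [Perm.inv_eq_iff_eq, hψ _ (hψV' y hy)]
    congr 1
    exact (ψ.apply_symm_apply y).symm
  by_cases hy : ∃ n : ℕ, (fa ^ n) y ∈ V
  · obtain ⟨n, hn⟩ := hy
    rw [extF_eq hVa hψ hn]
    have h1 : (fb ^ n) ((fb ^ n)⁻¹ (ψ ((fa ^ n) y))) = ψ ((fa ^ n) y) :=
      (fb ^ n).apply_symm_apply _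
    rw [extF_eq hVb hψ' (n := n) (by rw [h1]; exact hψV _ hn), h1]
    have h2 : ψ⁻¹ (ψ ((fa ^ n) y)) = (fa ^ n) y := ψ.symm_apply_apply _
    rw [h2]
    exact (fa ^ n).symm_apply_apply y
  · have hy' : ¬ ∃ n : ℕ, (fb ^ n) y ∈ V := fun h => hy ((hW y).2 h)
    push Not at hy hy'
    rw [extF_off (fa := fa) hy, extF_off hy']

/-- extension of a conjugacy -/
theorem exists_extend {fa fb ψ : Perm Y} {V : Set Y} (hVa : ∀ y ∈ V, fa y ∈ V)
    (hVb : ∀ y ∈ V, fb y ∈ V)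
    (hψ : ∀ y ∈ V, ψ (fa y) = fb (ψ y)) (hψV : ∀ y ∈ V, ψ y ∈ V) (hψV' : ∀ y ∈ V, ψ⁻¹ y ∈ V)
    (hW : ∀ y, (∃ n : ℕ, (fa ^ n) y ∈ V) ↔ ∃ n : ℕ, (fb ^ n) y ∈ V)
    (hoff : ∀ y, (∀ n : ℕ, (fa ^ n) y ∉ V) → fa y = fb y) :
    ∃ Ψ : Perm Y, (∀ y, Ψ (fa y) = fb (Ψ y)) ∧ (∀ y ∈ V, Ψ y = ψ y) ∧
      (∀ y, (∀ n : ℕ, (fa ^ n) y ∉ V) → Ψ y = y) := by
  have hψ' : ∀ y ∈ V, ψ⁻¹ (fb y) = fa (ψ⁻¹ y) := by
    intro y hy
    rw [Perm.inv_eq_iff_eq, hψ _ (hψV' y hy)]
    congr 1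
    exact (ψ.apply_symm_apply y).symm
  refine ⟨⟨extF fa fb ψ V, extF fb fa ψ⁻¹ V, extF_inv hVa hVb hψ hψV hψV' hW, ?_⟩, ?_, ?_, ?_⟩
  · have := extF_inv hVb hVa hψ' hψV' (by rw [inv_inv]; exact hψV) (fun y => (hW y).symm)
    rw [inv_inv] at this
    exact this
  · intro y
    change extF fa fb ψ V (fa y) = fb (extF fa fb ψ V y)
    by_cases hy : ∃ n : ℕ, (fa ^ n) y ∈ V
    · obtain ⟨n, hn⟩ := hy
      have h1 := (extF_step hVa hψ hn 1).1
      rw [extF_eq hVa hψ h1]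
      have h2 : (fa ^ n) (fa y) ∈ V := by
        rw [← Perm.mul_apply, ← pow_succ]
        exact h1
      rw [extF_eq hVa hψ h2, ← Perm.mul_apply (fa ^ n), ← pow_succ, pow_succ fb, mul_inv_rev,
        Perm.mul_apply]
      exact (fb.apply_symm_apply _).symm
    · push Not at hy
      have h2 : ∀ n : ℕ, (fa ^ n) (fa y) ∉ V := by
        intro n hn
        apply hy (n + 1)
        rw [pow_succ, Perm.mul_apply]
        exact hn
      rw [extF_off h2, extF_off hy, hoff y hy]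
  · intro y hy
    change extF fa fb ψ V y = ψ y
    rw [extF_eq hVa hψ (n := 0) (by simpa using hy)]
    simp
  · intro y hy
    exact extF_off hy

end extend

end

end Pool.Agent.Work.MP_4516ee_al
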