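import Mathlib
import Pool.Agent.Work.MP_4516ee_al.Dyn

/-! Smooth diffeomorphisms of the line: general facts, and the map `H`. -/

open Set Equiv
open scoped ContDiff

namespace Pool.Agent.Work.MP_4516ee_al

noncomputable section

/-- smooth permutations equal to the identity off `(-5,5)` -/
structure IsD (n : ℕ∞) (e : Perm ℝ) : Prop where
  c : ContDiff ℝ n e
  ci : ContDiff ℝ n (e⁻¹ : Perm ℝ)
  off : ∀ y, 5 ≤ |y| → e y = y

lemma IsD.one (n : ℕ∞) : IsD n 1 := ⟨contDiff_id, contDiff_id, fun _ _ => rfl⟩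

lemma IsD.mul {n : ℕ∞} {e e' : Perm ℝ} (h : IsD n e) (h' : IsD n e') : IsD n (e * e') where
  c := h.c.comp h'.c
  ci := by
    rw [mul_inv_rev]
    exact h'.ci.comp h.ci
  off y hy := by rw [Perm.mul_apply, h'.off y hy, h.off y hy]

lemma IsD.inv {n : ℕ∞} {e : Perm ℝ} (h : IsD n e) : IsD n e⁻¹ where
  c := h.ci
  ci := by rw [inv_inv]; exact h.c
  off y hy := fix_inv (h.off y hy)

lemma IsD.mono {n m : ℕ∞} {e : Perm ℝ} (h : IsD n e) (hm : m ≤ n) : IsD m e where
  c := h.c.of_le (by exact_mod_cast hm)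
  ci := h.ci.of_le (by exact_mod_cast hm)
  off := h.off

/-- the subgroup -/
def DG (n : ℕ∞) : Subgroup (Perm ℝ) where
  carrier := {e | IsD n e}
  mul_mem' := IsD.mul
  one_mem' := IsD.one n
  inv_mem' := IsD.inv

lemma mem_DG {n : ℕ∞} {e : Perm ℝ} : e ∈ DG n ↔ IsD n e := Iff.rfl

lemma bij_of_mono {F : ℝ → ℝ} (hF : StrictMono F) (hc : Continuous F) {R : ℝ}
    (hR : ∀ x, R ≤ |x| → F x = x) : Function.Bijective F := by
  refine ⟨hF.injective, ?_⟩
  intro y
  by_cases hy : R ≤ |y|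
  · exact ⟨y, hR y hy⟩
  · push Not at hy
    have hR0 : 0 < R := lt_of_le_of_lt (abs_nonneg _) hy
    have h1 : F (-R) = -R := hR _ (by rw [abs_neg]; exact le_abs_self R)
    have h2 : F R = R := hR _ (le_abs_self R)
    rw [abs_lt] at hy
    have := intermediate_value_Icc (by linarith : -R ≤ R) hc.continuousOn
    rw [h1, h2] at this
    obtain ⟨x, _, hx⟩ := this ⟨hy.1.le, hy.2.le⟩
    exact ⟨x, hx⟩

/-- smooth function with positive derivative which is the identity near infinity -/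
structure Pre (F : ℝ → ℝ) (R : ℝ) : Prop where
  c : ContDiff ℝ ∞ F
  pos : ∀ x, ∃ d, 0 < d ∧ HasDerivAt F d x
  off : ∀ x, R ≤ |x| → F x = x

lemma Pre.mono {F : ℝ → ℝ} {R : ℝ} (h : Pre F R) : StrictMono F := by
  apply strictMono_of_deriv_pos
  intro x
  obtain ⟨d, hd, hd'⟩ := h.pos x
  rwa [hd'.deriv]

/-- the permutation given by such a function -/
def Pre.perm {F : ℝ → ℝ} {R : ℝ} (h : Pre F R) : Perm ℝ :=
  Equiv.ofBijective F (bij_of_mono h.mono h.c.continuous h.off)

lemma Pre.perm_apply {F : ℝ → ℝ} {R : ℝ} (h : Pre F R) (x : ℝ) : h.perm x = F x := rfl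

lemma Pre.ci {F : ℝ → ℝ} {R : ℝ} (h : Pre F R) : ContDiff ℝ ∞ (h.perm⁻¹ : Perm ℝ) := by
  have hm : StrictMono h.perm := h.mono
  have hcont : Continuous (h.perm⁻¹ : Perm ℝ) :=
    (strictMono_inv hm).monotone.continuous_of_surjective (Equiv.surjective _)
  let e : ℝ ≃ₜ ℝ :=
    { toEquiv := h.perm
      continuous_toFun := h.c.continuous
      continuous_invFun := hcont }
  choose d hd hd' using h.pos
  exact e.contDiff_symm_deriv (f' := d) (fun x => (hd x).ne') hd' h.c

lemma Pre.isD {F : ℝ → ℝ} {R : ℝ} (h : Pre F R) (hR : R ≤ 5) : IsD ⊤ h.perm where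
  c := h.c
  ci := h.ci
  off y hy := h.off y (hR.trans hy)

/-- `t σ(t)` -/
def mm (t : ℝ) : ℝ := t * Real.smoothTransition t

lemma mm_of_nonpos {t : ℝ} (ht : t ≤ 0) : mm t = 0 := by
  simp [mm, Real.smoothTransition.zero_of_nonpos ht]

lemma mm_of_one_le {t : ℝ} (ht : 1 ≤ t) : mm t = t := by
  simp [mm, Real.smoothTransition.one_of_one_le ht]

lemma mm_contDiff : ContDiff ℝ ∞ mm := by
  unfold mm
  exact contDiff_id.mul (Real.smoothTransition.contDiff (n := ⊤))

lemma mm_nonneg (t : ℝ) : 0 ≤ mm t := by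
  rcases le_total t 0 with h | h
  · rw [mm_of_nonpos h]
  · exact mul_nonneg h (Real.smoothTransition.nonneg t)

lemma mm_le {t : ℝ} (ht : 0 ≤ t) : mm t ≤ t := by
  unfold mm
  have := Real.smoothTransition.le_one t
  nlinarith

lemma mm_mono : Monotone mm := by
  intro x y hxy
  rcases le_total x 0 with h | h
  · rw [mm_of_nonpos h]; exact mm_nonneg y
  · unfold mm
    exact mul_le_mul hxy (Real.smoothTransition.monotone hxy) (Real.smoothTransition.nonneg x)
      (h.trans hxy)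

lemma mm_hasDeriv (t : ℝ) : ∃ d, 0 ≤ d ∧ HasDerivAt mm d t := by
  have hd : DifferentiableAt ℝ mm t := (mm_contDiff.differentiable (by simp)) t
  exact ⟨deriv mm t, mm_mono.deriv_nonneg, hd.hasDerivAt⟩

lemma st_hasDeriv' (x : ℝ) : ∃ d, 0 ≤ d ∧ HasDerivAt Real.smoothTransition d x := by
  have hd : DifferentiableAt ℝ Real.smoothTransition x :=
    (Real.smoothTransition.contDiffAt (n := 1)).differentiableAt (by simp)
  refine ⟨deriv Real.smoothTransition x, ?_, hd.hasDerivAt⟩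
  exact Real.smoothTransition.monotone.deriv_nonneg

/-- the function `H` -/
def HF (y : ℝ) : ℝ :=
  y - (1 / 2) * (Real.smoothTransition (4 - y) * Real.smoothTransition (4 + y)) *
    (y + mm (-1 - y))

lemma HF_contDiff : ContDiff ℝ ∞ HF := by
  unfold HF
  apply contDiff_id.sub
  apply ContDiff.mul
  · apply contDiff_const.mul
    apply ContDiff.mul
    · exact (Real.smoothTransition.contDiff (n := ⊤)).comp (by fun_prop)
    · exact (Real.smoothTransition.contDiff (n := ⊤)).comp (by fun_prop)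
  · exact contDiff_id.add (mm_contDiff.comp (by fun_prop))

lemma HF_right {y : ℝ} (hy : -1 ≤ y) :
    HF y = y - (1 / 2) * Real.smoothTransition (4 - y) * y := by
  have h1 : Real.smoothTransition (4 + y) = 1 :=
    Real.smoothTransition.one_of_one_le (by linarith)
  have h2 : mm (-1 - y) = 0 := mm_of_nonpos (by linarith)
  simp only [HF, h1, h2]; ring

lemma HF_left {y : ℝ} (hy : y ≤ 3) :
    HF y = y - (1 / 2) * Real.smoothTransition (4 + y) * (y + mm (-1 - y)) := by
  have h1 : Real.smoothTransition (4 - y) = 1 :=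
    Real.smoothTransition.one_of_one_le (by linarith)
  simp only [HF, h1]; ring

lemma HF_mid {y : ℝ} (h1 : -1 ≤ y) (h2 : y ≤ 3) : HF y = y / 2 := by
  have h3 : Real.smoothTransition (4 - y) = 1 :=
    Real.smoothTransition.one_of_one_le (by linarith)
  rw [HF_right h1, h3]; ring

lemma HF_off {y : ℝ} (hy : 4 ≤ |y|) : HF y = y := by
  rcases le_abs.1 hy with h | h
  · have h1 : Real.smoothTransition (4 - y) = 0 :=
      Real.smoothTransition.zero_of_nonpos (by linarith)
    simp [HF, h1]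
  · have h1 : Real.smoothTransition (4 + y) = 0 :=
      Real.smoothTransition.zero_of_nonpos (by linarith)
    simp [HF, h1]

lemma HF_hasDeriv (y : ℝ) : ∃ d, 1 / 2 ≤ d ∧ HasDerivAt HF d y := by
  rcases le_or_gt 0 y with hy | hy
  · obtain ⟨d, hd0, hd⟩ := st_hasDeriv' (4 - y)
    have h1 : HasDerivAt (fun y : ℝ => 4 - y) (-1) y := by
      simpa using (hasDerivAt_id' y).const_sub 4
    have h2 : HasDerivAt (fun y : ℝ => Real.smoothTransition (4 - y)) (d * (-1)) y :=
      HasDerivAt.comp (h := fun y : ℝ => 4 - y) (h₂ := Real.smoothTransition) y hd h1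
    have h3 : HasDerivAt (fun y : ℝ => y - (1 / 2) * Real.smoothTransition (4 - y) * y)
        (1 - ((1 / 2) * (d * (-1)) * y + (1 / 2) * Real.smoothTransition (4 - y) * 1)) y :=
      (hasDerivAt_id' y).fun_sub ((h2.const_mul (1 / 2)).fun_mul (hasDerivAt_id' y))
    have hev : HF =ᶠ[nhds y] fun y : ℝ => y - (1 / 2) * Real.smoothTransition (4 - y) * y := by
      filter_upwards [lt_mem_nhds (by linarith : -1 < y)] with z hz
      exact HF_right hz.le
    refine ⟨_, ?_, h3.congr_of_eventuallyEq hev⟩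
    have := Real.smoothTransition.le_one (4 - y)
    have := mul_nonneg hd0 hy
    nlinarith
  · obtain ⟨d, hd0, hd⟩ := st_hasDeriv' (4 + y)
    obtain ⟨d', hd0', hd'⟩ := mm_hasDeriv (-1 - y)
    have h1 : HasDerivAt (fun y : ℝ => 4 + y) 1 y := by
      simpa using (hasDerivAt_id' y).const_add 4
    have h2 : HasDerivAt (fun y : ℝ => Real.smoothTransition (4 + y)) (d * 1) y :=
      HasDerivAt.comp (h := fun y : ℝ => 4 + y) (h₂ := Real.smoothTransition) y hd h1
    have h1' : HasDerivAt (fun y : ℝ => -1 - y) (-1) y := by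
      simpa using (hasDerivAt_id' y).const_sub (-1)
    have h2' : HasDerivAt (fun y : ℝ => mm (-1 - y)) (d' * (-1)) y :=
      HasDerivAt.comp (h := fun y : ℝ => -1 - y) (h₂ := mm) y hd' h1'
    have h3 : HasDerivAt (fun y : ℝ => y - (1 / 2) * Real.smoothTransition (4 + y) *
        (y + mm (-1 - y))) (1 - ((1 / 2) * (d * 1) * (y + mm (-1 - y)) +
          (1 / 2) * Real.smoothTransition (4 + y) * (1 + d' * (-1)))) y :=
      (hasDerivAt_id' y).fun_sub ((h2.const_mul (1 / 2)).fun_mul ((hasDerivAt_id' y).fun_add h2'))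
    have hev : HF =ᶠ[nhds y] fun y : ℝ => y - (1 / 2) * Real.smoothTransition (4 + y) *
        (y + mm (-1 - y)) := by
      filter_upwards [gt_mem_nhds (by linarith : y < 3)] with z hz
      exact HF_left hz.le
    refine ⟨_, ?_, h3.congr_of_eventuallyEq hev⟩
    have hs1 := Real.smoothTransition.le_one (4 + y)
    have hs0 := Real.smoothTransition.nonneg (4 + y)
    have hq : y + mm (-1 - y) ≤ 0 := by
      rcases le_total (-1 - y) 0 with h | h
      · rw [mm_of_nonpos h]; linarith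
      · have := mm_le h
        linarith
    have h5 : d * (y + mm (-1 - y)) ≤ 0 := mul_nonpos_of_nonneg_of_nonpos hd0 hq
    have h6 : 0 ≤ Real.smoothTransition (4 + y) * d' := mul_nonneg hs0 hd0'
    nlinarith

lemma HF_pre : Pre HF 4 where
  c := HF_contDiff
  pos x := by
    obtain ⟨d, hd, hd'⟩ := HF_hasDeriv x
    exact ⟨d, by linarith, hd'⟩
  off x hx := HF_off hx

/-- the diffeomorphism `H` -/
def HP : Perm ℝ := HF_pre.perm

lemma HP_apply (y : ℝ) : HP y = HF y := rfl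

lemma HP_isD : IsD ⊤ HP := HF_pre.isD (by norm_num)

lemma HP_mono : StrictMono HP := HF_pre.mono

lemma HP_off {y : ℝ} (hy : 4 ≤ |y|) : HP y = y := HF_off hy

lemma HP_mid {y : ℝ} (h1 : -1 ≤ y) (h2 : y ≤ 3) : HP y = y / 2 := HF_mid h1 h2

/-- `H⁻¹` is `2`-Lipschitz -/
lemma HP_inv_lip (x y : ℝ) : |HP⁻¹ x - HP⁻¹ y| ≤ 2 * |x - y| := by
  have key : ∀ x y : ℝ, x ≤ y → y - x ≤ 2 * (HP y - HP x) := by
    intro x y hxy
    have hd : ∀ z, 1 / 2 ≤ deriv HF z := by
      intro z
      obtain ⟨d, hd, hd'⟩ := HF_hasDeriv z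
      rwa [hd'.deriv]
    have := Convex.mul_sub_le_image_sub_of_le_deriv (convex_univ) (C := 1 / 2) (f := HF)
      HF_contDiff.continuous.continuousOn (HF_contDiff.differentiable (by simp)).differentiableOn
      (fun z _ => hd z) x (mem_univ x) y (mem_univ y) hxy
    rw [HP_apply, HP_apply]
    linarith
  rcases le_total x y with h | h
  · have h1 := key (HP⁻¹ x) (HP⁻¹ y) ((strictMono_inv HP_mono).monotone h)
    rw [app_inv, app_inv] at h1
    rw [abs_sub_comm, abs_of_nonneg (sub_nonneg.2 ((strictMono_inv HP_mono).monotone h)),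
      abs_sub_comm, abs_of_nonneg (sub_nonneg.2 h)]
    exact h1
  · have h1 := key (HP⁻¹ y) (HP⁻¹ x) ((strictMono_inv HP_mono).monotone h)
    rw [app_inv, app_inv] at h1
    rw [abs_of_nonneg (sub_nonneg.2 ((strictMono_inv HP_mono).monotone h)),
      abs_of_nonneg (sub_nonneg.2 h)]
    exact h1

lemma HF_far {y : ℝ} (hy : y ≤ -2) : HF y = y + (1 / 2) * Real.smoothTransition (4 + y) := by
  rw [HF_left (by linarith), mm_of_one_le (by linarith)]; ring

lemma HP_neg2 : HP (-2) = -(3 / 2) := by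
  rw [HP_apply, HF_far le_rfl, Real.smoothTransition.one_of_one_le (by norm_num)]; norm_num

lemma HP_neg1 : HP (-1) = -(1 / 2) := by
  rw [HP_mid (by norm_num) (by norm_num)]; norm_num

lemma HP_neg32 : -1 ≤ HP (-(3 / 2)) := by
  rw [HP_apply, HF_left (by norm_num), Real.smoothTransition.one_of_one_le (by norm_num)]
  have := mm_le (t := -1 - -(3 / 2)) (by norm_num)
  linarith

lemma HP_inv_half {x : ℝ} (hx : x ≤ -(1 / 2)) : HP⁻¹ x ≤ -1 := by
  have := (strictMono_inv HP_mono).monotone hx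
  rwa [← HP_neg1, inv_app] at this

lemma HP_inv_one {x : ℝ} (hx : x ≤ -1) : HP⁻¹ x ≤ -(3 / 2) := by
  have := (strictMono_inv HP_mono).monotone (hx.trans HP_neg32)
  rwa [inv_app] at this

lemma HP_inv_32 {x : ℝ} (hx : x ≤ -(3 / 2)) : HP⁻¹ x ≤ -2 := by
  have := (strictMono_inv HP_mono).monotone hx
  rwa [← HP_neg2, inv_app] at this

lemma HP_inv_lip_far {x y : ℝ} (hx : x ≤ -(3 / 2)) (hy : y ≤ -(3 / 2)) :
    |HP⁻¹ x - HP⁻¹ y| ≤ |x - y| := by
  have key : ∀ x y : ℝ, x ≤ y → y ≤ -2 → y - x ≤ HP y - HP x := by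
    intro x y hxy hy
    rw [HP_apply, HP_apply, HF_far hy, HF_far (by linarith)]
    have := Real.smoothTransition.monotone (by linarith : 4 + x ≤ 4 + y)
    linarith
  rcases le_total x y with h | h
  · have h1 := key (HP⁻¹ x) (HP⁻¹ y) ((strictMono_inv HP_mono).monotone h) (HP_inv_32 hy)
    rw [app_inv, app_inv] at h1
    rw [abs_sub_comm, abs_of_nonneg (sub_nonneg.2 ((strictMono_inv HP_mono).monotone h)),
      abs_sub_comm, abs_of_nonneg (sub_nonneg.2 h)]
    exact h1
  · have h1 := key (HP⁻¹ y) (HP⁻¹ x) ((strictMono_inv HP_mono).monotone h) (HP_inv_32 hx)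
    rw [app_inv, app_inv] at h1
    rw [abs_of_nonneg (sub_nonneg.2 ((strictMono_inv HP_mono).monotone h)),
      abs_of_nonneg (sub_nonneg.2 h)]
    exact h1

lemma HP_inv_pow_far (n : ℕ) {x y : ℝ} (hx : x ≤ -(3 / 2)) (hy : y ≤ -(3 / 2)) :
    (HP⁻¹ ^ n) x ≤ -(3 / 2) ∧ |(HP⁻¹ ^ n) x - (HP⁻¹ ^ n) y| ≤ |x - y| := by
  induction n generalizing x y with
  | zero => exact ⟨by simpa using hx, by simp⟩
  | succ n ih =>
    rw [pow_succ, Perm.mul_apply, Perm.mul_apply]
    have hx' : HP⁻¹ x ≤ -(3 / 2) := by linarith [HP_inv_32 hx]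
    have hy' : HP⁻¹ y ≤ -(3 / 2) := by linarith [HP_inv_32 hy]
    exact ⟨(ih hx' hy').1, (ih hx' hy').2.trans (HP_inv_lip_far hx hy)⟩

/-- negative powers of `H` are `4`-Lipschitz on `(-∞,-1/2]` -/
lemma HP_inv_pow_lip (n : ℕ) {x y : ℝ} (hx : x ≤ -(1 / 2)) (hy : y ≤ -(1 / 2)) :
    |(HP⁻¹ ^ n) x - (HP⁻¹ ^ n) y| ≤ 4 * |x - y| := by
  rcases n with _ | _ | n
  · simp only [pow_zero, Perm.one_apply]
    linarith [abs_nonneg (x - y)]
  · rw [zero_add, pow_one]
    linarith [abs_nonneg (x - y), HP_inv_lip x y]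
  · rw [pow_succ, pow_succ, Perm.mul_apply, Perm.mul_apply, Perm.mul_apply, Perm.mul_apply]
    have h1 := (HP_inv_pow_far n (HP_inv_one (HP_inv_half hx)) (HP_inv_one (HP_inv_half hy))).2
    have h2 := HP_inv_lip (HP⁻¹ x) (HP⁻¹ y)
    have h3 := HP_inv_lip x y
    linarith

lemma HP_inv_pow_le (n : ℕ) {x : ℝ} (hx : x ≤ -(1 / 2)) : (HP⁻¹ ^ (n + 1)) x ≤ -1 := by
  rcases n with _ | n
  · rw [zero_add, pow_one]
    exact HP_inv_half hx
  · rw [pow_succ, pow_succ, Perm.mul_apply, Perm.mul_apply]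
    have h1 := (HP_inv_pow_far n (HP_inv_one (HP_inv_half hx)) (HP_inv_one (HP_inv_half hx))).1
    linarith

lemma HP_pow_mid (n : ℕ) {y : ℝ} (h1 : -1 ≤ y) (h2 : y ≤ 1) : (HP ^ n) y = y / 2 ^ n := by
  induction n with
  | zero => simp
  | succ n ih =>
    have h3 : (1:ℝ) ≤ 2 ^ n := one_le_pow₀ (by norm_num)
    have h4 : -1 ≤ y / 2 ^ n := by
      rw [le_div_iff₀ (by positivity)]; linarith
    have h5 : y / 2 ^ n ≤ 3 := by
      rw [div_le_iff₀ (by positivity)]; linarith
    rw [pow_succ', Perm.mul_apply, ih, HP_mid h4 h5, pow_succ]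
    field_simp

end

end Pool.Agent.Work.MP_4516ee_al
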