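import Mathlib
import Pool.Agent.Work.MP_4516ee_al.HMap
import Pool.Agent.Work.MP_4516ee_al.Conj

/-! Smoothness of infinite products of small conjugates. -/

open Set Equiv
open scoped ContDiff

namespace Pool.Agent.Work.MP_4516ee_al

noncomputable section

lemma contDiff_partial {U : ℝ × ℝ → ℝ} (hU : ContDiff ℝ ∞ U) :
    ContDiff ℝ ∞ (fun p : ℝ × ℝ => deriv (fun z => U (p.1, z)) p.2) := by
  have h1 : (fun p : ℝ × ℝ => deriv (fun z => U (p.1, z)) p.2) =
      fun p : ℝ × ℝ => (fderiv ℝ U p) ((0 : ℝ), (1 : ℝ)) := by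
    funext p
    have h2 : HasFDerivAt U (fderiv ℝ U p) p := (hU.differentiable (by simp) p).hasFDerivAt
    have h3 : HasDerivAt (fun z : ℝ => (p.1, z)) ((0 : ℝ), (1 : ℝ)) p.2 :=
      (hasDerivAt_const _ _).prodMk (hasDerivAt_id _)
    have h4 : HasFDerivAt U (fderiv ℝ U p) (p.1, p.2) := h2
    exact (h4.comp_hasDerivAt p.2 h3).deriv
  rw [h1]
  have h5 : ContDiff ℝ ∞ (fderiv ℝ U) := hU.fderiv_right (by simp)
  exact h5.clm_apply contDiff_const

lemma contDiff_iter {U : ℝ × ℝ → ℝ} (hU : ContDiff ℝ ∞ U) (j : ℕ) :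
    ContDiff ℝ ∞ (fun p : ℝ × ℝ => iteratedDeriv j (fun z => U (p.1, z)) p.2) := by
  induction j with
  | zero =>
    simp only [iteratedDeriv_zero]
    exact hU
  | succ j ih =>
    have := contDiff_partial ih
    simp only [iteratedDeriv_succ]
    exact this

lemma small_bound {U : ℝ × ℝ → ℝ} (hU : ContDiff ℝ ∞ U) (h0 : ∀ z, U (0, z) = 0) {R : ℝ}
    (hR : ∀ t z, R ≤ |z| → U (t, z) = 0) (j : ℕ) :
    ∃ C, 0 ≤ C ∧ ∀ t z, |t| ≤ 1 → |iteratedDeriv j (fun z => U (t, z)) z| ≤ C * |t| := by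
  set W : ℝ × ℝ → ℝ := fun p => iteratedDeriv j (fun z => U (p.1, z)) p.2 with hW
  have hWs : ContDiff ℝ ∞ W := contDiff_iter hU j
  have hW0 : ∀ z, W (0, z) = 0 := by
    intro z
    simp only [hW, h0]
    have : iteratedDeriv j (fun _ : ℝ => (0:ℝ)) z = 0 := by
      rw [iteratedDeriv_const]
      split_ifs <;> rfl
    exact this
  have hWR : ∀ t z, R < |z| → W (t, z) = 0 := by
    intro t z hz
    simp only [hW]
    have hev : (fun z => U (t, z)) =ᶠ[nhds z] fun _ => (0:ℝ) := by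
      have hopen : IsOpen {z : ℝ | R < |z|} := isOpen_lt continuous_const (by fun_prop)
      filter_upwards [hopen.mem_nhds hz] with y hy
      exact hR t y (le_of_lt hy)
    rw [Filter.EventuallyEq.iteratedDeriv_eq j hev, iteratedDeriv_const]
    split_ifs <;> rfl
  have hcont : Continuous (fderiv ℝ W) := (hWs.fderiv_right (m := 0) (by simp)).continuous
  have hcomp : IsCompact ((Icc (-1 : ℝ) 1) ×ˢ (Icc (-|R|) (|R|))) :=
    isCompact_Icc.prod isCompact_Icc
  obtain ⟨C, hC⟩ := hcomp.exists_bound_of_continuousOn hcont.continuousOn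
  refine ⟨|C|, abs_nonneg _, ?_⟩
  intro t z ht
  change |W (t, z)| ≤ |C| * |t|
  by_cases hz : |z| ≤ |R|
  · have hconv : Convex ℝ ((Icc (-1 : ℝ) 1) ×ˢ (Icc (-|R|) (|R|))) :=
      (convex_Icc _ _).prod (convex_Icc _ _)
    have hz' := abs_le.1 hz
    have ht' := abs_le.1 ht
    have h1 := hconv.norm_image_sub_le_of_norm_fderiv_le (f := W) (C := |C|) (x := (0, z))
      (y := (t, z)) (fun p _ => (hWs.differentiable (by simp)) p)
      (fun p hp => (hC p hp).trans (le_abs_self C))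
      ⟨⟨by norm_num, by norm_num⟩, hz'⟩ ⟨ht', hz'⟩
    rw [hW0, sub_zero, Real.norm_eq_abs] at h1
    have h2 : ‖((t, z) : ℝ × ℝ) - (0, z)‖ = |t| := by
      simp [Prod.norm_def]
    rwa [h2] at h1
  · push Not at hz
    rw [hWR t z (lt_of_le_of_lt (le_abs_self R) hz), abs_zero]
    positivity

lemma iter_affine {φ : ℝ → ℝ} (hφ : ContDiff ℝ ∞ φ) (a b c : ℝ) (j : ℕ) :
    iteratedDeriv j (fun y => a * φ (b * y + c)) =
      fun y => a * b ^ j * iteratedDeriv j φ (b * y + c) := by
  induction j with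
  | zero => simp
  | succ j ih =>
    rw [iteratedDeriv_succ, ih]
    funext y
    have h1 : HasDerivAt (iteratedDeriv j φ) (iteratedDeriv (j + 1) φ (b * y + c)) (b * y + c) := by
      rw [iteratedDeriv_succ]
      exact ((hφ.differentiable_iteratedDeriv j (by exact_mod_cast WithTop.coe_lt_top _)) _).hasDerivAt
    have h2 : HasDerivAt (fun y : ℝ => b * y + c) b y := by
      simpa using ((hasDerivAt_id' y).const_mul b).add_const c
    have h3 := (HasDerivAt.comp (h := fun y : ℝ => b * y + c) (h₂ := iteratedDeriv j φ) y h1 h2).const_mul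
      (a * b ^ j)
    have h4 : HasDerivAt (fun y => a * b ^ j * iteratedDeriv j φ (b * y + c))
        (a * b ^ j * (iteratedDeriv (j + 1) φ (b * y + c) * b)) y := h3
    rw [h4.deriv]
    ring

/-- Smoothness of the glued permutation. -/
theorem glue_contDiff {K : ℝ → Perm ℝ} (hK : ContDiff ℝ ∞ (fun p : ℝ × ℝ => K p.1 p.2))
    (hK0 : ∀ y, K 0 y = y) {l r : ℝ} (hl : -5 ≤ l) (hr : r ≤ 5)
    (hKoff : ∀ t y, y ∉ Ioo l r → K t y = y)
    (A : ℕ → Perm ℝ) (hA : ∀ n, IsD ⊤ (A n)) (S : ℕ → Set ℝ)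
    (hS : ∀ n y, y ∈ S n ↔ (A n)⁻¹ y ∈ Ioo l r)
    (hd : ∀ i j y, y ∈ S i → y ∈ S j → i = j)
    {n₀ : ℕ} {p lam : ℝ} (hlam0 : 0 < lam) (hlam1 : lam < 1)
    (hlin : ∀ m, ∀ y ∈ Ioo l r, A (n₀ + m) y = p + lam ^ m * (A n₀ y - p))
    (t : ℕ → ℝ) (ht1 : ∀ n, |t n| ≤ 1) {q : ℝ} (hq0 : 0 ≤ q) (htq : ∀ m, |t (n₀ + m)| ≤ q ^ m)
    (k : ℕ) (hqk : q < lam ^ k) :
    ContDiff ℝ k (glue S (fun n => A n * K (t n) * (A n)⁻¹)) := by
  set P : ℕ → Perm ℝ := fun n => A n * K (t n) * (A n)⁻¹ with hP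
  have hPapp : ∀ n y, P n y = A n (K (t n) ((A n)⁻¹ y)) := fun n y => rfl
  have hPoff : ∀ n y, y ∉ S n → P n y = y := by
    intro n y hy
    rw [hPapp, hKoff _ _ (fun h => hy ((hS n y).2 h)), app_inv]
  have hPsm : ∀ n, ContDiff ℝ ∞ (P n) := by
    intro n
    have h1 : ContDiff ℝ ∞ (fun y : ℝ => K (t n) y) :=
      hK.comp (contDiff_const.prodMk contDiff_id)
    exact (hA n).c.comp (h1.comp (hA n).ci)
  -- the rescaled function
  set W : ℝ × ℝ → ℝ := fun x => A n₀ (K x.1 ((A n₀)⁻¹ x.2)) - x.2 with hW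
  have hWs : ContDiff ℝ ∞ W := by
    apply ContDiff.sub _ contDiff_snd
    apply (hA n₀).c.comp
    exact hK.comp (contDiff_fst.prodMk ((hA n₀).ci.comp contDiff_snd))
  have hW0 : ∀ z, W (0, z) = 0 := by
    intro z
    simp only [hW, hK0, app_inv, sub_self]
  have hWR : ∀ t z, 5 ≤ |z| → W (t, z) = 0 := by
    intro t z hz
    have h1 : (A n₀)⁻¹ z = z := fix_inv ((hA n₀).off z hz)
    have h2 : z ∉ Ioo l r := by
      intro h
      rcases le_abs.1 hz with h3 | h3
      · linarith [h.2]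
      · linarith [h.1]
    simp only [hW]
    rw [h1, hKoff _ _ h2, (hA n₀).off z hz, sub_self]
  choose C hC0 hC using small_bound hWs hW0 hWR
  have hu : ∀ m y, P (n₀ + m) y - y =
      lam ^ m * W (t (n₀ + m), (lam⁻¹) ^ m * y + (p - (lam⁻¹) ^ m * p)) := by
    intro m y
    have hlm : lam ^ m ≠ 0 := by positivity
    have hz : p + lam ^ m * (((lam⁻¹) ^ m * y + (p - (lam⁻¹) ^ m * p)) - p) = y := by
      rw [inv_pow]
      field_simp
      ring
    set z := (lam⁻¹) ^ m * y + (p - (lam⁻¹) ^ m * p) with hzdef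
    by_cases hy : (A (n₀ + m))⁻¹ y ∈ Ioo l r
    · set x := (A (n₀ + m))⁻¹ y with hx
      have hyx : A (n₀ + m) x = y := app_inv _ _
      have h1 := hlin m x hy
      have h2 : A n₀ x = z := by
        have h3 : lam ^ m * (A n₀ x - p) = lam ^ m * (z - p) := by linarith
        have h4 := mul_left_cancel₀ hlm h3
        linarith
      have h5 : (A n₀)⁻¹ z = x := by rw [← h2, inv_app]
      have h6 : K (t (n₀ + m)) x ∈ Ioo l r := mem_of_off (hKoff _) hy
      rw [hPapp, ← hx, hlin m _ h6]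
      simp only [hW]
      rw [h5]
      linarith
    · have h1 : (A n₀)⁻¹ z ∉ Ioo l r := by
        intro h
        apply hy
        have h2 := hlin m _ h
        rw [app_inv, hz] at h2
        rw [← h2, inv_app]
        exact h
      rw [hPapp, hKoff _ _ hy, app_inv]
      simp only [hW]
      rw [hKoff _ _ h1, app_inv]
      ring
  have hsum : ContDiff ℝ k (fun y => ∑' m, (P (n₀ + m) y - y)) := by
    have hq' : (lam⁻¹) ^ k * q < 1 := by
      rw [inv_pow, inv_mul_lt_iff₀ (by positivity), mul_one]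
      exact hqk
    have hq'' : 0 ≤ (lam⁻¹) ^ k * q := by positivity
    have hinv1 : 1 ≤ lam⁻¹ := (one_le_inv₀ hlam0).2 hlam1.le
    have := contDiff_tsum (𝕜 := ℝ) (f := fun m (y : ℝ) => P (n₀ + m) y - y) (N := (k : ℕ∞))
      (v := fun j m => C j * ((lam⁻¹) ^ k * q) ^ m) ?_ ?_ ?_
    · exact_mod_cast this
    · intro m
      exact ((hPsm _).sub contDiff_id).of_le (by exact_mod_cast le_top)
    · intro j _
      exact (summable_geometric_of_lt_one hq'' hq').mul_left _
    · intro j m y hj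
      have hjk : j ≤ k := by exact_mod_cast hj
      rw [norm_iteratedFDeriv_eq_norm_iteratedDeriv, Real.norm_eq_abs]
      have h1 : (fun y => P (n₀ + m) y - y) = fun y =>
          lam ^ m * (fun z => W (t (n₀ + m), z)) ((lam⁻¹) ^ m * y + (p - (lam⁻¹) ^ m * p)) := by
        funext y
        exact hu m y
      rw [h1, iter_affine (φ := fun z => W (t (n₀ + m), z))
        (hWs.comp (contDiff_const.prodMk contDiff_id))]
      rw [abs_mul, abs_mul, abs_of_pos (pow_pos hlam0 m), abs_of_pos (by positivity)]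
      have h2 := hC j (t (n₀ + m)) ((lam⁻¹) ^ m * y + (p - (lam⁻¹) ^ m * p)) (ht1 _)
      have h3 : lam ^ m * ((lam⁻¹) ^ m) ^ j ≤ ((lam⁻¹) ^ k) ^ m := by
        have h4 : lam ^ m ≤ 1 := pow_le_one₀ hlam0.le hlam1.le
        have h5 : ((lam⁻¹) ^ m) ^ j ≤ ((lam⁻¹) ^ k) ^ m := by
          rw [← pow_mul, ← pow_mul]
          apply pow_le_pow_right₀ hinv1
          rw [mul_comm k m]
          exact Nat.mul_le_mul_left m hjk
        have h6 : 0 ≤ ((lam⁻¹) ^ m) ^ j := by positivity
        calc lam ^ m * ((lam⁻¹) ^ m) ^ j ≤ 1 * ((lam⁻¹) ^ m) ^ j :=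
              mul_le_mul_of_nonneg_right h4 h6
          _ ≤ _ := by rw [one_mul]; exact h5
      calc lam ^ m * ((lam⁻¹) ^ m) ^ j * |iteratedDeriv j (fun z => W (t (n₀ + m), z))
            ((lam⁻¹) ^ m * y + (p - (lam⁻¹) ^ m * p))|
          ≤ ((lam⁻¹) ^ k) ^ m * (C j * q ^ m) := by
            apply mul_le_mul h3 _ (abs_nonneg _) (by positivity)
            exact h2.trans (mul_le_mul_of_nonneg_left (htq m) (hC0 j))
        _ = C j * ((lam⁻¹) ^ k * q) ^ m := by rw [mul_pow]; ring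
  have hfin : ContDiff ℝ k (fun y => ∑ n ∈ Finset.range n₀, (P n y - y)) := by
    apply ContDiff.sum
    intro n _
    exact ((hPsm _).sub contDiff_id).of_le (by exact_mod_cast le_top)
  have heq : glue S P = fun y => y + ∑ n ∈ Finset.range n₀, (P n y - y) +
      ∑' m, (P (n₀ + m) y - y) := by
    funext y
    by_cases hy : ∃ n, y ∈ S n
    · obtain ⟨n, hn⟩ := hy
      rw [glue_on' hd hn]
      have hz : ∀ i, i ≠ n → P i y - y = 0 := by
        intro i hi
        rw [hPoff i y (fun h => hi (hd _ _ _ h hn)), sub_self]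
      by_cases hnn : n < n₀
      · have h1 : ∑ i ∈ Finset.range n₀, (P i y - y) = P n y - y := by
          apply Finset.sum_eq_single_of_mem n (Finset.mem_range.2 hnn)
          intro i _ hi
          exact hz i hi
        have h2 : ∑' m, (P (n₀ + m) y - y) = 0 := by
          have : (fun m => P (n₀ + m) y - y) = fun _ => (0:ℝ) := by
            funext m
            exact hz _ (by omega)
          rw [this, tsum_zero]
        rw [h1, h2]; ring
      · obtain ⟨m, rfl⟩ : ∃ m, n = n₀ + m := ⟨n - n₀, by omega⟩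
        have h1 : ∑ i ∈ Finset.range n₀, (P i y - y) = 0 := by
          apply Finset.sum_eq_zero
          intro i hi
          rw [Finset.mem_range] at hi
          exact hz i (by omega)
        have h2 : ∑' m', (P (n₀ + m') y - y) = P (n₀ + m) y - y := by
          apply tsum_eq_single m
          intro m' hm'
          exact hz _ (by omega)
        rw [h1, h2]; ring
    · push Not at hy
      rw [glue_off' hy]
      have h1 : ∑ i ∈ Finset.range n₀, (P i y - y) = 0 := by
        apply Finset.sum_eq_zero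
        intro i _
        rw [hPoff i y (hy i), sub_self]
      have h2 : ∑' m, (P (n₀ + m) y - y) = 0 := by
        have : (fun m => P (n₀ + m) y - y) = fun _ => (0:ℝ) := by
          funext m
          rw [hPoff _ y (hy _), sub_self]
        rw [this, tsum_zero]
      rw [h1, h2]; ring
  rw [heq]
  exact (contDiff_id.add hfin).add hsum

end

end Pool.Agent.Work.MP_4516ee_al
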