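import Mathlib
import Pool.Agent.Work.MP_4516ee_al.HMap

/-! The map `f` of the basic model. -/

open Set Equiv
open scoped ContDiff

namespace Pool.Agent.Work.MP_4516ee_al

noncomputable section

/-- the function `f₁` -/
def FF (y : ℝ) : ℝ := y - (63 / 64 * y + 7 / 8) * Real.smoothTransition ((25 - y ^ 2) / 9)

lemma FF_contDiff : ContDiff ℝ ∞ FF := by
  unfold FF
  apply contDiff_id.sub
  apply ContDiff.mul (by fun_prop)
  exact (Real.smoothTransition.contDiff (n := ⊤)).comp (by fun_prop)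

lemma FF_mid {y : ℝ} (hy : y ^ 2 ≤ 16) : FF y = -(7 / 8) + y / 64 := by
  have h1 : Real.smoothTransition ((25 - y ^ 2) / 9) = 1 :=
    Real.smoothTransition.one_of_one_le (by linarith)
  simp only [FF, h1]; ring

lemma FF_off {y : ℝ} (hy : 5 ≤ |y|) : FF y = y := by
  have h0 : 25 ≤ y ^ 2 := by
    rw [← sq_abs]; nlinarith
  have h1 : Real.smoothTransition ((25 - y ^ 2) / 9) = 0 :=
    Real.smoothTransition.zero_of_nonpos (by linarith)
  simp only [FF, h1]; ring

lemma FF_hasDeriv (y : ℝ) : ∃ d, 1 / 64 ≤ d ∧ HasDerivAt FF d y := by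
  rcases lt_or_ge (y ^ 2) 16 with hy | hy
  · have hev : FF =ᶠ[nhds y] fun y : ℝ => -(7 / 8) + y / 64 := by
      have hcont : Continuous (fun y : ℝ => y ^ 2) := by fun_prop
      filter_upwards [hcont.continuousAt.eventually (gt_mem_nhds hy)] with z hz
      exact FF_mid hz.le
    have h1 : HasDerivAt (fun y : ℝ => -(7 / 8) + y / 64) (1 / 64) y := by
      simpa using ((hasDerivAt_id' y).div_const 64).const_add (-(7 / 8))
    exact ⟨1 / 64, le_rfl, h1.congr_of_eventuallyEq hev⟩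
  · obtain ⟨d, hd0, hd⟩ := st_hasDeriv' ((25 - y ^ 2) / 9)
    have h1 : HasDerivAt (fun y : ℝ => (25 - y ^ 2) / 9) (-(2 * y) / 9) y := by
      simpa using ((hasDerivAt_pow 2 y).const_sub 25).div_const 9
    have h2 : HasDerivAt (fun y : ℝ => Real.smoothTransition ((25 - y ^ 2) / 9))
        (d * (-(2 * y) / 9)) y :=
      HasDerivAt.comp (h := fun y : ℝ => (25 - y ^ 2) / 9) (h₂ := Real.smoothTransition) y hd h1
    have h3 : HasDerivAt (fun y : ℝ => 63 / 64 * y + 7 / 8) (63 / 64) y := by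
      simpa using ((hasDerivAt_id' y).const_mul (63 / 64)).add_const (7 / 8)
    have h4 : HasDerivAt FF (1 - (63 / 64 * Real.smoothTransition ((25 - y ^ 2) / 9) +
        (63 / 64 * y + 7 / 8) * (d * (-(2 * y) / 9)))) y :=
      (hasDerivAt_id' y).fun_sub (h3.fun_mul h2)
    refine ⟨_, ?_, h4⟩
    have hs1 := Real.smoothTransition.le_one ((25 - y ^ 2) / 9)
    have h5 : 0 ≤ y * (63 / 64 * y + 7 / 8) := by nlinarith [sq_nonneg (y + 1), sq_nonneg (y - 1)]
    have h6 : 0 ≤ d * (y * (63 / 64 * y + 7 / 8)) := mul_nonneg hd0 h5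
    nlinarith

lemma FF_pre : Pre FF 5 where
  c := FF_contDiff
  pos x := by
    obtain ⟨d, hd, hd'⟩ := FF_hasDeriv x
    exact ⟨d, by linarith, hd'⟩
  off x hx := FF_off hx

/-- the diffeomorphism `f₁` -/
def FP : Perm ℝ := FF_pre.perm

lemma FP_apply (y : ℝ) : FP y = FF y := rfl

lemma FP_isD : IsD ⊤ FP := FF_pre.isD le_rfl

lemma FP_mono : StrictMono FP := FF_pre.mono

lemma FP_mid {y : ℝ} (h1 : -4 ≤ y) (h2 : y ≤ 4) : FP y = -(7 / 8) + y / 64 :=
  FF_mid (by nlinarith)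

lemma FP_fix : FP (-(8 / 9)) = -(8 / 9) := by
  rw [FP_mid (by norm_num) (by norm_num)]; norm_num

/-- every point of `(-5,5)` is eventually in `(-4,0)` -/
lemma FP_absorb {x : ℝ} (hx : |x| < 5) : ∃ n : ℕ, (FP ^ n) x ∈ Ioo (-4 : ℝ) 0 := by
  rw [abs_lt] at hx
  have hpos : ∀ y : ℝ, |y| < 5 → 0 < Real.smoothTransition ((25 - y ^ 2) / 9) := by
    intro y hy
    apply Real.smoothTransition.pos_of_pos
    have : y ^ 2 < 25 := by
      rw [← sq_abs]; nlinarith [abs_nonneg y]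
    linarith
  have h5 : FP 5 = 5 := FP_isD.off 5 (by norm_num)
  have h5' : FP (-5) = -5 := FP_isD.off (-5) (by norm_num)
  have hinv : ∀ n : ℕ, FP ^ n = (FP⁻¹)⁻¹ ^ n := fun n => by rw [inv_inv]
  rcases lt_trichotomy x (-(8 / 9)) with h | h | h
  · have hup : ∀ z ∈ Ioo (-5 : ℝ) (-(8 / 9)), z < FP z := by
      intro z hz
      have h1 := hpos z (abs_lt.2 ⟨hz.1, by linarith [hz.2]⟩)
      rw [FP_apply, FF]
      have : 63 / 64 * z + 7 / 8 < 0 := by linarith [hz.2]
      nlinarith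
    obtain ⟨n, hn⟩ := orbit_up FP_mono FP_fix hup (x := x) (y := -4) ⟨hx.1, h⟩ (by norm_num)
    refine ⟨n, hn, ?_⟩
    have := strictMono_pow FP_mono n h
    rw [fix_pow FP_fix] at this
    linarith
  · refine ⟨0, ?_⟩
    rw [h]
    simp only [pow_zero, Perm.one_apply]
    constructor <;> norm_num
  · have hdn : ∀ z ∈ Ioo (-(8 / 9) : ℝ) 5, z < FP⁻¹ z := by
      intro z hz
      have h1 := hpos z (abs_lt.2 ⟨by linarith [hz.1], hz.2⟩)
      have h2 : FP z < z := by
        rw [FP_apply, FF]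
        have : 0 < 63 / 64 * z + 7 / 8 := by linarith [hz.1]
        nlinarith
      have := strictMono_inv FP_mono h2
      rwa [inv_app] at this
    obtain ⟨n, hn⟩ := orbit_down (strictMono_inv FP_mono) (fix_inv FP_fix) hdn (x := x) (y := 0)
      ⟨h, hx.2⟩ (by norm_num)
    rw [inv_inv] at hn
    refine ⟨n, ?_, hn⟩
    have := strictMono_pow FP_mono n h
    rw [fix_pow FP_fix] at this
    linarith

/-- the closed fundamental piece -/
def DD : Set ℝ := Icc (-(15 / 16)) (-(13 / 16))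

lemma FP_mem_DD {y : ℝ} (h1 : -4 ≤ y) (h2 : y ≤ 4) : FP y ∈ DD := by
  rw [FP_mid h1 h2]
  constructor <;> linarith

end

end Pool.Agent.Work.MP_4516ee_al
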