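import Mathlib
import Pool.Agent.Work.MP_4516ee_al.FMap

/-! The modification `M` of the basic model. -/

open Set Equiv
open scoped ContDiff

namespace Pool.Agent.Work.MP_4516ee_al

noncomputable section

/-- local expanding map -/
structure IsN (ε : ℝ) (N : Perm ℝ) : Prop where
  sm : ContDiff ℝ ∞ N
  smi : ContDiff ℝ ∞ (N⁻¹ : Perm ℝ)
  off : ∀ z, 1 ≤ |z| → N z = z
  lin : ∀ z, |z| ≤ 1 / 2 → N z = (1 + ε) * z
  lip : ∀ x y, |N x - N y| ≤ (1 + ε) * |x - y|

lemma st_deriv_bound : ∃ K : ℝ, 0 ≤ K ∧ ∀ x ∈ Icc (0:ℝ) 2, ∃ d, 0 ≤ d ∧ d ≤ K ∧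
    HasDerivAt Real.smoothTransition d x := by
  have hc : Continuous (deriv Real.smoothTransition) :=
    (Real.smoothTransition.contDiff (n := 1)).continuous_deriv le_rfl
  obtain ⟨K, hK⟩ := (isCompact_Icc (a := (0:ℝ)) (b := 2)).exists_bound_of_continuousOn
    hc.continuousOn
  refine ⟨|K|, abs_nonneg _, fun x hx => ?_⟩
  have hd : DifferentiableAt ℝ Real.smoothTransition x :=
    (Real.smoothTransition.contDiffAt (n := 1)).differentiableAt (by simp)
  refine ⟨deriv Real.smoothTransition x, Real.smoothTransition.monotone.deriv_nonneg, ?_,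
    hd.hasDerivAt⟩
  have := hK x hx
  rw [Real.norm_eq_abs] at this
  exact (le_abs_self _).trans (this.trans (le_abs_self K))

lemma exists_N : ∃ ε₀ : ℝ, 0 < ε₀ ∧ ∀ ε : ℝ, 0 < ε → ε ≤ ε₀ → ∃ N, IsN ε N := by
  obtain ⟨K, hK0, hK⟩ := st_deriv_bound
  refine ⟨1 / (8 * (K + 1)), by positivity, ?_⟩
  intro ε hε hε'
  have hεK : 4 * ε * K < 1 := by
    rw [le_div_iff₀ (by positivity)] at hε'
    nlinarith
  set F : ℝ → ℝ := fun z => z + ε * z * Real.smoothTransition (2 - 2 * z ^ 2) with hF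
  have hsm : ContDiff ℝ ∞ F := by
    rw [hF]
    apply contDiff_id.add
    apply ContDiff.mul (by fun_prop)
    exact (Real.smoothTransition.contDiff (n := ⊤)).comp (by fun_prop)
  have hoff : ∀ z, 1 ≤ |z| → F z = z := by
    intro z hz
    have h0 : 1 ≤ z ^ 2 := by
      rw [← sq_abs]; nlinarith
    have h1 : Real.smoothTransition (2 - 2 * z ^ 2) = 0 :=
      Real.smoothTransition.zero_of_nonpos (by linarith)
    simp [hF, h1]
  have hder : ∀ z, ∃ d, 0 < d ∧ d ≤ 1 + ε ∧ HasDerivAt F d z := by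
    intro z
    rcases le_or_gt (z ^ 2) 1 with hz | hz
    · obtain ⟨d, hd0, hdK, hd⟩ := hK (2 - 2 * z ^ 2) ⟨by linarith, by nlinarith [sq_nonneg z]⟩
      have h1 : HasDerivAt (fun z : ℝ => 2 - 2 * z ^ 2) (-(2 * (2 * z))) z := by
        simpa using ((hasDerivAt_pow 2 z).const_mul 2).const_sub 2
      have h2 : HasDerivAt (fun z : ℝ => Real.smoothTransition (2 - 2 * z ^ 2))
          (d * (-(2 * (2 * z)))) z :=
        HasDerivAt.comp (h := fun z : ℝ => 2 - 2 * z ^ 2) (h₂ := Real.smoothTransition) z hd h1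
      have h3 : HasDerivAt (fun z : ℝ => ε * z) ε z := by
        simpa using (hasDerivAt_id' z).const_mul ε
      have h4 : HasDerivAt F (1 + (ε * Real.smoothTransition (2 - 2 * z ^ 2) +
          ε * z * (d * (-(2 * (2 * z)))))) z :=
        (hasDerivAt_id' z).fun_add (h3.fun_mul h2)
      refine ⟨_, ?_, ?_, h4⟩
      · have hs0 := Real.smoothTransition.nonneg (2 - 2 * z ^ 2)
        have h5 : ε * (d * z ^ 2) ≤ ε * K := by
          apply mul_le_mul_of_nonneg_left _ hε.le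
          nlinarith [sq_nonneg z]
        nlinarith [mul_nonneg hε.le hs0]
      · have hs1 := Real.smoothTransition.le_one (2 - 2 * z ^ 2)
        have h5 : 0 ≤ ε * (d * z ^ 2) := by positivity
        nlinarith
    · have hev : F =ᶠ[nhds z] fun z : ℝ => z := by
        have hcont : Continuous (fun y : ℝ => y ^ 2) := by fun_prop
        filter_upwards [hcont.continuousAt.eventually (lt_mem_nhds hz)] with y hy
        apply hoff
        rw [← sq_abs] at hy
        by_contra hcon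
        push Not at hcon
        nlinarith [abs_nonneg y]
      exact ⟨1, one_pos, by linarith, (hasDerivAt_id' z).congr_of_eventuallyEq hev⟩
  have hpre : Pre F 1 :=
    { c := hsm
      pos := fun z => by
        obtain ⟨d, hd, _, hd'⟩ := hder z
        exact ⟨d, hd, hd'⟩
      off := hoff }
  refine ⟨hpre.perm, ⟨hsm, hpre.ci, hoff, ?_, ?_⟩⟩
  · intro z hz
    have h0 : z ^ 2 ≤ 1 / 4 := by
      rw [← sq_abs]; nlinarith [abs_nonneg z]
    have h1 : Real.smoothTransition (2 - 2 * z ^ 2) = 1 :=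
      Real.smoothTransition.one_of_one_le (by linarith)
    rw [hpre.perm_apply]
    simp only [hF, h1]; ring
  · intro x y
    have := Convex.norm_image_sub_le_of_norm_deriv_le (f := F) (s := univ) (x := y) (y := x)
      (C := 1 + ε) (fun z _ => (hder z).choose_spec.2.2.differentiableAt)
      (fun z _ => by
        obtain ⟨d, hd, hd1, hd'⟩ := hder z
        rw [hd'.deriv, Real.norm_eq_abs, abs_of_pos hd]
        exact hd1) convex_univ (mem_univ _) (mem_univ _)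
    simpa only [Real.norm_eq_abs, hpre.perm_apply] using this

lemma IsN.pow_lip {ε : ℝ} {N : Perm ℝ} (h : IsN ε N) (hε : 0 < ε) (L : ℕ) (x y : ℝ) :
    |(N ^ L) x - (N ^ L) y| ≤ (1 + ε) ^ L * |x - y| := by
  induction L with
  | zero => simp
  | succ L ih =>
    rw [pow_succ' N, Perm.mul_apply, Perm.mul_apply]
    calc |N ((N ^ L) x) - N ((N ^ L) y)| ≤ (1 + ε) * |(N ^ L) x - (N ^ L) y| := h.lip _ _
      _ ≤ (1 + ε) * ((1 + ε) ^ L * |x - y|) := mul_le_mul_of_nonneg_left ih (by linarith)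
      _ = (1 + ε) ^ (L + 1) * |x - y| := by ring

lemma IsN.pow_lin {ε : ℝ} {N : Perm ℝ} (h : IsN ε N) (hε : 0 < ε) (L : ℕ) (z : ℝ)
    (hz : (1 + ε) ^ L * |z| ≤ 1 / 2) : (N ^ L) z = (1 + ε) ^ L * z := by
  induction L with
  | zero => simp
  | succ L ih =>
    have h1 : (1 + ε) ^ L * |z| ≤ 1 / 2 := by
      have h2 : (1 + ε) ^ L ≤ (1 + ε) ^ (L + 1) :=
        pow_le_pow_right₀ (by linarith) (Nat.le_succ L)
      exact (mul_le_mul_of_nonneg_right h2 (abs_nonneg z)).trans hz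
    rw [pow_succ' N, Perm.mul_apply, ih h1, h.lin]
    · ring
    · rw [abs_mul, abs_of_pos (by positivity)]
      exact h1

lemma IsN.pow_off {ε : ℝ} {N : Perm ℝ} (h : IsN ε N) (L : ℕ) {z : ℝ} (hz : 1 ≤ |z|) :
    (N ^ L) z = z := fix_pow (h.off z hz) L

/-- affine conjugate -/
def Bm (N : Perm ℝ) (c r : ℝ) (hr : r ≠ 0) : Perm ℝ where
  toFun y := c + r * N ((y - c) / r)
  invFun y := c + r * N⁻¹ ((y - c) / r)
  left_inv y := by
    have : (c + r * N ((y - c) / r) - c) / r = N ((y - c) / r) := by field_simp; ring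
    change c + r * N⁻¹ ((c + r * N ((y - c) / r) - c) / r) = y
    rw [this, inv_app]; field_simp; ring
  right_inv y := by
    have : (c + r * N⁻¹ ((y - c) / r) - c) / r = N⁻¹ ((y - c) / r) := by field_simp; ring
    change c + r * N ((c + r * N⁻¹ ((y - c) / r) - c) / r) = y
    rw [this, app_inv]; field_simp; ring

lemma Bm_apply (N : Perm ℝ) (c r : ℝ) (hr : r ≠ 0) (y : ℝ) :
    Bm N c r hr y = c + r * N ((y - c) / r) := rfl

lemma Bm_pow (N : Perm ℝ) (c r : ℝ) (hr : r ≠ 0) (L : ℕ) (y : ℝ) :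
    (Bm N c r hr ^ L) y = c + r * (N ^ L) ((y - c) / r) := by
  induction L with
  | zero => simp only [pow_zero, Perm.one_apply]; field_simp; ring
  | succ L ih =>
    rw [pow_succ', Perm.mul_apply, ih, Bm_apply, pow_succ' N, Perm.mul_apply]
    congr 3
    field_simp; ring

lemma Bm_off {ε : ℝ} {N : Perm ℝ} (h : IsN ε N) {c r : ℝ} (hr : 0 < r) {y : ℝ}
    (hy : r ≤ |y - c|) : Bm N c r hr.ne' y = y := by
  rw [Bm_apply, h.off]
  · field_simp; ring
  · rw [abs_div, abs_of_pos hr, le_div_iff₀ hr]; linarith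

lemma Bm_isD {ε : ℝ} {N : Perm ℝ} (h : IsN ε N) {c r : ℝ} (hr : 0 < r) (hc : |c| + r ≤ 5) :
    IsD ⊤ (Bm N c r hr.ne') where
  c := by
    change ContDiff ℝ ∞ (fun y => c + r * N ((y - c) / r))
    apply contDiff_const.add
    apply contDiff_const.mul
    exact h.sm.comp (by fun_prop)
  ci := by
    change ContDiff ℝ ∞ (fun y => c + r * N⁻¹ ((y - c) / r))
    apply contDiff_const.add
    apply contDiff_const.mul
    exact h.smi.comp (by fun_prop)
  off y hy := by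
    apply Bm_off h hr
    have := abs_sub_abs_le_abs_sub y c
    linarith

/-- the points `c_j` -/
def cc (j : ℕ) : ℝ := -(56 * 2 ^ j) / (64 * 2 ^ j - 1)

/-- the radii `r_j` -/
def rr (j : ℕ) : ℝ := 1 / (2048 * 2 ^ j)

lemma rr_pos (j : ℕ) : 0 < rr j := by unfold rr; positivity

lemma cc_den (j : ℕ) : (0:ℝ) < 64 * 2 ^ j - 1 := by
  have : (1:ℝ) ≤ 2 ^ j := one_le_pow₀ (by norm_num)
  linarith

lemma cc_eq (j : ℕ) : cc j = -(7 / 8) + cc j / (64 * 2 ^ j) := by
  have h3 : cc j * (64 * 2 ^ j - 1) = -(56 * 2 ^ j) := div_mul_cancel₀ _ (cc_den j).ne'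
  have h2 : (0:ℝ) < 64 * 2 ^ j := by positivity
  have h4 : cc j / (64 * 2 ^ j) = cc j + 7 / 8 := by
    rw [div_eq_iff h2.ne']
    linarith
  rw [h4]; ring

lemma cc_lower (j : ℕ) : -(8 / 9) ≤ cc j := by
  unfold cc
  rw [le_div_iff₀ (cc_den j)]
  have : (1:ℝ) ≤ 2 ^ j := one_le_pow₀ (by norm_num)
  linarith

lemma cc_upper (j : ℕ) : cc j ≤ -(7 / 8) := by
  unfold cc
  rw [div_le_iff₀ (cc_den j)]
  linarith

/-- the sets `T_j = f₁ (2^{-j} D)` -/
def TT (j : ℕ) : Set ℝ := {y | 64 * 2 ^ j * (y + 7 / 8) ∈ DD}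

lemma TT_disj {i j : ℕ} {y : ℝ} (hi : y ∈ TT i) (hj : y ∈ TT j) : i = j := by
  have key : ∀ i j : ℕ, y ∈ TT i → y ∈ TT j → ¬ i < j := by
    intro i j hi hj hij
    obtain ⟨k, rfl⟩ : ∃ k, j = i + 1 + k := ⟨j - i - 1, by omega⟩
    simp only [TT, DD, mem_ofPred_eq, mem_Icc] at hi hj
    have e : (64:ℝ) * 2 ^ (i + 1 + k) * (y + 7 / 8) = 2 * 2 ^ k * (64 * 2 ^ i * (y + 7 / 8)) := by
      ring
    rw [e] at hj
    have : (1:ℝ) ≤ 2 ^ k := one_le_pow₀ (by norm_num)
    nlinarith [hi.1, hi.2, hj.1]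
  rcases lt_trichotomy i j with h | h | h
  · exact absurd h (key i j hi hj)
  · exact h
  · exact absurd h (key j i hj hi)

lemma S_sub_TT {j : ℕ} {y : ℝ} (hy : |y - cc j| < rr j) : y ∈ TT j := by
  have e : 64 * 2 ^ j * (y + 7 / 8) = 64 * 2 ^ j * (y - cc j) + cc j := by
    have h := cc_eq j
    have h2 : (2:ℝ) ^ j ≠ 0 := by positivity
    have h3 : 64 * 2 ^ j * (cc j + 7 / 8) = cc j := by
      nth_rewrite 1 [h]
      field_simp
      ring
    linarith
  have h1 : |64 * 2 ^ j * (y - cc j)| < 1 / 32 := by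
    rw [abs_mul, abs_of_pos (by positivity)]
    calc (64:ℝ) * 2 ^ j * |y - cc j| < 64 * 2 ^ j * rr j :=
          mul_lt_mul_of_pos_left hy (by positivity)
      _ = 1 / 32 := by unfold rr; field_simp; norm_num
  rw [abs_lt] at h1
  simp only [TT, DD, mem_ofPred_eq, mem_Icc]
  rw [e]
  have := cc_lower j
  have := cc_upper j
  constructor <;> linarith

/-- the building block -/
def Bj (N : Perm ℝ) (j : ℕ) : Perm ℝ := Bm N (cc j) (rr j) (rr_pos j).ne'

lemma rr_le (j : ℕ) : rr j ≤ 1 := by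
  unfold rr
  have : (1:ℝ) ≤ 2 ^ j := one_le_pow₀ (by norm_num)
  rw [div_le_one (by positivity)]
  linarith

lemma Bj_isD {ε : ℝ} {N : Perm ℝ} (h : IsN ε N) (j : ℕ) : IsD ⊤ (Bj N j) := by
  apply Bm_isD h (rr_pos j)
  have h1 := cc_lower j
  have h2 := cc_upper j
  have h3 := rr_le j
  rw [abs_of_neg (by linarith)]
  linarith

lemma Bj_off {ε : ℝ} {N : Perm ℝ} (h : IsN ε N) {j : ℕ} {y : ℝ} (hy : y ∉ TT j) :
    Bj N j y = y := by
  apply Bm_off h (rr_pos j)
  by_contra hc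
  push Not at hc
  exact hy (S_sub_TT hc)

lemma Bj_pow_off {ε : ℝ} {N : Perm ℝ} (h : IsN ε N) {j : ℕ} (L : ℕ) {y : ℝ} (hy : y ∉ TT j) :
    (Bj N j ^ L) y = y := fix_pow (Bj_off h hy) L

lemma perm_mem_of_off {α : Type*} {P : Perm α} {S : Set α} (h : ∀ y, y ∉ S → P y = y) {y : α}
    (hy : y ∈ S) : P y ∈ S := by
  by_contra hc
  have h1 := h _ hc
  have h2 := P.injective h1
  rw [h2] at hc
  exact hc hy

lemma Bj_pow_mem {ε : ℝ} {N : Perm ℝ} (h : IsN ε N) {j : ℕ} (L : ℕ) {y : ℝ} (hy : y ∈ TT j) :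
    (Bj N j ^ L) y ∈ TT j := perm_mem_of_off (fun _ hz => Bj_pow_off h L hz) hy

/-- the modification -/
def MM (N : Perm ℝ) (L : ℕ → ℕ) : ℕ → Perm ℝ
  | 0 => 1
  | J + 1 => MM N L J * (Bj N J) ^ (L J)

lemma MM_isD {ε : ℝ} {N : Perm ℝ} (h : IsN ε N) (L : ℕ → ℕ) (J : ℕ) : IsD ⊤ (MM N L J) := by
  induction J with
  | zero => exact IsD.one _
  | succ J ih =>
    have : (Bj N J) ^ (L J) ∈ DG ⊤ := pow_mem (mem_DG.2 (Bj_isD h J)) _
    exact ih.mul this

lemma MM_off {ε : ℝ} {N : Perm ℝ} (h : IsN ε N) (L : ℕ → ℕ) (J : ℕ) {y : ℝ}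
    (hy : ∀ j < J, y ∉ TT j) : MM N L J y = y := by
  induction J with
  | zero => rfl
  | succ J ih =>
    rw [MM, Perm.mul_apply, Bj_pow_off h _ (hy J (Nat.lt_succ_self J))]
    exact ih fun j hj => hy j (by omega)

lemma MM_on {ε : ℝ} {N : Perm ℝ} (h : IsN ε N) (L : ℕ → ℕ) (J : ℕ) {j : ℕ} (hj : j < J) {y : ℝ}
    (hy : y ∈ TT j) : MM N L J y = (Bj N j ^ L j) y := by
  induction J with
  | zero => omega
  | succ J ih =>
    rw [MM, Perm.mul_apply]
    rcases Nat.lt_succ_iff_lt_or_eq.1 hj with h1 | h1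
    · rw [Bj_pow_off h _ (fun hc => h1.ne (TT_disj hy hc))]
      exact ih h1
    · rw [← h1]
      apply MM_off h
      intro i hi hc
      have := TT_disj hc (Bj_pow_mem h (L j) hy)
      omega

end

end Pool.Agent.Work.MP_4516ee_al
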