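import Mathlib
import Pool.Agent.Work.MP_4516ee_al.MMap
import Pool.Agent.Work.MP_4516ee_al.Conj

/-! The models and their conjugacy. -/

open Set Equiv
open scoped ContDiff

namespace Pool.Agent.Work.MP_4516ee_al

noncomputable section

/-- translates of the fundamental piece -/
def SS (i : ℤ) : Set ℝ := {y | ((HP ^ i)⁻¹ : Perm ℝ) y ∈ DD}

lemma mem_SS {i : ℤ} {y : ℝ} : y ∈ SS i ↔ ((HP ^ i)⁻¹ : Perm ℝ) y ∈ DD := Iff.rfl

lemma mem_SS_iff {i : ℤ} {y : ℝ} : y ∈ SS i ↔ ∃ x ∈ DD, (HP ^ i) x = y := by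
  constructor
  · intro h
    exact ⟨_, h, (HP ^ i).apply_symm_apply y⟩
  · rintro ⟨x, hx, rfl⟩
    change ((HP ^ i)⁻¹ : Perm ℝ) ((HP ^ i) x) ∈ DD
    rwa [inv_app]

lemma DD_bd {x : ℝ} (hx : x ∈ DD) : -1 ≤ x ∧ x ≤ -(1 / 2) := by
  obtain ⟨h1, h2⟩ := hx
  constructor <;> linarith

lemma HP_zpow_nat (j : ℕ) {x : ℝ} (hx : x ∈ DD) : (HP ^ (j : ℤ)) x = x / 2 ^ j := by
  rw [zpow_natCast]
  have := DD_bd hx
  exact HP_pow_mid j (by linarith) (by linarith)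

lemma mem_SS_nat {j : ℕ} {y : ℝ} : y ∈ SS j ↔ 2 ^ j * y ∈ DD := by
  have h2 : (2:ℝ) ^ j ≠ 0 := by positivity
  rw [mem_SS_iff]
  constructor
  · rintro ⟨x, hx, rfl⟩
    rw [HP_zpow_nat j hx]
    rwa [mul_div_cancel₀ _ h2]
  · intro h
    refine ⟨_, h, ?_⟩
    rw [HP_zpow_nat j h]
    field_simp

lemma neg_pow_app (l : ℕ) (x : ℝ) : (HP ^ (-((l : ℤ) + 1))) x = (HP⁻¹ ^ (l + 1)) x := by
  have : HP ^ (-((l : ℤ) + 1)) = HP⁻¹ ^ (l + 1) := by
    rw [zpow_neg, inv_pow]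
    norm_cast
  rw [this]

lemma SS_neg_le {l : ℕ} {y : ℝ} (hy : y ∈ SS (-((l : ℤ) + 1))) : y ≤ -1 := by
  obtain ⟨x, hx, rfl⟩ := mem_SS_iff.1 hy
  rw [neg_pow_app]
  exact HP_inv_pow_le l (DD_bd hx).2

lemma int_cases (i : ℤ) : (∃ j : ℕ, i = j) ∨ ∃ l : ℕ, i = -((l : ℤ) + 1) := by
  rcases i with j | l
  · exact Or.inl ⟨j, rfl⟩
  · exact Or.inr ⟨l, by rw [Int.negSucc_eq]⟩

lemma SS_sub_V {i : ℤ} {y : ℝ} (hy : y ∈ SS i) : y ∈ Ioo (-4 : ℝ) 0 := by
  have hI : ∀ n : ℕ, ∀ z ∈ Ioo (-4 : ℝ) 0, (HP⁻¹ ^ n) z ∈ Ioo (-4 : ℝ) 0 := by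
    intro n z hz
    have h0 : (HP⁻¹ ^ n) 0 = 0 :=
      fix_pow (fix_inv (by rw [HP_mid (by norm_num) (by norm_num)]; norm_num)) n
    have h4 : (HP⁻¹ ^ n) (-4) = -4 := fix_pow (fix_inv (HP_off (by norm_num))) n
    have hm := strictMono_pow (strictMono_inv HP_mono) n
    constructor
    · rw [← h4]; exact hm hz.1
    · have := hm hz.2
      rwa [h0] at this
  rcases int_cases i with ⟨j, rfl⟩ | ⟨l, rfl⟩
  · rw [mem_SS_nat] at hy
    have h2 : (1:ℝ) ≤ 2 ^ j := one_le_pow₀ (by norm_num)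
    have := DD_bd hy
    constructor
    · nlinarith
    · nlinarith
  · obtain ⟨x, hx, rfl⟩ := mem_SS_iff.1 hy
    rw [neg_pow_app]
    have := DD_bd hx
    exact hI _ _ ⟨by linarith, by linarith⟩

lemma SS_disj (i j : ℤ) (y : ℝ) (hi : y ∈ SS i) (hj : y ∈ SS j) : i = j := by
  have key : ∀ i j : ℤ, y ∈ SS i → y ∈ SS j → ¬ i < j := by
    intro i j hi hj hij
    obtain ⟨k, rfl⟩ : ∃ k : ℕ, j = i + ((k : ℤ) + 1) :=
      ⟨(j - i - 1).toNat, by rw [Int.toNat_of_nonneg (by omega)]; ring⟩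
    obtain ⟨x, hx, hxy⟩ := mem_SS_iff.1 hj
    have h1 : ((HP ^ i)⁻¹ : Perm ℝ) y = (HP ^ (((k + 1 : ℕ) : ℤ))) x := by
      rw [← hxy, zpow_add, Perm.mul_apply, inv_app]
      push_cast
      rfl
    have h2 : ((HP ^ i)⁻¹ : Perm ℝ) y ∈ DD := hi
    rw [h1, HP_zpow_nat _ hx] at h2
    have h3 : (1:ℝ) ≤ 2 ^ k := one_le_pow₀ (by norm_num)
    have h4 := DD_bd hx
    have h5 : -(1 / 2) ≤ x / 2 ^ (k + 1) := by
      rw [le_div_iff₀ (by positivity), pow_succ]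
      nlinarith
    have h6 := h2.2
    linarith
  rcases lt_trichotomy i j with h | h | h
  · exact absurd h (key i j hi hj)
  · exact h
  · exact absurd h (key j i hj hi)

/-- `T_j = f₁ (2^{-j} D)` -/
lemma FP_mem_TT {j : ℕ} {y : ℝ} : FP y ∈ TT j ↔ y ∈ SS j := by
  rw [mem_SS_nat]
  have h2 : (1:ℝ) ≤ 2 ^ j := one_le_pow₀ (by norm_num)
  constructor
  · intro h
    set x := 64 * 2 ^ j * (FP y + 7 / 8) with hx
    have hxD : x ∈ DD := h
    have h3 := DD_bd hxD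
    have h4 : -1 ≤ x / 2 ^ j := by rw [le_div_iff₀ (by positivity)]; linarith
    have h5 : x / 2 ^ j ≤ 0 := by rw [div_le_iff₀ (by positivity)]; linarith
    have h6 : FP (x / 2 ^ j) = FP y := by
      rw [FP_mid (by linarith) (by linarith), hx]
      field_simp
      ring
    have h7 := FP.injective h6
    rw [← h7, mul_div_cancel₀ _ (by positivity)]
    exact hxD
  · intro h
    have h3 := DD_bd h
    have h4 : -1 ≤ y := by nlinarith
    have h5 : y ≤ 0 := by nlinarith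
    change 64 * 2 ^ j * (FP y + 7 / 8) ∈ DD
    rw [FP_mid (by linarith) (by linarith)]
    have : 64 * 2 ^ j * (-(7 / 8) + y / 64 + 7 / 8) = 2 ^ j * y := by ring
    rwa [this]

lemma TT_sub_DD {j : ℕ} {y : ℝ} (hy : y ∈ TT j) : y ∈ DD := by
  have h2 : (1:ℝ) ≤ 2 ^ j := one_le_pow₀ (by norm_num)
  have h3 := DD_bd (x := 64 * 2 ^ j * (y + 7 / 8)) hy
  constructor <;> nlinarith

section

variable {ε : ℝ} {N : Perm ℝ} (hN : IsN ε N) (L : ℕ → ℕ)
include hN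

lemma MM_TT (J : ℕ) {j : ℕ} {y : ℝ} (hy : y ∈ TT j) : MM N L J y ∈ TT j := by
  by_cases hj : j < J
  · rw [MM_on hN L J hj hy]
    exact Bj_pow_mem hN _ hy
  · rw [MM_off hN L J]
    · exact hy
    · intro i hi hc
      have := TT_disj hc hy
      omega

lemma MM_TT' (J : ℕ) {j : ℕ} {y : ℝ} (hy : y ∈ TT j) : (MM N L J)⁻¹ y ∈ TT j := by
  by_cases hj : j < J
  · have h1 : ((Bj N j ^ L j)⁻¹ : Perm ℝ) y ∈ TT j :=
      mem_of_off (inv_off (fun z hz => Bj_pow_off hN (L j) hz)) hy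
    have h2 : MM N L J (((Bj N j ^ L j)⁻¹ : Perm ℝ) y) = y := by
      rw [MM_on hN L J hj h1, app_inv]
    rwa [← h2, inv_app]
  · have h1 : MM N L J y = y := by
      apply MM_off hN L J
      intro i hi hc
      have := TT_disj hc hy
      omega
    rwa [fix_inv h1]

omit hN in
variable (N) in
/-- the map `f` of the model -/
def fm (J : ℕ) : Perm ℝ := MM N L J * FP

omit hN in
lemma fm_apply (J : ℕ) (y : ℝ) : fm N L J y = MM N L J (FP y) := rfl

lemma fm_isD (J : ℕ) : IsD ⊤ (fm N L J) := (MM_isD hN L J).mul FP_isD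

omit hN in
lemma fm_zero : fm N L 0 = FP := by
  rw [fm, MM, one_mul]

lemma fm_eq_FP (J : ℕ) {y : ℝ} (hy : ∀ j : ℕ, y ∉ SS j) : fm N L J y = FP y := by
  rw [fm_apply]
  apply MM_off hN L J
  intro j _ hc
  exact hy j (FP_mem_TT.1 hc)

lemma fm_mem_DD (J : ℕ) {y : ℝ} (h1 : -4 ≤ y) (h2 : y ≤ 4) : fm N L J y ∈ DD := by
  by_cases hy : ∃ j : ℕ, y ∈ SS j
  · obtain ⟨j, hj⟩ := hy
    exact TT_sub_DD (MM_TT hN L J (FP_mem_TT.2 hj))
  · push Not at hy
    rw [fm_eq_FP hN L J hy]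
    exact FP_mem_DD h1 h2

/-- the image of `H^i D` under `f` does not depend on the model -/
lemma fm_range (J : ℕ) {i : ℤ} {y : ℝ} : (∃ x ∈ DD, fm N L J ((HP ^ i) x) = y) ↔
    FP⁻¹ y ∈ SS i := by
  rcases int_cases i with ⟨j, rfl⟩ | ⟨l, rfl⟩
  · constructor
    · rintro ⟨x, hx, rfl⟩
      have h1 : (HP ^ (j : ℤ)) x ∈ SS j := mem_SS_iff.2 ⟨x, hx, rfl⟩
      have h2 := MM_TT hN L J (FP_mem_TT.2 h1)
      rw [fm_apply, ← FP_mem_TT, app_inv]
      exact h2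
    · intro h
      rw [← FP_mem_TT, app_inv] at h
      have h2 := MM_TT' hN L J h
      have h3 : FP⁻¹ ((MM N L J)⁻¹ y) ∈ SS j := by
        rw [← FP_mem_TT, app_inv]; exact h2
      obtain ⟨x, hx, hxy⟩ := mem_SS_iff.1 h3
      refine ⟨x, hx, ?_⟩
      rw [hxy, fm_apply, app_inv, app_inv]
  · have hoff : ∀ y ∈ SS (-((l : ℤ) + 1)), fm N L J y = FP y := by
      intro y hy
      apply fm_eq_FP hN L J
      intro j hj
      have := SS_disj _ _ _ hy hj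
      omega
    constructor
    · rintro ⟨x, hx, rfl⟩
      have h1 : (HP ^ (-((l : ℤ) + 1))) x ∈ SS (-((l : ℤ) + 1)) := mem_SS_iff.2 ⟨x, hx, rfl⟩
      rw [hoff _ h1, inv_app]
      exact h1
    · intro h
      obtain ⟨x, hx, hxy⟩ := mem_SS_iff.1 h
      refine ⟨x, hx, ?_⟩
      rw [hxy, hoff _ h, app_inv]

/-- the formula for `f` on `2^{-j} D` -/
lemma fm_formula {J j : ℕ} (hj : j < J) {x : ℝ} (hx : x ∈ DD) :
    fm N L J (x / 2 ^ j) = cc j + rr j * (N ^ L j) (32 * (x - cc j)) := by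
  have h2 : (1:ℝ) ≤ 2 ^ j := one_le_pow₀ (by norm_num)
  have h3 := DD_bd hx
  have h4 : -1 ≤ x / 2 ^ j := by rw [le_div_iff₀ (by positivity)]; linarith
  have h5 : x / 2 ^ j ≤ 0 := by rw [div_le_iff₀ (by positivity)]; linarith
  have h6 : x / 2 ^ j ∈ SS j := by
    rw [mem_SS_nat, mul_div_cancel₀ _ (by positivity)]
    exact hx
  rw [fm_apply, MM_on hN L J hj (FP_mem_TT.2 h6), Bj, Bm_pow]
  congr 3
  rw [FP_mid (by linarith) (by linarith)]
  have h7 := cc_eq j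
  have h8 : -(7 / 8) + x / 2 ^ j / 64 - cc j = (x - cc j) / (64 * 2 ^ j) := by
    nth_rewrite 1 [h7]
    field_simp
    ring
  rw [h8]
  unfold rr
  field_simp
  ring

variable (hε : 0 < ε) {c : ℝ} (hc16 : 1 / 16 ≤ c)
  (hL : ∀ j, (1 + ε) ^ (L j) / (64 * 2 ^ j) ≤ c)
include hε hc16 hL

/-- contraction -/
lemma fm_contract (J : ℕ) (i : ℤ) {x y : ℝ} (hx : x ∈ DD) (hy : y ∈ DD) :
    |fm N L J ((HP ^ i) x) - fm N L J ((HP ^ i) y)| ≤ c * |x - y| := by
  rcases int_cases i with ⟨j, rfl⟩ | ⟨l, rfl⟩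
  · have h2 : (1:ℝ) ≤ 2 ^ j := one_le_pow₀ (by norm_num)
    rw [HP_zpow_nat j hx, HP_zpow_nat j hy]
    by_cases hj : j < J
    · rw [fm_formula hN L hj hx, fm_formula hN L hj hy]
      have e : cc j + rr j * (N ^ L j) (32 * (x - cc j)) -
          (cc j + rr j * (N ^ L j) (32 * (y - cc j))) =
          rr j * ((N ^ L j) (32 * (x - cc j)) - (N ^ L j) (32 * (y - cc j))) := by ring
      rw [e, abs_mul, abs_of_pos (rr_pos j)]
      have h3 := hN.pow_lip hε (L j) (32 * (x - cc j)) (32 * (y - cc j))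
      have e2 : 32 * (x - cc j) - 32 * (y - cc j) = 32 * (x - y) := by ring
      rw [e2, abs_mul, abs_of_pos (by norm_num : (0:ℝ) < 32)] at h3
      calc rr j * |(N ^ L j) (32 * (x - cc j)) - (N ^ L j) (32 * (y - cc j))|
        _ ≤ rr j * ((1 + ε) ^ L j * (32 * |x - y|)) :=
            mul_le_mul_of_nonneg_left h3 (rr_pos j).le
        _ = (1 + ε) ^ (L j) / (64 * 2 ^ j) * |x - y| := by
            unfold rr; field_simp; ring
        _ ≤ c * |x - y| := mul_le_mul_of_nonneg_right (hL j) (abs_nonneg _)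
    · have hform : ∀ x ∈ DD, fm N L J (x / 2 ^ j) = -(7 / 8) + x / 2 ^ j / 64 := by
        intro x hx
        have h3 := DD_bd hx
        have h4 : -1 ≤ x / 2 ^ j := by rw [le_div_iff₀ (by positivity)]; linarith
        have h5 : x / 2 ^ j ≤ 0 := by rw [div_le_iff₀ (by positivity)]; linarith
        have h6 : x / 2 ^ j ∈ SS j := by
          rw [mem_SS_nat, mul_div_cancel₀ _ (by positivity)]
          exact hx
        rw [fm_apply, MM_off hN L J]
        · exact FP_mid (by linarith) (by linarith)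
        · intro i hi hci
          have := SS_disj _ _ _ (FP_mem_TT.1 hci) h6
          omega
      rw [hform x hx, hform y hy]
      have e : -(7 / 8) + x / 2 ^ j / 64 - (-(7 / 8) + y / 2 ^ j / 64) =
          (1 / (64 * 2 ^ j)) * (x - y) := by field_simp; ring
      rw [e, abs_mul, abs_of_pos (by positivity)]
      apply mul_le_mul_of_nonneg_right _ (abs_nonneg _)
      refine le_trans ?_ hc16
      apply one_div_le_one_div_of_le (by norm_num)
      linarith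
  · have hform : ∀ x ∈ DD, fm N L J ((HP ^ (-((l : ℤ) + 1))) x) =
        -(7 / 8) + (HP⁻¹ ^ (l + 1)) x / 64 := by
      intro x hx
      have h1 : (HP ^ (-((l : ℤ) + 1))) x ∈ SS (-((l : ℤ) + 1)) := mem_SS_iff.2 ⟨x, hx, rfl⟩
      have h2 := SS_sub_V h1
      rw [fm_eq_FP hN L J, FP_mid h2.1.le (by linarith [h2.2]), neg_pow_app]
      intro j hj
      have := SS_disj _ _ _ h1 hj
      omega
    rw [hform x hx, hform y hy]
    have e : -(7 / 8) + (HP⁻¹ ^ (l + 1)) x / 64 - (-(7 / 8) + (HP⁻¹ ^ (l + 1)) y / 64) =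
        (1 / 64) * ((HP⁻¹ ^ (l + 1)) x - (HP⁻¹ ^ (l + 1)) y) := by ring
    rw [e, abs_mul, abs_of_pos (by norm_num)]
    have h3 := HP_inv_pow_lip (l + 1) (DD_bd hx).2 (DD_bd hy).2
    have := abs_nonneg (x - y)
    nlinarith

end

section conj

variable {ε : ℝ} {N : Perm ℝ} (hN : IsN ε N) (L : ℕ → ℕ)
  (hε : 0 < ε) {c : ℝ} (hc16 : 1 / 16 ≤ c) (hc1 : c < 1)
  (hL : ∀ j, (1 + ε) ^ (L j) / (64 * 2 ^ j) ≤ c)
include hN hε hc16 hc1 hL

lemma SS_bd {i : ℤ} {x : ℝ} (hx : x ∈ DD) : -4 ≤ (HP ^ i) x ∧ (HP ^ i) x ≤ 4 := by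
  have := SS_sub_V (mem_SS_iff.2 ⟨x, hx, rfl⟩ : (HP ^ i) x ∈ SS i)
  exact ⟨this.1.le, by linarith [this.2]⟩

/-- conjugacy on `D` -/
lemma conj_D (Ja Jb : ℕ) : ∃ ψ : Perm ℝ, (∀ y, y ∉ DD → ψ y = y) ∧
    (∀ (i : ℤ), ∀ x ∈ DD, ψ (fm N L Ja ((HP ^ i) x)) = fm N L Jb ((HP ^ i) (ψ x))) ∧
    (∀ y, (∀ (i : ℤ), ∀ x ∈ DD, fm N L Ja ((HP ^ i) x) ≠ y) → ψ y = y) := by
  classical
  have hmem : ∀ (J : ℕ) (i : ℤ) (x : DD), fm N L J ((HP ^ i) x) ∈ DD := by
    intro J i x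
    have := SS_bd hN L hε hc16 hc1 hL (i := i) x.2
    exact fm_mem_DD hN L J this.1 this.2
  haveI : CompleteSpace DD := (isClosed_Icc.isComplete).completeSpace_coe
  set F : ℤ → DD → DD := fun i x => ⟨fm N L Ja ((HP ^ i) x), hmem Ja i x⟩ with hF
  set G : ℤ → DD → DD := fun i x => ⟨fm N L Jb ((HP ^ i) x), hmem Jb i x⟩ with hG
  have hc0 : 0 ≤ c := by linarith
  have hdis : ∀ (J : ℕ) (i j : ℤ) (x y : DD),
      fm N L J ((HP ^ i) x) = fm N L J ((HP ^ j) y) → i = j := by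
    intro J i j x y hxy
    have h1 := (fm N L J).injective hxy
    have h2 : (HP ^ i) (x : ℝ) ∈ SS i := mem_SS_iff.2 ⟨x, x.2, rfl⟩
    have h3 : (HP ^ j) (y : ℝ) ∈ SS j := mem_SS_iff.2 ⟨y, y.2, rfl⟩
    rw [← h1] at h3
    exact SS_disj _ _ _ h2 h3
  have hinj : ∀ (J : ℕ) (i : ℤ) (x y : DD),
      fm N L J ((HP ^ i) x) = fm N L J ((HP ^ i) y) → x = y := by
    intro J i x y hxy
    have h1 := (fm N L J).injective hxy
    exact Subtype.ext ((HP ^ i).injective h1)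
  obtain ⟨ψ, h1, h2⟩ := ifs_conj (X := DD) (ι := ℤ) (F := F) (G := G) (K := 1) (c := c)
    (by
      intro x y
      rw [Subtype.dist_eq, Real.dist_eq, abs_le]
      obtain ⟨hx1, hx2⟩ := x.2
      obtain ⟨hy1, hy2⟩ := y.2
      constructor <;> linarith)
    hc0 hc1
    (fun i x y => by
      rw [Subtype.dist_eq, Subtype.dist_eq, Real.dist_eq, Real.dist_eq]
      exact fm_contract hN L hε hc16 hL Ja i x.2 y.2)
    (fun i x y => by
      rw [Subtype.dist_eq, Subtype.dist_eq, Real.dist_eq, Real.dist_eq]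
      exact fm_contract hN L hε hc16 hL Jb i x.2 y.2)
    (fun i x y hxy => hinj Ja i x y (congrArg Subtype.val hxy))
    (fun i x y hxy => hinj Jb i x y (congrArg Subtype.val hxy))
    (fun i j x y hxy => hdis Ja i j x y (congrArg Subtype.val hxy))
    (fun i j x y hxy => hdis Jb i j x y (congrArg Subtype.val hxy))
    (by
      intro i y
      have e1 := fm_range hN L Ja (i := i) (y := (y : ℝ))
      have e2 := fm_range hN L Jb (i := i) (y := (y : ℝ))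
      constructor
      · rintro ⟨x, hx⟩
        obtain ⟨x', hx', h⟩ := e2.2 (e1.1 ⟨x, x.2, congrArg Subtype.val hx⟩)
        exact ⟨⟨x', hx'⟩, Subtype.ext h⟩
      · rintro ⟨x, hx⟩
        obtain ⟨x', hx', h⟩ := e1.2 (e2.1 ⟨x, x.2, congrArg Subtype.val hx⟩)
        exact ⟨⟨x', hx'⟩, Subtype.ext h⟩)
  refine ⟨Perm.ofSubtype (p := fun y => y ∈ DD) ψ, ?_, ?_, ?_⟩
  · intro y hy
    exact Perm.ofSubtype_apply_of_not_mem ψ hy
  · intro i x hx
    have h3 : fm N L Ja ((HP ^ i) x) ∈ DD := hmem Ja i ⟨x, hx⟩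
    rw [Perm.ofSubtype_apply_of_mem ψ h3, Perm.ofSubtype_apply_of_mem ψ hx]
    exact congrArg Subtype.val (h1 i ⟨x, hx⟩)
  · intro y hy
    by_cases hyD : y ∈ DD
    · rw [Perm.ofSubtype_apply_of_mem ψ hyD]
      have := h2 ⟨y, hyD⟩ (fun i x hx => hy i x x.2 (congrArg Subtype.val hx))
      exact congrArg Subtype.val this
    · exact Perm.ofSubtype_apply_of_not_mem ψ hyD

/-- conjugacy of the models -/
theorem conj_models (Ja Jb : ℕ) : ∃ Ψ : Perm ℝ, (∀ y, Ψ (HP y) = HP (Ψ y)) ∧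
    (∀ y, Ψ (fm N L Ja y) = fm N L Jb (Ψ y)) ∧
    (∀ y ∈ Ioo (-(3 / 4) : ℝ) (-(1 / 2)), Ψ y = y) ∧ (∀ y, 5 ≤ |y| → Ψ y = y) := by
  obtain ⟨ψ, hψ1, hψ2, hψ3⟩ := conj_D hN L hε hc16 hc1 hL Ja Jb
  have hsup : ∀ (i : ℤ) y, y ∉ SS i → (HP ^ i * ψ * (HP ^ i)⁻¹ : Perm ℝ) y = y := by
    intro i y hy
    rw [Perm.mul_apply, Perm.mul_apply, hψ1 _ hy, app_inv]
  set Q : Perm ℝ := gluePerm SS (fun i => HP ^ i * ψ * (HP ^ i)⁻¹) SS_disj hsup with hQ
  have hQon : ∀ (i : ℤ), ∀ x ∈ DD, Q ((HP ^ i) x) = (HP ^ i) (ψ x) := by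
    intro i x hx
    have h1 : (HP ^ i) x ∈ SS i := mem_SS_iff.2 ⟨x, hx, rfl⟩
    rw [hQ, gluePerm_on h1, Perm.mul_apply, Perm.mul_apply, inv_app]
  have hQoff : ∀ y, (∀ i, y ∉ SS i) → Q y = y := fun y hy => gluePerm_off hy
  have hQoff' : ∀ y, (∀ i, y ∉ SS i) → Q⁻¹ y = y := fun y hy => gluePerm_inv_off hy
  have hψD : ∀ x ∈ DD, ψ x ∈ DD := fun x hx => mem_of_off hψ1 hx
  have hQD : ∀ x ∈ DD, Q x = ψ x := by
    intro x hx
    simpa using hQon 0 x hx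
  -- `Q` commutes with `H`
  have hQH : ∀ y, Q (HP y) = HP (Q y) := by
    intro y
    by_cases hy : ∃ i, y ∈ SS i
    · obtain ⟨i, hi⟩ := hy
      obtain ⟨x, hx, rfl⟩ := mem_SS_iff.1 hi
      have e : ∀ z : ℝ, HP ((HP ^ i) z) = (HP ^ (1 + i)) z := by
        intro z
        rw [zpow_add, zpow_one, Perm.mul_apply]
      rw [e, hQon _ x hx, hQon _ x hx, e]
    · push Not at hy
      have h2 : ∀ i, HP y ∉ SS i := by
        intro i hi
        apply hy (i - 1)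
        rw [mem_SS] at hi ⊢
        have : ((HP ^ (i - 1))⁻¹ : Perm ℝ) y = ((HP ^ i)⁻¹ : Perm ℝ) (HP y) := by
          rw [zpow_sub, zpow_one, mul_inv_rev, inv_inv, ← Perm.mul_apply]
          congr 1
          exact (((Commute.refl HP).zpow_right i).inv_right).eq
        rwa [this]
      rw [hQoff _ h2, hQoff _ hy]
  -- preservation of `V`
  have hQV : ∀ y ∈ Ioo (-4 : ℝ) 0, Q y ∈ Ioo (-4 : ℝ) 0 := by
    intro y hy
    exact mem_of_off (fun z hz => hQoff z fun i hi => hz (SS_sub_V hi)) hy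
  have hQV' : ∀ y ∈ Ioo (-4 : ℝ) 0, Q⁻¹ y ∈ Ioo (-4 : ℝ) 0 := by
    intro y hy
    exact mem_of_off (fun z hz => hQoff' z fun i hi => hz (SS_sub_V hi)) hy
  have hbd : ∀ y : ℝ, y ∈ Ioo (-4 : ℝ) 0 → -4 ≤ y ∧ y ≤ 4 :=
    fun y hy => ⟨hy.1.le, by linarith [hy.2]⟩
  have hfV : ∀ J, ∀ y ∈ Ioo (-4 : ℝ) 0, fm N L J y ∈ Ioo (-4 : ℝ) 0 := by
    intro J y hy
    have h1 := DD_bd (fm_mem_DD hN L J (hbd y hy).1 (hbd y hy).2)
    exact ⟨by linarith, by linarith⟩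
  -- values of `f` off the pieces
  have hfoff : ∀ y, (∀ i, y ∉ SS i) → ∀ (i : ℤ), ∀ x ∈ DD, fm N L Ja ((HP ^ i) x) ≠ FP y := by
    intro y hy i x hx hcon
    have := (fm_range hN L Ja).1 ⟨x, hx, hcon⟩
    rw [inv_app] at this
    exact hy i this
  -- the conjugacy on `V`
  have hQf : ∀ y ∈ Ioo (-4 : ℝ) 0, Q (fm N L Ja y) = fm N L Jb (Q y) := by
    intro y hy
    have hD := fm_mem_DD hN L Ja (hbd y hy).1 (hbd y hy).2
    rw [hQD _ hD]
    by_cases hyS : ∃ i, y ∈ SS i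
    · obtain ⟨i, hi⟩ := hyS
      obtain ⟨x, hx, rfl⟩ := mem_SS_iff.1 hi
      rw [hQon i x hx, hψ2 i x hx]
    · push Not at hyS
      rw [hQoff _ hyS, fm_eq_FP hN L Ja (fun j => hyS j), fm_eq_FP hN L Jb (fun j => hyS j)]
      exact hψ3 _ (hfoff y hyS)
  have hfmFP : ∀ J, ∀ y, y ∉ Ioo (-4 : ℝ) 0 → fm N L J y = FP y :=
    fun J y hy => fm_eq_FP hN L J fun j hj => hy (SS_sub_V hj)
  -- absorption
  have habs : ∀ J, ∀ y, |y| < 5 → ∃ n : ℕ, (fm N L J ^ n) y ∈ Ioo (-4 : ℝ) 0 := by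
    intro J y hy
    by_contra hcon
    push Not at hcon
    have h1 : ∀ n : ℕ, (fm N L J ^ n) y = (FP ^ n) y := by
      intro n
      induction n with
      | zero => simp
      | succ n ih =>
        rw [pow_succ', Perm.mul_apply, hfmFP J _ (hcon n), ih, pow_succ' FP, Perm.mul_apply]
    obtain ⟨n, hn⟩ := FP_absorb hy
    rw [← h1] at hn
    exact hcon n hn
  have hnabs : ∀ J, ∀ y, 5 ≤ |y| → ∀ n : ℕ, (fm N L J ^ n) y ∉ Ioo (-4 : ℝ) 0 := by
    intro J y hy n hn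
    rw [fix_pow ((fm_isD hN L J).off y hy)] at hn
    rcases le_abs.1 hy with h | h
    · linarith [hn.2]
    · linarith [hn.1]
  obtain ⟨Ψ, hΨf, hΨV, hΨoff⟩ := exists_extend (fa := fm N L Ja) (fb := fm N L Jb) (ψ := Q)
    (V := Ioo (-4 : ℝ) 0) (hfV Ja) (hfV Jb) hQf hQV hQV'
    (by
      intro y
      rcases lt_or_ge |y| 5 with h | h
      · exact ⟨fun _ => habs Jb y h, fun _ => habs Ja y h⟩
      · constructor
        · rintro ⟨n, hn⟩; exact absurd hn (hnabs Ja y h n)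
        · rintro ⟨n, hn⟩; exact absurd hn (hnabs Jb y h n))
    (by
      intro y hy
      rcases lt_or_ge |y| 5 with h | h
      · obtain ⟨n, hn⟩ := habs Ja y h
        exact absurd hn (hy n)
      · rw [(fm_isD hN L Ja).off y h, (fm_isD hN L Jb).off y h])
  -- `Ψ` is the identity on `[0,4]`
  have hΨ04 : ∀ y, 0 ≤ y → y ≤ 4 → Ψ y = y := by
    intro y h0 h4
    have hyV : y ∉ Ioo (-4 : ℝ) 0 := fun h => by linarith [h.2]
    have hyS : ∀ i, y ∉ SS i := fun i hi => hyV (SS_sub_V hi)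
    have h1 : fm N L Ja y ∈ DD := fm_mem_DD hN L Ja (by linarith) h4
    have h2 : Ψ (fm N L Ja y) = fm N L Ja y := by
      have h3 := DD_bd h1
      rw [hΨV _ ⟨by linarith, by linarith⟩, hQD _ h1]
      rw [hfmFP Ja y hyV]
      exact hψ3 _ (hfoff y hyS)
    rw [hΨf y, hfmFP Ja y hyV, ← hfmFP Jb y hyV] at h2
    exact (fm N L Jb).injective h2
  refine ⟨Ψ, ?_, hΨf, ?_, fun y hy => hΨoff y (hnabs Ja y hy)⟩
  · intro y
    by_cases hyV : y ∈ Ioo (-4 : ℝ) 0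
    · have h1 : HP y ∈ Ioo (-4 : ℝ) 0 := by
        have h0 : HP 0 = 0 := by rw [HP_mid (by norm_num) (by norm_num)]; norm_num
        have h4 : HP (-4) = -4 := HP_off (by norm_num)
        constructor
        · rw [← h4]; exact HP_mono hyV.1
        · have := HP_mono hyV.2
          rwa [h0] at this
      rw [hΨV _ hyV, hΨV _ h1, hQH]
    · by_cases hy4 : 0 ≤ y ∧ y ≤ 4
      · have h0 : HP 0 = 0 := by rw [HP_mid (by norm_num) (by norm_num)]; norm_num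
        have h4 : HP 4 = 4 := HP_off (by norm_num)
        have h5 : 0 ≤ HP y := by
          have := HP_mono.monotone hy4.1
          rwa [h0] at this
        have h6 : HP y ≤ 4 := by
          have := HP_mono.monotone hy4.2
          rwa [h4] at this
        rw [hΨ04 _ h5 h6, hΨ04 _ hy4.1 hy4.2]
      · have hy : 4 ≤ |y| := by
          rw [le_abs]
          by_contra hc
          push Not at hc
          rcases lt_or_ge y 0 with h | h
          · exact hyV ⟨by linarith [hc.2], h⟩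
          · exact hy4 ⟨h, hc.1.le⟩
        have h1 : HP y = y := HP_off hy
        have h2 : 4 ≤ |Ψ y| := by
          rw [le_abs]
          by_contra hc
          push Not at hc
          rcases lt_or_ge (Ψ y) 0 with h | h
          · have hVy : Ψ y ∈ Ioo (-4 : ℝ) 0 := ⟨by linarith [hc.2], h⟩
            have h3 : Ψ (Q⁻¹ (Ψ y)) = Ψ y := by
              rw [hΨV _ (hQV' _ hVy), app_inv]
            have h4 := Ψ.injective h3
            rw [← h4] at hyV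
            exact hyV (hQV' _ hVy)
          · have h3 := hΨ04 (Ψ y) h hc.1.le
            have h4 := Ψ.injective h3
            rw [h4] at h hc
            exact hy4 ⟨h, hc.1.le⟩
        rw [h1, HP_off h2]
  · intro y hy
    have hyV : y ∈ Ioo (-4 : ℝ) 0 := ⟨by linarith [hy.1], by linarith [hy.2]⟩
    rw [hΨV _ hyV]
    apply hQoff
    intro i hi
    rcases int_cases i with ⟨j, rfl⟩ | ⟨l, rfl⟩
    · rw [mem_SS_nat] at hi
      rcases j with _ | j
      · have := hi.2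
        simp only [pow_zero, one_mul] at this
        linarith [hy.1]
      · have h2 : (1:ℝ) ≤ 2 ^ j := one_le_pow₀ (by norm_num)
        have := hi.1
        rw [pow_succ] at this
        nlinarith [hy.2]
    · have := SS_neg_le hi
      linarith [hy.1]

end conj

end

end Pool.Agent.Work.MP_4516ee_al
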