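import Mathlib
import Pool.Agent.Work.MP_4516ee_al.Aff
import Pool.Agent.Work.MP_4516ee_al.Rel
import Pool.Agent.Work.MP_4516ee_al.Model
import Pool.Agent.Work.MP_4516ee_al.GMap

/-! The group elements of the models, relations, smoothness. -/

open Set Equiv
open scoped ContDiff

namespace Pool.Agent.Work.MP_4516ee_al

noncomputable section

/-- the support of `s` and `h` -/
def JJ : Set ℝ := Ioo (-(3 / 4)) (-(1 / 2))

lemma Bm_mul (N N' : Perm ℝ) (c r : ℝ) (hr : r ≠ 0) :
    Bm N c r hr * Bm N' c r hr = Bm (N * N') c r hr := by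
  ext y
  rw [Perm.mul_apply, Bm_apply, Bm_apply, Bm_apply, Perm.mul_apply]
  congr 3
  field_simp
  ring

lemma Bm_one (c r : ℝ) (hr : r ≠ 0) : Bm 1 c r hr = 1 := by
  ext y
  rw [Bm_apply, Perm.one_apply, Perm.one_apply]
  field_simp
  ring

/-- the affine group acting on `J₀` -/
def KK (b c : ℝ) : Perm ℝ := Bm (affP b c) (-(5 / 8)) (1 / 8) (by norm_num)

lemma KK_mul (b c b' c' : ℝ) : KK b c * KK b' c' = KK (b + b') (Real.exp b * c' + c) := by
  rw [KK, KK, Bm_mul, affP_mul]; rfl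

lemma KK_zero : KK 0 0 = 1 := by
  rw [KK, affP_zero, Bm_one]

lemma KK_inv (b c : ℝ) : (KK b c)⁻¹ = KK (-b) (-(Real.exp (-b) * c)) := by
  rw [inv_eq_iff_mul_eq_one, KK_mul]
  have : Real.exp b * -(Real.exp (-b) * c) + c = 0 := by
    rw [Real.exp_neg]
    have := (Real.exp_pos b).ne'
    field_simp
    ring
  rw [this, add_neg_cancel, KK_zero]

lemma KK_off {b c y : ℝ} (hy : y ∉ JJ) : KK b c y = y := by
  rw [KK, Bm_apply, affP_apply, affF_ge]
  · ring
  · by_contra hc
    push Not at hc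
    rw [abs_lt] at hc
    apply hy
    constructor <;> linarith [hc.1, hc.2]

lemma KK_contDiff : ContDiff ℝ ∞ (fun p : ℝ × ℝ × ℝ => KK p.1 p.2.1 p.2.2) := by
  change ContDiff ℝ ∞ (fun p : ℝ × ℝ × ℝ =>
    -(5 / 8) + (1 / 8) * affF p.1 p.2.1 ((p.2.2 - -(5 / 8)) / (1 / 8)))
  apply contDiff_const.add
  apply contDiff_const.mul
  have h1 : ContDiff ℝ ∞ (fun p : ℝ × ℝ × ℝ => (p.1, p.2.1, (p.2.2 - -(5 / 8)) / (1 / 8))) := by
    fun_prop
  exact ContDiff.comp (g := fun p : ℝ × ℝ × ℝ => affF p.1 p.2.1 p.2.2) affF_contDiff h1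

lemma KK_contDiff' (b c : ℝ) : ContDiff ℝ ∞ (KK b c) := by
  have h1 : ContDiff ℝ ∞ (fun y : ℝ => ((b, c, y) : ℝ × ℝ × ℝ)) :=
    contDiff_const.prodMk (contDiff_const.prodMk contDiff_id)
  have h2 := KK_contDiff.comp h1
  have h3 : ⇑(KK b c) = (fun p : ℝ × ℝ × ℝ => KK p.1 p.2.1 p.2.2) ∘
      (fun y : ℝ => ((b, c, y) : ℝ × ℝ × ℝ)) := by
    funext y
    simp only [Function.comp]
  rw [h3]
  exact h2

lemma KK_isD (b c : ℝ) : IsD ⊤ (KK b c) where
  c := KK_contDiff' b c
  ci := by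
    rw [KK_inv]
    exact KK_contDiff' _ _
  off y hy := by
    apply KK_off
    intro h
    rcases le_abs.1 hy with h1 | h1
    · linarith [h.2]
    · linarith [h.1]

/-- the element `s` -/
def sP : Perm ℝ := KK (Real.log 2) 0

/-- the translations -/
def hP (t : ℝ) : Perm ℝ := KK 0 t

lemma hP_mul (t u : ℝ) : hP t * hP u = hP (t + u) := by
  rw [hP, hP, KK_mul, Real.exp_zero, one_mul, add_zero, add_comm]; rfl

lemma hP_zero : hP 0 = 1 := KK_zero

lemma hP_inv (t : ℝ) : (hP t)⁻¹ = hP (-t) := by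
  rw [inv_eq_iff_mul_eq_one, hP_mul, add_neg_cancel, hP_zero]

lemma s_conj (t : ℝ) : sP * hP t * sP⁻¹ = hP (2 * t) := by
  rw [mul_inv_eq_iff_eq_mul, sP, hP, hP, KK_mul, KK_mul, Real.exp_log two_pos, Real.exp_zero]
  congr 1 <;> ring

lemma s_conj_pow (m : ℕ) (t : ℝ) : (sP ^ m)⁻¹ * hP t * sP ^ m = hP ((1 / 2) ^ m * t) := by
  induction m with
  | zero => simp
  | succ m ih =>
    have h1 : (sP ^ (m + 1))⁻¹ * hP t * sP ^ (m + 1) =
        sP⁻¹ * ((sP ^ m)⁻¹ * hP t * sP ^ m) * sP := by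
      rw [pow_succ sP m]; group
    rw [h1, ih]
    have h2 : hP ((1 / 2) ^ m * t) = sP * hP ((1 / 2) ^ (m + 1) * t) * sP⁻¹ := by
      rw [s_conj]
      congr 1
      rw [pow_succ]; ring
    rw [h2]; group

lemma hP_one_ne : hP 1 ≠ 1 := by
  intro h
  have h1 : hP 1 (-(5 / 8)) = -(5 / 8) := by rw [h]; rfl
  rw [hP, KK, Bm_apply, affP_apply] at h1
  have e : (-(5 / 8) - -(5 / 8)) / (1 / 8 : ℝ) = 0 := by norm_num
  rw [e, affF_lt (by norm_num), Real.exp_zero, one_mul] at h1
  have h2 : Psi (Phi 0 + 1) = 0 := by linarith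
  have h3 := congrArg Phi h2
  rw [Phi_Psi] at h3
  linarith

lemma hP_off {t y : ℝ} (hy : y ∉ JJ) : hP t y = y := KK_off hy

lemma sP_off {y : ℝ} (hy : y ∉ JJ) : sP y = y := KK_off hy

lemma JJ_bd {y : ℝ} (hy : y ∈ JJ) : -(3 / 4) < y ∧ y < -(1 / 2) := hy

lemma JJ_V {y : ℝ} (hy : y ∈ JJ) : y ∈ Ioo (-4 : ℝ) 0 :=
  ⟨by linarith [hy.1], by linarith [hy.2]⟩

lemma JJ_SS {y : ℝ} (hy : y ∈ JJ) (i : ℤ) : y ∉ SS i := by
  intro hi
  rcases int_cases i with ⟨j, rfl⟩ | ⟨l, rfl⟩
  · rw [mem_SS_nat] at hi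
    rcases j with _ | j
    · have := hi.2
      simp only [pow_zero, one_mul] at this
      linarith [hy.1]
    · have h2 : (1:ℝ) ≤ 2 ^ j := one_le_pow₀ (by norm_num)
      have := hi.1
      rw [pow_succ] at this
      nlinarith [hy.2]
  · have := SS_neg_le hi
    linarith [hy.1]

lemma DD_SS {y : ℝ} (hy : y ∈ DD) : y ∈ SS 0 := by
  rw [mem_SS]
  simpa using hy

/-- properties of `f` used for the relations -/
structure FOK (f : Perm ℝ) : Prop where
  d : IsD ⊤ f
  m : ∀ y, -4 ≤ y → y ≤ 4 → f y ∈ DD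

section rels

variable {f : Perm ℝ} (hf : FOK f)

/-- the contracting element -/
def TP (f : Perm ℝ) (i : ℕ) : Perm ℝ := HP ^ (i + 1) * f

/-- the conjugators -/
def AP (f : Perm ℝ) (i M n : ℕ) : Perm ℝ := TP f i ^ n * f ^ M

/-- the supports -/
def SP (f : Perm ℝ) (i M n : ℕ) : Set ℝ := {y | (AP f i M n)⁻¹ y ∈ JJ}

lemma mem_SP {i M n : ℕ} {y : ℝ} : y ∈ SP f i M n ↔ (AP f i M n)⁻¹ y ∈ JJ := Iff.rfl

include hf

lemma f_V {y : ℝ} (hy : y ∈ Ioo (-4 : ℝ) 0) : f y ∈ Ioo (-4 : ℝ) 0 := by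
  have := DD_bd (hf.m y hy.1.le (by linarith [hy.2]))
  exact ⟨by linarith, by linarith⟩

lemma f_pow_V (M : ℕ) {y : ℝ} (hy : y ∈ Ioo (-4 : ℝ) 0) : (f ^ M) y ∈ Ioo (-4 : ℝ) 0 := by
  induction M with
  | zero => simpa using hy
  | succ M ih =>
    rw [pow_succ', Perm.mul_apply]
    exact f_V hf ih

lemma f_pow_DD (M : ℕ) {y : ℝ} (hy : y ∈ Ioo (-4 : ℝ) 0) : (f ^ (M + 1)) y ∈ DD := by
  rw [pow_succ', Perm.mul_apply]
  have := f_pow_V hf M hy
  exact hf.m _ this.1.le (by linarith [this.2])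

lemma T_SS (i : ℕ) {y : ℝ} (hy : y ∈ Ioo (-4 : ℝ) 0) : TP f i y ∈ SS ((i + 1 : ℕ) : ℤ) := by
  rw [mem_SS_iff]
  refine ⟨f y, hf.m y hy.1.le (by linarith [hy.2]), ?_⟩
  rw [zpow_natCast]
  rfl

lemma T_pow_V (i n : ℕ) {y : ℝ} (hy : y ∈ Ioo (-4 : ℝ) 0) : (TP f i ^ n) y ∈ Ioo (-4 : ℝ) 0 := by
  induction n with
  | zero => simpa using hy
  | succ n ih =>
    rw [pow_succ', Perm.mul_apply]
    exact SS_sub_V (T_SS hf i ih)

lemma SP_disj (i M : ℕ) (n m : ℕ) (y : ℝ) (hn : y ∈ SP f i M n) (hm : y ∈ SP f i M m) :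
    n = m := by
  have key : ∀ n m : ℕ, y ∈ SP f i M n → y ∈ SP f i M m → ¬ n < m := by
    intro n m hn hm hnm
    obtain ⟨l, rfl⟩ : ∃ l, m = n + (l + 1) := ⟨m - n - 1, by omega⟩
    rw [mem_SP] at hn hm
    set x := (AP f i M n)⁻¹ y with hx
    set x' := (AP f i M (n + (l + 1)))⁻¹ y with hx'
    have h1 : AP f i M n x = y := app_inv _ _
    have h2 : AP f i M (n + (l + 1)) x' = y := app_inv _ _
    have h3 : (f ^ M) x = (TP f i ^ (l + 1)) ((f ^ M) x') := by
      apply (TP f i ^ n).injective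
      have e1 : (TP f i ^ n) ((f ^ M) x) = y := h1
      have e2 : (TP f i ^ n) ((TP f i ^ (l + 1)) ((f ^ M) x')) = y := by
        rw [← Perm.mul_apply, ← pow_add]
        exact h2
      rw [e1, e2]
    have h4 : (f ^ M) x ∈ SS ((i + 1 : ℕ) : ℤ) := by
      rw [h3, pow_succ', Perm.mul_apply]
      exact T_SS hf i (T_pow_V hf i l (f_pow_V hf M (JJ_V hm)))
    rcases M with _ | M
    · rw [pow_zero, Perm.one_apply] at h4
      exact JJ_SS hn _ h4
    · have h5 := DD_SS (f_pow_DD hf M (JJ_V hn))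
      have := SS_disj _ _ _ h4 h5
      omega
  rcases lt_trichotomy n m with h | h | h
  · exact absurd h (key n m hn hm)
  · exact h
  · exact absurd h (key m n hm hn)

omit hf in
/-- the building blocks of `g` -/
def PP' (f : Perm ℝ) (i M : ℕ) (t : ℕ → ℝ) (n : ℕ) : Perm ℝ :=
  AP f i M n * hP (t n) * (AP f i M n)⁻¹

omit hf in
lemma PP'_off (i M : ℕ) (t : ℕ → ℝ) (n : ℕ) (y : ℝ) (hy : y ∉ SP f i M n) :
    PP' f i M t n y = y := by
  rw [PP', Perm.mul_apply, Perm.mul_apply, hP_off hy, app_inv]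

omit hf in
/-- the exponents -/
def tt (i n : ℕ) : ℝ := (1 / 2) ^ (n * (i + 1) ^ 2)

/-- the elements `g` -/
def gP (i M : ℕ) : Perm ℝ :=
  gluePerm (SP f i M) (PP' f i M (tt i)) (SP_disj hf i M) (PP'_off i M (tt i))

lemma gP_on {i M n : ℕ} {y : ℝ} (hy : y ∈ SP f i M n) : gP hf i M y = PP' f i M (tt i) n y :=
  gluePerm_on hy

/-- The relations hold in all models. -/
theorem rel_model : Rel sP (hP 1) HP f (gP hf) where
  r1 := by
    rw [s_conj, pow_two, hP_mul]; norm_num
  r2s := by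
    apply Perm.Disjoint.commute
    intro y
    by_cases hy : y ∈ JJ
    · left
      have : (HP⁻¹ : Perm ℝ) y ∉ JJ := by
        intro h
        have := HP_inv_half (JJ_bd hy).2.le
        linarith [h.1]
      rw [Perm.mul_apply, Perm.mul_apply, hP_off this, app_inv]
    · right
      exact sP_off hy
  r2h := by
    apply Perm.Disjoint.commute
    intro y
    by_cases hy : y ∈ JJ
    · left
      have : (HP⁻¹ : Perm ℝ) y ∉ JJ := by
        intro h
        have := HP_inv_half (JJ_bd hy).2.le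
        linarith [h.1]
      rw [Perm.mul_apply, Perm.mul_apply, hP_off this, app_inv]
    · right
      exact hP_off hy
  r6 := by
    have hoff : ∀ y, y ∉ DD → (f * HP * f⁻¹) y = y := by
      intro y hy
      have h1 : 4 ≤ |f⁻¹ y| := by
        by_contra hc
        push Not at hc
        rw [abs_lt] at hc
        have := hf.m _ hc.1.le hc.2.le
        rw [app_inv] at this
        exact hy this
      rw [Perm.mul_apply, Perm.mul_apply, HP_off h1, app_inv]
    apply Perm.Disjoint.commute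
    intro y
    by_cases hy : y ∈ DD
    · left
      have : (HP⁻¹ : Perm ℝ) y ∉ DD := by
        intro h
        have := HP_inv_half (DD_bd hy).2
        have := h.1
        linarith
      rw [Perm.mul_apply, Perm.mul_apply, hoff _ this, app_inv]
    · right
      exact hoff y hy
  r6s := by
    intro n
    have hoff : ∀ y, y ∉ DD → (f * HP * f⁻¹) y = y := by
      intro y hy
      have h1 : 4 ≤ |f⁻¹ y| := by
        by_contra hc
        push Not at hc
        rw [abs_lt] at hc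
        have := hf.m _ hc.1.le hc.2.le
        rw [app_inv] at this
        exact hy this
      rw [Perm.mul_apply, Perm.mul_apply, HP_off h1, app_inv]
    apply Perm.Disjoint.commute
    intro y
    by_cases hy : y ∈ DD
    · left
      have : (HP⁻¹ : Perm ℝ) y ∉ DD := by
        intro h
        have := HP_inv_half (DD_bd hy).2
        have := h.1
        linarith
      rw [Perm.mul_apply, Perm.mul_apply, hoff _ this, app_inv]
    · right
      have h1 : ((f ^ (n + 1))⁻¹ : Perm ℝ) y ∉ JJ := by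
        intro h
        have := f_pow_DD hf n (JJ_V h)
        rw [app_inv] at this
        exact hy this
      rw [Perm.mul_apply, Perm.mul_apply, sP_off h1, app_inv]
  r6h := by
    intro n
    have hoff : ∀ y, y ∉ DD → (f * HP * f⁻¹) y = y := by
      intro y hy
      have h1 : 4 ≤ |f⁻¹ y| := by
        by_contra hc
        push Not at hc
        rw [abs_lt] at hc
        have := hf.m _ hc.1.le hc.2.le
        rw [app_inv] at this
        exact hy this
      rw [Perm.mul_apply, Perm.mul_apply, HP_off h1, app_inv]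
    apply Perm.Disjoint.commute
    intro y
    by_cases hy : y ∈ DD
    · left
      have : (HP⁻¹ : Perm ℝ) y ∉ DD := by
        intro h
        have := HP_inv_half (DD_bd hy).2
        have := h.1
        linarith
      rw [Perm.mul_apply, Perm.mul_apply, hoff _ this, app_inv]
    · right
      have h1 : ((f ^ (n + 1))⁻¹ : Perm ℝ) y ∉ JJ := by
        intro h
        have := f_pow_DD hf n (JJ_V h)
        rw [app_inv] at this
        exact hy this
      rw [Perm.mul_apply, Perm.mul_apply, hP_off h1, app_inv]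
  r7s := by
    intro i M n A hA
    have hA' : A = AP f i M n := hA
    subst hA'
    rw [s_conj_pow, mul_one]
    apply Perm.Disjoint.commute
    intro y
    by_cases hy : y ∈ SP f i M n
    · left
      have h1 : (PP' f i M (tt i) n)⁻¹ y ∈ SP f i M n :=
        mem_of_off (inv_off (PP'_off i M (tt i) n)) hy
      rw [Perm.mul_apply]
      have h2 := gP_on hf h1
      rw [app_inv] at h2
      exact h2
    · right
      have h1 : (AP f i M n)⁻¹ y ∉ JJ := hy
      rw [Perm.mul_apply, Perm.mul_apply, sP_off h1, app_inv]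
  r7h := by
    intro i M n A hA
    have hA' : A = AP f i M n := hA
    subst hA'
    rw [s_conj_pow, mul_one]
    apply Perm.Disjoint.commute
    intro y
    by_cases hy : y ∈ SP f i M n
    · left
      have h1 : (PP' f i M (tt i) n)⁻¹ y ∈ SP f i M n :=
        mem_of_off (inv_off (PP'_off i M (tt i) n)) hy
      rw [Perm.mul_apply]
      have h2 := gP_on hf h1
      rw [app_inv] at h2
      exact h2
    · right
      have h1 : (AP f i M n)⁻¹ y ∉ JJ := hy
      rw [Perm.mul_apply, Perm.mul_apply, hP_off h1, app_inv]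

end rels

end

end Pool.Agent.Work.MP_4516ee_al
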