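import Mathlib
import Pool.Agent.Work.MP_4516ee_al.Assembly

/-! Smoothness of `g` in the models. -/

open Set Equiv
open scoped ContDiff

namespace Pool.Agent.Work.MP_4516ee_al

noncomputable section

lemma hP_joint : ContDiff ℝ ∞ (fun p : ℝ × ℝ => hP p.1 p.2) := by
  have h1 : ContDiff ℝ ∞ (fun p : ℝ × ℝ => (((0 : ℝ), p.1, p.2) : ℝ × ℝ × ℝ)) :=
    contDiff_const.prodMk (contDiff_fst.prodMk contDiff_snd)
  have h2 := KK_contDiff.comp h1
  have h3 : (fun p : ℝ × ℝ => hP p.1 p.2) = (fun p : ℝ × ℝ × ℝ => KK p.1 p.2.1 p.2.2) ∘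
      (fun p : ℝ × ℝ => (((0 : ℝ), p.1, p.2) : ℝ × ℝ × ℝ)) := by
    funext p
    simp only [Function.comp, hP]
  rw [h3]
  exact h2

lemma HP_DG : HP ∈ DG ⊤ := HP_isD

lemma AP_isD {f : Perm ℝ} (hf : FOK f) (i M n : ℕ) : IsD ⊤ (AP f i M n) := by
  have h1 : f ∈ DG ⊤ := hf.d
  exact mul_mem (pow_mem (mul_mem (pow_mem HP_DG _) h1) _) (pow_mem h1 _)

lemma tt_abs (i n : ℕ) : |tt i n| ≤ 1 := by
  unfold tt
  rw [abs_of_pos (by positivity)]
  exact pow_le_one₀ (by norm_num) (by norm_num)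

lemma tt_bound (i n₀ m : ℕ) : |tt i (n₀ + m)| ≤ ((1 / 2 : ℝ) ^ ((i + 1) ^ 2)) ^ m := by
  unfold tt
  rw [abs_of_pos (by positivity), ← pow_mul]
  apply pow_le_pow_of_le_one (by norm_num) (by norm_num)
  rw [mul_comm]
  exact Nat.mul_le_mul_right _ (Nat.le_add_left m n₀)

/-- smoothness of `g` from an eventually linear orbit -/
lemma gP_isD {f : Perm ℝ} (hf : FOK f) (i M : ℕ) {n₀ : ℕ} {p lam : ℝ} (hlam0 : 0 < lam)
    (hlam1 : lam < 1)
    (hlin : ∀ m, ∀ y ∈ JJ, AP f i M (n₀ + m) y = p + lam ^ m * (AP f i M n₀ y - p))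
    (k : ℕ) (hqk : (1 / 2 : ℝ) ^ ((i + 1) ^ 2) < lam ^ k) : IsD k (gP hf i M) := by
  have h0 : ∀ y, hP 0 y = y := by
    intro y
    rw [hP_zero]; rfl
  refine ⟨?_, ?_, ?_⟩
  · exact glue_contDiff hP_joint h0 (l := -(3 / 4)) (r := -(1 / 2)) (by norm_num) (by norm_num)
      (fun t y hy => hP_off hy) (AP f i M) (AP_isD hf i M) (SP f i M) (fun n y => Iff.rfl)
      (SP_disj hf i M) hlam0 hlam1 hlin (tt i) (tt_abs i) (by positivity) (tt_bound i n₀) k hqk
  · have h1 := glue_contDiff hP_joint h0 (l := -(3 / 4)) (r := -(1 / 2)) (by norm_num)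
      (by norm_num)
      (fun t y hy => hP_off hy) (AP f i M) (AP_isD hf i M) (SP f i M) (fun n y => Iff.rfl)
      (SP_disj hf i M) hlam0 hlam1 hlin (fun n => -tt i n)
      (fun n => by rw [abs_neg]; exact tt_abs i n) (q := (1 / 2 : ℝ) ^ ((i + 1) ^ 2))
      (by positivity) (fun m => by rw [abs_neg]; exact tt_bound i n₀ m) k hqk
    have h2 : ⇑((gP hf i M)⁻¹ : Perm ℝ) = glue (SP f i M)
        (fun n => AP f i M n * hP (-tt i n) * (AP f i M n)⁻¹) := by
      have h3 : (fun n => AP f i M n * hP (-tt i n) * (AP f i M n)⁻¹) =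
          fun n => (PP' f i M (tt i) n)⁻¹ := by
        funext n
        rw [PP', mul_inv_rev, mul_inv_rev, inv_inv, hP_inv, mul_assoc]
      rw [h3]
      rfl
    rw [h2]
    exact h1
  · intro y hy
    apply gluePerm_off
    intro n hn
    rw [mem_SP, fix_inv ((AP_isD hf i M n).off y hy)] at hn
    rcases le_abs.1 hy with h | h
    · linarith [hn.2]
    · linarith [hn.1]

section

variable {ε : ℝ} {N : Perm ℝ} (hN : IsN ε N) (L : ℕ → ℕ)

include hN in
lemma fm_FOK (J : ℕ) : FOK (fm N L J) := ⟨fm_isD hN L J, fun _ h1 h2 => fm_mem_DD hN L J h1 h2⟩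

variable (hε : 0 < ε) {c : ℝ} (hc16 : 1 / 16 ≤ c) (hc1 : c < 1)
  (hL : ∀ j, (1 + ε) ^ (L j) / (64 * 2 ^ j) ≤ c)
include hN hε hc16 hc1 hL

lemma cc_DD (j : ℕ) : cc j ∈ DD := by
  have := cc_lower j
  have := cc_upper j
  constructor <;> linarith

/-- the multiplier -/
lemma fm_linear (J j : ℕ) : ∃ lam ρ : ℝ, 0 < ρ ∧
    lam = (if j < J then (1 + ε) ^ (L j) / (64 * 2 ^ j) else 1 / (64 * 2 ^ j)) ∧
    ∀ x ∈ DD, |x - cc j| ≤ ρ → fm N L J ((HP ^ (j : ℤ)) x) = cc j + lam * (x - cc j) := by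
  refine ⟨_, 1 / (64 * (1 + ε) ^ (L j)), by positivity, rfl, ?_⟩
  intro x hx hxρ
  rw [HP_zpow_nat j hx]
  split_ifs with hj
  · rw [fm_formula hN L hj hx, hN.pow_lin hε]
    · unfold rr; field_simp; ring
    · rw [abs_mul, abs_of_pos (by norm_num : (0:ℝ) < 32)]
      rw [le_div_iff₀ (by positivity)] at hxρ
      linarith
  · have h2 : (1:ℝ) ≤ 2 ^ j := one_le_pow₀ (by norm_num)
    have h3 := DD_bd hx
    have h4 : -1 ≤ x / 2 ^ j := by rw [le_div_iff₀ (by positivity)]; linarith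
    have h5 : x / 2 ^ j ≤ 0 := by rw [div_le_iff₀ (by positivity)]; linarith
    have h6 : x / 2 ^ j ∈ SS j := by
      rw [mem_SS_nat, mul_div_cancel₀ _ (by positivity)]
      exact hx
    rw [fm_apply, MM_off hN L J]
    · rw [FP_mid (by linarith) (by linarith)]
      have h7 := cc_eq j
      have h8 : -(7 / 8) = cc j - cc j / (64 * 2 ^ j) := by linarith
      rw [h8]
      field_simp
      ring
    · intro i hi hci
      have := SS_disj _ _ _ (FP_mem_TT.1 hci) h6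
      omega

/-- orbits become linear -/
lemma orbit_linear (J i M : ℕ) : ∃ (n₀ : ℕ) (p : ℝ), ∀ lam : ℝ,
    lam = (if i + 1 < J then (1 + ε) ^ (L (i + 1)) / (64 * 2 ^ (i + 1)) else
      1 / (64 * 2 ^ (i + 1))) →
    ∀ m, ∀ y ∈ JJ, AP (fm N L J) i M (n₀ + m) y = p + lam ^ m * (AP (fm N L J) i M n₀ y - p) := by
  obtain ⟨lam', ρ, hρ, hlam', hlin⟩ := fm_linear hN L hε hc16 hc1 hL J (i + 1)
  have hf := fm_FOK hN L J
  have hc0 : 0 ≤ c := by linarith
  obtain ⟨n₁, hn₁⟩ := exists_pow_lt_of_lt_one hρ hc1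
  refine ⟨n₁ + 1, cc (i + 1) / 2 ^ (i + 1), ?_⟩
  intro lam hlam
  rw [← hlam'] at hlam
  subst hlam
  intro m y hy
  set f := fm N L J with hfdef
  set z : ℕ → ℝ := fun n => f ((TP f i ^ n) ((f ^ M) y)) with hz
  have hzD : ∀ n, z n ∈ DD := by
    intro n
    have := T_pow_V hf i n (f_pow_V hf M (JJ_V hy))
    exact hf.m _ this.1.le (by linarith [this.2])
  have hA : ∀ n, AP f i M (n + 1) y = (HP ^ ((i + 1 : ℕ) : ℤ)) (z n) := by
    intro n
    rw [zpow_natCast, AP, Perm.mul_apply, pow_succ' (TP f i), Perm.mul_apply]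
    rfl
  have hzs : ∀ n, z (n + 1) = f ((HP ^ ((i + 1 : ℕ) : ℤ)) (z n)) := by
    intro n
    rw [← hA]
    rfl
  have hfc : f ((HP ^ ((i + 1 : ℕ) : ℤ)) (cc (i + 1))) = cc (i + 1) := by
    rw [hlin _ (cc_DD hN L hε hc16 hc1 hL _) (by rw [sub_self, abs_zero]; exact hρ.le)]
    ring
  have hclose : ∀ n, |z n - cc (i + 1)| ≤ c ^ n := by
    intro n
    induction n with
    | zero =>
      rw [pow_zero, abs_le]
      obtain ⟨h1, h2⟩ := hzD 0
      obtain ⟨h3, h4⟩ := cc_DD hN L hε hc16 hc1 hL (i + 1)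
      constructor <;> linarith
    | succ n ih =>
      have h1 := fm_contract hN L hε hc16 hL J ((i + 1 : ℕ) : ℤ) (hzD n)
        (cc_DD hN L hε hc16 hc1 hL (i + 1))
      rw [← hfdef, ← hzs, hfc] at h1
      calc |z (n + 1) - cc (i + 1)| ≤ c * |z n - cc (i + 1)| := h1
        _ ≤ c * c ^ n := mul_le_mul_of_nonneg_left ih hc0
        _ = c ^ (n + 1) := by ring
  have hzlin : ∀ m, z (n₁ + m) = cc (i + 1) + lam ^ m * (z n₁ - cc (i + 1)) := by
    intro m
    induction m with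
    | zero => simp
    | succ m ih =>
      have h1 : |z (n₁ + m) - cc (i + 1)| ≤ ρ := by
        refine (hclose _).trans (le_trans ?_ hn₁.le)
        exact pow_le_pow_of_le_one hc0 hc1.le (Nat.le_add_right _ _)
      rw [← add_assoc, hzs, hlin _ (hzD _) h1, ih]
      ring
  have e1 : n₁ + 1 + m = (n₁ + m) + 1 := by ring
  rw [e1, hA, hA, HP_zpow_nat _ (hzD _), HP_zpow_nat _ (hzD _), hzlin]
  field_simp

end

/-- choice of parameters -/
theorem exists_params (k : ℕ) : ∃ (ε : ℝ) (N : Perm ℝ) (L : ℕ → ℕ) (c : ℝ) (J : ℕ)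
    (hN : IsN ε N), 0 < ε ∧ 1 / 16 ≤ c ∧ c < 1 ∧ (∀ j, (1 + ε) ^ (L j) / (64 * 2 ^ j) ≤ c) ∧
    ∀ i M, IsD k (gP (fm_FOK hN L J) i M) := by
  obtain ⟨ε₀, hε₀, hN⟩ := exists_N
  set ε := min ε₀ (Real.log 2 / (2 * k + 2)) with hε
  have hlog : 0 < Real.log 2 := Real.log_pos one_lt_two
  have hε0 : 0 < ε := lt_min hε₀ (by positivity)
  obtain ⟨N, hN'⟩ := hN ε hε0 (min_le_left _ _)
  have hεk : ε * (2 * k + 2) ≤ Real.log 2 := by
    have : ε ≤ Real.log 2 / (2 * k + 2) := min_le_right _ _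
    rwa [le_div_iff₀ (by positivity)] at this
  have hk0 : (0:ℝ) ≤ k := Nat.cast_nonneg k
  have hlog2 : Real.log 2 < 1 := by linarith [Real.log_two_lt_d9]
  have hε1 : ε < 1 := by nlinarith
  have hpow2 : (1 + ε) ^ (2 * k) < 2 := by
    have h1 : 1 + ε ≤ Real.exp ε := by
      have := Real.add_one_le_exp ε
      linarith
    calc (1 + ε) ^ (2 * k) ≤ (Real.exp ε) ^ (2 * k) := pow_le_pow_left₀ (by linarith) h1 _
      _ = Real.exp ((2 * k : ℕ) * ε) := by rw [← Real.exp_nat_mul]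
      _ < 2 := by
        rw [← Real.lt_log_iff_exp_lt two_pos]
        push_cast
        nlinarith
  have hx : ∀ j : ℕ, (1:ℝ) ≤ 64 * 2 ^ j := by
    intro j
    have : (1:ℝ) ≤ 2 ^ j := one_le_pow₀ (by norm_num)
    linarith
  choose n hn1 hn2 using fun j : ℕ => exists_nat_pow_near (hx j) (by linarith : 1 < 1 + ε)
  have hn0 : ∀ j, 1 ≤ n j := by
    intro j
    by_contra hc
    have h0 : n j = 0 := by omega
    have h1 := hn2 j
    rw [h0, zero_add, pow_one] at h1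
    have : (1:ℝ) ≤ 2 ^ j := one_le_pow₀ (by norm_num)
    linarith
  set L : ℕ → ℕ := fun j => n j - 1 with hLdef
  have hL1 : ∀ j, (1 + ε) ^ (L j) * (1 + ε) ≤ 64 * 2 ^ j := by
    intro j
    rw [← pow_succ]
    have : L j + 1 = n j := by
      have := hn0 j
      simp only [hLdef]; omega
    rw [this]
    exact hn1 j
  have hL2 : ∀ j, 64 * 2 ^ j < (1 + ε) ^ (L j) * (1 + ε) ^ 2 := by
    intro j
    rw [← pow_add]
    have : L j + 2 = n j + 1 := by
      have := hn0 j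
      simp only [hLdef]; omega
    rw [this]
    exact hn2 j
  have hLc : ∀ j, (1 + ε) ^ (L j) / (64 * 2 ^ j) ≤ 1 / (1 + ε) := by
    intro j
    rw [div_le_div_iff₀ (by positivity) (by positivity), one_mul]
    exact hL1 j
  set c : ℝ := max (1 / 16) (1 / (1 + ε)) with hc
  have hc1 : c < 1 := by
    apply max_lt (by norm_num)
    rw [div_lt_one (by linarith)]
    linarith
  have hc16 : 1 / 16 ≤ c := le_max_left _ _
  have hLc' : ∀ j, (1 + ε) ^ (L j) / (64 * 2 ^ j) ≤ c := fun j => (hLc j).trans (le_max_right _ _)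
  refine ⟨ε, N, L, c, 7 * k + 1, hN', hε0, hc16, hc1, hLc', ?_⟩
  intro i M
  obtain ⟨n₀, p, hlin⟩ := orbit_linear hN' L hε0 hc16 hc1 hLc' (7 * k + 1) i M
  have hlin' := hlin _ rfl
  have h2j : (1:ℝ) ≤ 2 ^ (i + 1) := one_le_pow₀ (by norm_num)
  refine gP_isD (fm_FOK hN' L (7 * k + 1)) i M ?_ ?_ hlin' k ?_
  · split_ifs <;> positivity
  · split_ifs
    · exact lt_of_le_of_lt (hLc' _) hc1
    · rw [div_lt_one (by positivity)]
      linarith
  · split_ifs with hj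
    · have h1 : 1 / (1 + ε) ^ 2 ≤ (1 + ε) ^ (L (i + 1)) / (64 * 2 ^ (i + 1)) := by
        rw [div_le_div_iff₀ (by positivity) (by positivity), one_mul]
        exact (hL2 _).le
      have h2 : (1 / 2 : ℝ) < (1 / (1 + ε) ^ 2) ^ k := by
        rw [div_pow, one_pow, ← pow_mul]
        exact one_div_lt_one_div_of_lt (by positivity) hpow2
      have h3 : (1 / 2 : ℝ) ^ ((i + 1) ^ 2) ≤ (1 / 2) ^ 1 := by
        apply pow_le_pow_of_le_one (by norm_num) (by norm_num)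
        exact Nat.one_le_pow _ _ (by omega)
      calc (1 / 2 : ℝ) ^ ((i + 1) ^ 2) ≤ (1 / 2) ^ 1 := h3
        _ = 1 / 2 := by norm_num
        _ < (1 / (1 + ε) ^ 2) ^ k := h2
        _ ≤ _ := pow_le_pow_left₀ (by positivity) h1 k
    · have h1 : (1 / (64 * 2 ^ (i + 1)) : ℝ) = (1 / 2) ^ (6 + (i + 1)) := by
        have h2 : (2:ℝ) ^ (6 + (i + 1)) = 64 * 2 ^ (i + 1) := by
          rw [pow_add]; norm_num
        rw [one_div_pow, h2]
      rw [h1, ← pow_mul]
      apply pow_lt_pow_right_of_lt_one₀ (by norm_num) (by norm_num)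
      push Not at hj
      nlinarith

end

end Pool.Agent.Work.MP_4516ee_al
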