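import Mathlib
import Pool.Agent.Work.MP_4516ee_al.Defs
import Pool.Agent.Work.MP_4516ee_al.Dyn3
import Pool.Agent.Work.MP_4516ee_al.Smooth

/-! The result on the interval. -/

open Set Equiv
open scoped ContDiff

namespace Pool.Agent.Work.MP_4516ee_al

noncomputable section

/-- distortion from derivative bounds -/
lemma dist_of_bounds {F : ℝ → ℝ} {a b c C : ℝ} (hcont : ContinuousOn F (Icc a b))
    (hd1 : ∀ x ∈ Ioo a b, DifferentiableAt ℝ F x)
    (hd2 : ∀ x ∈ Ioo a b, DifferentiableAt ℝ (deriv F) x)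
    (hC : ∀ x ∈ Ioo a b, |deriv (deriv F) x| ≤ C) (hc : 0 < c)
    (hlow : ∀ x ∈ Ioo a b, c ≤ deriv F x) (hC0 : 0 ≤ C) :
    ∀ p q x y z w : ℝ, a ≤ p → q ≤ b → p ≤ x → x < y → y ≤ q → p ≤ z →
    z < w → w ≤ q → (F y - F x) / (y - x) ≤ Real.exp (C / c * (q - p)) * ((F w - F z) / (w - z)) := by
  intro p q x y z w hp hq hx hxy hy hz hzw hw
  obtain ⟨ξ, hξ, hξ'⟩ := exists_deriv_eq_slope F hxy
    (hcont.mono (Icc_subset_Icc (hp.trans hx) (hy.trans hq)))
    (fun u hu => (hd1 u ⟨by linarith [hu.1], by linarith [hu.2]⟩).differentiableWithinAt)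
  obtain ⟨η, hη, hη'⟩ := exists_deriv_eq_slope F hzw
    (hcont.mono (Icc_subset_Icc (hp.trans hz) (hw.trans hq)))
    (fun u hu => (hd1 u ⟨by linarith [hu.1], by linarith [hu.2]⟩).differentiableWithinAt)
  rw [← hξ', ← hη']
  have hξI : ξ ∈ Ioo a b := ⟨by linarith [hξ.1], by linarith [hξ.2]⟩
  have hηI : η ∈ Ioo a b := ⟨by linarith [hη.1], by linarith [hη.2]⟩
  have h1 := (convex_Ioo a b).norm_image_sub_le_of_norm_deriv_le (f := deriv F) (C := C) hd2
    (fun x hx => hC x hx) hηI hξI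
  rw [Real.norm_eq_abs, Real.norm_eq_abs] at h1
  have h2 : deriv F ξ ≤ deriv F η + C * (q - p) := by
    have h3 : |ξ - η| ≤ q - p := by
      rw [abs_le]
      constructor <;> linarith [hξ.1, hξ.2, hη.1, hη.2]
    have h4 := (abs_le.1 h1).2
    have h5 : C * |ξ - η| ≤ C * (q - p) := mul_le_mul_of_nonneg_left h3 hC0
    linarith
  have hpq : 0 ≤ q - p := by linarith
  have h6 := hlow η hηI
  have h7 : 1 + C / c * (q - p) ≤ Real.exp (C / c * (q - p)) := by
    have := Real.add_one_le_exp (C / c * (q - p))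
    linarith
  have hpos : 0 < deriv F η := lt_of_lt_of_le hc h6
  calc deriv F ξ ≤ deriv F η + C * (q - p) := h2
    _ ≤ deriv F η + (C * (q - p)) * (deriv F η / c) := by
        have : 1 ≤ deriv F η / c := by rw [le_div_iff₀ hc]; linarith
        have h8 : 0 ≤ C * (q - p) := mul_nonneg hC0 hpq
        nlinarith
    _ = (1 + C / c * (q - p)) * deriv F η := by field_simp
    _ ≤ Real.exp (C / c * (q - p)) * deriv F η := mul_le_mul_of_nonneg_right h7 hpos.le

lemma extI_of_mem (φ : Icc (0 : ℝ) 1 ≃o Icc (0 : ℝ) 1) {x : ℝ} (hx : x ∈ Icc (0 : ℝ) 1) :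
    extI φ x = φ ⟨x, hx⟩ := by
  rw [extI, IccExtend_of_mem _ _ hx]

lemma icc_zero (φ : Icc (0 : ℝ) 1 ≃o Icc (0 : ℝ) 1) (h0 : (0:ℝ) ∈ Icc (0 : ℝ) 1) :
    ((φ ⟨0, h0⟩ : Icc (0 : ℝ) 1) : ℝ) = 0 := by
  apply le_antisymm _ (φ ⟨0, h0⟩).2.1
  have h1 : (⟨0, h0⟩ : Icc (0 : ℝ) 1) ≤ φ.symm ⟨0, h0⟩ := (φ.symm ⟨0, h0⟩).2.1
  have h2 := φ.monotone h1
  rw [φ.apply_symm_apply] at h2
  exact h2

lemma icc_one (φ : Icc (0 : ℝ) 1 ≃o Icc (0 : ℝ) 1) (h1 : (1:ℝ) ∈ Icc (0 : ℝ) 1) :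
    ((φ ⟨1, h1⟩ : Icc (0 : ℝ) 1) : ℝ) = 1 := by
  apply le_antisymm (φ ⟨1, h1⟩).2.2
  have h2 : φ.symm ⟨1, h1⟩ ≤ (⟨1, h1⟩ : Icc (0 : ℝ) 1) := (φ.symm ⟨1, h1⟩).2.2
  have h3 := φ.monotone h2
  rw [φ.apply_symm_apply] at h3
  exact h3

open Classical in
/-- extension by the identity -/
def toP : (Icc (0 : ℝ) 1 ≃o Icc (0 : ℝ) 1) →* Perm ℝ :=
  (Perm.ofSubtype (p := fun y => y ∈ Icc (0:ℝ) 1)).comp
    { toFun := fun φ => φ.toEquiv
      map_one' := rfl
      map_mul' := fun _ _ => rfl }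

lemma toP_mem (φ : Icc (0 : ℝ) 1 ≃o Icc (0 : ℝ) 1) {x : ℝ} (hx : x ∈ Icc (0 : ℝ) 1) :
    toP φ x = φ ⟨x, hx⟩ := by
  classical
  exact Perm.ofSubtype_apply_of_mem _ hx

lemma toP_not_mem (φ : Icc (0 : ℝ) 1 ≃o Icc (0 : ℝ) 1) {x : ℝ} (hx : x ∉ Icc (0 : ℝ) 1) :
    toP φ x = x := by
  classical
  exact Perm.ofSubtype_apply_of_not_mem _ hx

lemma toP_eq_ext (φ : Icc (0 : ℝ) 1 ≃o Icc (0 : ℝ) 1) {x : ℝ} (hx : x ∈ Icc (0 : ℝ) 1) :
    toP φ x = extI φ x := by
  rw [toP_mem φ hx, extI_of_mem φ hx]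

lemma toP_fix (φ : Icc (0 : ℝ) 1 ≃o Icc (0 : ℝ) 1) {x : ℝ} (hx : x ∉ Ioo (0 : ℝ) 1) :
    toP φ x = x := by
  by_cases h : x ∈ Icc (0 : ℝ) 1
  · rw [toP_mem φ h]
    by_cases h0 : x = 0
    · subst h0; exact icc_zero φ h
    · have h1 : x = 1 := by
        by_contra hc
        exact hx ⟨lt_of_le_of_ne h.1 (Ne.symm h0), lt_of_le_of_ne h.2 hc⟩
      subst h1; exact icc_one φ h
  · exact toP_not_mem φ h

lemma toP_mono (φ : Icc (0 : ℝ) 1 ≃o Icc (0 : ℝ) 1) : StrictMono (toP φ) := by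
  intro x y hxy
  by_cases hx : x ∈ Icc (0 : ℝ) 1
  · by_cases hy : y ∈ Icc (0 : ℝ) 1
    · rw [toP_mem φ hx, toP_mem φ hy]
      exact φ.strictMono (show (⟨x, hx⟩ : Icc (0 : ℝ) 1) < ⟨y, hy⟩ from hxy)
    · rw [toP_mem φ hx, toP_not_mem φ hy]
      have h1 := (φ ⟨x, hx⟩).2.2
      have h2 : 1 < y := by
        by_contra hc
        exact hy ⟨by linarith [hx.1], not_lt.1 hc⟩
      linarith
  · by_cases hy : y ∈ Icc (0 : ℝ) 1
    · rw [toP_not_mem φ hx, toP_mem φ hy]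
      have h1 := (φ ⟨y, hy⟩).2.1
      have h2 : x < 0 := by
        by_contra hc
        exact hx ⟨not_lt.1 hc, by linarith [hy.2]⟩
      linarith
    · rw [toP_not_mem φ hx, toP_not_mem φ hy]
      exact hxy

lemma ext_bounds {F : ℝ → ℝ} (hF : ContDiffOn ℝ ∞ F (Icc (0:ℝ) 1)) (k : ℕ) :
    ∃ C, 0 ≤ C ∧ ∀ x ∈ Ioo (0:ℝ) 1, |iteratedDeriv k F x| ≤ C := by
  have h1 : ContinuousOn (iteratedDerivWithin k F (Icc (0:ℝ) 1)) (Icc (0:ℝ) 1) :=
    hF.continuousOn_iteratedDerivWithin (by exact_mod_cast le_top) (uniqueDiffOn_Icc_zero_one)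
  obtain ⟨C, hC⟩ := isCompact_Icc.exists_bound_of_continuousOn h1
  refine ⟨|C|, abs_nonneg _, fun x hx => ?_⟩
  have h2 : iteratedDerivWithin k F (Icc (0:ℝ) 1) x = iteratedDeriv k F x := by
    apply iteratedDerivWithin_eq_iteratedDeriv uniqueDiffOn_Icc_zero_one
    · exact ((hF x ⟨hx.1.le, hx.2.le⟩).contDiffAt (Icc_mem_nhds hx.1 hx.2)).of_le
        (by exact_mod_cast le_top)
    · exact ⟨hx.1.le, hx.2.le⟩
  rw [← h2]
  exact (hC x ⟨hx.1.le, hx.2.le⟩).trans (le_abs_self C)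

lemma ext_lower {φ : Icc (0 : ℝ) 1 ≃o Icc (0 : ℝ) 1} (h : IsDiffInfI φ) :
    ∃ c, 0 < c ∧ ∀ x ∈ Ioo (0:ℝ) 1, c ≤ deriv (extI φ) x := by
  obtain ⟨C, hC0, hC⟩ := ext_bounds h.2 1
  refine ⟨1 / (C + 1), by positivity, fun x hx => ?_⟩
  have hxI : x ∈ Icc (0:ℝ) 1 := ⟨hx.1.le, hx.2.le⟩
  have hy : extI φ x ∈ Ioo (0:ℝ) 1 := by
    rw [← toP_eq_ext φ hxI]
    have h0 : toP φ 0 = 0 := toP_fix φ (by simp)
    have h1 : toP φ 1 = 1 := toP_fix φ (by simp)
    exact ⟨by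
      calc (0:ℝ) = toP φ 0 := h0.symm
        _ < toP φ x := toP_mono φ hx.1, by
      calc toP φ x < toP φ 1 := toP_mono φ hx.2
        _ = 1 := h1⟩
  have hyI : extI φ x ∈ Icc (0:ℝ) 1 := ⟨hy.1.le, hy.2.le⟩
  have hdF : HasDerivAt (extI φ) (deriv (extI φ) x) x :=
    (((h.1 x hxI).contDiffAt (Icc_mem_nhds hx.1 hx.2)).differentiableAt (by simp)).hasDerivAt
  have hdG : HasDerivAt (extI φ.symm) (deriv (extI φ.symm) (extI φ x)) (extI φ x) :=
    (((h.2 _ hyI).contDiffAt (Icc_mem_nhds hy.1 hy.2)).differentiableAt (by simp)).hasDerivAt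
  have hcomp := hdG.comp x hdF
  have hev : (extI φ.symm ∘ extI φ) =ᶠ[nhds x] fun z => z := by
    filter_upwards [Icc_mem_nhds hx.1 hx.2] with z hz
    simp only [Function.comp]
    have h1 : extI φ z = φ ⟨z, hz⟩ := extI_of_mem φ hz
    have h2 : extI φ z ∈ Icc (0:ℝ) 1 := by rw [h1]; exact (φ ⟨z, hz⟩).2
    rw [extI_of_mem φ.symm h2]
    have h3 : (⟨extI φ z, h2⟩ : Icc (0:ℝ) 1) = φ ⟨z, hz⟩ := Subtype.ext h1
    rw [h3, φ.symm_apply_apply]
  have h1 : HasDerivAt (fun z : ℝ => z) (deriv (extI φ.symm) (extI φ x) * deriv (extI φ) x) x :=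
    hcomp.congr_of_eventuallyEq hev.symm
  have h2 : deriv (extI φ.symm) (extI φ x) * deriv (extI φ) x = 1 :=
    h1.unique (hasDerivAt_id' x)
  have h3 := hC _ hy
  rw [iteratedDeriv_one] at h3
  have h4 : 0 ≤ deriv (extI φ) x := by
    have hmono : Monotone (extI φ) := by
      have hm : Monotone (fun x : Icc (0:ℝ) 1 => ((φ x : Icc (0:ℝ) 1) : ℝ)) :=
        fun u v huv => φ.monotone huv
      rw [extI]
      exact hm.IccExtend _
    exact hmono.deriv_nonneg
  rw [div_le_iff₀ (by positivity)]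
  have h5 : deriv (extI φ.symm) (extI φ x) ≤ C := (le_abs_self _).trans h3
  nlinarith

lemma good_of_smooth {φ : Icc (0 : ℝ) 1 ≃o Icc (0 : ℝ) 1} (h : IsDiffInfI φ) :
    Good 0 1 (toP φ) where
  mono := toP_mono φ
  fix _ hx := toP_fix φ hx
  dist := by
    obtain ⟨C, hC0, hC⟩ := ext_bounds h.1 2
    obtain ⟨c, hc, hlow⟩ := ext_lower h
    have hsm : ∀ x ∈ Ioo (0:ℝ) 1, ContDiffAt ℝ ∞ (extI φ) x := fun x hx =>
      (h.1 x ⟨hx.1.le, hx.2.le⟩).contDiffAt (Icc_mem_nhds hx.1 hx.2)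
    have key := dist_of_bounds (F := extI φ) (a := 0) (b := 1) (c := c) (C := C)
      h.1.continuousOn (fun x hx => (hsm x hx).differentiableAt (by simp))
      (fun x hx => by
        have h1 : ContDiffAt ℝ ∞ (deriv (extI φ)) x := by
          have h2 : ContDiffOn ℝ ∞ (deriv (extI φ)) (Ioo (0:ℝ) 1) :=
            ContDiffOn.deriv_of_isOpen (n := ∞) (fun y hy => (hsm y hy).contDiffWithinAt)
              isOpen_Ioo (by simp)
          exact (h2 x hx).contDiffAt (isOpen_Ioo.mem_nhds hx)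
        exact h1.differentiableAt (by simp))
      (fun x hx => by
        have := hC x hx
        rwa [iteratedDeriv_succ, iteratedDeriv_one] at this)
      hc hlow hC0
    refine ⟨C / c, by positivity, ?_⟩
    intro p q x y z w hp hq hx hxy hy hz hzw hw
    rw [sl, sl, toP_eq_ext φ ⟨by linarith, by linarith⟩, toP_eq_ext φ ⟨by linarith, by linarith⟩,
      toP_eq_ext φ ⟨by linarith, by linarith⟩, toP_eq_ext φ ⟨by linarith, by linarith⟩]
    exact key p q x y z w hp hq hx hxy hy hz hzw hw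

/-- relations kill `h` in smooth actions on the interval -/
theorem no_smooth_I {G : Type} [Group G] {s h H f : G} {g : ℕ → ℕ → G} (R : Rel s h H f g)
    (hh : h ≠ 1) : ¬ EmbedsInfI G := by
  rintro ⟨ρ, hinj, hρ⟩
  set σ : G →* Perm ℝ := toP.comp ρ with hσ
  have h𝒢 : ∀ φ ∈ σ.range, Good 0 1 φ := by
    rintro _ ⟨x, rfl⟩
    exact good_of_smooth (hρ x)
  have hsm : ∀ x ∈ Ioo (0:ℝ) 1, ∀ y : G, (σ y : ℝ → ℝ) =ᶠ[nhds x] extI (ρ y) := by
    intro x hx y
    filter_upwards [Icc_mem_nhds hx.1 hx.2] with z hz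
    exact toP_eq_ext (ρ y) hz
  have hk := kills_h (a := 0) (b := 1) one_pos h𝒢 (s := σ s) (h := σ h) (H := σ H) (f := σ f)
    (g := fun i N => σ (g i N)) ⟨s, rfl⟩ ⟨h, rfl⟩ ⟨H, rfl⟩ ⟨f, rfl⟩ (fun i N => ⟨g i N, rfl⟩)
    (R.map σ)
    (fun i N => by
      intro x hx
      apply ContDiffAt.contDiffWithinAt
      apply ContDiffAt.congr_of_eventuallyEq _ (hsm x hx (g i N))
      exact ((hρ (g i N)).1 x ⟨hx.1.le, hx.2.le⟩).contDiffAt (Icc_mem_nhds hx.1 hx.2))
    (fun i N k => by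
      obtain ⟨C, _, hC⟩ := ext_bounds (hρ (g i N)).1 k
      refine ⟨C, fun x hx => ?_⟩
      rw [(hsm x hx (g i N)).iteratedDeriv_eq k]
      exact hC x hx)
  apply hh
  apply hinj
  rw [map_one]
  apply DFunLike.ext
  intro x
  have h1 : toP (ρ h) (x : ℝ) = x := by
    have := congrArg (fun e : Perm ℝ => e x) hk
    exact this
  rw [toP_mem (ρ h) x.2] at h1
  exact Subtype.ext h1

/-- elements of `DG k` are increasing -/
lemma IsD.strictMono {n : ℕ∞} {e : Perm ℝ} (h : IsD n e) : StrictMono e := by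
  rcases Continuous.strictMono_of_inj h.c.continuous e.injective with h1 | h1
  · exact h1
  · exfalso
    have h2 := h1 (show (5:ℝ) < 6 by norm_num)
    rw [h.off 5 (by norm_num), h.off 6 (by norm_num)] at h2
    norm_num at h2

/-- affine coordinate change -/
def resF (e : Perm ℝ) (x : ℝ) : ℝ := (e (10 * x - 5) + 5) / 10

lemma resF_mem {n : ℕ∞} {e : Perm ℝ} (h : IsD n e) {x : ℝ} (hx : x ∈ Icc (0:ℝ) 1) :
    resF e x ∈ Icc (0:ℝ) 1 := by
  have h1 : e (-5) ≤ e (10 * x - 5) := h.strictMono.monotone (by linarith [hx.1])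
  have h2 : e (10 * x - 5) ≤ e 5 := h.strictMono.monotone (by linarith [hx.2])
  rw [h.off (-5) (by norm_num)] at h1
  rw [h.off 5 (by norm_num)] at h2
  unfold resF
  constructor <;> linarith

lemma resF_comp (e e' : Perm ℝ) (x : ℝ) : resF e (resF e' x) = resF (e * e') x := by
  simp only [resF, Perm.mul_apply]
  congr 3
  ring_nf

lemma resF_one (x : ℝ) : resF 1 x = x := by
  simp [resF]

/-- restriction to the interval, as an order isomorphism -/
def resI {n : ℕ∞} (e : DG n) : Icc (0 : ℝ) 1 ≃o Icc (0 : ℝ) 1 where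
  toFun x := ⟨resF e x, resF_mem e.2 x.2⟩
  invFun x := ⟨resF (e⁻¹ : DG n) x, resF_mem (e⁻¹ : DG n).2 x.2⟩
  left_inv x := by
    apply Subtype.ext
    change resF ((e⁻¹ : DG n) : Perm ℝ) (resF e x) = x
    rw [resF_comp]
    have : ((e⁻¹ : DG n) : Perm ℝ) * (e : Perm ℝ) = 1 := by
      rw [← Subgroup.coe_mul, inv_mul_cancel, Subgroup.coe_one]
    rw [this, resF_one]
  right_inv x := by
    apply Subtype.ext
    change resF (e : Perm ℝ) (resF ((e⁻¹ : DG n) : Perm ℝ) x) = x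
    rw [resF_comp]
    have : (e : Perm ℝ) * ((e⁻¹ : DG n) : Perm ℝ) = 1 := by
      rw [← Subgroup.coe_mul, mul_inv_cancel, Subgroup.coe_one]
    rw [this, resF_one]
  map_rel_iff' := by
    intro x y
    change resF e x ≤ resF e y ↔ x ≤ y
    have hm : StrictMono (e : Perm ℝ) := IsD.strictMono e.2
    unfold resF
    rw [div_le_div_iff_of_pos_right (by norm_num), add_le_add_iff_right, hm.le_iff_le,
      sub_le_sub_iff_right, mul_le_mul_iff_right₀ (by norm_num)]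
    exact Iff.rfl

/-- restriction is a homomorphism -/
def resH (n : ℕ∞) : DG n →* (Icc (0 : ℝ) 1 ≃o Icc (0 : ℝ) 1) where
  toFun := resI
  map_one' := by
    apply DFunLike.ext
    intro x
    apply Subtype.ext
    change resF (1 : Perm ℝ) x = x
    exact resF_one x
  map_mul' e e' := by
    apply DFunLike.ext
    intro x
    apply Subtype.ext
    change resF ((e * e' : DG n) : Perm ℝ) x = resF e (resF e' x)
    rw [resF_comp]; rfl

lemma resH_inj (n : ℕ∞) : Function.Injective (resH n) := by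
  intro e e' h
  apply Subtype.ext
  apply Perm.ext
  intro y
  by_cases hy : 5 ≤ |y|
  · rw [IsD.off e.2 y hy, IsD.off e'.2 y hy]
  · push Not at hy
    rw [abs_lt] at hy
    have hx : (y + 5) / 10 ∈ Icc (0:ℝ) 1 := ⟨by linarith, by linarith⟩
    have h1 : resI e ⟨_, hx⟩ = resI e' ⟨_, hx⟩ := by
      have := congrArg (fun φ : Icc (0 : ℝ) 1 ≃o Icc (0 : ℝ) 1 => φ ⟨_, hx⟩) h
      exact this
    have h2 : resF e ((y + 5) / 10) = resF e' ((y + 5) / 10) := congrArg Subtype.val h1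
    unfold resF at h2
    have h3 : 10 * ((y + 5) / 10) - 5 = y := by ring
    rw [h3] at h2
    linarith

lemma resF_contDiff {n : ℕ∞} {e : Perm ℝ} (h : IsD n e) : ContDiff ℝ n (resF e) := by
  unfold resF
  have h1 : ContDiff ℝ n (fun x : ℝ => 10 * x - 5) := by fun_prop
  exact ((h.c.comp h1).add contDiff_const).div_const _

lemma resH_isDiff {r : ℝ} (hr : 1 ≤ r) {k : ℕ} (hk : ⌊r⌋₊ = k) (e : DG ((k + 1 : ℕ) : ℕ∞)) :
    IsDiffI r (resH _ e) := by
  unfold IsDiffI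
  rw [hk]
  have hext : ∀ e : DG ((k + 1 : ℕ) : ℕ∞), EqOn (extI (resH _ e)) (resF e) (Icc 0 1) := by
    intro e x hx
    rw [extI_of_mem _ hx]
    rfl
  have hle : ((k : ℕ) : WithTop ℕ∞) ≤ (((k + 1 : ℕ) : ℕ∞) : WithTop ℕ∞) := by
    exact_mod_cast Nat.le_succ k
  have hsm : ∀ e : DG ((k + 1 : ℕ) : ℕ∞), ContDiffOn ℝ k (extI (resH _ e)) (Icc 0 1) := by
    intro e
    have h1 : ContDiffOn ℝ k (resF e) (Icc 0 1) :=
      ((resF_contDiff (IsD.mono e.2 le_rfl)).of_le hle).contDiffOn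
    exact h1.congr (hext e)
  refine ⟨hsm e, ?_, ?_⟩
  · have h1 := hsm e⁻¹
    have h2 : resH _ e⁻¹ = (resH _ e).symm := by
      rw [map_inv]; rfl
    rwa [h2] at h1
  · have hF := resF_contDiff (n := ((k + 1 : ℕ) : ℕ∞)) e.2
    have hw : ∀ x ∈ Icc (0:ℝ) 1, iteratedDerivWithin k (extI (resH _ e)) (Icc 0 1) x =
        iteratedDeriv k (resF e) x := by
      intro x hx
      rw [iteratedDerivWithin_congr (hext e) hx]
      exact iteratedDerivWithin_eq_iteratedDeriv uniqueDiffOn_Icc_zero_one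
        (hF.contDiffAt.of_le hle) hx
    have hlt : ((k : ℕ) : WithTop ℕ∞) < (((k + 1 : ℕ) : ℕ∞) : WithTop ℕ∞) := by
      exact_mod_cast Nat.lt_succ_self k
    have hdiff : Differentiable ℝ (iteratedDeriv k (resF e)) :=
      hF.differentiable_iteratedDeriv k hlt
    have hcont : Continuous (deriv (iteratedDeriv k (resF e))) := by
      rw [← iteratedDeriv_succ]
      exact hF.continuous_iteratedDeriv (k + 1) le_rfl
    obtain ⟨C, hC⟩ := (isCompact_Icc (a := (0:ℝ)) (b := 1)).exists_bound_of_continuousOn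
      hcont.continuousOn
    refine ⟨|C|, fun x hx y hy => ?_⟩
    rw [hw x hx, hw y hy]
    have h1 := (convex_Icc (0:ℝ) 1).norm_image_sub_le_of_norm_deriv_le
      (f := iteratedDeriv k (resF e)) (C := |C|) (fun z _ => hdiff z)
      (fun z hz => (hC z hz).trans (le_abs_self C)) hy hx
    rw [Real.norm_eq_abs, Real.norm_eq_abs] at h1
    refine h1.trans (mul_le_mul_of_nonneg_left ?_ (abs_nonneg _))
    have h0 : |x - y| ≤ 1 := by
      rw [abs_le]
      constructor <;> linarith [hx.1, hx.2, hy.1, hy.2]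
    have hr1 : r - k ≤ 1 := by
      have := Nat.lt_floor_add_one r
      rw [hk] at this
      linarith
    rcases (abs_nonneg (x - y)).eq_or_lt with h | h
    · rw [← h]
      exact Real.rpow_nonneg le_rfl _
    · calc |x - y| = |x - y| ^ (1:ℝ) := (Real.rpow_one _).symm
        _ ≤ |x - y| ^ (r - k) := Real.rpow_le_rpow_of_exponent_ge h h0 hr1

/-- generators -/
inductive Gen : Type
  | s : Gen
  | h : Gen
  | H : Gen
  | f : Gen
  | g : ℕ → ℕ → Gen

/-- the assignment of the generators in a model -/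
def genMap {f : Perm ℝ} (hf : FOK f) : Gen → Perm ℝ
  | Gen.s => sP
  | Gen.h => hP 1
  | Gen.H => HP
  | Gen.f => f
  | Gen.g i M => gP hf i M

/-- the representation of the free group -/
def repF {f : Perm ℝ} (hf : FOK f) : FreeGroup Gen →* Perm ℝ := FreeGroup.lift (genMap hf)

lemma FP_FOK : FOK FP := ⟨FP_isD, fun _ h1 h2 => FP_mem_DD h1 h2⟩

/-- the group -/
def GG : Subgroup (Perm ℝ) := (repF FP_FOK).range

instance : Countable Gen := by
  have h : Function.Injective (fun x : Gen => match x with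
    | Gen.s => ((0, 0, 0) : ℕ × ℕ × ℕ)
    | Gen.h => (1, 0, 0)
    | Gen.H => (2, 0, 0)
    | Gen.f => (3, 0, 0)
    | Gen.g i M => (4, i, M)) := by
    intro x y hxy
    cases x <;> cases y <;> simp_all
  exact h.countable

instance : Countable GG := by
  have h : Function.Surjective ((repF FP_FOK).rangeRestrict) := MonoidHom.rangeRestrict_surjective _
  exact h.countable

/-- two models are conjugate through `Ψ` -/
lemma conj_gens {fa fb : Perm ℝ} (ha : FOK fa) (hb : FOK fb) {Ψ : Perm ℝ}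
    (hH : ∀ y, Ψ (HP y) = HP (Ψ y)) (hf : ∀ y, Ψ (fa y) = fb (Ψ y)) (hJ : ∀ y ∈ JJ, Ψ y = y)
    (x : Gen) : Ψ * genMap ha x * Ψ⁻¹ = genMap hb x := by
  have hJ' : ∀ y, Ψ y ∈ JJ → y ∈ JJ := by
    intro y hy
    have h1 := Ψ.injective (hJ _ hy)
    rwa [h1] at hy
  have hKK : ∀ e : Perm ℝ, (∀ y, y ∉ JJ → e y = y) → Ψ * e = e * Ψ := by
    intro e he
    ext y
    rw [Perm.mul_apply, Perm.mul_apply]
    by_cases hy : y ∈ JJ
    · rw [hJ y hy, hJ _ (mem_of_off he hy)]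
    · rw [he y hy, he _ (fun h => hy (hJ' y h))]
  have hHP : Ψ * HP = HP * Ψ := by
    ext y
    exact hH y
  have hfP : Ψ * fa = fb * Ψ := by
    ext y
    exact hf y
  have hsc : SemiconjBy Ψ fa fb := hfP
  have hHc : SemiconjBy Ψ HP HP := hHP
  have hA : ∀ i M n, SemiconjBy Ψ (AP fa i M n) (AP fb i M n) := by
    intro i M n
    exact (((hHc.pow_right (i + 1)).mul_right hsc).pow_right n).mul_right (hsc.pow_right M)
  rw [mul_inv_eq_iff_eq_mul]
  cases x with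
  | s => exact hKK _ (fun y hy => sP_off hy)
  | h => exact hKK _ (fun y hy => hP_off hy)
  | H => exact hHP
  | f => exact hfP
  | g i M =>
    ext y
    change Ψ (gP ha i M y) = gP hb i M (Ψ y)
    have hAinv : ∀ n, (AP fb i M n)⁻¹ (Ψ y) = Ψ ((AP fa i M n)⁻¹ y) := by
      intro n
      have h1 : SemiconjBy Ψ (AP fa i M n)⁻¹ (AP fb i M n)⁻¹ := (hA i M n).inv_right
      have h2 := congrArg (fun e : Perm ℝ => e y) h1.eq
      exact h2.symm
    by_cases hy : ∃ n, y ∈ SP fa i M n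
    · obtain ⟨n, hn⟩ := hy
      rw [gP_on ha hn]
      have hx : (AP fa i M n)⁻¹ y ∈ JJ := hn
      have hn' : Ψ y ∈ SP fb i M n := by
        rw [mem_SP, hAinv, hJ _ hx]
        exact hx
      rw [gP_on hb hn', PP', PP', Perm.mul_apply, Perm.mul_apply, Perm.mul_apply, Perm.mul_apply,
        hAinv, hJ _ hx]
      have h3 : hP (tt i n) ((AP fa i M n)⁻¹ y) ∈ JJ := mem_of_off (fun z hz => hP_off hz) hx
      have h4 := congrArg (fun e : Perm ℝ => e (hP (tt i n) ((AP fa i M n)⁻¹ y))) (hA i M n).eq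
      have h5 : Ψ (AP fa i M n (hP (tt i n) ((AP fa i M n)⁻¹ y))) =
          AP fb i M n (Ψ (hP (tt i n) ((AP fa i M n)⁻¹ y))) := h4
      rw [h5, hJ _ h3]
    · push Not at hy
      have hy' : ∀ n, Ψ y ∉ SP fb i M n := by
        intro n hn
        rw [mem_SP, hAinv] at hn
        exact hy n (hJ' _ hn)
      have e1 : gP ha i M y = y := gluePerm_off hy
      have e2 : gP hb i M (Ψ y) = Ψ y := gluePerm_off hy'
      rw [e1, e2]

/-- The group embeds in the `C^k` diffeomorphisms for each `k`. -/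
theorem GG_embeds (k : ℕ) : ∃ σ : GG →* DG k, Function.Injective σ := by
  obtain ⟨ε, N, L, c, J, hN, hε, hc16, hc1, hL, hg⟩ := exists_params k
  obtain ⟨Ψ, hH, hf, hJ, -⟩ := conj_models hN L hε hc16 hc1 hL 0 J
  rw [fm_zero] at hf
  have hconj := conj_gens FP_FOK (fm_FOK hN L J) hH hf hJ
  have hrep : ∀ w : FreeGroup Gen, Ψ * repF FP_FOK w * Ψ⁻¹ = repF (fm_FOK hN L J) w := by
    intro w
    have h1 : (MulAut.conj Ψ).toMonoidHom.comp (repF FP_FOK) = repF (fm_FOK hN L J) := by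
      apply FreeGroup.ext_hom
      intro x
      change Ψ * repF FP_FOK (FreeGroup.of x) * Ψ⁻¹ = repF (fm_FOK hN L J) (FreeGroup.of x)
      rw [repF, repF, FreeGroup.lift_apply_of, FreeGroup.lift_apply_of]
      exact hconj x
    exact congrArg (fun φ : FreeGroup Gen →* Perm ℝ => φ w) h1
  have hDG : ∀ w : FreeGroup Gen, repF (fm_FOK hN L J) w ∈ DG (k : ℕ∞) := by
    intro w
    have h1 : (repF (fm_FOK hN L J)).range ≤ DG (k : ℕ∞) := by
      rw [repF, FreeGroup.range_lift_eq_closure, Subgroup.closure_le]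
      rintro _ ⟨x, rfl⟩
      cases x with
      | s => exact (KK_isD _ _).mono le_top
      | h => exact (KK_isD _ _).mono le_top
      | H => exact HP_isD.mono le_top
      | f => exact (fm_isD hN L J).mono le_top
      | g i M => exact hg i M
    exact h1 ⟨w, rfl⟩
  have hmem : ∀ x : GG, Ψ * (x : Perm ℝ) * Ψ⁻¹ ∈ DG (k : ℕ∞) := by
    rintro ⟨_, w, rfl⟩
    rw [hrep w]
    exact hDG w
  refine ⟨{ toFun := fun x => ⟨Ψ * (x : Perm ℝ) * Ψ⁻¹, hmem x⟩
            map_one' := ?_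
            map_mul' := ?_ }, ?_⟩
  · apply Subtype.ext
    simp
  · intro x y
    apply Subtype.ext
    change Ψ * ((x : Perm ℝ) * (y : Perm ℝ)) * Ψ⁻¹ =
      (Ψ * (x : Perm ℝ) * Ψ⁻¹) * (Ψ * (y : Perm ℝ) * Ψ⁻¹)
    group
  · intro x y hxy
    apply Subtype.ext
    have h1 : Ψ * (x : Perm ℝ) * Ψ⁻¹ = Ψ * (y : Perm ℝ) * Ψ⁻¹ := congrArg Subtype.val hxy
    simpa using h1

theorem GG_embedsI (r : ℝ) (hr : 1 ≤ r) : EmbedsI r GG := by
  obtain ⟨σ, hσ⟩ := GG_embeds (⌊r⌋₊ + 1)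
  exact ⟨(resH _).comp σ, (resH_inj _).comp hσ, fun g => resH_isDiff hr rfl (σ g)⟩

/-- elements of the group -/
def gen (x : Gen) : GG := ⟨repF FP_FOK (FreeGroup.of x), ⟨_, rfl⟩⟩

lemma gen_coe (x : Gen) : ((gen x : GG) : Perm ℝ) = genMap FP_FOK x := by
  change repF FP_FOK (FreeGroup.of x) = genMap FP_FOK x
  rw [repF, FreeGroup.lift_apply_of]

lemma gen_rel : Rel (gen Gen.s) (gen Gen.h) (gen Gen.H) (gen Gen.f)
    (fun i M => gen (Gen.g i M)) := by
  have R := rel_model FP_FOK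
  have hinj : Function.Injective (Subgroup.subtype GG) := Subgroup.subtype_injective GG
  have es : Subgroup.subtype GG (gen Gen.s) = sP := gen_coe Gen.s
  have eh : Subgroup.subtype GG (gen Gen.h) = hP 1 := gen_coe Gen.h
  have eH : Subgroup.subtype GG (gen Gen.H) = HP := gen_coe Gen.H
  have ef : Subgroup.subtype GG (gen Gen.f) = FP := gen_coe Gen.f
  have eg : ∀ i M, Subgroup.subtype GG (gen (Gen.g i M)) = gP FP_FOK i M :=
    fun i M => gen_coe (Gen.g i M)
  have hc : ∀ x y : GG, Commute (Subgroup.subtype GG x) (Subgroup.subtype GG y) →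
      Commute x y := by
    intro x y h
    apply hinj
    rw [map_mul, map_mul]
    exact h
  constructor
  · apply hinj
    simp only [map_mul, map_inv, map_pow, es, eh]
    exact R.r1
  · apply hc
    simp only [map_mul, map_inv, map_pow, es, eh, eH]
    exact R.r2s
  · apply hc
    simp only [map_mul, map_inv, map_pow, eh, eH]
    exact R.r2h
  · apply hc
    simp only [map_mul, map_inv, map_pow, eH, ef]
    exact R.r6
  · intro n
    apply hc
    simp only [map_mul, map_inv, map_pow, eH, ef, es]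
    exact R.r6s n
  · intro n
    apply hc
    simp only [map_mul, map_inv, map_pow, eH, ef, eh]
    exact R.r6h n
  · intro i M n A hA
    apply hc
    rw [hA]
    simp only [map_mul, map_inv, map_pow, eH, ef, eh, es, eg]
    exact R.r7s i M n _ rfl
  · intro i M n A hA
    apply hc
    rw [hA]
    simp only [map_mul, map_inv, map_pow, eH, ef, eh, es, eg]
    exact R.r7h i M n _ rfl

lemma gen_h_ne : gen Gen.h ≠ 1 := by
  intro h
  apply hP_one_ne
  have := congrArg Subtype.val h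
  rw [gen_coe] at this
  exact this

theorem GG_not_smooth : ¬ EmbedsInfI GG := no_smooth_I gen_rel gen_h_ne

theorem critRegI_GG : critRegI GG = ⊤ := by
  rw [eq_top_iff]
  apply le_of_forall_lt
  intro c hc
  obtain ⟨n, hn⟩ := ENNReal.exists_nat_gt hc.ne
  apply lt_of_lt_of_le hn
  have h1 : ((n : ℕ) : ENNReal) ≤ ENNReal.ofReal ((n : ℝ) + 1) := by
    rw [← ENNReal.ofReal_natCast n]
    exact ENNReal.ofReal_le_ofReal (by linarith)
  refine h1.trans (le_sSup ⟨(n : ℝ) + 1, ?_, GG_embedsI _ ?_, rfl⟩)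
  · have : (0:ℝ) ≤ n := Nat.cast_nonneg n
    linarith
  · have : (0:ℝ) ≤ n := Nat.cast_nonneg n
    linarith

end

/-- **Interval case.** -/
theorem interval_result : ∃ (G : Type) (_ : Group G), Countable G ∧ critRegI G = ⊤ ∧
    (∀ r : ℝ, 1 ≤ r → EmbedsI r G) ∧ ¬ EmbedsInfI G :=
  ⟨GG, inferInstance, inferInstance, critRegI_GG, GG_embedsI, GG_not_smooth⟩

end Pool.Agent.Work.MP_4516ee_al
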