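import Mathlib
import Pool.Agent.Work.MP_4516ee_al.DefsC
import Pool.Agent.Work.MP_4516ee_al.DynR2
import Pool.Agent.Work.MP_4516ee_al.MainI

/-! Smooth actions on the circle: the relations kill `h`. -/

open Set Equiv
open scoped ContDiff

namespace Pool.Agent.Work.MP_4516ee_al

noncomputable section

/-- lifts of smooth circle diffeomorphisms -/
structure IsL (X : Perm ℝ) : Prop where
  mono : StrictMono X
  per : ∀ x, X (x + 1) = X x + 1
  c : ContDiff ℝ ∞ X
  ci : ContDiff ℝ ∞ (X⁻¹ : Perm ℝ)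

/-- the group of lifts -/
def LL : Subgroup (Perm ℝ) where
  carrier := {X | IsL X}
  mul_mem' {X Y} hX hY :=
    { mono := hX.mono.comp hY.mono
      per := fun x => by rw [Perm.mul_apply, Perm.mul_apply, hY.per, hX.per]
      c := hX.c.comp hY.c
      ci := by
        rw [mul_inv_rev]
        exact hY.ci.comp hX.ci }
  one_mem' :=
    { mono := strictMono_id
      per := fun x => rfl
      c := contDiff_id
      ci := contDiff_id }
  inv_mem' {X} hX :=
    { mono := strictMono_inv hX.mono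
      per := fun x => by
        rw [Perm.inv_eq_iff_eq, hX.per, app_inv]
      c := hX.ci
      ci := by rw [inv_inv]; exact hX.c }

lemma mem_LL {X : Perm ℝ} : X ∈ LL ↔ IsL X := Iff.rfl

/-- functions with `F(x+1)=F(x)+1` and positive derivative are bijective -/
lemma bij_of_per {F : ℝ → ℝ} (hm : StrictMono F) (hc : Continuous F)
    (hp : ∀ x, F (x + 1) = F x + 1) : Function.Bijective F := by
  refine ⟨hm.injective, ?_⟩
  have hn : ∀ (n : ℕ) x, F (x + n) = F x + n := by
    intro n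
    induction n with
    | zero => intro x; simp
    | succ n ih =>
      intro x
      have : x + ((n + 1 : ℕ) : ℝ) = (x + n) + 1 := by push_cast; ring
      rw [this, hp, ih]; push_cast; ring
  have hz : ∀ (n : ℤ) x, F (x + n) = F x + n := by
    intro n x
    obtain ⟨m, rfl | rfl⟩ := n.eq_nat_or_neg
    · exact_mod_cast hn m x
    · have h1 := hn m (x + ((-(m : ℤ) : ℤ) : ℝ))
      have h2 : x + ((-(m : ℤ) : ℤ) : ℝ) + (m : ℝ) = x := by push_cast; ring
      rw [h2] at h1
      push_cast at h1 ⊢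
      linarith
  intro y
  set n := ⌊y - F 0⌋ with hn'
  have h1 : F n = F 0 + n := by
    have := hz n 0
    rwa [zero_add] at this
  have h2 : F (n + 1) = F 0 + n + 1 := by rw [hp, h1]
  have h3 : F n ≤ y := by rw [h1]; linarith [Int.floor_le (y - F 0)]
  have h4 : y ≤ F (n + 1) := by rw [h2]; linarith [Int.lt_floor_add_one (y - F 0)]
  obtain ⟨x, _, hx⟩ := intermediate_value_Icc (by linarith : (n : ℝ) ≤ n + 1) hc.continuousOn
    ⟨h3, h4⟩
  exact ⟨x, hx⟩

lemma exists_LL {F : ℝ → ℝ} (hp : ∀ x, F (x + 1) = F x + 1) (hc : ContDiff ℝ ∞ F)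
    (hd : ∀ x, 0 < deriv F x) : ∃ X : LL, ∀ x, (X : Perm ℝ) x = F x := by
  have hm : StrictMono F := strictMono_of_deriv_pos hd
  set X : Perm ℝ := Equiv.ofBijective F (bij_of_per hm hc.continuous hp) with hX
  have hXm : StrictMono X := hm
  have hcont : Continuous (X⁻¹ : Perm ℝ) :=
    (strictMono_inv hXm).monotone.continuous_of_surjective (Equiv.surjective _)
  let e : ℝ ≃ₜ ℝ :=
    { toEquiv := X
      continuous_toFun := hc.continuous
      continuous_invFun := hcont }
  refine ⟨⟨X, hm, hp, hc, ?_⟩, fun x => rfl⟩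
  exact e.contDiff_symm_deriv (f' := deriv F) (fun x => (hd x).ne')
    (fun x => (hc.differentiable (by simp) x).hasDerivAt) hc

/-- periodic continuous functions are bounded -/
lemma bdd_of_per {P : ℝ → ℝ} (hp : ∀ x, P (x + 1) = P x) (hc : Continuous P) :
    ∃ C, 0 ≤ C ∧ ∀ x, |P x| ≤ C := by
  have h1 : IsCompact (range P) :=
    Function.Periodic.compact_of_continuous (c := 1) hp one_ne_zero hc
  obtain ⟨C, hC⟩ := h1.isBounded.exists_norm_le
  exact ⟨|C|, abs_nonneg _, fun x => (hC _ ⟨x, rfl⟩).trans (le_abs_self C)⟩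

lemma deriv_per {P : ℝ → ℝ} {c : ℝ} (hp : ∀ x, P (x + 1) = P x + c) (x : ℝ) :
    deriv P (x + 1) = deriv P x := by
  rw [← deriv_comp_add_const]
  have : (fun x => P (x + 1)) = fun x => P x + c := funext hp
  rw [this, deriv_add_const]

lemma iteratedDeriv_per {P : ℝ → ℝ} (hp : ∀ x, P (x + 1) = P x) (k : ℕ) (x : ℝ) :
    iteratedDeriv k P (x + 1) = iteratedDeriv k P x := by
  induction k generalizing x with
  | zero => simpa using hp x
  | succ k ih =>
    rw [iteratedDeriv_succ]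
    apply deriv_per (c := 0)
    intro x
    rw [ih, add_zero]

lemma iteratedDeriv_per' {P : ℝ → ℝ} {c : ℝ} (hp : ∀ x, P (x + 1) = P x + c) (k : ℕ) (x : ℝ) :
    iteratedDeriv (k + 1) P (x + 1) = iteratedDeriv (k + 1) P x := by
  rw [iteratedDeriv_succ']
  exact iteratedDeriv_per (deriv_per hp) k x

lemma IsL.deriv_pos {X : Perm ℝ} (h : IsL X) (x : ℝ) : 0 < deriv X x := by
  have h1 : HasDerivAt X (deriv X x) x := (h.c.differentiable (by simp) x).hasDerivAt
  have h2 : HasDerivAt (X⁻¹ : Perm ℝ) (deriv (X⁻¹ : Perm ℝ) (X x)) (X x) :=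
    (h.ci.differentiable (by simp) _).hasDerivAt
  have h3 := h2.comp x h1
  have h4 : ((X⁻¹ : Perm ℝ) : ℝ → ℝ) ∘ (X : ℝ → ℝ) = fun x => x := by
    funext z
    exact inv_app X z
  rw [h4] at h3
  have h5 := h3.unique (hasDerivAt_id' x)
  have h6 : 0 ≤ deriv X x := h.mono.monotone.deriv_nonneg
  rcases h6.eq_or_lt with h7 | h7
  · rw [← h7, mul_zero] at h5
    exact absurd h5 zero_ne_one
  · exact h7

lemma IsL.good {X : Perm ℝ} (h : IsL X) : GoodR X where
  mono := h.mono
  per := h.per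
  dist := by
    have hd1 : ContDiff ℝ ∞ (deriv X) := (contDiff_infty_iff_deriv.1 h.c).2
    have hper : ∀ x, X (x + 1) = X x + 1 := h.per
    obtain ⟨C, hC0, hC⟩ := bdd_of_per (P := deriv (deriv X))
      (deriv_per (c := 0) (fun x => by rw [deriv_per hper, add_zero]))
      ((contDiff_infty_iff_deriv.1 hd1).2.continuous)
    obtain ⟨K, hK0, hK⟩ := bdd_of_per (P := fun x => (deriv X x)⁻¹)
      (fun x => by simp only [deriv_per hper])
      (hd1.continuous.inv₀ (fun x => (h.deriv_pos x).ne'))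
    have hlow : ∀ x, 1 / (K + 1) ≤ deriv X x := by
      intro x
      have h1 := hK x
      have h2 := h.deriv_pos x
      have h4 : 0 < (deriv X x)⁻¹ := inv_pos.2 h2
      rw [abs_of_pos h4] at h1
      have h3 : 0 < K := by linarith
      rw [inv_le_comm₀ h2 h3] at h1
      calc 1 / (K + 1) ≤ K⁻¹ := by
            rw [one_div]
            exact inv_anti₀ h3 (by linarith)
        _ ≤ _ := h1
    refine ⟨C / (1 / (K + 1)), by positivity, ?_⟩
    intro p q x y z w hx hxy hy hz hzw hw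
    have key := dist_of_bounds (F := X) (a := p) (b := q) (c := 1 / (K + 1)) (C := C)
      h.c.continuous.continuousOn (fun x _ => h.c.differentiable (by simp) x)
      (fun x _ => hd1.differentiable (by simp) x) (fun x _ => hC x) (by positivity)
      (fun x _ => hlow x) hC0
    exact key p q x y z w le_rfl le_rfl hx hxy hy hz hzw hw

/-- as a degree one lift -/
def toD : LL →* CircleDeg1Lift where
  toFun X := ⟨⟨X, X.2.mono.monotone⟩, X.2.per⟩
  map_one' := rfl
  map_mul' _ _ := rfl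

lemma toD_apply (X : LL) (x : ℝ) : toD X x = (X : Perm ℝ) x := rfl

/-- translation number -/
def tau (X : LL) : ℝ := (toD X).translationNumber

lemma tau_mul {X Y : LL} (h : Commute X Y) : tau (X * Y) = tau X + tau Y := by
  rw [tau, map_mul]
  exact CircleDeg1Lift.translationNumber_mul_of_commute (h.map toD)

lemma tau_one : tau 1 = 0 := by
  rw [tau, map_one]
  exact CircleDeg1Lift.translationNumber_one

lemma tau_inv (X : LL) : tau X⁻¹ = -tau X := by
  have h1 := tau_mul (Commute.refl X).inv_right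
  rw [mul_inv_cancel, tau_one] at h1
  linarith

lemma tau_conj (X Y : LL) : tau (X * Y * X⁻¹) = tau Y := by
  rw [tau, map_mul, map_mul]
  exact CircleDeg1Lift.translationNumber_conj_eq (toD.toHomUnits X) (toD Y)

lemma tau_int (X : LL) {m : ℤ} : tau X = m ↔ ∃ x, (X : Perm ℝ) x = x + m :=
  CircleDeg1Lift.translationNumber_eq_int_iff (toD X) X.2.c.continuous

lemma tau_zero (X : LL) : tau X = 0 ↔ HFix (X : Perm ℝ) := by
  have := tau_int X (m := 0)
  simpa [HFix] using this

lemma fixProd_LL : FixProd LL := by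
  intro x hx y hy hc h1 h2
  have e1 := (tau_zero ⟨x, hx⟩).2 h1
  have e2 := (tau_zero ⟨y, hy⟩).2 h2
  have hc' : Commute (⟨x, hx⟩ : LL) ⟨y, hy⟩ := Subtype.ext hc
  have := tau_mul hc'
  rw [e1, e2, add_zero] at this
  exact (tau_zero _).1 this

/-- translations -/
def Tr (m : ℤ) : LL :=
  ⟨Equiv.addRight (m : ℝ),
    { mono := fun x y h => by simpa using h
      per := fun x => by simp; ring
      c := by
        change ContDiff ℝ ∞ (fun x : ℝ => x + m)
        fun_prop
      ci := by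
        change ContDiff ℝ ∞ (fun x : ℝ => x + -(m : ℝ))
        fun_prop }⟩

lemma Tr_apply (m : ℤ) (x : ℝ) : (Tr m : Perm ℝ) x = x + m := rfl

lemma LL_int (X : LL) (m : ℤ) (x : ℝ) : (X : Perm ℝ) (x + m) = (X : Perm ℝ) x + m :=
  X.2.good.per_int m x

lemma Tr_comm (m : ℤ) (X : LL) : Commute (Tr m) X := by
  apply Subtype.ext
  apply Perm.ext
  intro x
  change (X : Perm ℝ) x + m = (X : Perm ℝ) (x + m)
  rw [LL_int]

lemma tau_Tr (m : ℤ) : tau (Tr m) = m := (tau_int _).2 ⟨0, rfl⟩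

/-- `X` covers `φ` -/
def Cov (X : LL) (φ : Perm S1) : Prop := ∀ x : ℝ, φ (x : S1) = (((X : Perm ℝ) x : ℝ) : S1)

lemma Cov.mul {X Y : LL} {φ ψ : Perm S1} (h : Cov X φ) (h' : Cov Y ψ) :
    Cov (X * Y) (φ * ψ) := by
  intro x
  rw [Perm.mul_apply, h', h]; rfl

lemma Cov.inv {X : LL} {φ : Perm S1} (h : Cov X φ) : Cov X⁻¹ φ⁻¹ := by
  intro x
  rw [Perm.inv_eq_iff_eq, h]
  have : (X : Perm ℝ) (((X⁻¹ : LL) : Perm ℝ) x) = x := app_inv (X : Perm ℝ) x
  rw [this]

lemma Cov.one : Cov 1 1 := fun _ => rfl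

/-- covers differ by translations -/
lemma Cov.unique {X Y : LL} {φ : Perm S1} (h : Cov X φ) (h' : Cov Y φ) :
    ∃ m : ℤ, X = Tr m * Y := by
  have hZ : Cov (X * Y⁻¹) 1 := by
    have := h.mul h'.inv
    rwa [mul_inv_cancel] at this
  have key : ∀ x : ℝ, ∃ n : ℤ, ((X * Y⁻¹ : LL) : Perm ℝ) x = x + n := by
    intro x
    have h1 := hZ x
    rw [Perm.one_apply, eq_comm, QuotientAddGroup.eq_iff_sub_mem,
      AddSubgroup.mem_zmultiples_iff] at h1
    obtain ⟨n, hn⟩ := h1
    refine ⟨n, ?_⟩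
    rw [zsmul_eq_mul, mul_one] at hn
    linarith
  obtain ⟨m, hm⟩ := key 0
  have h0 : tau (X * Y⁻¹) = m := (tau_int _).2 ⟨0, hm⟩
  refine ⟨m, ?_⟩
  rw [← mul_inv_eq_iff_eq_mul]
  apply Subtype.ext
  apply Perm.ext
  intro x
  obtain ⟨n, hn⟩ := key x
  have h1 : tau (X * Y⁻¹) = n := (tau_int _).2 ⟨x, hn⟩
  rw [h0] at h1
  rw [hn, Tr_apply, ← h1]

lemma Cov.eq_of_tau {X Y : LL} {φ : Perm S1} (h : Cov X φ) (h' : Cov Y φ) (ht : tau X = tau Y) :
    X = Y := by
  obtain ⟨m, hm⟩ := h.unique h'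
  rw [hm, tau_mul (Tr_comm m Y), tau_Tr] at ht
  have h0 : (m : ℝ) = 0 := by linarith
  have h1 : m = 0 := by exact_mod_cast h0
  subst h1
  have h2 : Tr 0 = 1 := by
    apply Subtype.ext
    apply Perm.ext
    intro x
    rw [Tr_apply]
    simp
  rw [hm, h2, one_mul]

/-- covers of commuting elements commute -/
lemma Cov.commute {X Y : LL} {φ ψ : Perm S1} (h : Cov X φ) (h' : Cov Y ψ)
    (hc : Commute φ ψ) : Commute X Y := by
  have h1 : Cov (X * Y * X⁻¹) ψ := by
    have := (h.mul h').mul h.inv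
    rwa [hc.eq, mul_inv_cancel_right] at this
  have h2 := h1.eq_of_tau h' (tau_conj X Y)
  rw [mul_inv_eq_iff_eq_mul] at h2
  exact h2

lemma IsDiffInfC.exists_cov {φ : Perm S1} (h : IsDiffInfC φ) : ∃ X : LL, Cov X φ := by
  obtain ⟨F, hF, hc, hd⟩ := h
  obtain ⟨X, hX⟩ := exists_LL hF.1 hc hd
  refine ⟨X, fun x => ?_⟩
  rw [hF.2, hX]

/-- covers of a homomorphism -/
def PG {G : Type} [Group G] (ρ : G →* Perm S1) : Subgroup (LL × G) where
  carrier := {p | Cov p.1 (ρ p.2)}
  mul_mem' {p q} hp hq := by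
    change Cov (p.1 * q.1) (ρ (p.2 * q.2))
    rw [map_mul]
    exact Cov.mul hp hq
  one_mem' := by
    change Cov 1 (ρ 1)
    rw [map_one]
    exact Cov.one
  inv_mem' {p} hp := by
    change Cov p.1⁻¹ (ρ p.2⁻¹)
    rw [map_inv]
    exact Cov.inv hp

/-- lifting relations -/
lemma Rel.lift {Γ Δ : Type*} [Group Γ] [Group Δ] {s h H f : Γ} {g : ℕ → ℕ → Γ} (π : Γ →* Δ)
    (hπ : ∀ x y, Commute (π x) (π y) → Commute x y) (r1 : s * h * s⁻¹ = h ^ 2)
    (R : Rel (π s) (π h) (π H) (π f) (fun i N => π (g i N))) : Rel s h H f g where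
  r1 := r1
  r2s := by
    apply hπ
    simpa only [map_mul, map_inv, map_pow] using R.r2s
  r2h := by
    apply hπ
    simpa only [map_mul, map_inv, map_pow] using R.r2h
  r6 := by
    apply hπ
    simpa only [map_mul, map_inv, map_pow] using R.r6
  r6s := by
    intro n
    apply hπ
    simpa only [map_mul, map_inv, map_pow] using R.r6s n
  r6h := by
    intro n
    apply hπ
    simpa only [map_mul, map_inv, map_pow] using R.r6h n
  r7s := by
    intro i N n A hA
    apply hπ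
    rw [hA]
    simpa only [map_mul, map_inv, map_pow] using R.r7s i N n _ rfl
  r7h := by
    intro i N n A hA
    apply hπ
    rw [hA]
    simpa only [map_mul, map_inv, map_pow] using R.r7h i N n _ rfl

/-- relations kill `h` in smooth actions on the circle -/
theorem no_smooth_C {G : Type} [Group G] {s h H f b c : G} {g : ℕ → ℕ → G}
    (cs : Commute s (b * s * b⁻¹)) (cf : Commute f (b * f * b⁻¹))
    (cH : Commute H (c * H * c⁻¹)) (cg : ∀ i N, Commute (g i N) (c * g i N * c⁻¹))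
    (R : Rel (s * (b * s * b⁻¹)⁻¹) h (H * (c * H * c⁻¹)⁻¹) (f * (b * f * b⁻¹)⁻¹)
      (fun i N => g i N * (c * g i N * c⁻¹)⁻¹))
    (hh : h ≠ 1) : ¬ EmbedsInfC G := by
  rintro ⟨ρ, hinj, hρ⟩
  choose Lf hLf using fun g => (hρ g).exists_cov
  have hfix : ∀ x y : G, Commute x (y * x * y⁻¹) →
      ∃ X : LL, Cov X (ρ (x * (y * x * y⁻¹)⁻¹)) ∧ tau X = 0 := by
    intro x y hxy
    refine ⟨Lf x * (Lf y * Lf x * (Lf y)⁻¹)⁻¹, ?_, ?_⟩
    · rw [map_mul, map_inv, map_mul, map_mul, map_inv]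
      exact (hLf x).mul (((hLf y).mul (hLf x)).mul (hLf y).inv).inv
    · have h1 : Cov (Lf y * Lf x * (Lf y)⁻¹) (ρ (y * x * y⁻¹)) := by
        rw [map_mul, map_mul, map_inv]
        exact ((hLf y).mul (hLf x)).mul (hLf y).inv
      have h2 : Commute (Lf x) (Lf y * Lf x * (Lf y)⁻¹) := (hLf x).commute h1 (hxy.map ρ)
      rw [tau_mul h2.inv_right, tau_inv, tau_conj]
      ring
  obtain ⟨S, hS, hSt⟩ := hfix s b cs
  obtain ⟨F, hF, hFt⟩ := hfix f b cf
  obtain ⟨K, hK, hKt⟩ := hfix H c cH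
  choose E hE hEt using fun i N => hfix (g i N) c (cg i N)
  -- the lift of `h`
  obtain ⟨X, hX, hXt⟩ : ∃ X : LL, Cov X (ρ h) ∧ tau X = 0 := by
    have h1 : Cov (S * Lf h * S⁻¹) (ρ (h ^ 2)) := by
      rw [← R.r1, map_mul, map_mul, map_inv]
      exact (hS.mul (hLf h)).mul hS.inv
    have h2 : Cov (Lf h * Lf h) (ρ (h ^ 2)) := by
      rw [pow_two, map_mul]
      exact (hLf h).mul (hLf h)
    obtain ⟨m, hm⟩ := h1.unique h2
    have h3 := congrArg tau hm
    rw [tau_conj, tau_mul (Tr_comm m _), tau_Tr, tau_mul (Commute.refl _)] at h3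
    refine ⟨Tr m * Lf h, ?_, ?_⟩
    · have h4 : Cov (Tr m) 1 := by
        intro x
        rw [Perm.one_apply, Tr_apply, eq_comm, QuotientAddGroup.eq_iff_sub_mem,
          AddSubgroup.mem_zmultiples_iff]
        exact ⟨m, by rw [zsmul_eq_mul, mul_one]; ring⟩
      have := h4.mul (hLf h)
      rwa [one_mul] at this
    · rw [tau_mul (Tr_comm m _), tau_Tr]
      linarith
  have r1 : S * X * S⁻¹ = X ^ 2 := by
    have h1 : Cov (S * X * S⁻¹) (ρ (h ^ 2)) := by
      rw [← R.r1, map_mul, map_mul, map_inv]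
      exact (hS.mul hX).mul hS.inv
    have h2 : Cov (X * X) (ρ (h ^ 2)) := by
      rw [pow_two, map_mul]
      exact hX.mul hX
    rw [pow_two]
    apply h1.eq_of_tau h2
    rw [tau_conj, tau_mul (Commute.refl _), hXt, add_zero]
  -- the relations in the group of pairs
  set PS : PG ρ := ⟨(S, s * (b * s * b⁻¹)⁻¹), hS⟩ with hPS
  set PX : PG ρ := ⟨(X, h), hX⟩ with hPX
  set PK : PG ρ := ⟨(K, H * (c * H * c⁻¹)⁻¹), hK⟩ with hPK
  set PF : PG ρ := ⟨(F, f * (b * f * b⁻¹)⁻¹), hF⟩ with hPF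
  set PE : ℕ → ℕ → PG ρ := fun i N => ⟨(E i N, g i N * (c * g i N * c⁻¹)⁻¹), hE i N⟩ with hPE
  have RP : Rel PS PX PK PF PE := by
    apply Rel.lift ((MonoidHom.snd LL G).comp (Subgroup.subtype (PG ρ)))
    · intro x y hxy
      have h1 : Commute x.1.2 y.1.2 := hxy
      have h2 : Commute x.1.1 y.1.1 := Cov.commute x.2 y.2 (h1.map ρ)
      apply Subtype.ext
      apply Prod.ext
      · exact h2
      · exact h1
    · apply Subtype.ext
      apply Prod.ext
      · exact r1
      · exact R.r1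
    · exact R
  have RL := (RP.map ((MonoidHom.fst LL G).comp (Subgroup.subtype (PG ρ)))).map
    (Subgroup.subtype LL)
  have hgood : ∀ φ ∈ LL, GoodR φ := fun φ hφ => IsL.good hφ
  have hk := kills_hR hgood fixProd_LL (s := (S : Perm ℝ)) (h := (X : Perm ℝ))
    (H := (K : Perm ℝ)) (f := (F : Perm ℝ)) (g := fun i N => (E i N : Perm ℝ))
    S.2 X.2 K.2 F.2 (fun i N => (E i N).2) RL
    ((tau_zero S).1 hSt) ((tau_zero X).1 hXt) ((tau_zero K).1 hKt) ((tau_zero F).1 hFt)
    (fun i N => (tau_zero _).1 (hEt i N))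
    (fun i N => (E i N).2.c.sub contDiff_id)
    (fun i N k => by
      have hper : ∀ x, ((E i N : Perm ℝ) (x + 1) - (x + 1)) = (E i N : Perm ℝ) x - x := by
        intro x
        rw [(E i N).2.per]; ring
      have hsm : ContDiff ℝ ∞ (fun x => (E i N : Perm ℝ) x - x) := (E i N).2.c.sub contDiff_id
      obtain ⟨C, _, hC⟩ := bdd_of_per
        (P := iteratedDeriv k (fun x => (E i N : Perm ℝ) x - x))
        (iteratedDeriv_per hper k)
        (hsm.continuous_iteratedDeriv k (by exact_mod_cast le_top))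
      exact ⟨C, hC⟩)
  apply hh
  apply hinj
  rw [map_one]
  apply Perm.ext
  intro z
  obtain ⟨x, rfl⟩ := QuotientAddGroup.mk_surjective z
  rw [Perm.one_apply]
  have h1 := hX x
  rw [hk, Perm.one_apply] at h1
  exact h1

end

end Pool.Agent.Work.MP_4516ee_al
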