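import Mathlib
import Pool.Agent.Work.MP_4516ee_al.Circle

/-! Embedding compactly supported diffeomorphisms in the diffeomorphisms of the circle. -/

open Set Equiv
open scoped ContDiff

namespace Pool.Agent.Work.MP_4516ee_al

noncomputable section

lemma resF_strictMono {n : ℕ∞} {e : Perm ℝ} (h : IsD n e) : StrictMono (resF e) := by
  intro x y hxy
  have h1 : e (10 * x - 5) < e (10 * y - 5) := h.strictMono (by linarith)
  unfold resF
  linarith

lemma resF_off {n : ℕ∞} {e : Perm ℝ} (h : IsD n e) {x : ℝ} (hx : x ≤ 0 ∨ 1 ≤ x) :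
    resF e x = x := by
  unfold resF
  rw [h.off]
  · ring
  · rw [le_abs]
    rcases hx with hx | hx
    · right; linarith
    · left; linarith

lemma resF_Ico {n : ℕ∞} {e : Perm ℝ} (h : IsD n e) {x : ℝ} (hx : x ∈ Ico (0:ℝ) (0 + 1)) :
    resF e x ∈ Ico (0:ℝ) (0 + 1) := by
  have h0 : resF e 0 = 0 := resF_off h (Or.inl le_rfl)
  have h1 : resF e 1 = 1 := resF_off h (Or.inr le_rfl)
  have h2 := (resF_strictMono h).monotone hx.1
  have h3 := resF_strictMono h (show x < 1 by linarith [hx.2])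
  rw [h0] at h2
  rw [h1] at h3
  exact ⟨h2, by linarith⟩

/-- action on the fundamental domain -/
def permIco (n : ℕ∞) : DG n →* Perm (Ico (0:ℝ) (0 + 1)) where
  toFun e :=
    { toFun := fun x => ⟨resF e x, resF_Ico e.2 x.2⟩
      invFun := fun x => ⟨resF (e⁻¹ : DG n) x, resF_Ico (e⁻¹ : DG n).2 x.2⟩
      left_inv := by
        intro x
        apply Subtype.ext
        change resF ((e⁻¹ : DG n) : Perm ℝ) (resF e x) = x
        rw [resF_comp]
        have : ((e⁻¹ : DG n) : Perm ℝ) * (e : Perm ℝ) = 1 := by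
          rw [← Subgroup.coe_mul, inv_mul_cancel, Subgroup.coe_one]
        rw [this, resF_one]
      right_inv := by
        intro x
        apply Subtype.ext
        change resF (e : Perm ℝ) (resF ((e⁻¹ : DG n) : Perm ℝ) x) = x
        rw [resF_comp]
        have : (e : Perm ℝ) * ((e⁻¹ : DG n) : Perm ℝ) = 1 := by
          rw [← Subgroup.coe_mul, mul_inv_cancel, Subgroup.coe_one]
        rw [this, resF_one] }
  map_one' := by
    apply Perm.ext
    intro x
    apply Subtype.ext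
    change resF (1 : Perm ℝ) x = x
    exact resF_one x
  map_mul' e e' := by
    apply Perm.ext
    intro x
    apply Subtype.ext
    change resF ((e * e' : DG n) : Perm ℝ) x = resF e (resF e' x)
    rw [resF_comp]; rfl

lemma permIco_inj (n : ℕ∞) : Function.Injective (permIco n) := by
  intro e e' h
  apply Subtype.ext
  apply Perm.ext
  intro y
  by_cases hy : 5 ≤ |y|
  · rw [IsD.off e.2 y hy, IsD.off e'.2 y hy]
  · push Not at hy
    rw [abs_lt] at hy
    have hx : (y + 5) / 10 ∈ Ico (0:ℝ) (0 + 1) := ⟨by linarith, by linarith⟩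
    have h1 : permIco n e ⟨_, hx⟩ = permIco n e' ⟨_, hx⟩ := by rw [h]
    have h2 : resF e ((y + 5) / 10) = resF e' ((y + 5) / 10) := congrArg Subtype.val h1
    unfold resF at h2
    have h3 : 10 * ((y + 5) / 10) - 5 = y := by ring
    rw [h3] at h2
    linarith

instance : Fact ((0:ℝ) < 1) := ⟨one_pos⟩

/-- action on the circle -/
def resC (n : ℕ∞) : DG n →* Perm S1 :=
  (Equiv.permCongrHom (AddCircle.equivIco (1:ℝ) 0).symm).toMonoidHom.comp (permIco n)

lemma resC_inj (n : ℕ∞) : Function.Injective (resC n) :=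
  (Equiv.permCongrHom (AddCircle.equivIco (1:ℝ) 0).symm).injective.comp (permIco_inj n)

/-- the lift -/
def FC (e : Perm ℝ) (x : ℝ) : ℝ := ⌊x⌋ + resF e (Int.fract x)

lemma FC_per (e : Perm ℝ) (x : ℝ) : FC e (x + 1) = FC e x + 1 := by
  unfold FC
  rw [Int.floor_add_one, Int.fract_add_one]
  push_cast
  ring

lemma fract_Ico (x : ℝ) : Int.fract x ∈ Ico (0:ℝ) (0 + 1) :=
  ⟨Int.fract_nonneg x, by rw [zero_add]; exact Int.fract_lt_one x⟩

lemma coe_add_int (m : ℤ) (x : ℝ) : (((m : ℝ) + x : ℝ) : S1) = (x : S1) := by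
  rw [QuotientAddGroup.eq_iff_sub_mem, AddSubgroup.mem_zmultiples_iff]
  exact ⟨m, by rw [zsmul_eq_mul, mul_one]; ring⟩

lemma resC_cov {n : ℕ∞} (e : DG n) (x : ℝ) : resC n e (x : S1) = ((FC e x : ℝ) : S1) := by
  have h1 : (x : S1) = ((Int.fract x : ℝ) : S1) := by
    rw [← coe_add_int ⌊x⌋ (Int.fract x), Int.floor_add_fract]
  have h2 : AddCircle.equivIco (1:ℝ) 0 (x : S1) = ⟨Int.fract x, fract_Ico x⟩ := by
    rw [h1]
    exact AddCircle.equivIco_coe_eq (fract_Ico x)
  change (AddCircle.equivIco (1:ℝ) 0).symm (permIco n e (AddCircle.equivIco (1:ℝ) 0 (x : S1))) = _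
  rw [h2]
  change ((resF e (Int.fract x) : ℝ) : S1) = _
  rw [FC, coe_add_int]

lemma FC_comp {n : ℕ∞} {e e' : Perm ℝ} (h' : IsD n e') (x : ℝ) :
    FC e (FC e' x) = FC (e * e') x := by
  have h1 := resF_Ico h' (fract_Ico x)
  have h2 : ⌊FC e' x⌋ = ⌊x⌋ := by
    unfold FC
    rw [Int.floor_intCast_add]
    have : ⌊resF e' (Int.fract x)⌋ = 0 := by
      rw [Int.floor_eq_zero_iff]
      exact ⟨h1.1, by linarith [h1.2]⟩
    rw [this, add_zero]
  have h3 : Int.fract (FC e' x) = resF e' (Int.fract x) := by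
    rw [Int.fract, h2]
    unfold FC
    ring
  rw [FC, h2, h3, resF_comp]
  rfl

lemma FC_one (x : ℝ) : FC 1 x = x := by
  rw [FC, resF_one, Int.floor_add_fract]

lemma FC_mono {n : ℕ∞} {e : Perm ℝ} (h : IsD n e) : Monotone (FC e) := by
  intro x y hxy
  unfold FC
  rcases (Int.floor_mono hxy).eq_or_lt with h1 | h1
  · rw [h1]
    have : Int.fract x ≤ Int.fract y := by
      rw [Int.fract, Int.fract, h1]
      linarith
    have := (resF_strictMono h).monotone this
    linarith
  · have h2 : (⌊x⌋ : ℝ) + 1 ≤ ⌊y⌋ := by exact_mod_cast h1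
    have h3 := (resF_Ico h (fract_Ico x)).2
    have h4 := (resF_Ico h (fract_Ico y)).1
    linarith

lemma FC_contDiff {n : ℕ∞} {e : Perm ℝ} (h : IsD n e) : ContDiff ℝ n (FC e) := by
  rw [contDiff_iff_contDiffAt]
  intro x₀
  set m := ⌊x₀⌋ with hm
  have h1 : FC e =ᶠ[nhds x₀] fun x => x + ((resF e (x - m) - (x - m)) +
      (resF e (x - m + 1) - (x - m + 1))) := by
    have hx1 : (m : ℝ) - 1 < x₀ := by linarith [Int.floor_le x₀]
    have hx2 : x₀ < m + 1 := Int.lt_floor_add_one x₀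
    filter_upwards [Ioo_mem_nhds hx1 hx2] with x hx
    rcases le_or_gt (m : ℝ) x with hc | hc
    · have hf : ⌊x⌋ = m := by
        rw [Int.floor_eq_iff]
        exact ⟨hc, hx.2⟩
      rw [FC, Int.fract, hf, resF_off h (x := x - m + 1) (Or.inr (by linarith))]
      ring
    · have hf : ⌊x⌋ = m - 1 := by
        rw [Int.floor_eq_iff]
        push_cast
        exact ⟨hx.1.le, by linarith⟩
      rw [FC, Int.fract, hf, resF_off h (x := x - m) (Or.inl (by linarith))]
      push_cast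
      have e1 : x - ((m : ℝ) - 1) = x - m + 1 := by ring
      rw [e1]
      ring
  apply ContDiffAt.congr_of_eventuallyEq _ h1
  have h2 := resF_contDiff h
  have h3 : ContDiff ℝ n (fun x : ℝ => x - m) := by fun_prop
  have h4 : ContDiff ℝ n (fun x : ℝ => x - m + 1) := by fun_prop
  exact (contDiff_id.add (((h2.comp h3).sub h3).add ((h2.comp h4).sub h4))).contDiffAt

lemma FC_deriv_pos {n : ℕ∞} (hn : 1 ≤ n) {e : Perm ℝ} (h : IsD n e) (x : ℝ) :
    0 < deriv (FC e) x := by
  have hn0 : ((n : ℕ∞) : WithTop ℕ∞) ≠ 0 := by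
    intro h0
    have : n = 0 := by exact_mod_cast h0
    rw [this] at hn
    exact absurd hn (by simp)
  have h1 : HasDerivAt (FC e) (deriv (FC e) x) x :=
    ((FC_contDiff h).differentiable hn0 x).hasDerivAt
  have h2 : HasDerivAt (FC e⁻¹) (deriv (FC e⁻¹) (FC e x)) (FC e x) :=
    ((FC_contDiff h.inv).differentiable hn0 _).hasDerivAt
  have h3 := h2.comp x h1
  have h4 : (FC e⁻¹) ∘ (FC e) = fun x => x := by
    funext z
    simp only [Function.comp]
    rw [FC_comp h, inv_mul_cancel, FC_one]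
  rw [h4] at h3
  have h5 := h3.unique (hasDerivAt_id' x)
  have h6 : 0 ≤ deriv (FC e) x := (FC_mono h).deriv_nonneg
  rcases h6.eq_or_lt with h7 | h7
  · rw [← h7, mul_zero] at h5
    exact absurd h5 zero_ne_one
  · exact h7

lemma resC_isDiff {r : ℝ} (hr : 1 ≤ r) {k : ℕ} (hk : ⌊r⌋₊ = k) (e : DG ((k + 1 : ℕ) : ℕ∞)) :
    IsDiffC r (resC _ e) := by
  have hk1 : 1 ≤ k := by
    rw [← hk]
    exact Nat.le_floor (by exact_mod_cast hr)
  obtain ⟨l, rfl⟩ : ∃ l, k = l + 1 := ⟨k - 1, by omega⟩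
  have hF := FC_contDiff (n := ((l + 1 + 1 : ℕ) : ℕ∞)) e.2
  have hle : ((l + 1 : ℕ) : WithTop ℕ∞) ≤ (((l + 1 + 1 : ℕ) : ℕ∞) : WithTop ℕ∞) := by
    exact_mod_cast Nat.le_succ (l + 1)
  have hlt : ((l + 1 : ℕ) : WithTop ℕ∞) < (((l + 1 + 1 : ℕ) : ℕ∞) : WithTop ℕ∞) := by
    exact_mod_cast Nat.lt_succ_self (l + 1)
  refine ⟨FC e, ⟨FC_per e, resC_cov e⟩, ?_, ?_, ?_⟩
  · rw [hk]
    exact hF.of_le hle
  · exact FC_deriv_pos (by exact_mod_cast Nat.succ_le_succ (Nat.zero_le _)) e.2
  · rw [hk]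
    have hdiff : Differentiable ℝ (iteratedDeriv (l + 1) (FC e)) :=
      hF.differentiable_iteratedDeriv (l + 1) hlt
    have hcont : Continuous (deriv (iteratedDeriv (l + 1) (FC e))) := by
      rw [← iteratedDeriv_succ]
      exact hF.continuous_iteratedDeriv (l + 1 + 1) le_rfl
    have hper0 := iteratedDeriv_per' (FC_per e) l
    have hper1 := iteratedDeriv_per' (FC_per e) (l + 1)
    rw [iteratedDeriv_succ] at hper1
    obtain ⟨C0, hC00, hC0⟩ := bdd_of_per hper0 hdiff.continuous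
    obtain ⟨C1, hC10, hC1⟩ := bdd_of_per hper1 hcont
    refine ⟨C1 + 2 * C0, fun x y => ?_⟩
    have hr0 : 0 ≤ r - ((l + 1 : ℕ) : ℝ) := by
      have := Nat.floor_le (show 0 ≤ r by linarith)
      rw [hk] at this
      linarith
    have hr1 : r - ((l + 1 : ℕ) : ℝ) ≤ 1 := by
      have := Nat.lt_floor_add_one r
      rw [hk] at this
      linarith
    have h1 := convex_univ.norm_image_sub_le_of_norm_deriv_le
      (f := iteratedDeriv (l + 1) (FC e)) (C := C1) (fun z _ => hdiff z)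
      (fun z _ => hC1 z) (mem_univ y) (mem_univ x)
    rw [Real.norm_eq_abs, Real.norm_eq_abs] at h1
    rcases le_or_gt |x - y| 1 with h | h
    · rcases (abs_nonneg (x - y)).eq_or_lt with h0 | h0
      · rw [← h0, mul_zero] at h1
        refine h1.trans ?_
        have := Real.rpow_nonneg (abs_nonneg (x - y)) (r - ((l + 1 : ℕ) : ℝ))
        positivity
      · have h2 : |x - y| ≤ |x - y| ^ (r - ((l + 1 : ℕ) : ℝ)) := by
          calc |x - y| = |x - y| ^ (1:ℝ) := (Real.rpow_one _).symm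
            _ ≤ |x - y| ^ (r - ((l + 1 : ℕ) : ℝ)) := Real.rpow_le_rpow_of_exponent_ge h0 h hr1
        calc _ ≤ C1 * |x - y| := h1
          _ ≤ (C1 + 2 * C0) * |x - y| := by
              apply mul_le_mul_of_nonneg_right _ h0.le
              linarith
          _ ≤ _ := by
              apply mul_le_mul_of_nonneg_left h2
              linarith
    · have h2 : 1 ≤ |x - y| ^ (r - ((l + 1 : ℕ) : ℝ)) := Real.one_le_rpow h.le hr0
      have h3 : |iteratedDeriv (l + 1) (FC e) x - iteratedDeriv (l + 1) (FC e) y| ≤ 2 * C0 := by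
        have := abs_sub (iteratedDeriv (l + 1) (FC e) x) (iteratedDeriv (l + 1) (FC e) y)
        linarith [hC0 x, hC0 y]
      calc _ ≤ 2 * C0 := h3
        _ ≤ (C1 + 2 * C0) * 1 := by linarith
        _ ≤ _ := by
            apply mul_le_mul_of_nonneg_left h2
            linarith

end

end Pool.Agent.Work.MP_4516ee_al
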