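import Mathlib
import Pool.Agent.Work.MP_4516ee_al.MainI

/-! The enlarged group. -/

open Set Equiv
open scoped ContDiff

namespace Pool.Agent.Work.MP_4516ee_al

noncomputable section

/-- permutations equal to the identity off `(-5,5)` -/
def OFF : Subgroup (Perm ℝ) where
  carrier := {e | ∀ y, 5 ≤ |y| → e y = y}
  mul_mem' {e e'} h h' y hy := by rw [Perm.mul_apply, h' y hy, h y hy]
  one_mem' _ _ := rfl
  inv_mem' {e} h y hy := fix_inv (h y hy)

/-- scaling into `D` -/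
def Sc : Perm ℝ →* Perm ℝ where
  toFun e := Bm e (-(7 / 8)) (1 / 80) (by norm_num)
  map_one' := Bm_one _ _ _
  map_mul' e e' := (Bm_mul e e' _ _ _).symm

lemma Sc_apply (e : Perm ℝ) (y : ℝ) :
    Sc e y = -(7 / 8) + 1 / 80 * e ((y - -(7 / 8)) / (1 / 80)) := rfl

lemma Sc_inj : Function.Injective Sc := by
  intro e e' h
  apply Perm.ext
  intro y
  have h1 := congrArg (fun φ : Perm ℝ => φ (-(7 / 8) + 1 / 80 * y)) h
  simp only [Sc_apply] at h1
  have h2 : (-(7 / 8) + 1 / 80 * y - -(7 / 8)) / (1 / 80) = y := by ring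
  rw [h2] at h1
  linarith

lemma Sc_off {e : Perm ℝ} (he : e ∈ OFF) {y : ℝ} (hy : y ∉ DD) : Sc e y = y := by
  rw [Sc_apply, he]
  · ring
  · by_contra hc
    push Not at hc
    rw [abs_lt] at hc
    apply hy
    constructor <;> linarith [hc.1, hc.2]

lemma DG_le_OFF (n : ℕ∞) : DG n ≤ OFF := fun _ he => IsD.off he

lemma Sc_isD {n : ℕ∞} {e : Perm ℝ} (he : IsD n e) : IsD n (Sc e) := by
  have key : ∀ e : Perm ℝ, IsD n e → ContDiff ℝ n (Sc e) := by
    intro e he
    change ContDiff ℝ n (fun y : ℝ => -(7 / 8) + 1 / 80 * e ((y - -(7 / 8)) / (1 / 80)))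
    have h1 : ContDiff ℝ n (fun y : ℝ => (y - -(7 / 8)) / (1 / 80)) := by fun_prop
    exact contDiff_const.add (contDiff_const.mul (he.c.comp h1))
  refine ⟨key e he, ?_, ?_⟩
  · rw [← map_inv]
    exact key _ he.inv
  · intro y hy
    apply Sc_off (DG_le_OFF n he)
    intro hD
    rcases le_abs.1 hy with h | h
    · linarith [hD.2]
    · linarith [hD.1]

lemma piece_off (e : ℤ → OFF) (j : ℤ) (y : ℝ) (hy : y ∉ SS j) :
    (HP ^ j * Sc (e j : Perm ℝ) * (HP ^ j)⁻¹ : Perm ℝ) y = y := by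
  have h1 : ((HP ^ j)⁻¹ : Perm ℝ) y ∉ DD := hy
  rw [Perm.mul_apply, Perm.mul_apply, Sc_off (e j).2 h1, app_inv]

/-- gluing of copies -/
def GlF (e : ℤ → OFF) : Perm ℝ :=
  gluePerm SS (fun j => HP ^ j * Sc (e j : Perm ℝ) * (HP ^ j)⁻¹) SS_disj (piece_off e)

lemma GlF_on (e : ℤ → OFF) {j : ℤ} {y : ℝ} (hy : y ∈ SS j) :
    GlF e y = (HP ^ j * Sc (e j : Perm ℝ) * (HP ^ j)⁻¹ : Perm ℝ) y := gluePerm_on hy

lemma GlF_off (e : ℤ → OFF) {y : ℝ} (hy : ∀ j, y ∉ SS j) : GlF e y = y := gluePerm_off hy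

/-- gluing is a homomorphism -/
def Gl : (ℤ → OFF) →* Perm ℝ where
  toFun := GlF
  map_one' := by
    apply Perm.ext
    intro y
    by_cases hy : ∃ j, y ∈ SS j
    · obtain ⟨j, hj⟩ := hy
      rw [GlF_on _ hj, Pi.one_apply, Subgroup.coe_one, map_one, mul_one, mul_inv_cancel]
    · push Not at hy
      rw [GlF_off _ hy]; rfl
  map_mul' e e' := by
    apply Perm.ext
    intro y
    rw [Perm.mul_apply]
    by_cases hy : ∃ j, y ∈ SS j
    · obtain ⟨j, hj⟩ := hy
      have h1 : (HP ^ j * Sc (e' j : Perm ℝ) * (HP ^ j)⁻¹ : Perm ℝ) y ∈ SS j :=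
        mem_of_off (piece_off e' j) hj
      rw [GlF_on _ hj, GlF_on _ hj, GlF_on _ h1, Pi.mul_apply, Subgroup.coe_mul, map_mul,
        ← Perm.mul_apply]
      congr 1
      group
    · push Not at hy
      rw [GlF_off _ hy, GlF_off _ hy, GlF_off _ hy]

lemma Gl_on (e : ℤ → OFF) {j : ℤ} {y : ℝ} (hy : y ∈ SS j) :
    Gl e y = (HP ^ j * Sc (e j : Perm ℝ) * (HP ^ j)⁻¹ : Perm ℝ) y := GlF_on e hy

lemma Gl_off (e : ℤ → OFF) {y : ℝ} (hy : ∀ j, y ∉ SS j) : Gl e y = y := GlF_off e hy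

lemma Gl_single (j : ℤ) (x : OFF) :
    Gl (Pi.mulSingle j x) = HP ^ j * Sc (x : Perm ℝ) * (HP ^ j)⁻¹ := by
  apply Perm.ext
  intro y
  by_cases hy : ∃ i, y ∈ SS i
  · obtain ⟨i, hi⟩ := hy
    rw [Gl_on _ hi]
    by_cases hij : i = j
    · subst hij
      rw [Pi.mulSingle_eq_same]
    · rw [Pi.mulSingle_eq_of_ne hij, Subgroup.coe_one, map_one, mul_one, mul_inv_cancel]
      have h1 : y ∉ SS j := fun hj => hij (SS_disj _ _ _ hi hj)
      have h2 : ((HP ^ j)⁻¹ : Perm ℝ) y ∉ DD := h1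
      rw [Perm.mul_apply, Perm.mul_apply, Sc_off x.2 h2, app_inv, Perm.one_apply]
  · push Not at hy
    have h2 : ((HP ^ j)⁻¹ : Perm ℝ) y ∉ DD := hy j
    rw [Gl_off _ hy, Perm.mul_apply, Perm.mul_apply, Sc_off x.2 h2, app_inv]

lemma Gl_single_zero (x : OFF) : Gl (Pi.mulSingle 0 x) = Sc (x : Perm ℝ) := by
  rw [Gl_single, zpow_zero, one_mul, inv_one, mul_one]

/-- constant families commute with the shift -/
lemma Gl_const (x : OFF) : Commute (Gl (fun _ => x)) HP := by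
  apply Perm.ext
  intro y
  rw [Perm.mul_apply, Perm.mul_apply]
  by_cases hy : ∃ i, y ∈ SS i
  · obtain ⟨i, hi⟩ := hy
    have h1 : HP y ∈ SS (i + 1) := by
      rw [mem_SS] at hi ⊢
      have : ((HP ^ (i + 1))⁻¹ : Perm ℝ) (HP y) = ((HP ^ i)⁻¹ : Perm ℝ) y := by
        rw [← Perm.mul_apply]
        congr 1
        rw [zpow_add, zpow_one, mul_inv_rev]
        have : Commute HP ((HP ^ i)⁻¹ : Perm ℝ) := ((Commute.refl HP).zpow_right i).inv_right
        rw [mul_assoc, ← this.eq, inv_mul_cancel_left]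
      rwa [this]
    rw [Gl_on _ hi, Gl_on _ h1, ← Perm.mul_apply, ← Perm.mul_apply]
    congr 1
    rw [zpow_add, zpow_one]
    have : Commute HP (HP ^ i) := (Commute.refl HP).zpow_right i
    rw [← this.eq]
    group
  · push Not at hy
    have h1 : ∀ i, HP y ∉ SS i := by
      intro i hi
      apply hy (i - 1)
      rw [mem_SS] at hi ⊢
      have : ((HP ^ (i - 1))⁻¹ : Perm ℝ) y = ((HP ^ i)⁻¹ : Perm ℝ) (HP y) := by
        rw [zpow_sub, zpow_one, mul_inv_rev, inv_inv, ← Perm.mul_apply]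
        congr 1
        exact (((Commute.refl HP).zpow_right i).inv_right).eq
      rwa [this]
    rw [Gl_off _ hy, Gl_off _ h1]

/-- conjugation of a copy -/
lemma Gl_conj (Ψ x : OFF) : Gl (fun _ => Ψ) * Sc (x : Perm ℝ) * (Gl (fun _ => Ψ))⁻¹ =
    Sc ((Ψ * x * Ψ⁻¹ : OFF) : Perm ℝ) := by
  rw [← Gl_single_zero, ← Gl_single_zero, ← map_inv, ← map_mul, ← map_mul]
  congr 1
  funext j
  by_cases hj : j = 0
  · subst hj
    simp only [Pi.mul_apply, Pi.inv_apply, Pi.mulSingle_eq_same]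
  · simp only [Pi.mul_apply, Pi.inv_apply, Pi.mulSingle_eq_of_ne hj, mul_one, mul_inv_cancel]

/-- the assignment of the generators of the enlarged group in a model -/
def genMapC {f : Perm ℝ} (hf : FOK f) : Option Gen → Perm ℝ
  | none => HP
  | some x => Sc (genMap hf x)

/-- the representation of the free group -/
def repC {f : Perm ℝ} (hf : FOK f) : FreeGroup (Option Gen) →* Perm ℝ :=
  FreeGroup.lift (genMapC hf)

/-- the enlarged group -/
def GC : Subgroup (Perm ℝ) := (repC FP_FOK).range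

instance : Countable GC := by
  have h : Function.Surjective ((repC FP_FOK).rangeRestrict) :=
    MonoidHom.rangeRestrict_surjective _
  exact h.countable

lemma gP_off {f : Perm ℝ} (hf : FOK f) (i M : ℕ) (y : ℝ) (hy : 5 ≤ |y|) : gP hf i M y = y := by
  apply gluePerm_off
  intro n hn
  rw [mem_SP, fix_inv ((AP_isD hf i M n).off y hy)] at hn
  rcases le_abs.1 hy with h | h
  · linarith [hn.2]
  · linarith [hn.1]

lemma genMap_OFF {f : Perm ℝ} (hf : FOK f) (x : Gen) : genMap hf x ∈ OFF := by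
  cases x with
  | s => exact DG_le_OFF ⊤ (KK_isD _ _)
  | h => exact DG_le_OFF ⊤ (KK_isD _ _)
  | H => exact DG_le_OFF ⊤ HP_isD
  | f => exact DG_le_OFF ⊤ hf.d
  | g i M => exact gP_off hf i M

/-- The enlarged group embeds in the `C^k` diffeomorphisms for each `k`. -/
theorem GC_embeds (k : ℕ) : ∃ σ : GC →* DG k, Function.Injective σ := by
  obtain ⟨ε, N, L, c, J, hN, hε, hc16, hc1, hL, hg⟩ := exists_params k
  obtain ⟨Ψ, hH, hf, hJ, hΨ⟩ := conj_models hN L hε hc16 hc1 hL 0 J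
  rw [fm_zero] at hf
  have hconj := conj_gens FP_FOK (fm_FOK hN L J) hH hf hJ
  have hΨO : Ψ ∈ OFF := hΨ
  set Θ : Perm ℝ := Gl (fun _ => ⟨Ψ, hΨO⟩) with hΘ
  have hconjC : ∀ x : Option Gen, Θ * genMapC FP_FOK x * Θ⁻¹ = genMapC (fm_FOK hN L J) x := by
    intro x
    cases x with
    | none =>
      change Θ * HP * Θ⁻¹ = HP
      rw [hΘ, (Gl_const _).eq, mul_inv_cancel_right]
    | some x =>
      change Θ * Sc (genMap FP_FOK x) * Θ⁻¹ = Sc (genMap (fm_FOK hN L J) x)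
      have := Gl_conj ⟨Ψ, hΨO⟩ ⟨genMap FP_FOK x, genMap_OFF _ x⟩
      rw [← hΘ] at this
      rw [this, ← hconj x]
      rfl
  have hrep : ∀ w : FreeGroup (Option Gen), Θ * repC FP_FOK w * Θ⁻¹ =
      repC (fm_FOK hN L J) w := by
    intro w
    have h1 : (MulAut.conj Θ).toMonoidHom.comp (repC FP_FOK) = repC (fm_FOK hN L J) := by
      apply FreeGroup.ext_hom
      intro x
      change Θ * repC FP_FOK (FreeGroup.of x) * Θ⁻¹ = repC (fm_FOK hN L J) (FreeGroup.of x)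
      rw [repC, repC, FreeGroup.lift_apply_of, FreeGroup.lift_apply_of]
      exact hconjC x
    exact congrArg (fun φ : FreeGroup (Option Gen) →* Perm ℝ => φ w) h1
  have hDG : ∀ w : FreeGroup (Option Gen), repC (fm_FOK hN L J) w ∈ DG (k : ℕ∞) := by
    intro w
    have h1 : (repC (fm_FOK hN L J)).range ≤ DG (k : ℕ∞) := by
      rw [repC, FreeGroup.range_lift_eq_closure, Subgroup.closure_le]
      rintro _ ⟨x, rfl⟩
      cases x with
      | none => exact HP_isD.mono le_top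
      | some x =>
        apply Sc_isD
        cases x with
        | s => exact (KK_isD _ _).mono le_top
        | h => exact (KK_isD _ _).mono le_top
        | H => exact HP_isD.mono le_top
        | f => exact (fm_isD hN L J).mono le_top
        | g i M => exact hg i M
    exact h1 ⟨w, rfl⟩
  have hmem : ∀ x : GC, Θ * (x : Perm ℝ) * Θ⁻¹ ∈ DG (k : ℕ∞) := by
    rintro ⟨_, w, rfl⟩
    rw [hrep w]
    exact hDG w
  refine ⟨{ toFun := fun x => ⟨Θ * (x : Perm ℝ) * Θ⁻¹, hmem x⟩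
            map_one' := ?_
            map_mul' := ?_ }, ?_⟩
  · apply Subtype.ext
    simp
  · intro x y
    apply Subtype.ext
    change Θ * ((x : Perm ℝ) * (y : Perm ℝ)) * Θ⁻¹ =
      (Θ * (x : Perm ℝ) * Θ⁻¹) * (Θ * (y : Perm ℝ) * Θ⁻¹)
    group
  · intro x y hxy
    apply Subtype.ext
    have h1 : Θ * (x : Perm ℝ) * Θ⁻¹ = Θ * (y : Perm ℝ) * Θ⁻¹ := congrArg Subtype.val hxy
    simpa using h1

/-- relations in products -/
lemma Rel.pi {ι : Type*} {Γ : ι → Type*} [∀ i, Group (Γ i)] {s h H f : ∀ i, Γ i}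
    {g : ℕ → ℕ → ∀ i, Γ i} (R : ∀ i, Rel (s i) (h i) (H i) (f i) (fun a b => g a b i)) :
    Rel s h H f g where
  r1 := funext fun i => (R i).r1
  r2s := Pi.commute_iff.2 fun i => (R i).r2s
  r2h := Pi.commute_iff.2 fun i => (R i).r2h
  r6 := Pi.commute_iff.2 fun i => (R i).r6
  r6s n := Pi.commute_iff.2 fun i => (R i).r6s n
  r6h n := Pi.commute_iff.2 fun i => (R i).r6h n
  r7s a b n A hA := Pi.commute_iff.2 fun i => by
    subst hA
    exact (R i).r7s a b n _ rfl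
  r7h a b n A hA := Pi.commute_iff.2 fun i => by
    subst hA
    exact (R i).r7h a b n _ rfl

lemma Rel.triv {Γ : Type*} [Group Γ] : Rel (1 : Γ) 1 1 1 (fun _ _ => 1) := by
  constructor <;> intros <;> simp

lemma Rel.slot1 {Γ : Type*} [Group Γ] (H : Γ) (g : ℕ → ℕ → Γ) : Rel (1 : Γ) 1 H 1 g := by
  constructor <;> intros <;> simp

lemma Rel.slot2 {Γ : Type*} [Group Γ] (s f : Γ) : Rel s (1 : Γ) 1 f (fun _ _ => 1) := by
  constructor <;> intros <;> simp

end

end Pool.Agent.Work.MP_4516ee_al
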