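import Mathlib
import Pool.Agent.Work.MP_4516ee_al.Wreath
import Pool.Agent.Work.MP_4516ee_al.CircEmb

/-! The result on both manifolds. -/

open Set Equiv
open scoped ContDiff

namespace Pool.Agent.Work.MP_4516ee_al

noncomputable section

/-- the generators in `OFF` -/
def gN (x : Gen) : OFF := ⟨genMap FP_FOK x, genMap_OFF FP_FOK x⟩

lemma commute_of_inj {Γ Δ : Type*} [Group Γ] [Group Δ] {π : Γ →* Δ}
    (hπ : Function.Injective π) (x y : Γ) (h : Commute (π x) (π y)) : Commute x y := by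
  apply hπ
  rw [map_mul, map_mul]
  exact h

lemma gN_rel : Rel (gN Gen.s) (gN Gen.h) (gN Gen.H) (gN Gen.f) (fun i M => gN (Gen.g i M)) := by
  apply Rel.lift (Subgroup.subtype OFF) (commute_of_inj (Subgroup.subtype_injective OFF))
  · apply Subtype.ext
    exact (rel_model FP_FOK).r1
  · exact rel_model FP_FOK

/-- first twisted element -/
def tw (k : ℤ) (x : OFF) : ℤ → OFF := Pi.mulSingle 0 x * (Pi.mulSingle k x)⁻¹

lemma tw_zero {k : ℤ} (hk : k ≠ 0) (x : OFF) : tw k x 0 = x := by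
  rw [tw, Pi.mul_apply, Pi.inv_apply, Pi.mulSingle_eq_same, Pi.mulSingle_eq_of_ne hk.symm,
    inv_one, mul_one]

lemma tw_self {k : ℤ} (hk : k ≠ 0) (x : OFF) : tw k x k = x⁻¹ := by
  rw [tw, Pi.mul_apply, Pi.inv_apply, Pi.mulSingle_eq_same, Pi.mulSingle_eq_of_ne hk, one_mul]

lemma tw_ne {k j : ℤ} (h0 : j ≠ 0) (hk : j ≠ k) (x : OFF) : tw k x j = 1 := by
  rw [tw, Pi.mul_apply, Pi.inv_apply, Pi.mulSingle_eq_of_ne h0, Pi.mulSingle_eq_of_ne hk,
    inv_one, mul_one]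

lemma tw_rel : Rel (tw 2 (gN Gen.s)) (Pi.mulSingle 0 (gN Gen.h)) (tw 1 (gN Gen.H))
    (tw 2 (gN Gen.f)) (fun i M => tw 1 (gN (Gen.g i M))) := by
  apply Rel.pi
  intro j
  by_cases h0 : j = 0
  · subst h0
    simp only [tw_zero two_ne_zero, tw_zero one_ne_zero, Pi.mulSingle_eq_same]
    exact gN_rel
  · rw [Pi.mulSingle_eq_of_ne h0]
    by_cases h1 : j = 1
    · subst h1
      simp only [tw_self one_ne_zero, tw_ne one_ne_zero (show (1:ℤ) ≠ 2 by norm_num)]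
      exact Rel.slot1 _ _
    · by_cases h2 : j = 2
      · subst h2
        simp only [tw_self two_ne_zero, tw_ne two_ne_zero (show (2:ℤ) ≠ 1 by norm_num)]
        exact Rel.slot2 _ _
      · simp only [tw_ne h0 h1, tw_ne h0 h2]
        exact Rel.triv

lemma Gl_tw (k : ℤ) (x : OFF) : Gl (tw k x) =
    Sc (x : Perm ℝ) * (HP ^ k * Sc (x : Perm ℝ) * (HP ^ k)⁻¹)⁻¹ := by
  rw [tw, map_mul, map_inv, Gl_single_zero, Gl_single]

/-- the generators of the enlarged group -/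
def genC (x : Option Gen) : GC := ⟨repC FP_FOK (FreeGroup.of x), ⟨_, rfl⟩⟩

lemma genC_coe (x : Option Gen) : ((genC x : GC) : Perm ℝ) = genMapC FP_FOK x := by
  change repC FP_FOK (FreeGroup.of x) = genMapC FP_FOK x
  rw [repC, FreeGroup.lift_apply_of]

/-- the twisted elements in the enlarged group -/
def twC (b : GC) (x : Gen) : GC := genC (some x) * (b * genC (some x) * b⁻¹)⁻¹

lemma twC_coe (k : ℤ) (x : Gen) :
    ((twC (genC none ^ k) x : GC) : Perm ℝ) = Gl (tw k (gN x)) := by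
  rw [Gl_tw, twC]
  simp only [Subgroup.coe_mul, Subgroup.coe_inv, Subgroup.coe_zpow, genC_coe]
  rfl

lemma comm_C {k : ℤ} (hk : k ≠ 0) (x : Gen) :
    Commute (genC (some x)) (genC none ^ k * genC (some x) * (genC none ^ k)⁻¹) := by
  apply Subtype.ext
  have h1 : Commute (Pi.mulSingle (M := fun _ : ℤ => OFF) 0 (gN x)) (Pi.mulSingle k (gN x)) :=
    Pi.mulSingle_commute hk.symm _ _
  have h2 := h1.map Gl
  rw [Gl_single_zero, Gl_single] at h2
  simp only [Subgroup.coe_mul, Subgroup.coe_inv, Subgroup.coe_zpow, genC_coe]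
  exact h2

lemma rel_C : Rel (twC (genC none ^ (2:ℤ)) Gen.s) (genC (some Gen.h))
    (twC (genC none ^ (1:ℤ)) Gen.H) (twC (genC none ^ (2:ℤ)) Gen.f)
    (fun i M => twC (genC none ^ (1:ℤ)) (Gen.g i M)) := by
  have R := tw_rel.map Gl
  rw [Gl_single_zero] at R
  have R' : Rel (Subgroup.subtype GC (twC (genC none ^ (2:ℤ)) Gen.s))
      (Subgroup.subtype GC (genC (some Gen.h)))
      (Subgroup.subtype GC (twC (genC none ^ (1:ℤ)) Gen.H))
      (Subgroup.subtype GC (twC (genC none ^ (2:ℤ)) Gen.f))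
      (fun i M => Subgroup.subtype GC (twC (genC none ^ (1:ℤ)) (Gen.g i M))) := by
    simp only [Subgroup.coe_subtype, twC_coe]
    exact R
  apply Rel.lift (Subgroup.subtype GC) (commute_of_inj (Subgroup.subtype_injective GC)) _ R'
  apply Subtype.ext
  exact R'.r1

lemma genC_h_ne : genC (some Gen.h) ≠ 1 := by
  intro h
  apply hP_one_ne
  apply Sc_inj
  have := congrArg Subtype.val h
  rw [genC_coe] at this
  rw [map_one]
  exact this

theorem GC_not_smoothI : ¬ EmbedsInfI GC := no_smooth_I rel_C genC_h_ne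

theorem GC_not_smoothC : ¬ EmbedsInfC GC :=
  no_smooth_C (b := genC none ^ (2:ℤ)) (c := genC none ^ (1:ℤ)) (comm_C two_ne_zero _)
    (comm_C two_ne_zero _) (comm_C one_ne_zero _) (fun i M => comm_C one_ne_zero _) rel_C genC_h_ne

theorem GC_embedsI (r : ℝ) (hr : 1 ≤ r) : EmbedsI r GC := by
  obtain ⟨σ, hσ⟩ := GC_embeds (⌊r⌋₊ + 1)
  exact ⟨(resH _).comp σ, (resH_inj _).comp hσ, fun g => resH_isDiff hr rfl (σ g)⟩

theorem GC_embedsC (r : ℝ) (hr : 1 ≤ r) : EmbedsC r GC := by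
  obtain ⟨σ, hσ⟩ := GC_embeds (⌊r⌋₊ + 1)
  exact ⟨(resC _).comp σ, (resC_inj _).comp hσ, fun g => resC_isDiff hr rfl (σ g)⟩

lemma sSup_top {P : ℝ → Prop} (hP : ∀ r : ℝ, 1 ≤ r → P r) :
    sSup {x : ENNReal | ∃ r : ℝ, 1 ≤ r ∧ P r ∧ x = ENNReal.ofReal r} = ⊤ := by
  rw [eq_top_iff]
  apply le_of_forall_lt
  intro c hc
  obtain ⟨n, hn⟩ := ENNReal.exists_nat_gt hc.ne
  apply lt_of_lt_of_le hn
  have h0 : (0:ℝ) ≤ n := Nat.cast_nonneg n
  have h1 : ((n : ℕ) : ENNReal) ≤ ENNReal.ofReal ((n : ℝ) + 1) := by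
    rw [← ENNReal.ofReal_natCast n]
    exact ENNReal.ofReal_le_ofReal (by linarith)
  exact h1.trans (le_sSup ⟨(n : ℝ) + 1, by linarith, hP _ (by linarith), rfl⟩)

end

/-- **Both manifolds.** -/
theorem both_result : ∃ (G : Type) (_ : Group G), Countable G ∧
    (critRegI G = ⊤ ∧ (∀ r : ℝ, 1 ≤ r → EmbedsI r G) ∧ ¬ EmbedsInfI G) ∧
    (critRegC G = ⊤ ∧ (∀ r : ℝ, 1 ≤ r → EmbedsC r G) ∧ ¬ EmbedsInfC G) :=
  ⟨GC, inferInstance, inferInstance,
    ⟨sSup_top GC_embedsI, GC_embedsI, GC_not_smoothI⟩,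
    ⟨sSup_top GC_embedsC, GC_embedsC, GC_not_smoothC⟩⟩

end Pool.Agent.Work.MP_4516ee_al
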